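import Mathlib

/-!
MP_fb225e_nt, EdgeFamilies, part 1: ring homomorphisms to prime fields.
-/

namespace Pool.Agent.MPfb225e.Fam

open scoped TensorProduct

universe u v

/-- Restriction along an injective ring homomorphism whose cokernel is killed by `N`, `p ∤ N`. -/
theorem comp_bijective {R : Type u} {B : Type v} [CommRing R] [CommRing B] {p : ℕ} [Fact p.Prime]
    (ψ : R →+* B) (hinj : Function.Injective ψ) {N : ℕ} (hN : ∀ b : B, ∃ r : R, ψ r = (N : B) * b)
    (hp : ¬ p ∣ N) :
    Function.Bijective (fun φ : B →+* ZMod p => φ.comp ψ) := by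
  have hNp : (N : ZMod p) ≠ 0 := by
    rw [Ne, ZMod.natCast_eq_zero_iff]
    exact hp
  constructor
  · intro φ φ' h
    ext b
    obtain ⟨r, hr⟩ := hN b
    have h1 := congrArg (fun f : R →+* ZMod p => f r) h
    simp only [RingHom.comp_apply, hr, map_mul, map_natCast] at h1
    exact mul_left_cancel₀ hNp h1
  · intro χ
    choose g hg using hN
    have hgadd : ∀ b b', g (b + b') = g b + g b' := fun b b' => hinj (by
      rw [map_add, hg, hg, hg]; ring)
    have hg0 : g 0 = 0 := hinj (by rw [hg, map_zero, mul_zero])
    have hg1 : g 1 = N := hinj (by rw [hg, map_natCast, mul_one])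
    have hgmul : ∀ b b', g b * g b' = N * g (b * b') := fun b b' => hinj (by
      rw [map_mul, map_mul, hg, hg, hg, map_natCast]; ring)
    refine ⟨{ toFun := fun b => (N : ZMod p)⁻¹ * χ (g b)
              map_one' := ?_
              map_mul' := ?_
              map_zero' := ?_
              map_add' := ?_ }, ?_⟩
    · rw [hg1, map_natCast, inv_mul_cancel₀ hNp]
    · intro b b'
      have h1 := congrArg χ (hgmul b b')
      rw [map_mul, map_mul, map_natCast] at h1
      field_simp
      rw [h1]
    · rw [hg0, map_zero, mul_zero]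
    · intro b b'
      rw [hgadd, map_add]; ring
    · ext r
      simp only [RingHom.comp_apply, RingHom.coe_mk, MonoidHom.coe_mk, OneHom.coe_mk]
      have h1 : g (ψ r) = N * r := hinj (by rw [hg, map_mul, map_natCast])
      rw [h1, map_mul, map_natCast, inv_mul_cancel_left₀ hNp]

theorem card_comp {R : Type u} {B : Type v} [CommRing R] [CommRing B] {p : ℕ} [Fact p.Prime]
    (ψ : R →+* B) (hinj : Function.Injective ψ) {N : ℕ} (hN : ∀ b : B, ∃ r : R, ψ r = (N : B) * b)
    (hp : ¬ p ∣ N) : Nat.card (B →+* ZMod p) = Nat.card (R →+* ZMod p) :=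
  Nat.card_congr (Equiv.ofBijective _ (comp_bijective ψ hinj hN hp))

/-- Homomorphisms from a finite product to a field. -/
theorem pi_bijective {ι : Type*} [Fintype ι] [DecidableEq ι] (B : ι → Type v)
    [∀ i, CommRing (B i)] (k : Type*) [Field k] :
    Function.Bijective (fun x : (Σ i, (B i →+* k)) =>
      (x.2.comp (Pi.evalRingHom B x.1) : (∀ i, B i) →+* k)) := by
  constructor
  · rintro ⟨i, φ⟩ ⟨j, φ'⟩ h
    simp only at h
    have hij : i = j := by
      by_contra hij
      have h1 := congrArg (fun f : (∀ i, B i) →+* k => f (Pi.single i 1)) h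
      simp [Ne.symm hij] at h1
    subst hij
    congr 1
    ext b
    have h1 := congrArg (fun f : (∀ i, B i) →+* k => f (Pi.single i b)) h
    simpa using h1
  · intro χ
    have hsum : ∑ i, χ (Pi.single i 1) = 1 := by
      rw [← map_sum, ← map_one χ]
      congr 1
      ext j
      simp [Finset.sum_apply]
    obtain ⟨i, hi⟩ : ∃ i, χ (Pi.single i 1) ≠ 0 := by
      by_contra h
      push Not at h
      simp [h] at hsum
    have hi1 : χ (Pi.single i 1) = 1 := by
      have h1 : χ (Pi.single i 1) * χ (Pi.single i 1) = χ (Pi.single i 1) := by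
        rw [← map_mul, ← Pi.single_mul, mul_one]
      exact mul_left_cancel₀ hi (by rw [h1, mul_one])
    refine ⟨⟨i, { toFun := fun b => χ (Pi.single i b)
                  map_one' := hi1
                  map_mul' := fun b b' => by rw [Pi.single_mul, map_mul]
                  map_zero' := by rw [Pi.single_zero, map_zero]
                  map_add' := fun b b' => by rw [Pi.single_add, map_add] }⟩, ?_⟩
    refine RingHom.ext fun b => ?_
    simp only [RingHom.comp_apply, Pi.evalRingHom_apply, RingHom.coe_mk, MonoidHom.coe_mk,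
      OneHom.coe_mk]
    have h2 : Pi.single i (b i) = b * Pi.single i 1 := by
      ext j
      by_cases h : j = i
      · subst h; simp
      · simp [h]
    rw [h2, map_mul, hi1, mul_one]

theorem card_pi {ι : Type*} [Fintype ι] (B : ι → Type v)
    [∀ i, CommRing (B i)] (k : Type*) [Field k] [∀ i, Finite (B i →+* k)] :
    Nat.card ((∀ i, B i) →+* k) = ∑ i, Nat.card (B i →+* k) := by
  classical
  rw [← Nat.card_congr (Equiv.ofBijective _ (pi_bijective B k)), Nat.card_sigma]

/-- Homomorphisms from a tensor product over `ℤ`. -/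
theorem card_tensor (R S : Type*) [CommRing R] [CommRing S] (k : Type*) [CommRing k] :
    Nat.card (R ⊗[ℤ] S →+* k) = Nat.card (R →+* k) * Nat.card (S →+* k) := by
  rw [← Nat.card_prod]
  refine Nat.card_congr
    { toFun := fun χ => (χ.comp
          (Algebra.TensorProduct.includeLeft (R := ℤ) (S := ℤ) (A := R) (B := S)).toRingHom,
        χ.comp (Algebra.TensorProduct.includeRight (R := ℤ) (A := R) (B := S)).toRingHom)
      invFun := fun x => (Algebra.TensorProduct.lift (x.1.toIntAlgHom) (x.2.toIntAlgHom)
        (fun _ _ => Commute.all _ _)).toRingHom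
      left_inv := ?_
      right_inv := ?_ }
  · intro χ
    refine RingHom.ext fun z => ?_
    induction z using TensorProduct.induction_on with
    | zero => rw [map_zero, map_zero]
    | tmul x y =>
      have h1 : (Algebra.TensorProduct.lift
        (χ.comp (Algebra.TensorProduct.includeLeft (R := ℤ) (S := ℤ) (A := R) (B := S)).toRingHom).toIntAlgHom
        (χ.comp (Algebra.TensorProduct.includeRight (R := ℤ) (A := R) (B := S)).toRingHom).toIntAlgHom
        (fun _ _ => Commute.all _ _)) (x ⊗ₜ[ℤ] y) = χ (x ⊗ₜ 1) * χ (1 ⊗ₜ y) := by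
        rw [Algebra.TensorProduct.lift_tmul]
        rfl
      have h2 : (x ⊗ₜ[ℤ] y) = (x ⊗ₜ 1) * (1 ⊗ₜ y) := by simp
      exact h1.trans (by rw [← map_mul, ← h2])
    | add x y hx hy => rw [map_add, map_add, hx, hy]
  · rintro ⟨f, g⟩
    ext x
    · simp
    · simp

end Pool.Agent.MPfb225e.Fam
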