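import Mathlib
import Pool.Agent.Lib.MP_fb225e_nt.Fam.Homs

/-!
MP_fb225e_nt, EdgeFamilies, part 2: the number of primes of degree one of the factors of
`K ⊗ L`.
-/

namespace Pool.Agent.MPfb225e.Fam

open scoped TensorProduct
open NumberField Module

universe u

/-- The number of ring homomorphisms `𝓞 K → ℤ/p`, i.e. of primes of norm `p`. -/
noncomputable def homCount (K : Type u) [Field K] (p : ℕ) : ℕ :=
  Nat.card (𝓞 K →+* ZMod p)

variable (K L : Type u) [Field K] [NumberField K] [Field L] [NumberField L]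

/-- The simple factors of `K ⊗ L`. -/
abbrev Fac (I : MaximalSpectrum (K ⊗[ℚ] L)) : Type u := (K ⊗[ℚ] L) ⧸ I.asIdeal

noncomputable instance (I : MaximalSpectrum (K ⊗[ℚ] L)) : Field (Fac K L I) :=
  Ideal.Quotient.field I.asIdeal

instance (I : MaximalSpectrum (K ⊗[ℚ] L)) : NumberField (Fac K L I) :=
  have : Module.Finite ℚ (Fac K L I) := inferInstance
  NumberField.of_module_finite ℚ (Fac K L I)

instance : IsArtinianRing (K ⊗[ℚ] L) := IsArtinianRing.of_finite ℚ _

instance : IsReduced (K ⊗[ℚ] L) := by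
  have h1 : Algebra.FormallyUnramified ℚ K := Algebra.FormallyUnramified.of_isSeparable ℚ K
  have h2 : Algebra.FormallyUnramified ℚ L := Algebra.FormallyUnramified.of_isSeparable ℚ L
  have h3 : Algebra.FormallyUnramified K (K ⊗[ℚ] L) := inferInstance
  have h4 : Algebra.FormallyUnramified ℚ (K ⊗[ℚ] L) := Algebra.FormallyUnramified.comp ℚ K _
  exact Algebra.FormallyUnramified.isReduced_of_field ℚ (K ⊗[ℚ] L)

noncomputable instance : Fintype (MaximalSpectrum (K ⊗[ℚ] L)) := Fintype.ofFinite _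

/-- Homomorphisms from a tensor product over `ℤ`. -/
noncomputable def liftInt {R S T : Type*} [CommRing R] [CommRing S] [CommRing T] (f : R →+* T)
    (g : S →+* T) : R ⊗[ℤ] S →+* T :=
  (Algebra.TensorProduct.lift f.toIntAlgHom g.toIntAlgHom (fun _ _ => Commute.all _ _)).toRingHom

theorem liftInt_tmul {R S T : Type*} [CommRing R] [CommRing S] [CommRing T] (f : R →+* T)
    (g : S →+* T) (x : R) (y : S) : liftInt f g (x ⊗ₜ y) = f x * g y :=
  Algebra.TensorProduct.lift_tmul _ _ _ _ _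

/-- The natural map `𝓞 K ⊗ 𝓞 L → K ⊗ L`. -/
noncomputable def nu : 𝓞 K ⊗[ℤ] 𝓞 L →+* K ⊗[ℚ] L :=
  liftInt
    ((Algebra.TensorProduct.includeLeft (R := ℚ) (S := ℚ) (A := K) (B := L)).toRingHom.comp
      (algebraMap (𝓞 K) K))
    ((Algebra.TensorProduct.includeRight (R := ℚ) (A := K) (B := L)).toRingHom.comp
      (algebraMap (𝓞 L) L))

theorem nu_tmul (x : 𝓞 K) (y : 𝓞 L) : nu K L (x ⊗ₜ y) = (x : K) ⊗ₜ (y : L) := by
  unfold nu
  rw [liftInt_tmul]
  change ((x : K) ⊗ₜ[ℚ] (1 : L)) * ((1 : K) ⊗ₜ[ℚ] (y : L)) = _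
  simp

/-- The natural map to the maximal order of a factor. -/
noncomputable def psiI (I : MaximalSpectrum (K ⊗[ℚ] L)) : 𝓞 K ⊗[ℤ] 𝓞 L →+* 𝓞 (Fac K L I) :=
  liftInt
    (RingOfIntegers.mapRingHom ((Ideal.Quotient.mk I.asIdeal).comp
      (Algebra.TensorProduct.includeLeft (R := ℚ) (S := ℚ) (A := K) (B := L)).toRingHom))
    (RingOfIntegers.mapRingHom ((Ideal.Quotient.mk I.asIdeal).comp
      (Algebra.TensorProduct.includeRight (R := ℚ) (A := K) (B := L)).toRingHom))

theorem psiI_coe (I : MaximalSpectrum (K ⊗[ℚ] L)) (z : 𝓞 K ⊗[ℤ] 𝓞 L) :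
    ((psiI K L I z : 𝓞 (Fac K L I)) : Fac K L I) = Ideal.Quotient.mk I.asIdeal (nu K L z) := by
  induction z using TensorProduct.induction_on with
  | zero => simp
  | tmul x y =>
    rw [nu_tmul]
    unfold psiI
    rw [liftInt_tmul]
    change Ideal.Quotient.mk I.asIdeal ((x : K) ⊗ₜ[ℚ] (1 : L)) *
      Ideal.Quotient.mk I.asIdeal ((1 : K) ⊗ₜ[ℚ] (y : L)) = _
    rw [← map_mul]
    simp
  | add x y hx hy =>
    rw [map_add, map_add, map_add, ← hx, ← hy]
    rfl

/-- The natural map to the product of the maximal orders of the factors. -/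
noncomputable def psi : 𝓞 K ⊗[ℤ] 𝓞 L →+* (∀ I : MaximalSpectrum (K ⊗[ℚ] L), 𝓞 (Fac K L I)) :=
  RingHom.pi fun I => psiI K L I

theorem psi_apply (z : 𝓞 K ⊗[ℤ] 𝓞 L) (I : MaximalSpectrum (K ⊗[ℚ] L)) :
    psi K L z I = psiI K L I z := rfl

/-- coordinates -/
theorem repr_nu (z : 𝓞 K ⊗[ℤ] 𝓞 L)
    (ij : Free.ChooseBasisIndex ℤ (𝓞 K) × Free.ChooseBasisIndex ℤ (𝓞 L)) :
    ((integralBasis K).tensorProduct (integralBasis L)).repr (nu K L z) ij =
      ((((RingOfIntegers.basis K).tensorProduct (RingOfIntegers.basis L)).repr z ij : ℤ) : ℚ) := by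
  set B1 := (RingOfIntegers.basis K).tensorProduct (RingOfIntegers.basis L) with hB1
  set B2 := (integralBasis K).tensorProduct (integralBasis L) with hB2
  have hb : ∀ k, nu K L (B1 k) = B2 k := by
    rintro ⟨k, l⟩
    rw [hB1, hB2, Basis.tensorProduct_apply, Basis.tensorProduct_apply, nu_tmul,
      integralBasis_apply, integralBasis_apply]
  have hz : nu K L z = ∑ k, (B1.repr z k : ℚ) • B2 k := by
    conv_lhs => rw [← B1.sum_repr z]
    rw [map_sum]
    refine Finset.sum_congr rfl fun k _ => ?_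
    rw [map_zsmul, hb]
    exact (Int.cast_smul_eq_zsmul ℚ _ _).symm
  rw [hz, map_sum, Finsupp.finsetSum_apply]
  simp [Finsupp.single_apply]

theorem nu_injective : Function.Injective (nu K L) := by
  rw [injective_iff_map_eq_zero]
  intro z hz
  have h := fun ij => repr_nu K L z ij
  rw [hz] at h
  apply ((RingOfIntegers.basis K).tensorProduct (RingOfIntegers.basis L)).repr.injective
  ext ij
  have := h ij
  rw [map_zero, Finsupp.zero_apply] at this
  rw [map_zero, Finsupp.zero_apply]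
  exact_mod_cast this.symm

theorem nu_denom (a : K ⊗[ℚ] L) : ∃ n : ℤ, n ≠ 0 ∧ ∃ z, nu K L z = n • a := by
  set B1 := (RingOfIntegers.basis K).tensorProduct (RingOfIntegers.basis L) with hB1
  set B2 := (integralBasis K).tensorProduct (integralBasis L) with hB2
  obtain ⟨b, hb⟩ := IsLocalization.exist_integer_multiples_of_finite (nonZeroDivisors ℤ)
    (fun k => B2.repr a k)
  choose w hw using hb
  refine ⟨b, nonZeroDivisors.ne_zero b.2, ∑ k, w k • B1 k, ?_⟩
  apply B2.repr.injective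
  ext ij
  rw [repr_nu, map_zsmul]
  have h1 : B1.repr (∑ k, w k • B1 k) ij = w ij := by
    rw [Basis.repr_sum_self]
  rw [h1]
  have h2 := hw ij
  simp only [algebraMap_int_eq, eq_intCast] at h2
  rw [h2]
  rfl

theorem psi_injective : Function.Injective (psi K L) := by
  rw [injective_iff_map_eq_zero]
  intro z hz
  apply nu_injective K L
  rw [map_zero]
  apply (IsArtinianRing.equivPi (K ⊗[ℚ] L)).injective
  rw [map_zero]
  funext I
  rw [IsArtinianRing.equivPi_apply, Pi.zero_apply]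
  have h1 := congrFun hz I
  rw [psi_apply, Pi.zero_apply] at h1
  have h2 := psiI_coe K L I z
  rw [h1] at h2
  exact h2.symm

theorem psi_denom : ∃ N : ℕ, N ≠ 0 ∧
    ∀ b : (∀ I : MaximalSpectrum (K ⊗[ℚ] L), 𝓞 (Fac K L I)), ∃ z, psi K L z = (N : _) * b := by
  classical
  have h1 : ∀ b : (∀ I : MaximalSpectrum (K ⊗[ℚ] L), 𝓞 (Fac K L I)),
      ∃ n : ℤ, n ≠ 0 ∧ ∃ z, psi K L z = n • b := by
    intro b
    obtain ⟨n, hn, z, hz⟩ := nu_denom K L
      ((IsArtinianRing.equivPi (K ⊗[ℚ] L)).symm fun I => ((b I : 𝓞 (Fac K L I)) : Fac K L I))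
    refine ⟨n, hn, z, ?_⟩
    funext I
    rw [psi_apply]
    apply RingOfIntegers.ext
    rw [psiI_coe, hz, map_zsmul]
    have h2 : (Ideal.Quotient.mk I.asIdeal) ((IsArtinianRing.equivPi (K ⊗[ℚ] L)).symm
        fun I => ((b I : 𝓞 (Fac K L I)) : Fac K L I)) = ((b I : 𝓞 (Fac K L I)) : Fac K L I) := by
      have := congrFun ((IsArtinianRing.equivPi (K ⊗[ℚ] L)).apply_symm_apply
        fun I => ((b I : 𝓞 (Fac K L I)) : Fac K L I)) I
      rw [IsArtinianRing.equivPi_apply] at this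
      exact this
    rw [h2]
    simp
  have hfin : Module.Finite ℤ (∀ I : MaximalSpectrum (K ⊗[ℚ] L), 𝓞 (Fac K L I)) := inferInstance
  obtain ⟨S, hS⟩ := hfin.fg_top
  choose n hn z hz using h1
  refine ⟨(∏ s ∈ S, n s).natAbs, ?_, ?_⟩
  · rw [Int.natAbs_ne_zero]
    exact Finset.prod_ne_zero_iff.2 fun s _ => hn s
  · intro b
    have hb : b ∈ Submodule.span ℤ (S : Set (∀ I : MaximalSpectrum (K ⊗[ℚ] L), 𝓞 (Fac K L I))) := by
      rw [hS]; trivial
    have h3 : ∃ y, psi K L y = ((∏ s ∈ S, n s) : ℤ) • b := by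
      induction hb using Submodule.span_induction with
      | mem s hs =>
        refine ⟨(∏ t ∈ S.erase s, n t) • z s, ?_⟩
        rw [map_zsmul, hz, smul_smul, mul_comm, Finset.mul_prod_erase S n (Finset.mem_coe.1 hs)]
      | zero => exact ⟨0, by rw [map_zero, smul_zero]⟩
      | add x y _ _ hx hy =>
        obtain ⟨u, hu⟩ := hx
        obtain ⟨v, hv⟩ := hy
        exact ⟨u + v, by rw [map_add, hu, hv, smul_add]⟩
      | smul c x _ hx =>
        obtain ⟨u, hu⟩ := hx
        exact ⟨c • u, by rw [map_zsmul, hu, smul_comm]⟩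
    obtain ⟨y, hy⟩ := h3
    rcases Int.natAbs_eq (∏ s ∈ S, n s) with h | h
    · refine ⟨y, ?_⟩
      rw [hy, ← Int.cast_natCast, ← h]
      simp
    · refine ⟨-y, ?_⟩
      have h4 : (((∏ s ∈ S, n s).natAbs : ℕ) : ℤ) = -(∏ s ∈ S, n s) := by omega
      rw [map_neg, hy, ← Int.cast_natCast, h4]
      simp

instance finite_homs (p : ℕ) [Fact p.Prime] : Finite (𝓞 K →+* ZMod p) := by
  have hfin : Module.Finite ℤ (𝓞 K) := inferInstance
  obtain ⟨S, hS⟩ := hfin.fg_top
  refine Finite.of_injective (fun φ : 𝓞 K →+* ZMod p => fun s : S => φ s.1) ?_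
  intro φ φ' h
  ext x
  have hx : x ∈ Submodule.span ℤ (S : Set (𝓞 K)) := by rw [hS]; trivial
  induction hx using Submodule.span_induction with
  | mem s hs => exact congrFun h ⟨s, hs⟩
  | zero => rw [map_zero, map_zero]
  | add x y _ _ hx hy => rw [map_add, map_add, hx, hy]
  | smul c x _ hx => rw [map_zsmul, map_zsmul, hx]

/-- **Multiplicativity** of the number of primes of degree one. -/
theorem homCount_mul : ∃ N : ℕ, N ≠ 0 ∧ ∀ p : ℕ, p.Prime → ¬ p ∣ N →
    homCount K p * homCount L p = ∑ I : MaximalSpectrum (K ⊗[ℚ] L), homCount (Fac K L I) p := by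
  obtain ⟨N, hN, h⟩ := psi_denom K L
  refine ⟨N, hN, fun p hp hpN => ?_⟩
  have : Fact p.Prime := ⟨hp⟩
  have h1 := card_comp (psi K L) (psi_injective K L) h hpN
  rw [card_pi, card_tensor] at h1
  exact h1.symm

end Pool.Agent.MPfb225e.Fam
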