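import Mathlib
import Pool.Agent.Lib.MP_fb225e_nt.Curve
import Pool.Agent.Lib.MP_fb225e_nt.Fam.Tensor

/-!
MP_fb225e_nt, EdgeFamilies, part 3: from sums over places to sums over rational primes.
-/

namespace Pool.Agent.MPfb225e.Fam

open NumberField IsDedekindDomain Module Filter Topology Curve

universe u

variable {K : Type u} [Field K] [NumberField K]

/-- abbreviation for the norm as a natural number -/
noncomputable abbrev N (v : HeightOneSpectrum (𝓞 K)) : ℕ := Ideal.absNorm v.asIdeal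

theorem one_lt_N (v : HeightOneSpectrum (𝓞 K)) : 1 < N v :=
  NumberField.HeightOneSpectrum.one_lt_absNorm v

theorem finite_fiber (n : ℕ) : Finite {v : HeightOneSpectrum (𝓞 K) // N v = n} := by
  have h := (northcott_qv (K := K)).finite_le n
  refine Set.Finite.to_subtype (s := {v | N v = n}) (h.subset ?_)
  intro v hv
  rw [Set.mem_ofPred_eq] at hv ⊢
  rw [qv_eq, ← hv]

/-- Places of norm `p` and homomorphisms to `ℤ/p`. -/
theorem card_fiber {p : ℕ} (hp : p.Prime) :
    Nat.card {v : HeightOneSpectrum (𝓞 K) // N v = p} = homCount K p := by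
  have : Fact p.Prime := ⟨hp⟩
  have hsurj : ∀ φ : 𝓞 K →+* ZMod p, Function.Surjective φ := fun φ y => by
    obtain ⟨z, rfl⟩ := ZMod.intCast_surjective y
    exact ⟨z, map_intCast φ z⟩
  have hcard : ∀ φ : 𝓞 K →+* ZMod p, Ideal.absNorm (RingHom.ker φ) = p := fun φ => by
    rw [Ideal.absNorm_apply, Submodule.cardQuot_apply]
    have e := RingHom.quotientKerEquivOfSurjective (hsurj φ)
    exact (Nat.card_congr e.toEquiv).trans (by rw [Nat.card_zmod])
  have hmax : ∀ φ : 𝓞 K →+* ZMod p, (RingHom.ker φ).IsMaximal := fun φ =>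
    RingHom.ker_isMaximal_of_surjective φ (hsurj φ)
  have hne : ∀ φ : 𝓞 K →+* ZMod p, RingHom.ker φ ≠ ⊥ := fun φ h => by
    have := hcard φ
    rw [h, Ideal.absNorm_bot] at this
    exact hp.ne_zero this.symm
  symm
  unfold homCount
  refine Nat.card_congr (Equiv.ofBijective (fun φ : 𝓞 K →+* ZMod p =>
    (⟨⟨RingHom.ker φ, (hmax φ).isPrime, hne φ⟩, hcard φ⟩ :
      {v : HeightOneSpectrum (𝓞 K) // N v = p})) ⟨?_, ?_⟩)
  · intro φ φ' h
    have hker : RingHom.ker φ = RingHom.ker φ' := by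
      have := congrArg (fun v : {v : HeightOneSpectrum (𝓞 K) // N v = p} => v.1.asIdeal) h
      exact this
    ext x
    obtain ⟨z, hz⟩ := ZMod.intCast_surjective (φ x)
    have h1 : x - z ∈ RingHom.ker φ := by
      rw [RingHom.mem_ker, map_sub, map_intCast, hz, sub_self]
    rw [hker, RingHom.mem_ker, map_sub, map_intCast, sub_eq_zero] at h1
    rw [h1, hz]
  · rintro ⟨v, hv⟩
    have hc : Nat.card (𝓞 K ⧸ v.asIdeal) = p := by
      rw [← hv]
      unfold N
      rw [Ideal.absNorm_apply, Submodule.cardQuot_apply]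
    have hfin : Finite (𝓞 K ⧸ v.asIdeal) := Nat.finite_of_card_ne_zero (by rw [hc]; exact hp.ne_zero)
    have := Fintype.ofFinite (𝓞 K ⧸ v.asIdeal)
    let _ : Field (𝓞 K ⧸ v.asIdeal) := Ideal.Quotient.field v.asIdeal
    have hc' : Fintype.card (𝓞 K ⧸ v.asIdeal) = Fintype.card (ZMod p) := by
      rw [ZMod.card, ← hc, Nat.card_eq_fintype_card]
    let e : (𝓞 K ⧸ v.asIdeal) ≃+* ZMod p := FiniteField.ringEquivOfCardEq hc'
    refine ⟨e.toRingHom.comp (Ideal.Quotient.mk v.asIdeal), ?_⟩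
    apply Subtype.ext
    apply HeightOneSpectrum.ext
    ext x
    change x ∈ RingHom.ker (e.toRingHom.comp (Ideal.Quotient.mk v.asIdeal)) ↔ x ∈ v.asIdeal
    rw [RingHom.mem_ker, RingHom.comp_apply]
    change e _ = 0 ↔ _
    rw [EmbeddingLike.map_eq_zero_iff, Ideal.Quotient.eq_zero_iff_mem]

theorem isPrimePow_N (v : HeightOneSpectrum (𝓞 K)) : IsPrimePow (N v) := by
  have hc : Nat.card (𝓞 K ⧸ v.asIdeal) = N v := by
    unfold N
    rw [Ideal.absNorm_apply, Submodule.cardQuot_apply]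
  have h1 := one_lt_N v
  have hfin : Finite (𝓞 K ⧸ v.asIdeal) := Nat.finite_of_card_ne_zero (by rw [hc]; omega)
  have := Fintype.ofFinite (𝓞 K ⧸ v.asIdeal)
  let _ : Field (𝓞 K ⧸ v.asIdeal) := Ideal.Quotient.field v.asIdeal
  rw [← hc, Nat.card_eq_fintype_card]
  exact FiniteField.isPrimePow_card _

theorem minFac_mem (v : HeightOneSpectrum (𝓞 K)) : (((N v).minFac : ℕ) : 𝓞 K) ∈ v.asIdeal := by
  have h1 : ((N v : ℕ) : 𝓞 K) ∈ v.asIdeal := Ideal.absNorm_mem v.asIdeal
  obtain ⟨p, k, hp, hk, hpk⟩ := (isPrimePow_nat_iff _).1 (isPrimePow_N v)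
  have h2 : (N v).minFac = p := by rw [← hpk]; exact hp.pow_minFac hk.ne'
  rw [h2]
  rw [← hpk, Nat.cast_pow] at h1
  exact v.isPrime.mem_of_pow_mem _ h1

theorem sq_minFac_le (v : HeightOneSpectrum (𝓞 K)) (hv : ¬ (N v).Prime) :
    (N v).minFac ^ 2 ≤ N v := by
  obtain ⟨p, k, hp, hk, hpk⟩ := (isPrimePow_nat_iff _).1 (isPrimePow_N v)
  have h2 : (N v).minFac = p := by rw [← hpk]; exact hp.pow_minFac hk.ne'
  rw [h2]
  have hk2 : 2 ≤ k := by
    by_contra h
    have : k = 1 := by omega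
    rw [this, pow_one] at hpk
    exact hv (hpk ▸ hp)
  calc p ^ 2 ≤ p ^ k := Nat.pow_le_pow_right hp.pos hk2
    _ = N v := hpk

/-- at most `[K : ℚ]` places above `p` -/
theorem card_above_le {p : ℕ} (hp : p.Prime) (V : Finset (HeightOneSpectrum (𝓞 K)))
    (hV : ∀ v ∈ V, (N v).minFac = p) : V.card ≤ finrank ℤ (𝓞 K) := by
  classical
  have h1 : (∏ v ∈ V, v.asIdeal) ∣ Ideal.span {((p : ℕ) : 𝓞 K)} := by
    have h2 := Finset.prod_primes_dvd (s := V.image fun v => v.asIdeal)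
      (Ideal.span {((p : ℕ) : 𝓞 K)}) ?_ ?_
    · rwa [Finset.prod_image] at h2
      intro v _ w _ h
      exact HeightOneSpectrum.ext h
    · intro I hI
      obtain ⟨v, -, rfl⟩ := Finset.mem_image.1 hI
      exact v.prime
    · intro I hI
      obtain ⟨v, hv, rfl⟩ := Finset.mem_image.1 hI
      rw [Ideal.dvd_iff_le, Ideal.span_singleton_le_iff_mem, ← hV v hv]
      exact minFac_mem v
  have h3 := map_dvd (Ideal.absNorm (S := 𝓞 K)) h1
  rw [map_prod, Ideal.absNorm_span_natCast] at h3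
  have h4 : p ^ V.card ≤ ∏ v ∈ V, Ideal.absNorm v.asIdeal := by
    rw [← Finset.prod_const]
    refine Finset.prod_le_prod' fun v hv => ?_
    rw [← hV v hv]
    exact Nat.minFac_le (by have := one_lt_N v; omega)
  have h5 := Nat.le_of_dvd (pow_pos hp.pos _) h3
  exact (Nat.pow_le_pow_iff_right hp.one_lt).1 (h4.trans h5)

theorem summable_nonprime : Summable fun v : HeightOneSpectrum (𝓞 K) =>
    if (N v).Prime then (0 : ℝ) else ((N v : ℕ) : ℝ)⁻¹ := by
  classical
  have hs : Summable fun n : ℕ => (finrank ℤ (𝓞 K) : ℝ) * ((n : ℝ) ^ 2)⁻¹ :=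
    (Real.summable_nat_pow_inv.2 (by norm_num)).mul_left _
  refine summable_of_sum_le (c := ∑' n : ℕ, (finrank ℤ (𝓞 K) : ℝ) * ((n : ℝ) ^ 2)⁻¹)
    (fun v => by split_ifs <;> positivity) fun V => ?_
  calc ∑ v ∈ V, (if (N v).Prime then (0 : ℝ) else ((N v : ℕ) : ℝ)⁻¹)
      ≤ ∑ v ∈ V, (((N v).minFac : ℝ) ^ 2)⁻¹ := by
        refine Finset.sum_le_sum fun v _ => ?_
        split_ifs with h
        · positivity
        · have h1 := sq_minFac_le v h
          have h2 : (0 : ℝ) < ((N v).minFac : ℝ) ^ 2 := by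
            have := Nat.minFac_pos (N v)
            positivity
          exact inv_anti₀ h2 (by exact_mod_cast h1)
    _ = ∑ p ∈ V.image (fun v => (N v).minFac),
        ((V.filter fun v => (N v).minFac = p).card : ℝ) * ((p : ℝ) ^ 2)⁻¹ := by
        rw [Finset.sum_comp (fun p : ℕ => ((p : ℝ) ^ 2)⁻¹) fun v => (N v).minFac]
        simp only [nsmul_eq_mul]
    _ ≤ ∑ p ∈ V.image (fun v => (N v).minFac), (finrank ℤ (𝓞 K) : ℝ) * ((p : ℝ) ^ 2)⁻¹ := by
        refine Finset.sum_le_sum fun p hp => ?_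
        obtain ⟨v, -, rfl⟩ := Finset.mem_image.1 hp
        refine mul_le_mul_of_nonneg_right ?_ (by positivity)
        have h1 := one_lt_N v
        exact_mod_cast card_above_le (Nat.minFac_prime (by omega)) _
          fun w hw => (Finset.mem_filter.1 hw).2
    _ ≤ _ := hs.sum_le_tsum _ fun _ _ => by positivity

/-! ### Sums over rational primes -/

/-- `∑_p f(p) p^{-1-ε} cos(t log p)` -/
noncomputable def S (f : ℕ → ℝ) (t ε : ℝ) : ℝ :=
  ∑' p : Nat.Primes, f p * ((p : ℝ) ^ (-(1 + ε)) * Real.cos (t * Real.log p))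

/-- the weight at a place -/
noncomputable def wt (t ε : ℝ) (n : ℕ) : ℝ := (n : ℝ) ^ (-(1 + ε)) * Real.cos (t * Real.log n)

theorem abs_wt_le (t ε : ℝ) (n : ℕ) : |wt t ε n| ≤ (n : ℝ) ^ (-(1 + ε)) := by
  unfold wt
  rw [abs_mul, abs_of_nonneg (Real.rpow_nonneg (by positivity) _)]
  exact mul_le_of_le_one_right (Real.rpow_nonneg (by positivity) _) (Real.abs_cos_le_one _)

theorem abs_wt_le_inv (t : ℝ) {ε : ℝ} (hε : 0 ≤ ε) {n : ℕ} (hn : 1 ≤ n) :
    |wt t ε n| ≤ (n : ℝ)⁻¹ := by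
  refine (abs_wt_le t ε n).trans ?_
  rw [← Real.rpow_neg_one]
  exact Real.rpow_le_rpow_of_exponent_le (by exact_mod_cast hn) (by linarith)

theorem nrm_eq_N (v : HeightOneSpectrum (𝓞 K)) : nrm v = (N v : ℝ) := rfl

/-- the sum over the places of prime norm -/
theorem sum_fibers (hsum : ∀ σ : ℝ, 1 < σ → Summable fun v : HeightOneSpectrum (𝓞 K) => nrm v ^ (-σ))
    (y : ℕ → ℝ) (C : ℝ) (hy : ∀ n, |y n| ≤ C) (t : ℝ) {ε : ℝ} (hε : 0 < ε) :
    (∑' v : HeightOneSpectrum (𝓞 K), (if (N v).Prime then y (N v) else 0) * wt t ε (N v)) =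
      S (fun p => y p * homCount K p) t ε := by
  classical
  set g : ℕ → ℝ := fun n => (if n.Prime then y n else 0) * wt t ε n with hg
  have hC : 0 ≤ C := (abs_nonneg _).trans (hy 0)
  have hgb : ∀ n, |g n| ≤ C * (n : ℝ) ^ (-(1 + ε)) := by
    intro n
    rw [hg]
    simp only
    rw [abs_mul]
    refine mul_le_mul ?_ (abs_wt_le t ε n) (abs_nonneg _) hC
    split_ifs
    · exact hy n
    · simpa using hC
  have hs : Summable fun v : HeightOneSpectrum (𝓞 K) => g (N v) := by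
    refine Summable.of_norm_bounded ((hsum (1 + ε) (by linarith)).mul_left C) fun v => ?_
    rw [Real.norm_eq_abs, nrm_eq_N]
    exact hgb _
  have hfin := fun n => finite_fiber (K := K) n
  let e := Equiv.sigmaFiberEquiv (fun v : HeightOneSpectrum (𝓞 K) => N v)
  have hs' : Summable fun x : (Σ n : ℕ, {v : HeightOneSpectrum (𝓞 K) // N v = n}) => g (N (e x)) :=
    e.summable_iff.2 hs
  have h1 : ∑' v : HeightOneSpectrum (𝓞 K), g (N v) =
      ∑' n : ℕ, ∑' v : {v : HeightOneSpectrum (𝓞 K) // N v = n}, g (N v.1) := by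
    rw [← e.tsum_eq]
    exact hs'.tsum_sigma
  have h2 : ∀ n : ℕ, ∑' v : {v : HeightOneSpectrum (𝓞 K) // N v = n}, g (N v.1) =
      (if n.Prime then y n * homCount K n else 0) * wt t ε n := by
    intro n
    have := hfin n
    have := Fintype.ofFinite {v : HeightOneSpectrum (𝓞 K) // N v = n}
    have h3 : ∀ v : {v : HeightOneSpectrum (𝓞 K) // N v = n}, g (N v.1) = g n := fun v => by
      rw [v.2]
    rw [tsum_fintype, Finset.sum_congr rfl fun v _ => h3 v, Finset.sum_const, Finset.card_univ,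
      ← Nat.card_eq_fintype_card, nsmul_eq_mul, hg]
    simp only
    split_ifs with hn
    · rw [card_fiber hn]; ring
    · ring
  rw [h1, tsum_congr h2]
  unfold S
  have h4 : Function.support (fun n : ℕ => (if n.Prime then y n * homCount K n else 0) *
      wt t ε n) ⊆ {n : ℕ | n.Prime} := by
    intro n hn
    by_contra h
    rw [Set.mem_ofPred_eq] at h
    apply hn
    simp [h]
  rw [← tsum_subtype_eq_of_support_subset h4]
  refine tsum_congr fun p => ?_
  have hp : (p : ℕ).Prime := p.2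
  rw [if_pos hp]
  rfl

/-- comparison of the sum over places with the sum over rational primes -/
theorem compare (hsum : ∀ σ : ℝ, 1 < σ → Summable fun v : HeightOneSpectrum (𝓞 K) => nrm v ^ (-σ))
    (x : HeightOneSpectrum (𝓞 K) → ℝ) (C : ℝ) (hx : ∀ v, |x v| ≤ C)
    (y : ℕ → ℝ) (hy : ∀ n, |y n| ≤ C)
    (hfin : {v : HeightOneSpectrum (𝓞 K) | (N v).Prime ∧ x v ≠ y (N v)}.Finite) :
    ∃ B : ℝ, ∀ t ε : ℝ, 0 < ε → |cosSum x t ε - S (fun p => y p * homCount K p) t ε| ≤ B := by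
  classical
  have hC : 0 ≤ C := (abs_nonneg _).trans (hy 0)
  set E := {v : HeightOneSpectrum (𝓞 K) | (N v).Prime ∧ x v ≠ y (N v)} with hE
  have hs1 : Summable fun v : HeightOneSpectrum (𝓞 K) =>
      C * (if (N v).Prime then (0 : ℝ) else ((N v : ℕ) : ℝ)⁻¹) := summable_nonprime.mul_left C
  have hs2 : Summable fun v : HeightOneSpectrum (𝓞 K) =>
      (if v ∈ E then 2 * C * ((N v : ℕ) : ℝ)⁻¹ else 0) := by
    refine summable_of_ne_finset_zero (s := hfin.toFinset) fun v hv => ?_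
    rw [Set.Finite.mem_toFinset] at hv
    rw [if_neg hv]
  refine ⟨∑' v : HeightOneSpectrum (𝓞 K), (C * (if (N v).Prime then (0 : ℝ) else ((N v : ℕ) : ℝ)⁻¹) +
    (if v ∈ E then 2 * C * ((N v : ℕ) : ℝ)⁻¹ else 0)), fun t ε hε => ?_⟩
  rw [← sum_fibers hsum y C hy t hε]
  unfold cosSum
  have hsx : Summable fun v : HeightOneSpectrum (𝓞 K) => x v * wt t ε (N v) := by
    refine Summable.of_norm_bounded ((hsum (1 + ε) (by linarith)).mul_left C) fun v => ?_
    rw [Real.norm_eq_abs, abs_mul, nrm_eq_N]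
    exact mul_le_mul (hx v) (abs_wt_le t ε _) (abs_nonneg _) hC
  have hsy : Summable fun v : HeightOneSpectrum (𝓞 K) =>
      (if (N v).Prime then y (N v) else 0) * wt t ε (N v) := by
    refine Summable.of_norm_bounded ((hsum (1 + ε) (by linarith)).mul_left C) fun v => ?_
    rw [Real.norm_eq_abs, abs_mul, nrm_eq_N]
    refine mul_le_mul ?_ (abs_wt_le t ε _) (abs_nonneg _) hC
    split_ifs
    · exact hy _
    · simpa using hC
  have e1 : (∑' v : HeightOneSpectrum (𝓞 K), x v * (nrm v ^ (-(1 + ε)) *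
      Real.cos (t * Real.log (nrm v)))) = ∑' v : HeightOneSpectrum (𝓞 K), x v * wt t ε (N v) := rfl
  rw [e1, ← hsx.tsum_sub hsy]
  have hb : ∀ v : HeightOneSpectrum (𝓞 K), ‖x v * wt t ε (N v) -
      (if (N v).Prime then y (N v) else 0) * wt t ε (N v)‖ ≤
      (C * (if (N v).Prime then (0 : ℝ) else ((N v : ℕ) : ℝ)⁻¹) +
    (if v ∈ E then 2 * C * ((N v : ℕ) : ℝ)⁻¹ else 0)) := by
    intro v
    have hw := abs_wt_le_inv t hε.le (one_lt_N v).le
    have hn : 0 ≤ ((N v : ℕ) : ℝ)⁻¹ := by positivity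
    rw [← sub_mul, norm_mul, Real.norm_eq_abs, Real.norm_eq_abs]
    by_cases hp : (N v).Prime
    · rw [if_pos hp, if_pos hp, mul_zero, zero_add]
      by_cases he : v ∈ E
      · rw [if_pos he]
        refine mul_le_mul ?_ hw (abs_nonneg _) (by positivity)
        refine (abs_sub _ _).trans ?_
        linarith [hx v, hy (N v)]
      · rw [if_neg he]
        have : x v = y (N v) := by
          by_contra h
          exact he ⟨hp, h⟩
        rw [this, sub_self, abs_zero, zero_mul]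
    · rw [if_neg hp, if_neg hp, sub_zero]
      have he : v ∉ E := fun h => hp h.1
      rw [if_neg he, add_zero]
      exact mul_le_mul (hx v) hw (abs_nonneg _) hC
  have hs3 := hs1.add hs2
  exact (norm_tsum_le_tsum_norm (Summable.of_nonneg_of_le (fun _ => norm_nonneg _) hb hs3)).trans
    ((Summable.of_nonneg_of_le (fun _ => norm_nonneg _) hb hs3).tsum_le_tsum hb hs3)

end Pool.Agent.MPfb225e.Fam
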