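import Mathlib
import Pool.Agent.Lib.MP_fb225e_nt.Edge
import Pool.Agent.Lib.MP_fb225e_nt.Zeta
import Pool.Agent.Lib.MP_fb225e_nt.OrthogProof
import Pool.Agent.Lib.MP_fb225e_nt.ConeVolume
import Pool.Agent.Lib.MP_fb225e_nt.ConeDescr
import Pool.Agent.Lib.MP_fb225e_nt.IdealCount
import Pool.Agent.Lib.MP_fb225e_nt.Fam.Places

/-!
MP_fb225e_nt, EdgeFamilies, part 5: mean values over the primes, twisted by `p^(iτ)`.
-/

namespace Pool.Agent.MPfb225e.Fam

open NumberField IsDedekindDomain Module Filter Topology Curve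

universe u

theorem orthogonality (K : Type u) [Field K] [NumberField K] : Orthogonality K :=
  OrthogProof.orthogonality (Cone.idealCount K (Cone.volumeFormula K) (Cone.coneDescription K))
    (Zeta.logZeta K)

/-- `f` is bounded on the primes, has mean value `M`, and is orthogonal to `cos(τ log p)` for
`τ ≠ 0`. -/
structure HasMean (f : ℕ → ℝ) (M : ℝ) : Prop where
  bdd : ∃ C : ℝ, ∀ p : Nat.Primes, |f p| ≤ C
  lim : ∀ τ : ℝ, Tendsto (fun ε : ℝ => S f τ ε / Real.log (1 / ε)) (𝓝[>] 0)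
    (𝓝 (if τ = 0 then M else 0))

theorem summable_primes {ε : ℝ} (hε : 0 < ε) :
    Summable fun p : Nat.Primes => (p : ℝ) ^ (-(1 + ε)) :=
  Nat.Primes.summable_rpow.2 (by linarith)

theorem summable_of_bdd {f : ℕ → ℝ} {C : ℝ} (hf : ∀ p : Nat.Primes, |f p| ≤ C)
    {h : Nat.Primes → ℝ} (hh : ∀ p, |h p| ≤ 1) {ε : ℝ} (hε : 0 < ε) :
    Summable fun p : Nat.Primes => f p * ((p : ℝ) ^ (-(1 + ε)) * h p) := by
  refine Summable.of_norm_bounded ((summable_primes hε).mul_left C) fun p => ?_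
  rw [Real.norm_eq_abs, abs_mul, abs_mul]
  have hC : 0 ≤ C := (abs_nonneg _).trans (hf p)
  have h0 : 0 ≤ (p : ℝ) ^ (-(1 + ε)) := Real.rpow_nonneg (by positivity) _
  rw [abs_of_nonneg h0]
  exact mul_le_mul (hf p) (mul_le_of_le_one_right h0 (hh p)) (by positivity) hC

theorem eventually_log_pos : ∀ᶠ ε : ℝ in 𝓝[>] 0, 0 < Real.log (1 / ε) := by
  have h1 : ∀ᶠ ε : ℝ in 𝓝[>] 0, ε < 1 := by
    have : ∀ᶠ ε : ℝ in 𝓝 0, ε < 1 := gt_mem_nhds (by norm_num)
    exact this.filter_mono nhdsWithin_le_nhds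
  filter_upwards [self_mem_nhdsWithin, h1] with ε h4 h5
  rw [Set.mem_Ioi] at h4
  exact Real.log_pos (by rw [one_div]; exact (one_lt_inv₀ h4).mpr h5)

theorem eventually_pos : ∀ᶠ ε : ℝ in 𝓝[>] 0, 0 < ε := self_mem_nhdsWithin

/-- a bounded perturbation does not matter -/
theorem tendsto_of_bounded_sub {g h : ℝ → ℝ} {B c : ℝ} (hB : ∀ᶠ ε : ℝ in 𝓝[>] 0, |g ε - h ε| ≤ B)
    (hh : Tendsto (fun ε : ℝ => h ε / Real.log (1 / ε)) (𝓝[>] 0) (𝓝 c)) :
    Tendsto (fun ε : ℝ => g ε / Real.log (1 / ε)) (𝓝[>] 0) (𝓝 c) := by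
  have h2 : Tendsto (fun ε : ℝ => (g ε - h ε) / Real.log (1 / ε)) (𝓝[>] 0) (𝓝 0) := by
    have h3 : Tendsto (fun ε : ℝ => B / Real.log (1 / ε)) (𝓝[>] 0) (𝓝 0) :=
      tendsto_const_nhds.div_atTop Edge.tendsto_log_inv
    refine squeeze_zero_norm' ?_ h3
    filter_upwards [hB, eventually_log_pos] with ε h4 h5
    rw [norm_div, Real.norm_of_nonneg h5.le, Real.norm_eq_abs]
    exact div_le_div_of_nonneg_right h4 h5.le
  have h7 := h2.add hh
  rw [zero_add] at h7
  refine h7.congr fun ε => ?_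
  rw [← add_div]
  congr 1
  ring

theorem abs_cos' (t : ℝ) (p : Nat.Primes) : |Real.cos (t * Real.log p)| ≤ 1 := Real.abs_cos_le_one _

namespace HasMean

variable {f g : ℕ → ℝ} {M M' : ℝ}

theorem add (hf : HasMean f M) (hg : HasMean g M') : HasMean (fun n => f n + g n) (M + M') := by
  obtain ⟨C, hC⟩ := hf.bdd
  obtain ⟨C', hC'⟩ := hg.bdd
  refine ⟨⟨C + C', fun p => (abs_add_le _ _).trans (add_le_add (hC p) (hC' p))⟩, fun τ => ?_⟩
  have h := (hf.lim τ).add (hg.lim τ)
  have e : (if τ = 0 then M else 0) + (if τ = 0 then M' else 0) =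
      if τ = 0 then M + M' else (0 : ℝ) := by
    split_ifs <;> simp
  rw [e] at h
  refine h.congr' ?_
  filter_upwards [eventually_pos] with ε hε
  rw [← add_div]
  congr 1
  unfold S
  rw [← (summable_of_bdd hC (abs_cos' τ) hε).tsum_add (summable_of_bdd hC' (abs_cos' τ) hε)]
  refine tsum_congr fun p => by ring

theorem smul (c : ℝ) (hf : HasMean f M) : HasMean (fun n => c * f n) (c * M) := by
  obtain ⟨C, hC⟩ := hf.bdd
  refine ⟨⟨|c| * C, fun p => ?_⟩, fun τ => ?_⟩
  · rw [abs_mul]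
    exact mul_le_mul_of_nonneg_left (hC p) (abs_nonneg _)
  · have h := (hf.lim τ).const_mul c
    have e : c * (if τ = 0 then M else 0) = if τ = 0 then c * M else (0 : ℝ) := by
      split_ifs <;> simp
    rw [e] at h
    refine h.congr fun ε => ?_
    rw [← mul_div_assoc]
    congr 1
    unfold S
    rw [← tsum_mul_left]
    exact tsum_congr fun p => by ring

theorem zero : HasMean (fun _ => 0) 0 := by
  refine ⟨⟨0, fun p => by simp⟩, fun τ => ?_⟩
  have e : (if τ = 0 then (0 : ℝ) else 0) = 0 := by split_ifs <;> rfl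
  rw [e]
  simp [S]

theorem sum {ι : Type*} (s : Finset ι) {F : ι → ℕ → ℝ} {m : ι → ℝ}
    (h : ∀ i ∈ s, HasMean (F i) (m i)) : HasMean (fun n => ∑ i ∈ s, F i n) (∑ i ∈ s, m i) := by
  classical
  induction s using Finset.induction_on with
  | empty => simpa using zero
  | insert a s ha ih =>
    have h1 := (h a (Finset.mem_insert_self _ _)).add
      (ih fun i hi => h i (Finset.mem_insert_of_mem hi))
    simp only [Finset.sum_insert ha]
    exact h1

/-- finitely many primes do not matter -/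
theorem congr_fin (hf : HasMean f M) (N : ℕ) (hN : N ≠ 0)
    (h : ∀ p : ℕ, p.Prime → ¬ p ∣ N → f p = g p) : HasMean g M := by
  classical
  obtain ⟨C, hC⟩ := hf.bdd
  have hC0 : 0 ≤ C := (abs_nonneg _).trans (hC ⟨2, Nat.prime_two⟩)
  have hfin : {p : Nat.Primes | (p : ℕ) ∣ N}.Finite := by
    have : {n : ℕ | n ∣ N}.Finite := (Nat.divisors N).finite_toSet.subset fun n hn => by
      rw [Finset.mem_coe, Nat.mem_divisors]; exact ⟨hn, hN⟩
    exact Set.Finite.preimage (f := fun p : Nat.Primes => (p : ℕ))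
      (Nat.Primes.coe_nat_injective.injOn) this
  set T : Finset Nat.Primes := hfin.toFinset with hT
  have hbg : ∀ p : Nat.Primes, |g p| ≤ C + ∑ q ∈ T, |g q| := by
    intro p
    have hs : 0 ≤ ∑ q ∈ T, |g q| := Finset.sum_nonneg fun _ _ => abs_nonneg _
    by_cases hp : (p : ℕ) ∣ N
    · have hpT : p ∈ T := by rw [hT, Set.Finite.mem_toFinset]; exact hp
      have : |g p| ≤ ∑ q ∈ T, |g q| := Finset.single_le_sum (f := fun q : Nat.Primes => |g q|)
        (fun q _ => abs_nonneg _) hpT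
      linarith
    · rw [← h p p.2 hp]
      linarith [hC p]
  refine ⟨⟨_, hbg⟩, fun τ => ?_⟩
  refine tendsto_of_bounded_sub (B := ∑ q ∈ T, (|g q| + |f q|)) ?_ (hf.lim τ)
  filter_upwards [eventually_pos] with ε hε
  unfold S
  rw [← (summable_of_bdd hbg (abs_cos' τ) hε).tsum_sub (summable_of_bdd hC (abs_cos' τ) hε)]
  rw [tsum_eq_sum (s := T)]
  · refine (Finset.abs_sum_le_sum_abs _ _).trans (Finset.sum_le_sum fun p _ => ?_)
    rw [← sub_mul, abs_mul]
    have h1 : |(p : ℝ) ^ (-(1 + ε)) * Real.cos (τ * Real.log p)| ≤ 1 := by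
      have h2 := abs_wt_le_inv τ hε.le p.2.one_lt.le
      unfold wt at h2
      refine h2.trans (inv_le_one_of_one_le₀ ?_)
      exact_mod_cast p.2.one_lt.le
    exact (mul_le_of_le_one_right (abs_nonneg _) h1).trans (abs_sub _ _)
  · intro p hp
    rw [hT, Set.Finite.mem_toFinset] at hp
    rw [h p p.2 hp, sub_self]

theorem congr (hf : HasMean f M) (h : ∀ p : ℕ, p.Prime → f p = g p) : HasMean g M :=
  hf.congr_fin 1 one_ne_zero fun p hp _ => h p hp

end HasMean

theorem homCount_le (K : Type u) [Field K] [NumberField K] {p : ℕ} (hp : p.Prime) :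
    homCount K p ≤ finrank ℤ (𝓞 K) := by
  classical
  rw [← card_fiber hp]
  have := finite_fiber (K := K) p
  have := Fintype.ofFinite {v : HeightOneSpectrum (𝓞 K) // N v = p}
  rw [Nat.card_eq_fintype_card, ← Finset.card_univ,
    ← Finset.card_map (Function.Embedding.subtype _)]
  refine card_above_le hp _ fun v hv => ?_
  rw [Finset.mem_map] at hv
  obtain ⟨w, -, rfl⟩ := hv
  have : N w.1 = p := w.2
  change (N w.1).minFac = p
  rw [this]
  exact hp.minFac_eq

theorem hasMean_homCount (K : Type u) [Field K] [NumberField K] :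
    HasMean (fun p => homCount K p) 1 := by
  have hO := orthogonality K
  refine ⟨⟨finrank ℤ (𝓞 K), fun p => ?_⟩, fun τ => ?_⟩
  · rw [abs_of_nonneg (by positivity)]
    exact_mod_cast homCount_le K p.2
  · obtain ⟨B, hB⟩ := compare hO.1 (fun _ => 1) 1 (by simp) (fun _ => 1) (by simp) (by simp)
    refine tendsto_of_bounded_sub (B := B) (h := fun ε => cosSum (K := K) (fun _ => 1) τ ε) ?_ ?_
    · filter_upwards [eventually_pos] with ε hε
      have := hB τ ε hε
      rw [abs_sub_comm]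
      simpa only [one_mul] using this
    · split_ifs with h
      · rw [h]; exact hO.2.1
      · exact hO.2.2 τ h

end Pool.Agent.MPfb225e.Fam
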