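import Mathlib
import Pool.Agent.Lib.MP_fb225e_nt.Fam.Mean

/-!
MP_fb225e_nt, EdgeFamilies, part 6: primes of degree one and the Galois group.
-/

namespace Pool.Agent.MPfb225e.Fam

open scoped TensorProduct
open NumberField Module Filter Topology IntermediateField

universe u

section galois

variable {L : Type u} [Field L] [NumberField L] (F : IntermediateField ℚ L)
  (K : Type u) [Field K] [NumberField K]

instance (F : IntermediateField ℚ L) : NumberField F := NumberField.of_module_finite ℚ F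

variable {K}

/-- The product map `F ⊗ K → L` attached to an embedding of `K`. -/
noncomputable def hat (φ : K →ₐ[ℚ] L) : F ⊗[ℚ] K →+* L :=
  (Algebra.TensorProduct.lift (Algebra.ofId F L) φ fun _ _ => Commute.all _ _).toRingHom

theorem hat_tmul (φ : K →ₐ[ℚ] L) (a : F) (b : K) : hat F φ (a ⊗ₜ b) = a * φ b :=
  Algebra.TensorProduct.lift_tmul _ _ _ _ _

/-- The kernel of a homomorphism from an Artinian ring to a field. -/
def mker {A : Type*} [CommRing A] [IsArtinianRing A] {B : Type*} [Field B] (f : A →+* B) :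
    MaximalSpectrum A :=
  ⟨RingHom.ker f, by
    have : (RingHom.ker f).IsPrime := RingHom.ker_isPrime _
    exact IsArtinianRing.isMaximal_of_isPrime _⟩

/-- The kernel of the product map. -/
noncomputable def kerI (φ : K →ₐ[ℚ] L) : MaximalSpectrum (F ⊗[ℚ] K) :=
  mker (A := F ⊗[ℚ] K) (hat F φ)

theorem mem_kerI (φ : K →ₐ[ℚ] L) (z : F ⊗[ℚ] K) : z ∈ (kerI F φ).asIdeal ↔ hat F φ z = 0 := Iff.rfl

/-- The embedding of `K` attached to an embedding of a factor. -/
noncomputable def back (I : MaximalSpectrum (F ⊗[ℚ] K)) (θ : Fac F K I →ₐ[F] L) : K →ₐ[ℚ] L :=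
  RingHom.toRatAlgHom (θ.toRingHom.comp ((Ideal.Quotient.mk I.asIdeal).comp
    (Algebra.TensorProduct.includeRight (R := ℚ) (A := F) (B := K)).toRingHom))

theorem back_apply (I : MaximalSpectrum (F ⊗[ℚ] K)) (θ : Fac F K I →ₐ[F] L) (x : K) :
    back F I θ x = θ.toRingHom (Ideal.Quotient.mk I.asIdeal ((1 : F) ⊗ₜ x)) := rfl

theorem hat_back (I : MaximalSpectrum (F ⊗[ℚ] K)) (θ : Fac F K I →ₐ[F] L) (z : F ⊗[ℚ] K) :
    hat F (back F I θ) z = θ.toRingHom (Ideal.Quotient.mk I.asIdeal z) := by
  induction z using TensorProduct.induction_on with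
  | zero => rw [RingHom.map_zero, RingHom.map_zero, RingHom.map_zero]
  | tmul a b =>
    rw [hat_tmul, back_apply]
    have h1 : (a : L) = θ.toRingHom (algebraMap F (Fac F K I) a) := (θ.commutes a).symm
    have h2 : algebraMap F (Fac F K I) a = Ideal.Quotient.mk I.asIdeal (a ⊗ₜ (1 : K)) := rfl
    rw [h1, h2, ← RingHom.map_mul, ← RingHom.map_mul, Algebra.TensorProduct.tmul_mul_tmul, mul_one,
      one_mul]
  | add x y hx hy =>
    rw [RingHom.map_add, RingHom.map_add, RingHom.map_add, hx, hy]

theorem kerI_back (I : MaximalSpectrum (F ⊗[ℚ] K)) (θ : Fac F K I →ₐ[F] L) :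
    kerI F (back F I θ) = I := by
  apply MaximalSpectrum.ext
  ext z
  rw [mem_kerI, hat_back, map_eq_zero_iff _ θ.toRingHom.injective]
  exact Ideal.Quotient.eq_zero_iff_mem

/-- The embedding of the factor attached to an embedding of `K`. -/
noncomputable def forth (φ : K →ₐ[ℚ] L) : Fac F K (kerI F φ) →ₐ[F] L :=
  { Ideal.Quotient.lift (kerI F φ).asIdeal (hat F φ) (fun a h => h) with
    commutes' := fun a => by
      change hat F φ (a ⊗ₜ (1 : K)) = _
      rw [hat_tmul, map_one, mul_one]
      rfl }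

theorem forth_mk (φ : K →ₐ[ℚ] L) (z : F ⊗[ℚ] K) :
    (forth F φ).toRingHom (Ideal.Quotient.mk (kerI F φ).asIdeal z) = hat F φ z := rfl

theorem back_forth (φ : K →ₐ[ℚ] L) : back F (kerI F φ) (forth F φ) = φ := by
  ext x
  rw [back_apply, forth_mk, hat_tmul]
  simp

/-- `back F I` is injective. -/
theorem back_injective (I : MaximalSpectrum (F ⊗[ℚ] K)) : Function.Injective (back (L := L) F I) := by
  intro θ θ' h
  ext x
  obtain ⟨z, rfl⟩ := Ideal.Quotient.mk_surjective x
  have h1 := hat_back F I θ z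
  have h2 := hat_back F I θ' z
  rw [h, h2] at h1
  exact h1.symm

/-- Embeddings of `K` and embeddings of the factors. -/
theorem sig_bijective : Function.Bijective
    (fun x : (Σ I : MaximalSpectrum (F ⊗[ℚ] K), (Fac F K I →ₐ[F] L)) => back F x.1 x.2) := by
  constructor
  · rintro ⟨I, θ⟩ ⟨J, θ'⟩ h
    simp only at h
    have h1 := kerI_back F I θ
    rw [h, kerI_back] at h1
    subst h1
    rw [back_injective F _ h]
  · intro φ
    exact ⟨⟨kerI F φ, forth F φ⟩, back_forth F φ⟩

/-- The field attached to an embedding. -/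
noncomputable abbrev cmp (φ : K →ₐ[ℚ] L) : IntermediateField ℚ L := F ⊔ φ.fieldRange

theorem hat_mem (φ : K →ₐ[ℚ] L) (z : F ⊗[ℚ] K) : hat F φ z ∈ cmp F φ := by
  induction z using TensorProduct.induction_on with
  | zero => rw [RingHom.map_zero]; exact zero_mem _
  | tmul a b =>
    rw [hat_tmul]
    exact mul_mem (le_sup_left (a := F) (b := φ.fieldRange) a.2)
      (le_sup_right (a := F) (b := φ.fieldRange) ⟨b, rfl⟩)
  | add x y hx hy => rw [RingHom.map_add]; exact add_mem hx hy

theorem hat_eq (φ : K →ₐ[ℚ] L) (z : F ⊗[ℚ] K) :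
    hat F φ z = Algebra.TensorProduct.productMap F.val φ z := by
  induction z using TensorProduct.induction_on with
  | zero => rw [RingHom.map_zero, _root_.map_zero]
  | tmul a b => rw [hat_tmul]; rfl
  | add x y hx hy => rw [RingHom.map_add, _root_.map_add, hx, hy]

theorem mem_range_hat (φ : K →ₐ[ℚ] L) {y : L} (hy : y ∈ cmp F φ) : ∃ z, hat F φ z = y := by
  have h2 : y ∈ (F ⊔ φ.fieldRange).toSubalgebra := hy
  rw [IntermediateField.sup_toSubalgebra_of_left] at h2
  have h3 : F.toSubalgebra ⊔ φ.fieldRange.toSubalgebra ≤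
      (Algebra.TensorProduct.productMap F.val φ).range := by
    rw [Algebra.TensorProduct.productMap_range]
    refine sup_le_sup ?_ ?_
    · rw [IntermediateField.range_val]
    · rw [AlgHom.fieldRange_toSubalgebra]
  obtain ⟨z, hz⟩ := h3 h2
  exact ⟨z, (hat_eq F φ z).trans hz⟩

/-- The factor is isomorphic to the compositum. -/
theorem fac_equiv (I : MaximalSpectrum (F ⊗[ℚ] K)) (θ : Fac F K I →ₐ[F] L) :
    Nonempty (Fac F K I ≃+* cmp F (back F I θ)) := by
  have h1 : ∀ x : Fac F K I, θ.toRingHom x ∈ cmp F (back F I θ) := by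
    intro x
    obtain ⟨z, rfl⟩ := Ideal.Quotient.mk_surjective x
    rw [← hat_back]
    exact hat_mem F _ z
  let f : Fac F K I →+* cmp F (back F I θ) := θ.toRingHom.codRestrict (cmp F (back F I θ)) h1
  refine ⟨RingEquiv.ofBijective f ⟨?_, ?_⟩⟩
  · exact f.injective
  · rintro ⟨y, hy⟩
    obtain ⟨z, hz⟩ := mem_range_hat F _ hy
    refine ⟨Ideal.Quotient.mk I.asIdeal z, ?_⟩
    apply Subtype.ext
    change θ.toRingHom (Ideal.Quotient.mk I.asIdeal z) = y
    rw [← hat_back, hz]

theorem homCount_congr {K K' : Type u} [Field K] [Field K'] (e : K ≃+* K') (p : ℕ) :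
    homCount K p = homCount K' p := by
  unfold homCount
  have e' := RingOfIntegers.mapRingEquiv e
  refine Nat.card_congr
    ⟨fun f => f.comp (e'.symm : 𝓞 K' →+* 𝓞 K), fun f => f.comp (e' : 𝓞 K →+* 𝓞 K'), ?_, ?_⟩
  · intro f
    ext x
    simp
  · intro f
    ext x
    simp

instance (I : MaximalSpectrum (F ⊗[ℚ] K)) : Module.Finite F (Fac F K I) := inferInstance

/-- The degree of the compositum. -/
theorem finrank_cmp (I : MaximalSpectrum (F ⊗[ℚ] K)) (θ : Fac F K I →ₐ[F] L) :
    finrank F (Fac F K I) * finrank (cmp F (back F I θ)) L = finrank F L := by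
  have h1 : cmp F (back F I θ) = θ.fieldRange.restrictScalars ℚ := by
    apply SetLike.ext
    intro y
    constructor
    · intro hy
      obtain ⟨z, hz⟩ := mem_range_hat F _ hy
      rw [hat_back] at hz
      exact ⟨_, hz⟩
    · rintro ⟨x, rfl⟩
      obtain ⟨z, rfl⟩ := Ideal.Quotient.mk_surjective x
      have := hat_mem F (back F I θ) z
      rw [hat_back] at this
      exact this
  rw [h1]
  have h2 : finrank F (Fac F K I) = finrank F θ.fieldRange :=
    (AlgEquiv.ofInjectiveField θ).toLinearEquiv.finrank_eq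
  rw [h2]
  exact finrank_mul_finrank F θ.fieldRange L

variable (K)

/-- The number of embeddings of a factor. -/
theorem card_embeddings [IsGalois ℚ L] (hK : Nonempty (K →ₐ[ℚ] L))
    (I : MaximalSpectrum (F ⊗[ℚ] K)) :
    Nat.card (Fac F K I →ₐ[F] L) = finrank F (Fac F K I) := by
  obtain ⟨φ₀⟩ := hK
  have hnorm : Normal F L := inferInstance
  set S : Set (Fac F K I) := Set.range fun b : K => Ideal.Quotient.mk I.asIdeal ((1 : F) ⊗ₜ b)
    with hS
  have hsplit : ∀ s ∈ S, IsIntegral F s ∧ ((minpoly F s).map (algebraMap F L)).Splits := by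
    rintro _ ⟨b, rfl⟩
    refine ⟨Algebra.IsIntegral.isIntegral _, ?_⟩
    have h1 : ((minpoly ℚ b).map (algebraMap ℚ L)).Splits := by
      rw [← minpoly.algHom_eq φ₀ φ₀.injective b]
      exact Normal.splits inferInstance _
    have h2 : ((minpoly ℚ b).map (algebraMap ℚ F)).map (algebraMap F L) =
        (minpoly ℚ b).map (algebraMap ℚ L) := by
      rw [Polynomial.map_map]
      congr 1
    refine Polynomial.Splits.of_dvd (g := ((minpoly ℚ b).map (algebraMap ℚ F)).map (algebraMap F L))
      (h2 ▸ h1) ?_ (Polynomial.map_dvd _ (minpoly.dvd _ _ ?_))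
    · rw [h2]
      exact Polynomial.map_ne_zero (minpoly.ne_zero (Algebra.IsIntegral.isIntegral b))
    · let g : K →+* Fac F K I := (Ideal.Quotient.mk I.asIdeal).comp
        (Algebra.TensorProduct.includeRight (R := ℚ) (A := F) (B := K)).toRingHom
      have h3 : Polynomial.eval₂ (g.comp (algebraMap ℚ K)) (g b) (minpoly ℚ b) = 0 := by
        rw [← Polynomial.hom_eval₂, ← Polynomial.aeval_def, minpoly.aeval, map_zero]
      rw [Polynomial.aeval_def, Polynomial.eval₂_map]
      have h4 : (algebraMap F (Fac F K I)).comp (algebraMap ℚ F) = g.comp (algebraMap ℚ K) :=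
        Subsingleton.elim _ _
      rw [h4]
      exact h3
  have htop : adjoin F S = ⊤ := by
    rw [eq_top_iff]
    intro x _
    obtain ⟨z, rfl⟩ := Ideal.Quotient.mk_surjective x
    induction z using TensorProduct.induction_on with
    | zero => rw [RingHom.map_zero]; exact zero_mem _
    | tmul a b =>
      have h1 : Ideal.Quotient.mk I.asIdeal (a ⊗ₜ[ℚ] b) =
          algebraMap F (Fac F K I) a * Ideal.Quotient.mk I.asIdeal ((1 : F) ⊗ₜ[ℚ] b) := by
        have h2 : algebraMap F (Fac F K I) a = Ideal.Quotient.mk I.asIdeal (a ⊗ₜ (1 : K)) := rfl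
        rw [h2, ← RingHom.map_mul, Algebra.TensorProduct.tmul_mul_tmul, mul_one, one_mul]
      rw [h1]
      exact mul_mem (IntermediateField.algebraMap_mem _ _)
        (IntermediateField.subset_adjoin _ _ ⟨b, rfl⟩)
    | add x y hx hy =>
      rw [RingHom.map_add]
      exact add_mem (hx trivial) (hy trivial)
  obtain ⟨θ₀⟩ := IntermediateField.nonempty_algHom_of_adjoin_splits hsplit htop
  refine AlgHom.natCard_of_splits F (Fac F K I) L fun x => ?_
  rw [← minpoly.algHom_eq θ₀ θ₀.injective x]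
  exact Normal.splits hnorm _

/-- **Multiplicativity**, in terms of the embeddings into a Galois extension. -/
theorem homCount_mul_sum [IsGalois ℚ L] (hK : Nonempty (K →ₐ[ℚ] L)) : ∃ N : ℕ, N ≠ 0 ∧
    ∀ p : ℕ, p.Prime → ¬ p ∣ N → (finrank F L : ℝ) * homCount F p * homCount K p =
      ∑ φ : K →ₐ[ℚ] L, (finrank (cmp F φ) L : ℝ) * homCount (cmp F φ) p := by
  classical
  obtain ⟨N, hN, h⟩ := homCount_mul F K
  refine ⟨N, hN, fun p hp hpN => ?_⟩
  have h1 := h p hp hpN
  have hb := sig_bijective (L := L) (K := K) F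
  rw [← Fintype.sum_bijective _ hb (fun x => (finrank (cmp F (back F x.1 x.2)) L : ℝ) *
    homCount (cmp F (back F x.1 x.2)) p) _ (fun _ => rfl), Fintype.sum_sigma, mul_assoc,
    ← Nat.cast_mul, h1, Nat.cast_sum, Finset.mul_sum]
  refine Finset.sum_congr rfl fun I _ => ?_
  have h2 : ∀ θ : Fac F K I →ₐ[F] L, (finrank (cmp F (back F I θ)) L : ℝ) *
      homCount (cmp F (back F I θ)) p =
      (finrank F L : ℝ) * homCount (Fac F K I) p / finrank F (Fac F K I) := by
    intro θ
    obtain ⟨e⟩ := fac_equiv F I θ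
    have h3 := finrank_cmp F I θ
    have h4 : (finrank F (Fac F K I) : ℝ) ≠ 0 := by
      have : 0 < finrank F (Fac F K I) := finrank_pos
      positivity
    rw [← homCount_congr e, ← h3]
    push_cast
    field_simp
  have h5 : (finrank F (Fac F K I) : ℝ) ≠ 0 := by
    have : 0 < finrank F (Fac F K I) := finrank_pos
    positivity
  rw [Finset.sum_congr rfl fun θ _ => h2 θ, Finset.sum_const, Finset.card_univ,
    ← Nat.card_eq_fintype_card, card_embeddings F K hK I, nsmul_eq_mul]
  field_simp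

end galois

end Pool.Agent.MPfb225e.Fam
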