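import Mathlib
import Pool.Agent.Lib.MP_fb225e_nt.Fam.Galois

/-!
MP_fb225e_nt, EdgeFamilies, part 7: mean values of functions of the numbers of primes of degree one
are averages over the Galois group.
-/

namespace Pool.Agent.MPfb225e.Fam

open NumberField Module Filter Topology IntermediateField

universe u

section density

variable {L : Type u} [Field L] [NumberField L]

/-- The number of embeddings of `K` fixed by `σ`. -/
noncomputable def fix (K : Type u) [Field K] [NumberField K] (σ : L ≃ₐ[ℚ] L) : ℕ :=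
  Nat.card {φ : K →ₐ[ℚ] L // (σ : L →ₐ[ℚ] L).comp φ = φ}

open Classical in
/-- Compatible pairs of a function on the primes and a function on the Galois group. -/
def Pair (f : ℕ → ℝ) (ψ : (L ≃ₐ[ℚ] L) → ℝ) : Prop :=
  ∀ F : IntermediateField ℚ L, HasMean (fun p => (finrank F L : ℝ) * homCount F p * f p)
    (∑ σ : L ≃ₐ[ℚ] L, if σ ∈ F.fixingSubgroup then ψ σ else 0)

namespace Pair

variable {f g : ℕ → ℝ} {ψ χ : (L ≃ₐ[ℚ] L) → ℝ}

theorem congr (h : Pair f ψ) (h1 : ∀ p : ℕ, p.Prime → f p = g p) (h2 : ∀ σ, ψ σ = χ σ) :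
    Pair g χ := by
  have : ψ = χ := funext h2
  subst this
  intro F
  exact (h F).congr fun p hp => by rw [h1 p hp]

theorem add (h : Pair f ψ) (h' : Pair g χ) :
    Pair (fun p => f p + g p) (fun σ : L ≃ₐ[ℚ] L => ψ σ + χ σ) := by
  classical
  intro F
  have h1 := (h F).add (h' F)
  rw [← Finset.sum_add_distrib] at h1
  have e : (∑ σ : L ≃ₐ[ℚ] L, ((if σ ∈ F.fixingSubgroup then ψ σ else 0) +
      (if σ ∈ F.fixingSubgroup then χ σ else 0))) =
      ∑ σ : L ≃ₐ[ℚ] L, (if σ ∈ F.fixingSubgroup then ψ σ + χ σ else 0) :=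
    Finset.sum_congr rfl fun σ _ => by split_ifs <;> simp
  rw [e] at h1
  exact h1.congr fun p _ => by ring

theorem smul (c : ℝ) (h : Pair f ψ) :
    Pair (fun p => c * f p) (fun σ : L ≃ₐ[ℚ] L => c * ψ σ) := by
  classical
  intro F
  have h1 := (h F).smul c
  rw [Finset.mul_sum] at h1
  have e : (∑ σ : L ≃ₐ[ℚ] L, c * (if σ ∈ F.fixingSubgroup then ψ σ else 0)) =
      ∑ σ : L ≃ₐ[ℚ] L, (if σ ∈ F.fixingSubgroup then c * ψ σ else 0) :=
    Finset.sum_congr rfl fun σ _ => by split_ifs <;> simp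
  rw [e] at h1
  exact h1.congr fun p _ => by ring

theorem mem_fixingSubgroup_cmp (F : IntermediateField ℚ L) {K : Type u} [Field K] [NumberField K]
    (φ : K →ₐ[ℚ] L) (σ : L ≃ₐ[ℚ] L) : σ ∈ (cmp F φ).fixingSubgroup ↔
      σ ∈ F.fixingSubgroup ∧ (σ : L →ₐ[ℚ] L).comp φ = φ := by
  rw [IntermediateField.fixingSubgroup_sup, Subgroup.mem_inf]
  refine and_congr_right fun _ => ?_
  rw [IntermediateField.mem_fixingSubgroup_iff]
  constructor
  · intro h
    ext x
    exact h (φ x) ⟨x, rfl⟩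
  · rintro h _ ⟨x, rfl⟩
    exact congrArg (fun g => g x) h

theorem homCount [IsGalois ℚ L] (K : Type u) [Field K] [NumberField K]
    (hK : Nonempty (K →ₐ[ℚ] L)) (h : Pair f ψ) :
    Pair (fun p => homCount K p * f p) (fun σ : L ≃ₐ[ℚ] L => fix K σ * ψ σ) := by
  classical
  intro F
  obtain ⟨N, hN, hmul⟩ := homCount_mul_sum F K hK
  have h1 := HasMean.sum (Finset.univ : Finset (K →ₐ[ℚ] L)) fun φ _ => h (cmp F φ)
  have e : (∑ φ : K →ₐ[ℚ] L, ∑ σ : L ≃ₐ[ℚ] L,
      (if σ ∈ (cmp F φ).fixingSubgroup then ψ σ else 0)) =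
      ∑ σ : L ≃ₐ[ℚ] L, (if σ ∈ F.fixingSubgroup then fix K σ * ψ σ else 0) := by
    rw [Finset.sum_comm]
    refine Finset.sum_congr rfl fun σ _ => ?_
    split_ifs with hσ
    · have : ∀ φ : K →ₐ[ℚ] L, (if σ ∈ (cmp F φ).fixingSubgroup then ψ σ else 0) =
          if (σ : L →ₐ[ℚ] L).comp φ = φ then ψ σ else 0 := by
        intro φ
        rw [mem_fixingSubgroup_cmp]
        simp [hσ]
      rw [Finset.sum_congr rfl fun φ _ => this φ, Finset.sum_ite, Finset.sum_const_zero, add_zero,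
        Finset.sum_const, nsmul_eq_mul]
      congr 2
      unfold fix
      rw [Nat.card_eq_fintype_card, Fintype.card_subtype]
    · refine Finset.sum_eq_zero fun φ _ => ?_
      rw [mem_fixingSubgroup_cmp, if_neg]
      exact fun h => hσ h.1
  rw [e] at h1
  refine h1.congr_fin N hN fun p hp hpN => ?_
  have h2 := hmul p hp hpN
  rw [← mul_assoc, h2, Finset.sum_mul]

theorem one [IsGalois ℚ L] : Pair (fun _ => 1) (fun _ : L ≃ₐ[ℚ] L => 1) := by
  classical
  intro F
  have h1 := (hasMean_homCount F).smul (finrank F L)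
  have e : (∑ σ : L ≃ₐ[ℚ] L, (if σ ∈ F.fixingSubgroup then (1 : ℝ) else 0)) =
      finrank F L * 1 := by
    rw [Finset.sum_ite, Finset.sum_const_zero, add_zero, Finset.sum_const, nsmul_eq_mul, mul_one,
      mul_one, ← IsGalois.card_fixingSubgroup_eq_finrank F]
    congr 1
    rw [Nat.card_eq_fintype_card, ← Fintype.card_subtype]
  rw [e]
  exact h1.congr fun p _ => by ring

end Pair

variable {ι : Type*} [Fintype ι] (K : ι → Type u) [∀ i, Field (K i)] [∀ i, NumberField (K i)]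

/-- Multipliers of compatible pairs. -/
def Mult (L : Type u) [Field L] [NumberField L] (Ψ : (ι → ℕ) → ℝ) : Prop :=
  ∀ (f : ℕ → ℝ) (ψ : (L ≃ₐ[ℚ] L) → ℝ), Pair f ψ →
    Pair (fun p => Ψ (fun i => homCount (K i) p) * f p) (fun σ : L ≃ₐ[ℚ] L =>
      Ψ (fun i => fix (K i) σ) * ψ σ)

namespace Mult

variable {K} {Ψ Φ : (ι → ℕ) → ℝ}

omit [Fintype ι] in
theorem const (c : ℝ) : Mult K L fun _ => c := fun _ _ h => h.smul c

omit [Fintype ι] in
theorem add (h : Mult K L Ψ) (h' : Mult K L Φ) : Mult K L fun a => Ψ a + Φ a := fun f ψ hp =>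
  ((h f ψ hp).add (h' f ψ hp)).congr (fun _ _ => by ring) fun _ => by ring

omit [Fintype ι] in
theorem mul (h : Mult K L Ψ) (h' : Mult K L Φ) : Mult K L fun a => Ψ a * Φ a := fun f ψ hp =>
  (h _ _ (h' f ψ hp)).congr (fun _ _ => by ring) fun _ => by ring

omit [Fintype ι] in
theorem coord [IsGalois ℚ L] (hK : ∀ i, Nonempty (K i →ₐ[ℚ] L)) (i : ι) :
    Mult K L fun a => (a i : ℝ) := fun _ _ hp => hp.homCount (K i) (hK i)

omit [Fintype ι] in
theorem sum {κ : Type*} (s : Finset κ) {Θ : κ → (ι → ℕ) → ℝ} (h : ∀ k ∈ s, Mult K L (Θ k)) :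
    Mult K L fun a => ∑ k ∈ s, Θ k a := by
  classical
  induction s using Finset.induction_on with
  | empty => simpa using const 0
  | insert k s hk ih =>
    have := (h k (Finset.mem_insert_self _ _)).add
      (ih fun j hj => h j (Finset.mem_insert_of_mem hj))
    simpa only [Finset.sum_insert hk] using this

omit [Fintype ι] in
theorem prod {κ : Type*} (s : Finset κ) {Θ : κ → (ι → ℕ) → ℝ} (h : ∀ k ∈ s, Mult K L (Θ k)) :
    Mult K L fun a => ∏ k ∈ s, Θ k a := by
  classical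
  induction s using Finset.induction_on with
  | empty => simpa using const 1
  | insert k s hk ih =>
    have := (h k (Finset.mem_insert_self _ _)).mul
      (ih fun j hj => h j (Finset.mem_insert_of_mem hj))
    simpa only [Finset.prod_insert hk] using this

/-- interpolation of the indicator function -/
theorem prod_ind (n b a : ℕ) (ha : a ≤ n) :
    (∏ c ∈ (Finset.range (n + 1)).erase b, ((a : ℝ) - c) * ((b : ℝ) - c)⁻¹) =
      if a = b then 1 else 0 := by
  split_ifs with h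
  · subst h
    refine Finset.prod_eq_one fun c hc => ?_
    rw [Finset.mem_erase] at hc
    refine mul_inv_cancel₀ (sub_ne_zero.2 ?_)
    exact_mod_cast hc.1.symm
  · refine Finset.prod_eq_zero (i := a) ?_ (by simp)
    rw [Finset.mem_erase, Finset.mem_range]
    exact ⟨h, by omega⟩

theorem all [IsGalois ℚ L] (hK : ∀ i, Nonempty (K i →ₐ[ℚ] L)) (Ψ : (ι → ℕ) → ℝ) :
    Mult K L Ψ := by
  classical
  -- the bound
  set n : ℕ := ∑ i, (finrank ℤ (𝓞 (K i)) + Nat.card (K i →ₐ[ℚ] L)) with hn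
  have hn1 : ∀ i, finrank ℤ (𝓞 (K i)) + Nat.card (K i →ₐ[ℚ] L) ≤ n := fun i =>
    Finset.single_le_sum (f := fun i => finrank ℤ (𝓞 (K i)) + Nat.card (K i →ₐ[ℚ] L))
      (fun _ _ => Nat.zero_le _) (Finset.mem_univ i)
  have hN : ∀ (p : ℕ) (_ : p.Prime) (i : ι), homCount (K i) p ≤ n := fun p hp i =>
    (homCount_le (K i) hp).trans ((Nat.le_add_right _ _).trans (hn1 i))
  have hF : ∀ (σ : L ≃ₐ[ℚ] L) (i : ι), fix (K i) σ ≤ n := fun σ i => by
    refine le_trans ?_ ((Nat.le_add_left _ _).trans (hn1 i))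
    exact Nat.card_le_card_of_injective _ Subtype.val_injective
  set Θ : (ι → ℕ) → ℝ := fun a => ∑ b ∈ Fintype.piFinset (fun _ : ι => Finset.range (n + 1)),
    Ψ b * ∏ i, ∏ c ∈ (Finset.range (n + 1)).erase (b i), ((a i : ℝ) - c) * ((b i : ℝ) - c)⁻¹ with hΘ
  have h1 : Mult K L Θ := by
    refine sum _ fun b _ => (const (Ψ b)).mul (prod _ fun i _ => prod _ fun c _ => ?_)
    exact (((coord hK i).add (const (-(c : ℝ)))).mul (const _))
  have h2 : ∀ a : ι → ℕ, (∀ i, a i ≤ n) → Θ a = Ψ a := by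
    intro a ha
    rw [hΘ]
    simp only
    have h3 : ∀ b : ι → ℕ, (∏ i, ∏ c ∈ (Finset.range (n + 1)).erase (b i),
        ((a i : ℝ) - c) * ((b i : ℝ) - c)⁻¹) = if a = b then 1 else 0 := by
      intro b
      rw [Finset.prod_congr rfl fun i _ => prod_ind n (b i) (a i) (ha i)]
      split_ifs with h
      · subst h
        simp
      · obtain ⟨i, hi⟩ := Function.ne_iff.1 h
        exact Finset.prod_eq_zero (Finset.mem_univ i) (if_neg hi)
    rw [Finset.sum_congr rfl fun b _ => by rw [h3 b]]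
    rw [Finset.sum_eq_single a]
    · simp
    · intro b _ hb
      rw [if_neg (Ne.symm hb), mul_zero]
    · intro h
      exfalso
      apply h
      rw [Fintype.mem_piFinset]
      intro i
      rw [Finset.mem_range]
      have := ha i
      omega
  intro f ψ hp
  refine (h1 f ψ hp).congr (fun p hp' => ?_) fun σ => ?_
  · rw [h2 _ (hN p hp')]
  · rw [h2 _ (hF σ)]

end Mult

theorem homCount_bot {p : ℕ} : homCount (⊥ : IntermediateField ℚ L) p = 1 := by
  have e : (⊥ : IntermediateField ℚ L) ≃+* ℚ := (IntermediateField.botEquiv ℚ L).toRingEquiv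
  have e2 := (RingOfIntegers.mapRingEquiv e).trans Rat.ringOfIntegersEquiv
  unfold homCount
  have : Nat.card (ℤ →+* ZMod p) = 1 := by
    rw [Nat.card_eq_one_iff_unique]
    exact ⟨inferInstance, ⟨Int.castRingHom _⟩⟩
  rw [← this]
  refine Nat.card_congr
    ⟨fun f => f.comp (e2.symm : ℤ →+* _), fun f => f.comp (e2 : _ →+* ℤ), ?_, ?_⟩
  · intro f
    ext x
    change f (e2.symm (e2 x)) = f x
    rw [e2.symm_apply_apply]
  · intro f
    exact Subsingleton.elim _ _

/-- **Mean values are averages over the Galois group.** -/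
theorem hasMean_fun [IsGalois ℚ L] (hK : ∀ i, Nonempty (K i →ₐ[ℚ] L)) (Φ : (ι → ℕ) → ℝ) :
    HasMean (fun p => Φ fun i => homCount (K i) p)
      ((∑ σ : L ≃ₐ[ℚ] L, Φ fun i => fix (K i) σ) / Nat.card (L ≃ₐ[ℚ] L)) := by
  classical
  have h1 := Mult.all (L := L) hK Φ _ _ Pair.one ⊥
  have hc : Nat.card (L ≃ₐ[ℚ] L) = finrank ℚ L := IsGalois.card_aut_eq_finrank ℚ L
  have h2 : finrank (⊥ : IntermediateField ℚ L) L = finrank ℚ L := by
    have := finrank_mul_finrank ℚ (⊥ : IntermediateField ℚ L) L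
    rwa [IntermediateField.finrank_bot, one_mul] at this
  have h3 : (finrank ℚ L : ℝ) ≠ 0 := by
    have : 0 < finrank ℚ L := finrank_pos
    positivity
  have h4 := h1.smul ((finrank ℚ L : ℝ)⁻¹)
  have e : (finrank ℚ L : ℝ)⁻¹ * (∑ σ : L ≃ₐ[ℚ] L,
      (if σ ∈ (⊥ : IntermediateField ℚ L).fixingSubgroup then
        (Φ fun i => fix (K i) σ) * 1 else 0)) =
      (∑ σ : L ≃ₐ[ℚ] L, Φ fun i => fix (K i) σ) / Nat.card (L ≃ₐ[ℚ] L) := by
    rw [hc, div_eq_inv_mul]
    congr 1
    refine Finset.sum_congr rfl fun σ _ => ?_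
    rw [IntermediateField.fixingSubgroup_bot, if_pos (Subgroup.mem_top σ), mul_one]
  rw [e] at h4
  refine h4.congr fun p _ => ?_
  rw [homCount_bot, h2]
  push_cast
  field_simp

end density

end Pool.Agent.MPfb225e.Fam
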