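import Mathlib
import Pool.Agent.Lib.MP_fb225e_nt.Curve
import Pool.Agent.Lib.MP_fb225e_nt.Hasse

/-!
MP_fb225e_nt, EdgeFamilies, part 4: local factors at places of good reduction, from an integral
model with unit discriminant.
-/

namespace Pool.Agent.MPfb225e.Fam

open IsDedekindDomain HeightOneSpectrum IsDiscreteValuationRing IsLocalRing WeierstrassCurve

universe u

section dvr

variable (R : Type u) [CommRing R] [IsDomain R] [IsDiscreteValuationRing R] {F : Type u}
  [Field F] [Algebra R F] [IsFractionRing R F]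

/-- number of affine solutions -/
noncomputable def affCard {k : Type*} [Field k] (W : WeierstrassCurve k) : ℕ :=
  Nat.card {xy : k × k // W.toAffine.Equation xy.1 xy.2}

theorem unit_of_val_one {x : F} (hx : valuation F (maximalIdeal R) x = 1) :
    ∃ r : Rˣ, algebraMap R F r = x := by
  obtain ⟨r, hr⟩ := IsDiscreteValuationRing.exists_lift_of_le_one (A := R) (K := F) hx.le
  have h1 : IsUnit r := by
    by_contra h
    have h2 : r ∈ (IsDiscreteValuationRing.maximalIdeal R).asIdeal := h
    have h3 : valuation F (maximalIdeal R) (algebraMap R F r) < 1 :=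
      (valuation_lt_one_iff_mem _ _).2 h2
    rw [hr, hx] at h3
    exact lt_irrefl _ h3
  exact ⟨h1.unit, hr⟩

theorem exists_of_val_le {x : F} (hx : valuation F (maximalIdeal R) x ≤ 1) :
    ∃ r : R, algebraMap R F r = x :=
  IsDiscreteValuationRing.exists_lift_of_le_one (A := R) (K := F) hx

theorem val_unit {r : R} (hr : IsUnit r) : valuation F (maximalIdeal R) (algebraMap R F r) = 1 := by
  refine le_antisymm (valuation_le_one _ _) ?_
  rw [← not_lt, valuation_lt_one_iff_mem]
  intro h
  exact (IsLocalRing.mem_maximalIdeal r).1 h hr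

theorem good_of_integral (W : WeierstrassCurve F) (V : WeierstrassCurve R) (C₀ : VariableChange F)
    (hV : C₀ • W = V.map (algebraMap R F)) (hΔ : IsUnit V.Δ) (h2 : IsUnit (2 : R))
    (h3 : IsUnit (3 : R)) :
    (W.minimal R).HasGoodReduction R ∧
      affCard ((W.minimal R).reduction R) = affCard (V.map (residue R)) := by
  set W' := W.minimal R with hW'
  obtain ⟨C₁, hC₁⟩ : ∃ C₁ : VariableChange F, W' = C₁ • W := ⟨_, rfl⟩
  have hmin := (inferInstance : IsMinimal R W').val_Δ_maximal
  set D : VariableChange F := C₀ * C₁⁻¹ with hD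
  have hDW : D • W' = V.map (algebraMap R F) := by
    rw [hC₁, hD, mul_smul, inv_smul_smul, hV]
  have hint : IsIntegral R (D • W') := ⟨V, hDW⟩
  have hval1 : valuation F (maximalIdeal R) (D • W').Δ = 1 := by
    rw [hDW, map_Δ]
    exact val_unit R hΔ
  have hle : valuation F (maximalIdeal R) W'.Δ ≤ 1 := by
    obtain ⟨r, hr⟩ := Δ_integral_of_isIntegral R W'
    rw [← hr]
    exact valuation_le_one _ _
  have hge : 1 ≤ valuation F (maximalIdeal R) W'.Δ := by
    have h1 := valuation_Δ_aux_eq_of_isIntegral R (D • W')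
    have h2 := valuation_Δ_aux_eq_of_isIntegral R W'
    rcases le_total (valuation_Δ_aux R (D • W')) (valuation_Δ_aux R ((1 : VariableChange F) • W'))
      with h | h
    · rw [one_smul] at h
      have h' : (valuation_Δ_aux R (D • W')).1 ≤ (valuation_Δ_aux R W').1 := h
      rw [h1, h2, hval1] at h'
      exact h'
    · have h3 : valuation_Δ_aux R (D • W') ≤ valuation_Δ_aux R ((1 : VariableChange F) • W') :=
        hmin.2 hint h
      rw [one_smul] at h3
      have h' : (valuation_Δ_aux R (D • W')).1 ≤ (valuation_Δ_aux R W').1 := h3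
      rw [h1, h2, hval1] at h'
      exact h'
  have hW1 : valuation F (maximalIdeal R) W'.Δ = 1 := le_antisymm hle hge
  have hgood : W'.HasGoodReduction R := { goodReduction := hW1 }
  refine ⟨hgood, ?_⟩
  -- the unit u
  have hu12 : valuation F (maximalIdeal R) ((D.u⁻¹ : Fˣ) : F) ^ 12 = 1 := by
    have h := hval1
    rw [variableChange_Δ, map_mul, hW1, mul_one, map_pow] at h
    exact h
  have hu1 : valuation F (maximalIdeal R) ((D.u⁻¹ : Fˣ) : F) = 1 := by
    rcases lt_trichotomy (valuation F (maximalIdeal R) ((D.u⁻¹ : Fˣ) : F)) 1 with h | h | h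
    · have := pow_lt_one₀ zero_le h (by norm_num : (12 : ℕ) ≠ 0)
      rw [hu12] at this
      exact absurd this (lt_irrefl _)
    · exact h
    · have := one_lt_pow₀ h (by norm_num : (12 : ℕ) ≠ 0)
      rw [hu12] at this
      exact absurd this (lt_irrefl _)
  have huv : valuation F (maximalIdeal R) (D.u : F) = 1 := by
    have h : valuation F (maximalIdeal R) ((D.u : F) * ((D.u⁻¹ : Fˣ) : F)) = 1 := by
      rw [Units.mul_inv, map_one]
    rw [map_mul, hu1, mul_one] at h
    exact h
  obtain ⟨u, hu⟩ := unit_of_val_one R huv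
  have hF2 : (2 : F) ≠ 0 := by
    have := h2.map (algebraMap R F)
    rw [map_ofNat] at this
    exact this.ne_zero
  have hF3 : (3 : F) ≠ 0 := by
    have := h3.map (algebraMap R F)
    rw [map_ofNat] at this
    exact this.ne_zero
  obtain ⟨i2, hi2⟩ := h2.exists_right_inv
  obtain ⟨i3, hi3⟩ := h3.exists_right_inv
  have hi2F : algebraMap R F i2 = (2 : F)⁻¹ := by
    have := congrArg (algebraMap R F) hi2
    rw [map_mul, map_ofNat, map_one] at this
    exact eq_inv_of_mul_eq_one_right this
  have hi3F : algebraMap R F i3 = (3 : F)⁻¹ := by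
    have := congrArg (algebraMap R F) hi3
    rw [map_mul, map_ofNat, map_one] at this
    exact eq_inv_of_mul_eq_one_right this
  set I := integralModel R W' with hI
  have hI' : I.map (algebraMap R F) = W' := baseChange_integralModel_eq R W'
  have hu0 : (D.u : F) ≠ 0 := D.u.ne_zero
  have hui : ((D.u⁻¹ : Fˣ) : F) = (D.u : F)⁻¹ := by simp
  have e1 := congrArg WeierstrassCurve.a₁ hDW
  have e2 := congrArg WeierstrassCurve.a₂ hDW
  have e3 := congrArg WeierstrassCurve.a₃ hDW
  rw [variableChange_a₁, map_a₁, hui, ← hI', map_a₁] at e1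
  rw [variableChange_a₂, map_a₂, hui, ← hI', map_a₁, map_a₂] at e2
  rw [variableChange_a₃, map_a₃, hui, ← hI', map_a₁, map_a₃] at e3
  set ι := algebraMap R F with hι
  -- s
  obtain ⟨s, hs⟩ : ∃ s : R, ι s = D.s := by
    refine ⟨i2 * (u * V.a₁ - I.a₁), ?_⟩
    rw [map_mul, map_sub, map_mul, hi2F, hu, ← e1]
    field_simp
    ring
  obtain ⟨r, hr⟩ : ∃ r : R, ι r = D.r := by
    refine ⟨i3 * (u ^ 2 * V.a₂ - I.a₂ + s * I.a₁ + s ^ 2), ?_⟩
    rw [map_mul, map_add, map_add, map_sub, map_mul, map_pow, map_mul, map_pow, hi3F, hu, ← e2, hs]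
    field_simp
    ring
  obtain ⟨t, ht⟩ : ∃ t : R, ι t = D.t := by
    refine ⟨i2 * (u ^ 3 * V.a₃ - I.a₃ - r * I.a₁), ?_⟩
    rw [map_mul, map_sub, map_sub, map_mul, map_pow, map_mul, hi2F, hu, ← e3, hr]
    field_simp
    ring
  set DR : VariableChange R := ⟨u, r, s, t⟩ with hDR
  have hDRm : DR.map ι = D := by
    ext
    · exact hu
    · exact hr
    · exact hs
    · exact ht
  have hinj : Function.Injective ι := IsFractionRing.injective R F
  have hDRI : DR • I = V := by
    apply WeierstrassCurve.map_injective hinj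
    change (DR • I).map ι = V.map ι
    rw [← map_variableChange, hDRm, hI', hDW]
  have hres : (DR.map (residue R)) • (W'.reduction R) = V.map (residue R) := by
    rw [← hDRI, ← map_variableChange]
    rfl
  rw [← hres]
  unfold affCard
  exact (HasseProof.card_variableChange _ _).symm

/-- The linear coefficient of the local polynomial. -/
theorem coeff_localPolynomial (W : WeierstrassCurve F) (V : WeierstrassCurve R)
    (C₀ : VariableChange F) (hV : C₀ • W = V.map (algebraMap R F)) (hΔ : IsUnit V.Δ)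
    (h2 : IsUnit (2 : R)) (h3 : IsUnit (3 : R)) [Finite (ResidueField R)] :
    (W.localPolynomial R).coeff 1 =
      -((Nat.card (ResidueField R) : ℤ) - affCard (V.map (residue R))) := by
  obtain ⟨hg, hc⟩ := good_of_integral R W V C₀ hV hΔ h2 h3
  have hell : ((W.minimal R).reduction R).IsElliptic :=
    (hasGoodReduction_iff_isElliptic_reduction R).mp hg
  have h4 := HasseProof.card_point ((W.minimal R).reduction R)
    (((W.minimal R).reduction R).coe_Δ' ▸ ((W.minimal R).reduction R).Δ'.ne_zero)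
  unfold localPolynomial
  rw [if_pos hg, h4]
  unfold affCard at hc ⊢
  rw [hc]
  simp [Polynomial.coeff_one, Polynomial.coeff_X_pow]

end dvr

section map

theorem affCard_map_equiv {k k' : Type*} [Field k] [Field k'] (e : k ≃+* k')
    (W : WeierstrassCurve k) : affCard (W.map (e : k →+* k')) = affCard W := by
  unfold affCard
  symm
  refine Nat.card_congr (Equiv.subtypeEquiv (e.toEquiv.prodCongr e.toEquiv) fun p => ?_)
  rw [Affine.equation_iff, Affine.equation_iff]
  change _ ↔ (e p.2) ^ 2 + e W.a₁ * e p.1 * e p.2 + e W.a₃ * e p.2 =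
    (e p.1) ^ 3 + e W.a₂ * (e p.1) ^ 2 + e W.a₄ * e p.1 + e W.a₆
  rw [← e.injective.eq_iff]
  simp only [map_add, map_mul, map_pow]

end map

/-- A curve over `ℚ` has a model with integral coefficients. -/
theorem exists_int_model (E : WeierstrassCurve ℚ) : ∃ (W₀ : WeierstrassCurve ℤ)
    (C : VariableChange ℚ), C • E = W₀.map (Int.castRingHom ℚ) := by
  set d : ℕ := E.a₁.den * E.a₂.den * E.a₃.den * E.a₄.den * E.a₆.den with hd
  have hd0 : (d : ℚ) ≠ 0 := by
    rw [hd]
    push_cast
    have := E.a₁.den_ne_zero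
    have := E.a₂.den_ne_zero
    have := E.a₃.den_ne_zero
    have := E.a₄.den_ne_zero
    have := E.a₆.den_ne_zero
    positivity
  have key : ∀ (q : ℚ) (k : ℕ), 0 < k → q.den ∣ d → ∃ z : ℤ, (z : ℚ) = (d : ℚ) ^ k * q := by
    intro q k hk hq
    obtain ⟨e, he⟩ := hq
    refine ⟨(d : ℤ) ^ (k - 1) * e * q.num, ?_⟩
    have h1 : (d : ℚ) ^ k = (d : ℚ) ^ (k - 1) * d := by
      rw [← pow_succ]
      congr 1
      omega
    have h2 : (d : ℚ) = q.den * e := by rw [he]; push_cast; ring
    have h3 : (q.den : ℚ) * q = q.num := by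
      rw [mul_comm]; exact Rat.mul_den_eq_num q
    rw [h1]
    push_cast
    rw [← h3]
    conv_rhs => rw [mul_assoc]
    rw [show (d : ℚ) * q = e * (q.den * q) by rw [h2]; ring]
    ring
  obtain ⟨z1, h1⟩ := key E.a₁ 1 (by norm_num) ⟨E.a₂.den * E.a₃.den * E.a₄.den * E.a₆.den, by
    rw [hd]; ring⟩
  obtain ⟨z2, h2⟩ := key E.a₂ 2 (by norm_num) ⟨E.a₁.den * E.a₃.den * E.a₄.den * E.a₆.den, by
    rw [hd]; ring⟩
  obtain ⟨z3, h3⟩ := key E.a₃ 3 (by norm_num) ⟨E.a₁.den * E.a₂.den * E.a₄.den * E.a₆.den, by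
    rw [hd]; ring⟩
  obtain ⟨z4, h4⟩ := key E.a₄ 4 (by norm_num) ⟨E.a₁.den * E.a₂.den * E.a₃.den * E.a₆.den, by
    rw [hd]; ring⟩
  obtain ⟨z6, h6⟩ := key E.a₆ 6 (by norm_num) ⟨E.a₁.den * E.a₂.den * E.a₃.den * E.a₄.den, by
    rw [hd]; ring⟩
  refine ⟨⟨z1, z2, z3, z4, z6⟩, ⟨(Units.mk0 (d : ℚ) hd0)⁻¹, 0, 0, 0⟩, ?_⟩
  ext
  · rw [variableChange_a₁, map_a₁]; simp [h1]
  · rw [variableChange_a₂, map_a₂]; simp [h2]
  · rw [variableChange_a₃, map_a₃]; simp [h3]
  · rw [variableChange_a₄, map_a₄]; simp [h4]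
  · rw [variableChange_a₆, map_a₆]; simp [h6]

section numberfield

open NumberField LogExp Curve Local
open ArithmeticFunction (ofPowerSeries eulerProduct)

variable {K : Type u} [Field K] [NumberField K]

/-- The Euler product expansion with the exact local coefficients. -/
theorem logExpansion' (hH : Hasse.{u}) (hO : Orthogonality K) (W : WeierstrassCurve K) :
    ∃ x : HeightOneSpectrum (𝓞 K) → ℝ, (∀ v, |x v| ≤ 2) ∧
    (∀ s : ℂ, 3 / 2 < s.re → W.LSeries s ≠ 0) ∧
    (∀ t : ℝ, ∃ B : ℝ, ∀ ε : ℝ, 0 < ε → ε ≤ 1 →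
      |Real.log ‖W.LSeries ((3 / 2 + ε : ℝ) + t * Complex.I)‖ - cosSum x t ε| ≤ B) ∧
    ∀ v, v ∉ exc K → x v = -((((W.baseChange (v.adicCompletion K)).localPolynomial
      (v.adicCompletionIntegers K)).coeff 1 : ℤ) : ℝ) / √(qv v) := by
  classical
  have hloc : ∀ v : HeightOneSpectrum (𝓞 K), _ := fun v =>
    local_data (v.adicCompletionIntegers K) (W.baseChange (v.adicCompletion K)) hH
  choose a b α β h1 h2 h3 h4 h5 h6 using hloc
  have D : Data (qv (K := K)) a b α β (fun v => if v ∈ exc K then (qv v : ℝ) else √(qv v))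
      (exc K) := by
    refine ⟨one_lt_qv, ?_, finite_exc, h2, h3, ?_, ?_, ?_, ?_⟩
    · intro σ hσ
      have := hO.1 σ hσ
      simpa only [nrm_eq] using this
    · intro v
      split_ifs with hv
      · exact h4 v
      · rw [exc, Set.mem_ofPred_eq, not_or] at hv
        exact (h6 v hv.1 hv.2).1
    · intro v
      split_ifs with hv
      · exact h5 v
      · rw [exc, Set.mem_ofPred_eq, not_or] at hv
        exact (h6 v hv.1 hv.2).2
    · intro v
      split_ifs with hv
      · exact le_rfl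
      · have : (1 : ℝ) ≤ qv v := by exact_mod_cast (one_lt_qv v).le
        rw [Real.sqrt_le_left (by linarith)]
        nlinarith
    · intro v hv
      rw [if_neg hv]
  have hL : ∀ s, W.LSeries s = L (qv (K := K)) a b s := by
    intro s
    have e : W.LFunction = eulerProduct fun v : HeightOneSpectrum (𝓞 K) =>
        ofPowerSeries (qv v) (lps (a v) (b v)) := by
      unfold WeierstrassCurve.LFunction
      congr 1
      funext v
      unfold WeierstrassCurve.localEulerFactor WeierstrassCurve.localPowerSeries lps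
      rw [h1 v]
      rfl
    unfold WeierstrassCurve.LSeries L
    rw [e]
    rfl
  refine ⟨xs (qv (K := K)) a (exc K), D.abs_xs_le, fun s hs => ?_, fun t => ?_, fun v hv => ?_⟩
  · rw [hL]; exact D.L_ne hs
  · obtain ⟨B, hB⟩ := D.expansion
    refine ⟨B, fun ε hε hε1 => ?_⟩
    have := hB t ε hε hε1
    rw [hL]
    unfold cosSum
    simp only [nrm_eq]
    exact this
  · have h7 : (lpoly (a v) (b v)).coeff 1 = -(a v) := by
      rw [lpoly_coe]
      simp [Polynomial.coeff_one, Polynomial.coeff_X_pow]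
    rw [h1 v, h7]
    unfold xs
    rw [if_neg hv]
    push_cast
    rw [neg_neg]

/-- `a_p / √p` for an integral model `W₀` -/
noncomputable def yy (W₀ : WeierstrassCurve ℤ) (p : ℕ) : ℝ :=
  if p.Prime ∧ 3 < p ∧ ((W₀.Δ : ℤ) : ZMod p) ≠ 0 then
    ((p : ℝ) - Nat.card {xy : ZMod p × ZMod p //
      (W₀.map (Int.castRingHom (ZMod p))).toAffine.Equation xy.1 xy.2}) / √p
  else 0

theorem small_ne_zero {p : ℕ} (h3 : 3 < p) :
    (2 : ZMod p) ≠ 0 ∧ (3 : ZMod p) ≠ 0 := by
  constructor
  · intro h
    have h' : ((2 : ℕ) : ZMod p) = 0 := by exact_mod_cast h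
    rw [ZMod.natCast_eq_zero_iff] at h'
    have := Nat.le_of_dvd (by norm_num) h'
    omega
  · intro h
    have h' : ((3 : ℕ) : ZMod p) = 0 := by exact_mod_cast h
    rw [ZMod.natCast_eq_zero_iff] at h'
    have := Nat.le_of_dvd (by norm_num) h'
    omega

theorem abs_yy_le (W₀ : WeierstrassCurve ℤ) (p : ℕ) : |yy W₀ p| ≤ 2 := by
  unfold yy
  split_ifs with h
  · obtain ⟨hp, h3, hΔ⟩ := h
    have : Fact p.Prime := ⟨hp⟩
    obtain ⟨n2, n3⟩ := small_ne_zero h3
    have hΔ' : (W₀.map (Int.castRingHom (ZMod p))).Δ ≠ 0 := by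
      rw [map_Δ]; exact hΔ
    have hell : (W₀.map (Int.castRingHom (ZMod p))).IsElliptic := ⟨isUnit_iff_ne_zero.2 hΔ'⟩
    have h1 := HasseProof.hasse n2 n3 (W₀.map (Int.castRingHom (ZMod p)))
    rw [HasseProof.card_point _ hΔ', Nat.card_zmod] at h1
    have hp0 : (0 : ℝ) < p := by exact_mod_cast hp.pos
    rw [abs_div, abs_of_pos (Real.sqrt_pos.2 hp0), div_le_iff₀ (Real.sqrt_pos.2 hp0)]
    apply abs_le_of_sq_le_sq
    · rw [mul_pow, Real.sq_sqrt hp0.le]
      have h2 : (((p : ℤ) + 1 - ((Nat.card {xy : ZMod p × ZMod p //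
        (W₀.map (Int.castRingHom (ZMod p))).toAffine.Equation xy.1 xy.2} + 1 : ℕ) : ℤ) : ℤ) : ℝ) ^ 2
        ≤ 4 * (p : ℝ) := by exact_mod_cast h1
      push_cast at h2
      nlinarith [h2]
    · positivity
  · simp

/-- The coefficient at a place of degree one depends only on the rational prime. -/
theorem coeff_eq_yy (E : WeierstrassCurve ℚ) (W₀ : WeierstrassCurve ℤ) (C : VariableChange ℚ)
    (hC : C • E = W₀.map (Int.castRingHom ℚ)) (v : HeightOneSpectrum (𝓞 K))
    {p : ℕ} (hv : Ideal.absNorm v.asIdeal = p) (hp : p.Prime) (h3 : 3 < p)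
    (hΔ : ((W₀.Δ : ℤ) : ZMod p) ≠ 0) :
    v ∉ exc K ∧ -(((((E.baseChange K).baseChange (v.adicCompletion K)).localPolynomial
      (v.adicCompletionIntegers K)).coeff 1 : ℤ) : ℝ) / √(qv v) = yy W₀ p := by
  have hfact : Fact p.Prime := ⟨hp⟩
  set R := v.adicCompletionIntegers K with hR
  set F := v.adicCompletion K with hF
  set k := ResidueField R with hk
  have hcard : Nat.card k = p := by
    rw [← hv]
    exact qv_eq v
  have := Fintype.ofFinite k
  have hcard' : Fintype.card k = Fintype.card (ZMod p) := by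
    rw [ZMod.card, ← hcard, Nat.card_eq_fintype_card]
  let e : k ≃+* ZMod p := FiniteField.ringEquivOfCardEq hcard'
  have hint : ∀ z : ℤ, (z : ZMod p) ≠ 0 → (z : k) ≠ 0 := by
    intro z hz h
    apply hz
    have := congrArg e h
    rw [map_intCast, map_zero] at this
    exact this
  have hunit : ∀ z : ℤ, (z : ZMod p) ≠ 0 → IsUnit (z : R) := by
    intro z hz
    rw [← residue_ne_zero_iff_isUnit, map_intCast]
    exact hint z hz
  obtain ⟨n2, n3⟩ := small_ne_zero h3
  have u2 : IsUnit (2 : R) := by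
    have := hunit 2 (by exact_mod_cast n2)
    exact_mod_cast this
  have u3 : IsUnit (3 : R) := by
    have := hunit 3 (by exact_mod_cast n3)
    exact_mod_cast this
  have k2 : (2 : k) ≠ 0 := by
    have := hint 2 (by exact_mod_cast n2)
    exact_mod_cast this
  have k3 : (3 : k) ≠ 0 := by
    have := hint 3 (by exact_mod_cast n3)
    exact_mod_cast this
  refine ⟨?_, ?_⟩
  · intro h
    rcases h with h | h
    · exact k2 h
    · exact k3 h
  set V : WeierstrassCurve R := W₀.map (Int.castRingHom R) with hVdef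
  set φ : ℚ →+* F := (algebraMap K F).comp (algebraMap ℚ K) with hφ
  have hV : (C.map φ) • ((E.baseChange K).baseChange F) = V.map (algebraMap R F) := by
    have e1 : (E.baseChange K).baseChange F = E.map φ := by
      rw [WeierstrassCurve.baseChange, WeierstrassCurve.baseChange, WeierstrassCurve.map_map]
    rw [e1, map_variableChange, hC, hVdef, WeierstrassCurve.map_map, WeierstrassCurve.map_map]
    congr 1
    exact Subsingleton.elim _ _
  have hVΔ : IsUnit V.Δ := by
    rw [hVdef, map_Δ]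
    exact hunit _ hΔ
  have h1 := coeff_localPolynomial R ((E.baseChange K).baseChange F) V (C.map φ) hV hVΔ u2 u3
  rw [h1]
  have h2 : affCard (V.map (residue R)) = Nat.card {xy : ZMod p × ZMod p //
      (W₀.map (Int.castRingHom (ZMod p))).toAffine.Equation xy.1 xy.2} := by
    have e5 : ((V.map (residue R)).map (e : k →+* ZMod p)) =
        W₀.map (Int.castRingHom (ZMod p)) := by
      rw [hVdef, WeierstrassCurve.map_map, WeierstrassCurve.map_map]
      exact congrArg (fun f => W₀.map f) (Subsingleton.elim _ _)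
    rw [← affCard_map_equiv e, e5]
    rfl
  unfold yy
  rw [if_pos ⟨hp, h3, hΔ⟩, h2, hcard]
  have hq : qv v = p := by rw [qv_eq, hv]
  rw [hq]
  push_cast
  ring

end numberfield

end Pool.Agent.MPfb225e.Fam
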