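import Mathlib
import Pool.Agent.Lib.MP_fb225e_nt.Fam.Mean

/-!
MP_fb225e_nt, EdgeFamilies, part 8: weights `|cos(t log p)|`.
-/

namespace Pool.Agent.MPfb225e.Fam

open Module Filter Topology Real

/-- weighted sums over the primes -/
noncomputable def TT (f : ℕ → ℝ) (h : Nat.Primes → ℝ) (ε : ℝ) : ℝ :=
  ∑' p : Nat.Primes, f p * ((p : ℝ) ^ (-(1 + ε)) * h p)

theorem TT_cos (f : ℕ → ℝ) (t ε : ℝ) : TT f (fun p => Real.cos (t * Real.log p)) ε = S f t ε := rfl

theorem summable_TT {f : ℕ → ℝ} {C : ℝ} (hf : ∀ p : Nat.Primes, |f p| ≤ C)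
    {h : Nat.Primes → ℝ} {D : ℝ} (hh : ∀ p, |h p| ≤ D) {ε : ℝ} (hε : 0 < ε) :
    Summable fun p : Nat.Primes => f p * ((p : ℝ) ^ (-(1 + ε)) * h p) := by
  refine Summable.of_norm_bounded ((summable_primes hε).mul_left (C * D)) fun p => ?_
  rw [Real.norm_eq_abs, abs_mul, abs_mul]
  have hC : 0 ≤ C := (abs_nonneg _).trans (hf p)
  have h0 : 0 ≤ (p : ℝ) ^ (-(1 + ε)) := Real.rpow_nonneg (by positivity) _
  rw [abs_of_nonneg h0]
  calc |f p| * ((p : ℝ) ^ (-(1 + ε)) * |h p|) ≤ C * ((p : ℝ) ^ (-(1 + ε)) * D) :=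
        mul_le_mul (hf p) (mul_le_mul_of_nonneg_left (hh p) h0) (by positivity) hC
    _ = C * D * (p : ℝ) ^ (-(1 + ε)) := by ring

theorem TT_add {f : ℕ → ℝ} {C : ℝ} (hf : ∀ p : Nat.Primes, |f p| ≤ C)
    {h h' : Nat.Primes → ℝ} {D D' : ℝ} (hh : ∀ p, |h p| ≤ D) (hh' : ∀ p, |h' p| ≤ D') {ε : ℝ}
    (hε : 0 < ε) : TT f (fun p => h p + h' p) ε = TT f h ε + TT f h' ε := by
  unfold TT
  rw [← (summable_TT hf hh hε).tsum_add (summable_TT hf hh' hε)]
  exact tsum_congr fun p => by ring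

theorem TT_smul (f : ℕ → ℝ) (h : Nat.Primes → ℝ) (c ε : ℝ) :
    TT f (fun p => c * h p) ε = c * TT f h ε := by
  unfold TT
  rw [← tsum_mul_left]
  exact tsum_congr fun p => by ring

theorem TT_mono {f : ℕ → ℝ} {C : ℝ} (hf : ∀ p : Nat.Primes, |f p| ≤ C)
    (hf0 : ∀ p : Nat.Primes, 0 ≤ f p)
    {h h' : Nat.Primes → ℝ} {D D' : ℝ} (hh : ∀ p, |h p| ≤ D) (hh' : ∀ p, |h' p| ≤ D')
    (hle : ∀ p, h p ≤ h' p) {ε : ℝ} (hε : 0 < ε) : TT f h ε ≤ TT f h' ε := by
  unfold TT
  refine (summable_TT hf hh hε).tsum_le_tsum (fun p => ?_) (summable_TT hf hh' hε)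
  have h0 : 0 ≤ (p : ℝ) ^ (-(1 + ε)) := Real.rpow_nonneg (by positivity) _
  exact mul_le_mul_of_nonneg_left (mul_le_mul_of_nonneg_left (hle p) h0) (hf0 p)

theorem integral_cos_int (j : ℤ) : (∫ θ in (0 : ℝ)..π, Real.cos (j * θ)) = if j = 0 then π else 0 := by
  split_ifs with h
  · subst h
    simp
  · have hj : (j : ℝ) ≠ 0 := by exact_mod_cast h
    rw [intervalIntegral.integral_comp_mul_left (fun x => Real.cos x) hj, integral_cos]
    rw [Real.sin_int_mul_pi]
    simp

variable {f : ℕ → ℝ} {M : ℝ}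

theorem cont_aux (k : ℕ) (j : ℤ) : Continuous fun θ : ℝ => Real.cos θ ^ k * Real.cos (j * θ) := by
  fun_prop

theorem abs_aux (t : ℝ) (k : ℕ) (j : ℤ) (p : Nat.Primes) :
    |Real.cos (t * Real.log p) ^ k * Real.cos (j * (t * Real.log p))| ≤ 1 := by
  rw [abs_mul, abs_pow]
  exact mul_le_one₀ (pow_le_one₀ (abs_nonneg _) (Real.abs_cos_le_one _)) (abs_nonneg _)
    (Real.abs_cos_le_one _)

/-- mean values of `f(p) cos^k(t log p) cos(j t log p)` -/
theorem HasMean.weyl (hf : HasMean f M) {t : ℝ} (ht : t ≠ 0) (k : ℕ) : ∀ j : ℤ,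
    Tendsto (fun ε : ℝ => TT f (fun p => Real.cos (t * Real.log p) ^ k *
      Real.cos (j * (t * Real.log p))) ε / Real.log (1 / ε)) (𝓝[>] 0)
      (𝓝 (M * ((∫ θ in (0 : ℝ)..π, Real.cos θ ^ k * Real.cos (j * θ)) / π))) := by
  induction k with
  | zero =>
    intro j
    have h1 := hf.lim (j * t)
    have e1 : M * ((∫ θ in (0 : ℝ)..π, Real.cos θ ^ 0 * Real.cos (j * θ)) / π) =
        if (j : ℝ) * t = 0 then M else 0 := by
      have e2 : (∫ θ in (0 : ℝ)..π, Real.cos θ ^ 0 * Real.cos (j * θ)) =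
          ∫ θ in (0 : ℝ)..π, Real.cos (j * θ) := by simp
      rw [e2, integral_cos_int]
      by_cases hj : j = 0
      · subst hj
        simp [Real.pi_ne_zero]
      · rw [if_neg hj, if_neg]
        · simp
        · exact mul_ne_zero (by exact_mod_cast hj) ht
    rw [e1]
    refine h1.congr fun ε => ?_
    congr 1
    unfold S TT
    refine tsum_congr fun p => ?_
    change f p * ((p : ℝ) ^ (-(1 + ε)) * Real.cos ((j : ℝ) * t * Real.log p)) =
      f p * ((p : ℝ) ^ (-(1 + ε)) * (Real.cos (t * Real.log p) ^ 0 *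
        Real.cos (j * (t * Real.log p))))
    rw [pow_zero, one_mul, mul_assoc (j : ℝ) t]
  | succ k ih =>
    intro j
    obtain ⟨C, hC⟩ := hf.bdd
    have h1 := ((ih (j + 1)).add (ih (j - 1))).const_mul (1 / 2)
    have e1 : M * ((∫ θ in (0 : ℝ)..π, Real.cos θ ^ (k + 1) * Real.cos (j * θ)) / π) =
        1 / 2 * (M * ((∫ θ in (0 : ℝ)..π, Real.cos θ ^ k * Real.cos ((j + 1 : ℤ) * θ)) / π) +
        M * ((∫ θ in (0 : ℝ)..π, Real.cos θ ^ k * Real.cos ((j - 1 : ℤ) * θ)) / π)) := by
      have e2 : (∫ θ in (0 : ℝ)..π, Real.cos θ ^ (k + 1) * Real.cos (j * θ)) =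
          1 / 2 * ((∫ θ in (0 : ℝ)..π, Real.cos θ ^ k * Real.cos ((j + 1 : ℤ) * θ)) +
          (∫ θ in (0 : ℝ)..π, Real.cos θ ^ k * Real.cos ((j - 1 : ℤ) * θ))) := by
        rw [← intervalIntegral.integral_add ((cont_aux k (j + 1)).intervalIntegrable _ _)
          ((cont_aux k (j - 1)).intervalIntegrable _ _), ← intervalIntegral.integral_const_mul]
        refine intervalIntegral.integral_congr fun θ _ => ?_
        push_cast
        rw [add_mul, sub_mul, one_mul, Real.cos_add, Real.cos_sub]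
        ring
      rw [e2]
      ring
    rw [e1]
    refine h1.congr' ?_
    filter_upwards [eventually_pos] with ε hε
    rw [← add_div, ← mul_div_assoc]
    congr 1
    rw [← TT_add hC (abs_aux t k (j + 1)) (abs_aux t k (j - 1)) hε, ← TT_smul]
    unfold TT
    refine tsum_congr fun p => ?_
    push_cast
    rw [add_mul, sub_mul, one_mul, Real.cos_add, Real.cos_sub]
    ring

theorem abs_eval_le (Q : Polynomial ℝ) : ∃ D : ℝ, ∀ x : ℝ, |x| ≤ 1 → |Q.eval x| ≤ D := by
  have h := isCompact_Icc (a := (-1 : ℝ)) (b := 1)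
  obtain ⟨D, hD⟩ := h.exists_bound_of_continuousOn (f := fun x => Q.eval x)
    Q.continuous.continuousOn
  exact ⟨D, fun x hx => hD x (abs_le.1 hx)⟩

theorem HasMean.poly (hf : HasMean f M) {t : ℝ} (ht : t ≠ 0) (Q : Polynomial ℝ) :
    Tendsto (fun ε : ℝ => TT f (fun p => Q.eval (Real.cos (t * Real.log p))) ε /
      Real.log (1 / ε)) (𝓝[>] 0) (𝓝 (M * ((∫ θ in (0 : ℝ)..π, Q.eval (Real.cos θ)) / π))) := by
  obtain ⟨C, hC⟩ := hf.bdd
  induction Q using Polynomial.induction_on' with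
  | add P Q hP hQ =>
    obtain ⟨D, hD⟩ := abs_eval_le P
    obtain ⟨D', hD'⟩ := abs_eval_le Q
    have h1 := hP.add hQ
    have c1 : Continuous fun θ : ℝ => P.eval (Real.cos θ) := P.continuous.comp Real.continuous_cos
    have c2 : Continuous fun θ : ℝ => Q.eval (Real.cos θ) := Q.continuous.comp Real.continuous_cos
    have e1 : M * ((∫ θ in (0 : ℝ)..π, (P + Q).eval (Real.cos θ)) / π) =
        M * ((∫ θ in (0 : ℝ)..π, P.eval (Real.cos θ)) / π) +
        M * ((∫ θ in (0 : ℝ)..π, Q.eval (Real.cos θ)) / π) := by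
      simp only [Polynomial.eval_add]
      rw [intervalIntegral.integral_add (c1.intervalIntegrable _ _) (c2.intervalIntegrable _ _)]
      ring
    rw [e1]
    refine h1.congr' ?_
    filter_upwards [eventually_pos] with ε hε
    rw [← add_div]
    congr 1
    simp only [Polynomial.eval_add]
    exact (TT_add hC (fun p => hD _ (Real.abs_cos_le_one _))
      (fun p => hD' _ (Real.abs_cos_le_one _)) hε).symm
  | monomial k a =>
    have h1 := (hf.weyl ht k 0).const_mul a
    have e1 : M * ((∫ θ in (0 : ℝ)..π, (Polynomial.monomial k a).eval (Real.cos θ)) / π) =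
        a * (M * ((∫ θ in (0 : ℝ)..π, Real.cos θ ^ k * Real.cos ((0 : ℤ) * θ)) / π)) := by
      simp only [Polynomial.eval_monomial]
      rw [intervalIntegral.integral_const_mul]
      simp
      ring
    rw [e1]
    refine h1.congr fun ε => ?_
    rw [← mul_div_assoc, ← TT_smul]
    congr 1
    unfold TT
    refine tsum_congr fun p => ?_
    simp

theorem integral_abs_cos : (∫ θ in (0 : ℝ)..π, |Real.cos θ|) = 2 := by
  have hc : Continuous fun θ : ℝ => |Real.cos θ| := Real.continuous_cos.abs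
  rw [← intervalIntegral.integral_add_adjacent_intervals (b := π / 2)
    (hc.intervalIntegrable _ _) (hc.intervalIntegrable _ _)]
  have h1 : (∫ θ in (0 : ℝ)..(π / 2), |Real.cos θ|) = ∫ θ in (0 : ℝ)..(π / 2), Real.cos θ := by
    refine intervalIntegral.integral_congr fun θ hθ => ?_
    rw [Set.uIcc_of_le (by positivity)] at hθ
    exact abs_of_nonneg (Real.cos_nonneg_of_mem_Icc ⟨by linarith [hθ.1, Real.pi_pos], hθ.2⟩)
  have h2 : (∫ θ in (π / 2)..π, |Real.cos θ|) = ∫ θ in (π / 2)..π, -Real.cos θ := by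
    refine intervalIntegral.integral_congr fun θ hθ => ?_
    rw [Set.uIcc_of_le (by linarith [Real.pi_pos])] at hθ
    exact abs_of_nonpos (Real.cos_nonpos_of_pi_div_two_le_of_le hθ.1 (by linarith [hθ.2, Real.pi_pos]))
  rw [h1, h2, intervalIntegral.integral_neg, integral_cos, integral_cos]
  simp
  norm_num

/-- The constant `κ_t`. -/
noncomputable def kap (t : ℝ) : ℝ := if t = 0 then 1 else 2 / π

/-- upper bound for the sum with weight `|cos(t log p)|` -/
theorem HasMean.abs_cos (hf : HasMean f M) (hf0 : ∀ p : Nat.Primes, 0 ≤ f p) (hM : 0 ≤ M) (t : ℝ)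
    {δ : ℝ} (hδ : 0 < δ) :
    ∀ᶠ ε : ℝ in 𝓝[>] 0, TT f (fun p => |Real.cos (t * Real.log p)|) ε / Real.log (1 / ε) ≤
      kap t * M + δ := by
  obtain ⟨C, hC⟩ := hf.bdd
  by_cases ht : t = 0
  · subst ht
    have h1 := hf.lim 0
    rw [if_pos rfl] at h1
    have h2 : ∀ᶠ ε : ℝ in 𝓝[>] 0, S f 0 ε / Real.log (1 / ε) < M + δ :=
      h1.eventually (gt_mem_nhds (by linarith))
    filter_upwards [h2] with ε hε
    unfold kap
    rw [if_pos rfl, one_mul]
    refine le_trans (le_of_eq ?_) hε.le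
    congr 1
    unfold S TT
    exact tsum_congr fun p => by simp
  · set η : ℝ := δ / (2 * (2 * M + 1)) with hη
    have hM1 : 0 < 2 * (2 * M + 1) := by positivity
    have hη0 : 0 < η := by positivity
    obtain ⟨Q, hQ⟩ := exists_polynomial_near_of_continuousOn (-1) 1 (fun x => |x|)
      continuous_abs.continuousOn η hη0
    have h1 := hf.poly ht (Q + Polynomial.C η)
    have hcQ : Continuous fun θ : ℝ => (Q + Polynomial.C η).eval (Real.cos θ) :=
      (Q + Polynomial.C η).continuous.comp Real.continuous_cos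
    have hint : (∫ θ in (0 : ℝ)..π, (Q + Polynomial.C η).eval (Real.cos θ)) ≤ 2 + 2 * η * π := by
      have h2 : (∫ θ in (0 : ℝ)..π, (Q + Polynomial.C η).eval (Real.cos θ)) ≤
          ∫ θ in (0 : ℝ)..π, (|Real.cos θ| + 2 * η) := by
        refine intervalIntegral.integral_mono_on Real.pi_pos.le (hcQ.intervalIntegrable _ _)
          ((Real.continuous_cos.abs.add continuous_const).intervalIntegrable _ _) fun θ _ => ?_
        have h3 := hQ (Real.cos θ) ⟨Real.neg_one_le_cos θ, Real.cos_le_one θ⟩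
        rw [abs_lt] at h3
        rw [Polynomial.eval_add, Polynomial.eval_C]
        linarith [h3.2]
      rw [intervalIntegral.integral_add (Real.continuous_cos.abs.intervalIntegrable _ _)
        (continuous_const.intervalIntegrable _ _), integral_abs_cos,
        intervalIntegral.integral_const] at h2
      simp only [sub_zero, smul_eq_mul] at h2
      linarith
    have hlt : M * ((∫ θ in (0 : ℝ)..π, (Q + Polynomial.C η).eval (Real.cos θ)) / π) <
        kap t * M + δ := by
      unfold kap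
      rw [if_neg ht]
      have h3 : (∫ θ in (0 : ℝ)..π, (Q + Polynomial.C η).eval (Real.cos θ)) / π ≤
          2 / π + 2 * η := by
        rw [div_le_iff₀ Real.pi_pos]
        have : (2 / π + 2 * η) * π = 2 + 2 * η * π := by
          field_simp
        rw [this]
        exact hint
      have h4 := mul_le_mul_of_nonneg_left h3 hM
      have h5 : M * (2 * η) < δ := by
        rw [hη]
        have h6 : M * (2 * (δ / (2 * (2 * M + 1)))) = δ * (2 * M) / (2 * (2 * M + 1)) := by ring
        rw [h6, div_lt_iff₀ hM1]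
        nlinarith
      calc _ ≤ M * (2 / π + 2 * η) := h4
        _ = 2 / π * M + M * (2 * η) := by ring
        _ < _ := by linarith
    have h6 := h1.eventually (gt_mem_nhds hlt)
    filter_upwards [h6, eventually_pos, eventually_log_pos] with ε h7 hε hl
    refine le_trans ?_ h7.le
    refine div_le_div_of_nonneg_right ?_ hl.le
    obtain ⟨D, hD⟩ := abs_eval_le (Q + Polynomial.C η)
    refine TT_mono hC hf0 (D := 1) (D' := D) ?_ ?_ ?_ hε
    · intro p
      rw [abs_abs]
      exact Real.abs_cos_le_one _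
    · intro p
      exact hD _ (Real.abs_cos_le_one _)
    · intro p
      have h3 := hQ (Real.cos (t * Real.log p)) ⟨Real.neg_one_le_cos _, Real.cos_le_one _⟩
      rw [abs_lt] at h3
      rw [Polynomial.eval_add, Polynomial.eval_C]
      linarith [h3.1]

end Pool.Agent.MPfb225e.Fam
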