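import Mathlib
import Pool.Agent.Lib.MP_fb225e_nt.Fam.LocalFactor
import Pool.Agent.Lib.MP_fb225e_nt.Fam.Density
import Pool.Agent.Lib.MP_fb225e_nt.Fam.Weyl

/-!
MP_fb225e_nt, EdgeFamilies, part 9: the inequalities for the orders of vanishing on the edge.
-/

namespace Pool.Agent.MPfb225e.Fam

open NumberField IsDedekindDomain Module Filter Topology Curve WeierstrassCurve

universe u

/-- order of vanishing at `3/2 + it` -/
noncomputable def ord (F : ℂ → ℂ) (t : ℝ) : ℕ := analyticOrderNatAt F (3 / 2 + t * Complex.I)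

theorem disc_ne_zero (E : WeierstrassCurve ℚ) [E.IsElliptic] {W₀ : WeierstrassCurve ℤ}
    {C : VariableChange ℚ} (hC : C • E = W₀.map (Int.castRingHom ℚ)) : W₀.Δ ≠ 0 := by
  intro h
  have h1 : (C • E).Δ ≠ 0 := by
    rw [variableChange_Δ]
    exact mul_ne_zero (pow_ne_zero _ (by simp)) (E.coe_Δ' ▸ E.Δ'.ne_zero)
  apply h1
  rw [hC, map_Δ, h]
  simp

/-- **Comparison**: the orders of vanishing in terms of sums over rational primes. -/
theorem tendsto_yy (E : WeierstrassCurve ℚ) [E.IsElliptic] {W₀ : WeierstrassCurve ℤ}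
    {C : VariableChange ℚ} (hC : C • E = W₀.map (Int.castRingHom ℚ))
    (K : Type u) [Field K] [NumberField K] (F : ℂ → ℂ) (hF : Differentiable ℂ F)
    (hFL : ∀ s : ℂ, 3 / 2 < s.re → F s = (E.baseChange K).LSeries s) (t : ℝ) :
    Tendsto (fun ε : ℝ => S (fun p => yy W₀ p * homCount K p) t ε / Real.log (1 / ε))
      (𝓝[>] 0) (𝓝 (-(ord F t : ℝ))) := by
  have hΔ := disc_ne_zero E hC
  have hO := orthogonality K
  obtain ⟨x, hx, hne, hexp, hxv⟩ := logExpansion' hasse_module hO (E.baseChange K)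
  have hfin : {v : HeightOneSpectrum (𝓞 K) | (N v).Prime ∧ x v ≠ yy W₀ (N v)}.Finite := by
    refine ((northcott_qv (K := K)).finite_le (max 3 W₀.Δ.natAbs)).subset ?_
    rintro v ⟨hp, hv⟩
    rw [Set.mem_ofPred_eq, qv_eq]
    by_contra hlt
    rw [not_le] at hlt
    have h3 : 3 < N v := lt_of_le_of_lt (le_max_left _ _) hlt
    have h4 : W₀.Δ.natAbs < N v := lt_of_le_of_lt (le_max_right _ _) hlt
    have h5 : ((W₀.Δ : ℤ) : ZMod (N v)) ≠ 0 := by
      intro h
      rw [ZMod.intCast_zmod_eq_zero_iff_dvd] at h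
      have h6 := Int.natAbs_dvd_natAbs.2 h
      rw [Int.natAbs_natCast] at h6
      have := Nat.le_of_dvd (Nat.pos_of_ne_zero (Int.natAbs_ne_zero.2 hΔ)) h6
      omega
    obtain ⟨h7, h8⟩ := coeff_eq_yy E W₀ C hC v rfl hp h3 h5
    apply hv
    rw [hxv v h7, h8]
  obtain ⟨B, hB⟩ := compare hO.1 x 2 hx (yy W₀) (abs_yy_le W₀) hfin
  obtain ⟨B', hB'⟩ := hexp t
  -- the order
  have han : AnalyticAt ℂ F (3 / 2 + t * Complex.I) := hF.analyticAt _
  have hFne : ∀ s : ℂ, 3 / 2 < s.re → F s ≠ 0 := fun s hs => by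
    rw [hFL s hs]; exact hne s hs
  have htop : analyticOrderAt F (3 / 2 + t * Complex.I) ≠ ⊤ := by
    intro ht
    rw [analyticOrderAt_eq_top] at ht
    have hline : Tendsto (fun ε : ℝ => (3 / 2 + t * Complex.I) + (ε : ℂ)) (𝓝[>] 0)
        (𝓝 (3 / 2 + t * Complex.I)) := by
      have h1 : Tendsto (fun ε : ℝ => (3 / 2 + t * Complex.I) + (ε : ℂ)) (𝓝 0)
        (𝓝 ((3 / 2 + t * Complex.I) + ((0 : ℝ) : ℂ))) :=
        (continuous_const.add Complex.continuous_ofReal).tendsto 0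
      simp only [Complex.ofReal_zero, add_zero] at h1
      exact h1.mono_left nhdsWithin_le_nhds
    obtain ⟨ε, h1, h2⟩ := ((hline.eventually ht).and self_mem_nhdsWithin).exists
    have h2 : 0 < ε := h2
    refine hFne _ ?_ h1
    simp
    exact h2
  have hord : analyticOrderAt F (3 / 2 + t * Complex.I) = (ord F t : ℕ∞) :=
    (Nat.cast_analyticOrderNatAt htop).symm
  have h1 := Edge.tendsto_log_norm_div han hord
  refine tendsto_of_bounded_sub (B := B + B')
    (h := fun ε : ℝ => Real.log ‖F (3 / 2 + t * Complex.I + ε)‖) ?_ h1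
  have hsmall : ∀ᶠ ε : ℝ in 𝓝[>] 0, ε < 1 := by
    have : ∀ᶠ ε : ℝ in 𝓝 0, ε < 1 := gt_mem_nhds (by norm_num)
    exact this.filter_mono nhdsWithin_le_nhds
  filter_upwards [eventually_pos, hsmall] with ε h4 h5
  have h6 := hB' ε h4 h5.le
  have e : ((3 / 2 + ε : ℝ) : ℂ) + t * Complex.I = 3 / 2 + t * Complex.I + ε := by
    push_cast; ring
  rw [e] at h6
  rw [hFL _ (by simp; exact h4)]
  have h7 := hB t ε h4
  rw [abs_le] at h6 h7 ⊢
  constructor <;> linarith [h6.1, h6.2, h7.1, h7.2]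

theorem exists_y (E : WeierstrassCurve ℚ) [E.IsElliptic] : ∃ y : ℕ → ℝ, (∀ p, |y p| ≤ 2) ∧
    ∀ (K : Type u) [Field K] [NumberField K] (F : ℂ → ℂ), Differentiable ℂ F →
      (∀ s : ℂ, 3 / 2 < s.re → F s = (E.baseChange K).LSeries s) →
      ∀ t : ℝ, Tendsto (fun ε : ℝ => S (fun p => y p * homCount K p) t ε / Real.log (1 / ε))
        (𝓝[>] 0) (𝓝 (-(ord F t : ℝ))) := by
  obtain ⟨W₀, C, hC⟩ := exists_int_model E
  exact ⟨yy W₀, abs_yy_le W₀, fun K _ _ F hF hFL t => tendsto_yy E hC K F hF hFL t⟩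

section main

variable (E : WeierstrassCurve ℚ) [E.IsElliptic] {ι : Type*} [Fintype ι]
  (K : ι → Type u) [∀ i, Field (K i)] [∀ i, NumberField (K i)]
  (L : Type u) [Field L] [NumberField L] [IsGalois ℚ L] (hK : ∀ i, Nonempty (K i →ₐ[ℚ] L))
  (F : ι → ℂ → ℂ) (hF : ∀ i, Differentiable ℂ (F i))
  (hFL : ∀ i, ∀ s : ℂ, 3 / 2 < s.re → F i s = (E.baseChange (K i)).LSeries s)

include hK hF hFL

/-- **The edge inequality.** -/
theorem edge_L1 (c : ι → ℝ) (t : ℝ) : |∑ i, c i * (ord (F i) t : ℝ)| ≤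
    2 * (kap t * ((∑ σ : L ≃ₐ[ℚ] L, |∑ i, c i * (fix (K i) σ : ℝ)|) / Nat.card (L ≃ₐ[ℚ] L))) := by
  classical
  obtain ⟨y, hy, hlim⟩ := exists_y.{u} E
  set M : ℝ := (∑ σ : L ≃ₐ[ℚ] L, |∑ i, c i * (fix (K i) σ : ℝ)|) / Nat.card (L ≃ₐ[ℚ] L) with hM
  have hM0 : 0 ≤ M := by positivity
  have hg : HasMean (fun p => |∑ i, c i * (homCount (K i) p : ℝ)|) M :=
    hasMean_fun (ι := ι) (K := K) hK (fun a => |∑ i, c i * (a i : ℝ)|)
  obtain ⟨C, hC⟩ := hg.bdd
  have h1 : Tendsto (fun ε : ℝ => (∑ i, c i * S (fun p => y p * homCount (K i) p) t ε) /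
      Real.log (1 / ε)) (𝓝[>] 0) (𝓝 (-∑ i, c i * (ord (F i) t : ℝ))) := by
    have h2 := tendsto_finsetSum Finset.univ fun i _ =>
      (hlim (K i) (F i) (hF i) (hFL i) t).const_mul (c i)
    have e : (∑ i, c i * -(ord (F i) t : ℝ)) = -∑ i, c i * (ord (F i) t : ℝ) := by
      rw [← Finset.sum_neg_distrib]
      exact Finset.sum_congr rfl fun i _ => by ring
    rw [e] at h2
    refine h2.congr fun ε => ?_
    rw [Finset.sum_div]
    exact Finset.sum_congr rfl fun i _ => by ring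
  have h3 := h1.abs
  rw [abs_neg] at h3
  have hcosb : ∀ p : Nat.Primes, |(|Real.cos (t * Real.log p)|)| ≤ 1 := fun p => by
    rw [abs_abs]; exact Real.abs_cos_le_one _
  have hbound : ∀ᶠ ε : ℝ in 𝓝[>] 0,
      |(∑ i, c i * S (fun p => y p * homCount (K i) p) t ε) / Real.log (1 / ε)| ≤
      2 * (TT (fun p => |∑ i, c i * (homCount (K i) p : ℝ)|)
        (fun p => |Real.cos (t * Real.log p)|) ε / Real.log (1 / ε)) := by
    filter_upwards [eventually_pos, eventually_log_pos] with ε hε hl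
    rw [abs_div, abs_of_pos hl, ← mul_div_assoc]
    refine div_le_div_of_nonneg_right ?_ hl.le
    have hb : ∀ i, ∀ p : Nat.Primes, |y p * homCount (K i) p| ≤ 2 * finrank ℤ (𝓞 (K i)) := by
      intro i p
      rw [abs_mul]
      have h5 : |(homCount (K i) p : ℝ)| ≤ finrank ℤ (𝓞 (K i)) := by
        rw [abs_of_nonneg (by positivity)]
        exact_mod_cast homCount_le (K i) p.2
      exact mul_le_mul (hy p) h5 (abs_nonneg _) (by norm_num)
    have hcos1 : ∀ p : Nat.Primes, |Real.cos (t * Real.log p)| ≤ 1 := abs_cos' t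
    have hs : ∀ i, Summable fun p : Nat.Primes => (y p * homCount (K i) p) *
        ((p : ℝ) ^ (-(1 + ε)) * Real.cos (t * Real.log p)) := fun i =>
      summable_TT (f := fun p => y p * homCount (K i) p) (hb i) hcos1 hε
    have e1 : (∑ i, c i * S (fun p => y p * homCount (K i) p) t ε) =
        ∑' p : Nat.Primes, (∑ i, c i * ((y p * homCount (K i) p) *
          ((p : ℝ) ^ (-(1 + ε)) * Real.cos (t * Real.log p)))) := by
      rw [Summable.tsum_finsetSum fun i _ => (hs i).mul_left (c i)]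
      refine Finset.sum_congr rfl fun i _ => ?_
      unfold S
      rw [tsum_mul_left]
    have hsumm : Summable fun p : Nat.Primes => (∑ i, c i * ((y p * homCount (K i) p) *
          ((p : ℝ) ^ (-(1 + ε)) * Real.cos (t * Real.log p)))) :=
      summable_sum fun i _ => (hs i).mul_left (c i)
    have hsTT := summable_TT (f := fun p => |∑ i, c i * (homCount (K i) p : ℝ)|) hC hcosb hε
    rw [e1, TT, ← tsum_mul_left, ← Real.norm_eq_abs]
    refine (norm_tsum_le_tsum_norm hsumm.norm).trans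
      (hsumm.norm.tsum_le_tsum (fun p => ?_) (hsTT.mul_left 2))
    rw [Real.norm_eq_abs]
    have e2 : (∑ i, c i * ((y p * homCount (K i) p) *
          ((p : ℝ) ^ (-(1 + ε)) * Real.cos (t * Real.log p)))) =
        y p * ((∑ i, c i * (homCount (K i) p : ℝ)) *
          ((p : ℝ) ^ (-(1 + ε)) * Real.cos (t * Real.log p))) := by
      rw [Finset.sum_mul, Finset.mul_sum]
      exact Finset.sum_congr rfl fun i _ => by ring
    rw [e2, abs_mul, abs_mul, abs_mul, abs_of_nonneg (Real.rpow_nonneg (by positivity) _)]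
    exact mul_le_mul_of_nonneg_right (hy p) (by positivity)
  refine le_of_forall_pos_le_add fun δ hδ => ?_
  have h4 := hg.abs_cos (fun p => abs_nonneg _) hM0 t (δ := δ / 2) (by positivity)
  refine le_of_tendsto h3 ?_
  filter_upwards [hbound, h4] with ε h5 h6
  refine h5.trans ?_
  have := mul_le_mul_of_nonneg_left h6 (by norm_num : (0 : ℝ) ≤ 2)
  linarith

end main

end Pool.Agent.MPfb225e.Fam
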