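import Mathlib
import Pool.Agent.Lib.MP_fb225e_nt.Fam.EdgeL1

/-!
MP_fb225e_nt, EdgeFamilies, part 10: the quadratic inequality for several ordinates at once.
-/

namespace Pool.Agent.MPfb225e.Fam

open scoped TensorProduct
open NumberField IsDedekindDomain Module Filter Topology Curve WeierstrassCurve

universe u

theorem homCount_rat {p : ℕ} : homCount ℚ p = 1 := by
  have e2 := Rat.ringOfIntegersEquiv
  unfold homCount
  have : Nat.card (ℤ →+* ZMod p) = 1 := by
    rw [Nat.card_eq_one_iff_unique]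
    exact ⟨inferInstance, ⟨Int.castRingHom _⟩⟩
  rw [← this]
  refine Nat.card_congr
    ⟨fun f => f.comp (e2.symm : ℤ →+* _), fun f => f.comp (e2 : _ →+* ℤ), ?_, ?_⟩
  · intro f
    ext x
    change f (e2.symm (e2 x)) = f x
    rw [e2.symm_apply_apply]
  · intro f
    exact Subsingleton.elim _ _

theorem HasMean.one : HasMean (fun _ => 1) 1 :=
  (hasMean_homCount ℚ).congr fun p _ => by rw [homCount_rat, Nat.cast_one]

/-- the number of simple factors of `K ⊗ K'` -/
noncomputable def gam (K K' : Type u) [Field K] [NumberField K] [Field K'] [NumberField K'] : ℕ :=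
  Nat.card (MaximalSpectrum (K ⊗[ℚ] K'))

theorem hasMean_mul (K K' : Type u) [Field K] [NumberField K] [Field K'] [NumberField K'] :
    HasMean (fun p => (homCount K p : ℝ) * homCount K' p) (gam K K') := by
  obtain ⟨N, hN, h⟩ := homCount_mul K K'
  have h1 := HasMean.sum (Finset.univ : Finset (MaximalSpectrum (K ⊗[ℚ] K')))
    fun I _ => hasMean_homCount (Fac K K' I)
  have e : (∑ _I : MaximalSpectrum (K ⊗[ℚ] K'), (1 : ℝ)) = gam K K' := by
    unfold gam
    rw [Finset.sum_const, nsmul_eq_mul, mul_one, Finset.card_univ, Nat.card_eq_fintype_card]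
  rw [e] at h1
  refine h1.congr_fin N hN fun p hp hpN => ?_
  rw [← Nat.cast_mul, h p hp hpN, Nat.cast_sum]

/-- the weight `κ'_t` -/
noncomputable def kap2 (t : ℝ) : ℝ := if t = 0 then 1 else 1 / 2

section main

variable (E : WeierstrassCurve ℚ) [E.IsElliptic] {ι : Type*} [Fintype ι]
  (K : ι → Type u) [∀ i, Field (K i)] [∀ i, NumberField (K i)]
  (F : ι → ℂ → ℂ) (hF : ∀ i, Differentiable ℂ (F i))
  (hFL : ∀ i, ∀ s : ℂ, 3 / 2 < s.re → F i s = (E.baseChange (K i)).LSeries s)

/-- the quadratic form -/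
noncomputable def quad (T : Finset ℝ) (c : ℝ → ι → ℝ) : ℝ :=
  ∑ t ∈ T, kap2 t * ∑ i, ∑ j, c t i * c t j * gam (K i) (K j)

/-- the amplitudes -/
noncomputable def amp (c : ℝ → ι → ℝ) (t : ℝ) (p : ℕ) : ℝ := ∑ i, c t i * homCount (K i) p

theorem hasMean_amp (c : ℝ → ι → ℝ) (s t : ℝ) :
    HasMean (fun p => amp K c s p * amp K c t p) (∑ i, ∑ j, c s i * c t j * gam (K i) (K j)) := by
  have h1 := HasMean.sum (Finset.univ : Finset ι) fun i _ =>
    HasMean.sum (Finset.univ : Finset ι) fun j _ => (hasMean_mul (K i) (K j)).smul (c s i * c t j)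
  refine h1.congr fun p _ => ?_
  unfold amp
  rw [Finset.sum_mul_sum]
  refine Finset.sum_congr rfl fun i _ => Finset.sum_congr rfl fun j _ => ?_
  ring

/-- the trigonometric polynomial -/
noncomputable def GG (T : Finset ℝ) (c : ℝ → ι → ℝ) (p : ℕ) : ℝ :=
  ∑ t ∈ T, amp K c t p * Real.cos (t * Real.log p)

theorem tendsto_sq (T : Finset ℝ) (hT : ∀ t ∈ T, 0 ≤ t) (c : ℝ → ι → ℝ) :
    Tendsto (fun ε : ℝ => TT (fun p => GG K T c p ^ 2) (fun _ => 1) ε / Real.log (1 / ε)) (𝓝[>] 0)
      (𝓝 (quad K T c)) := by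
  classical
  have h1 : Tendsto (fun ε : ℝ => ∑ s ∈ T, ∑ t ∈ T, 1 / 2 *
      (S (fun p => amp K c s p * amp K c t p) (s - t) ε / Real.log (1 / ε) +
      S (fun p => amp K c s p * amp K c t p) (s + t) ε / Real.log (1 / ε))) (𝓝[>] 0)
      (𝓝 (∑ s ∈ T, ∑ t ∈ T, 1 / 2 *
        ((if s - t = 0 then (∑ i, ∑ j, c s i * c t j * gam (K i) (K j)) else 0) +
         (if s + t = 0 then (∑ i, ∑ j, c s i * c t j * gam (K i) (K j)) else 0)))) :=
    tendsto_finsetSum _ fun s _ => tendsto_finsetSum _ fun t _ =>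
      (((hasMean_amp K c s t).lim (s - t)).add ((hasMean_amp K c s t).lim (s + t))).const_mul _
  have e : (∑ s ∈ T, ∑ t ∈ T, 1 / 2 *
        ((if s - t = 0 then (∑ i, ∑ j, c s i * c t j * gam (K i) (K j)) else 0) +
         (if s + t = 0 then (∑ i, ∑ j, c s i * c t j * gam (K i) (K j)) else 0)) : ℝ) =
      quad K T c := by
    unfold quad
    refine Finset.sum_congr rfl fun s hs => ?_
    rw [Finset.sum_eq_single s]
    · unfold kap2
      rw [sub_self, if_pos rfl]
      by_cases h0 : s = 0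
      · subst h0
        rw [if_pos (by norm_num), if_pos rfl]
        ring
      · rw [if_neg (by intro h; apply h0; linarith), if_neg h0]
        ring
    · intro t ht hts
      rw [if_neg (sub_ne_zero.2 (Ne.symm hts)), if_neg]
      · ring
      · intro h
        have h1 := hT s hs
        have h2 := hT t ht
        apply hts
        linarith
    · intro h; exact absurd hs h
  rw [e] at h1
  refine h1.congr' ?_
  filter_upwards [eventually_pos] with ε hε
  have hbd : ∀ s t, ∃ C, ∀ p : Nat.Primes, |amp K c s p * amp K c t p| ≤ C := fun s t =>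
    (hasMean_amp K c s t).bdd
  choose C hC using hbd
  have hsm : ∀ s t, Summable fun p : Nat.Primes => 1 / 2 * ((amp K c s p * amp K c t p) *
      ((p : ℝ) ^ (-(1 + ε)) * Real.cos ((s - t) * Real.log p)) +
      (amp K c s p * amp K c t p) *
      ((p : ℝ) ^ (-(1 + ε)) * Real.cos ((s + t) * Real.log p))) := fun s t =>
    ((summable_TT (f := fun p => amp K c s p * amp K c t p) (hC s t) (abs_cos' (s - t)) hε).add
      (summable_TT (f := fun p => amp K c s p * amp K c t p) (hC s t)
        (abs_cos' (s + t)) hε)).mul_left _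
  have h2 : TT (fun p => GG K T c p ^ 2) (fun _ => 1) ε =
      ∑ s ∈ T, ∑ t ∈ T, 1 / 2 * (S (fun p => amp K c s p * amp K c t p) (s - t) ε +
      S (fun p => amp K c s p * amp K c t p) (s + t) ε) := by
    have h3 : ∀ s t, 1 / 2 * (S (fun p => amp K c s p * amp K c t p) (s - t) ε +
      S (fun p => amp K c s p * amp K c t p) (s + t) ε) =
      ∑' p : Nat.Primes, 1 / 2 * ((amp K c s p * amp K c t p) *
      ((p : ℝ) ^ (-(1 + ε)) * Real.cos ((s - t) * Real.log p)) +
      (amp K c s p * amp K c t p) *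
      ((p : ℝ) ^ (-(1 + ε)) * Real.cos ((s + t) * Real.log p))) := by
      intro s t
      rw [tsum_mul_left]
      congr 1
      unfold S
      exact ((summable_TT (f := fun p => amp K c s p * amp K c t p) (hC s t)
        (abs_cos' (s - t)) hε).tsum_add (summable_TT (f := fun p => amp K c s p * amp K c t p)
        (hC s t) (abs_cos' (s + t)) hε)).symm
    rw [Finset.sum_congr rfl fun s _ => Finset.sum_congr rfl fun t _ => h3 s t]
    rw [Finset.sum_congr rfl fun s _ => (Summable.tsum_finsetSum fun t _ => hsm s t).symm,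
      ← Summable.tsum_finsetSum fun s _ => summable_sum fun t _ => hsm s t]
    unfold TT
    refine tsum_congr fun p => ?_
    change (∑ t ∈ T, amp K c t p * Real.cos (t * Real.log p)) ^ 2 * ((p : ℝ) ^ (-(1 + ε)) * 1) = _
    rw [sq, Finset.sum_mul_sum, Finset.sum_mul]
    refine Finset.sum_congr rfl fun s _ => ?_
    rw [Finset.sum_mul]
    refine Finset.sum_congr rfl fun t _ => ?_
    rw [sub_mul, add_mul, Real.cos_sub, Real.cos_add]
    ring
  rw [h2, Finset.sum_div]
  refine Finset.sum_congr rfl fun s _ => ?_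
  rw [Finset.sum_div]
  refine Finset.sum_congr rfl fun t _ => ?_
  ring

theorem quad_nonneg (T : Finset ℝ) (hT : ∀ t ∈ T, 0 ≤ t) (c : ℝ → ι → ℝ) : 0 ≤ quad K T c := by
  refine ge_of_tendsto (tendsto_sq K T hT c) ?_
  filter_upwards [eventually_log_pos] with ε hl
  refine div_nonneg (tsum_nonneg fun p => ?_) hl.le
  have : 0 ≤ ((p : ℕ) : ℝ) ^ (-(1 + ε)) := Real.rpow_nonneg (by positivity) _
  positivity

include hF hFL

/-- **The quadratic edge inequality.** -/
theorem edge_L2 (T : Finset ℝ) (hT : ∀ t ∈ T, 0 ≤ t) (c : ℝ → ι → ℝ) :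
    (∑ t ∈ T, ∑ i, c t i * (ord (F i) t : ℝ)) ^ 2 ≤ 4 * quad K T c := by
  classical
  obtain ⟨y, hy, hlim⟩ := exists_y.{u} E
  have hq := quad_nonneg K T hT c
  set A := quad K T c with hA
  set X : ℝ := ∑ t ∈ T, ∑ i, c t i * (ord (F i) t : ℝ) with hX
  have h1 : Tendsto (fun ε : ℝ => (∑ t ∈ T, ∑ i, c t i * S (fun p => y p * homCount (K i) p) t ε) /
      Real.log (1 / ε)) (𝓝[>] 0) (𝓝 (-X)) := by
    have h2 := tendsto_finsetSum T fun t _ => tendsto_finsetSum Finset.univ fun i _ =>
      (hlim (K i) (F i) (hF i) (hFL i) t).const_mul (c t i)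
    have e : (∑ t ∈ T, ∑ i, c t i * -(ord (F i) t : ℝ)) = -X := by
      rw [hX, ← Finset.sum_neg_distrib]
      refine Finset.sum_congr rfl fun t _ => ?_
      rw [← Finset.sum_neg_distrib]
      exact Finset.sum_congr rfl fun i _ => by ring
    rw [e] at h2
    refine h2.congr fun ε => ?_
    rw [Finset.sum_div]
    refine Finset.sum_congr rfl fun t _ => ?_
    rw [Finset.sum_div]
    exact Finset.sum_congr rfl fun i _ => by ring
  have h3 := h1.abs
  rw [abs_neg] at h3
  -- the bound for every `lam > 0`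
  have key : ∀ lam : ℝ, 0 < lam → |X| ≤ lam + A / lam := by
    intro lam hlam
    have h4 : Tendsto (fun ε : ℝ => lam * (S (fun _ => 1) 0 ε / Real.log (1 / ε)) +
        lam⁻¹ * (TT (fun p => GG K T c p ^ 2) (fun _ => 1) ε / Real.log (1 / ε))) (𝓝[>] 0)
        (𝓝 (lam * 1 + lam⁻¹ * A)) := by
      have h5 := HasMean.one.lim 0
      rw [if_pos rfl] at h5
      exact (h5.const_mul lam).add ((tendsto_sq K T hT c).const_mul _)
    have e : lam * 1 + lam⁻¹ * A = lam + A / lam := by
      rw [mul_one, div_eq_inv_mul]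
    rw [e] at h4
    refine le_of_tendsto_of_tendsto h3 h4 ?_
    filter_upwards [eventually_pos, eventually_log_pos] with ε hε hl
    rw [abs_div, abs_of_pos hl, ← mul_div_assoc, ← mul_div_assoc, ← add_div]
    refine div_le_div_of_nonneg_right ?_ hl.le
    have hb : ∀ i, ∀ p : Nat.Primes, |y p * homCount (K i) p| ≤ 2 * finrank ℤ (𝓞 (K i)) := by
      intro i p
      rw [abs_mul]
      have h5 : |(homCount (K i) p : ℝ)| ≤ finrank ℤ (𝓞 (K i)) := by
        rw [abs_of_nonneg (by positivity)]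
        exact_mod_cast homCount_le (K i) p.2
      exact mul_le_mul (hy p) h5 (abs_nonneg _) (by norm_num)
    have hs : ∀ t i, Summable fun p : Nat.Primes => c t i * ((y p * homCount (K i) p) *
        ((p : ℝ) ^ (-(1 + ε)) * Real.cos (t * Real.log p))) := fun t i =>
      (summable_TT (f := fun p => y p * homCount (K i) p) (hb i) (abs_cos' t) hε).mul_left _
    have e1 : (∑ t ∈ T, ∑ i, c t i * S (fun p => y p * homCount (K i) p) t ε) =
        ∑' p : Nat.Primes, ∑ t ∈ T, ∑ i, c t i * ((y p * homCount (K i) p) *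
          ((p : ℝ) ^ (-(1 + ε)) * Real.cos (t * Real.log p))) := by
      rw [Summable.tsum_finsetSum fun t _ => summable_sum fun i _ => hs t i]
      refine Finset.sum_congr rfl fun t _ => ?_
      rw [Summable.tsum_finsetSum fun i _ => hs t i]
      refine Finset.sum_congr rfl fun i _ => ?_
      unfold S
      rw [tsum_mul_left]
    have hsumm : Summable fun p : Nat.Primes => ∑ t ∈ T, ∑ i, c t i * ((y p * homCount (K i) p) *
          ((p : ℝ) ^ (-(1 + ε)) * Real.cos (t * Real.log p))) :=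
      summable_sum fun t _ => summable_sum fun i _ => hs t i
    have e2 : ∀ p : Nat.Primes, (∑ t ∈ T, ∑ i, c t i * ((y p * homCount (K i) p) *
          ((p : ℝ) ^ (-(1 + ε)) * Real.cos (t * Real.log p)))) =
        y p * GG K T c p * (p : ℝ) ^ (-(1 + ε)) := by
      intro p
      unfold GG amp
      rw [Finset.mul_sum, Finset.sum_mul]
      refine Finset.sum_congr rfl fun t _ => ?_
      rw [Finset.sum_mul, Finset.mul_sum, Finset.sum_mul]
      exact Finset.sum_congr rfl fun i _ => by ring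
    -- boundedness of `GG`
    have hGb : ∃ D : ℝ, ∀ p : Nat.Primes, |GG K T c p ^ 2| ≤ D := by
      refine ⟨(∑ t ∈ T, ∑ i, |c t i| * finrank ℤ (𝓞 (K i))) ^ 2, fun p => ?_⟩
      rw [abs_pow]
      refine pow_le_pow_left₀ (abs_nonneg _) ?_ 2
      unfold GG amp
      refine (Finset.abs_sum_le_sum_abs _ _).trans (Finset.sum_le_sum fun t _ => ?_)
      rw [abs_mul]
      refine (mul_le_of_le_one_right (abs_nonneg _) (Real.abs_cos_le_one _)).trans ?_
      refine (Finset.abs_sum_le_sum_abs _ _).trans (Finset.sum_le_sum fun i _ => ?_)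
      rw [abs_mul]
      refine mul_le_mul_of_nonneg_left ?_ (abs_nonneg _)
      rw [abs_of_nonneg (by positivity)]
      exact_mod_cast homCount_le (K i) p.2
    obtain ⟨D, hD⟩ := hGb
    have hs1 : Summable fun p : Nat.Primes => (1 : ℝ) * ((p : ℝ) ^ (-(1 + ε)) *
        Real.cos (0 * Real.log p)) :=
      summable_TT (f := fun _ => 1) (C := 1) (by simp) (abs_cos' 0) hε
    have hs2 : Summable fun p : Nat.Primes => GG K T c p ^ 2 * ((p : ℝ) ^ (-(1 + ε)) * 1) :=
      summable_TT (f := fun p => GG K T c p ^ 2) (h := fun _ => 1) (D := 1) hD (by simp) hε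
    rw [e1, tsum_congr e2]
    have hsumm2 : Summable fun p : Nat.Primes => y p * GG K T c p * (p : ℝ) ^ (-(1 + ε)) :=
      hsumm.congr e2
    unfold S TT
    rw [← tsum_mul_left, ← tsum_mul_left, ← (hs1.mul_left lam).tsum_add (hs2.mul_left lam⁻¹),
      ← Real.norm_eq_abs]
    refine (norm_tsum_le_tsum_norm hsumm2.norm).trans
      (hsumm2.norm.tsum_le_tsum (fun p => ?_) ((hs1.mul_left lam).add (hs2.mul_left lam⁻¹)))
    have hw : 0 ≤ ((p : ℕ) : ℝ) ^ (-(1 + ε)) := Real.rpow_nonneg (by positivity) _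
    rw [Real.norm_eq_abs, abs_mul, abs_of_nonneg hw, abs_mul, zero_mul, Real.cos_zero]
    have h6 : |y p| * |GG K T c p| ≤ lam + lam⁻¹ * GG K T c p ^ 2 := by
      have h7 : |y p| * |GG K T c p| ≤ 2 * |GG K T c p| :=
        mul_le_mul_of_nonneg_right (hy p) (abs_nonneg _)
      have h8 : 0 ≤ lam⁻¹ * (|GG K T c p| - lam) ^ 2 := by positivity
      have h9 : lam⁻¹ * (|GG K T c p| - lam) ^ 2 =
          lam⁻¹ * GG K T c p ^ 2 - 2 * |GG K T c p| + lam := by
        rw [sub_sq, sq_abs]
        field_simp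
      linarith
    calc |y p| * |GG K T c p| * (p : ℝ) ^ (-(1 + ε)) ≤
          (lam + lam⁻¹ * GG K T c p ^ 2) * (p : ℝ) ^ (-(1 + ε)) :=
          mul_le_mul_of_nonneg_right h6 hw
      _ = _ := by ring
  -- optimise
  rcases hq.eq_or_lt with h0 | hpos
  · have h5 : |X| ≤ 0 := by
      refine le_of_forall_pos_le_add fun δ hδ => ?_
      have := key δ hδ
      rw [← h0] at this
      simpa using this
    have h6 : X = 0 := abs_eq_zero.1 (le_antisymm h5 (abs_nonneg _))
    rw [h6, ← h0]
    norm_num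
  · have h5 := key (Real.sqrt A) (Real.sqrt_pos.2 hpos)
    have h6 : A / Real.sqrt A = Real.sqrt A := by
      rw [div_eq_iff (Real.sqrt_pos.2 hpos).ne', Real.mul_self_sqrt hpos.le]
    rw [h6] at h5
    calc X ^ 2 = |X| ^ 2 := (sq_abs X).symm
      _ ≤ (Real.sqrt A + Real.sqrt A) ^ 2 := pow_le_pow_left₀ (abs_nonneg _) h5 2
      _ = 4 * Real.sqrt A ^ 2 := by ring
      _ = 4 * A := by rw [Real.sq_sqrt hpos.le]

end main

end Pool.Agent.MPfb225e.Fam
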