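import Mathlib
import Pool.Agent.Lib.MP_fb225e_nt.Fam.EdgeL2

/-!
MP_fb225e_nt: the coefficients of the L-series of an elliptic curve over `ℚ` at the primes.
-/

namespace Pool.Agent.MPfb225e.Fam

open NumberField IsDedekindDomain Module Filter Topology Curve WeierstrassCurve ArithmeticFunction
  IsLocalRing

universe u

theorem mul_apply_prime {f g : ArithmeticFunction ℤ} {p : ℕ} (hp : p.Prime) :
    (f * g) p = f 1 * g p + f p * g 1 := by
  have h : p.divisorsAntidiagonal = {(1, p), (p, 1)} := by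
    ext ⟨a, b⟩
    rw [Nat.mem_divisorsAntidiagonal, Finset.mem_insert, Finset.mem_singleton, Prod.mk.injEq,
      Prod.mk.injEq]
    constructor
    · rintro ⟨h1, -⟩
      have h1 : a * b = p := h1
      rcases (Nat.dvd_prime hp).1 ⟨b, h1.symm⟩ with h2 | h2
      · left
        refine ⟨h2, ?_⟩
        rw [h2, one_mul] at h1
        exact h1
      · right
        refine ⟨h2, ?_⟩
        rw [h2] at h1
        exact Nat.eq_of_mul_eq_mul_left hp.pos (by rw [h1, mul_one])
    · rintro (⟨h1, h2⟩ | ⟨h1, h2⟩)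
      · rw [h1, h2]
        exact ⟨one_mul p, hp.ne_zero⟩
      · rw [h1, h2]
        exact ⟨mul_one p, hp.ne_zero⟩
  rw [mul_apply, h, Finset.sum_pair]
  intro h1
  rw [Prod.mk.injEq] at h1
  exact hp.one_lt.ne h1.1

theorem ofPowerSeries_prime {q : ℕ} (hq : 1 < q) (f : PowerSeries ℤ) {p : ℕ} (hp : p.Prime) :
    ofPowerSeries q f p = if q = p then f.coeff 1 else 0 := by
  split_ifs with h
  · rw [← h]
    nth_rewrite 2 [← pow_one q]
    exact ofPowerSeries_apply_pow hq f 1
  · rw [ofPowerSeries_apply hq, Function.extend_apply', Pi.zero_apply]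
    rintro ⟨k, hk⟩
    have hk : q ^ k = p := hk
    apply h
    have h1 : q ∣ p := by
      rw [← hk]
      refine dvd_pow_self q ?_
      rintro rfl
      rw [pow_zero] at hk
      exact hp.one_lt.ne hk
    rcases (Nat.dvd_prime hp).1 h1 with h2 | h2
    · omega
    · exact h2

theorem prod_ofPowerSeries_prime {ι : Type*} (s : Finset ι) (q : ι → ℕ) (hq : ∀ i, 1 < q i)
    (f : ι → PowerSeries ℤ) (hf : ∀ i, (f i).constantCoeff = 1) {p : ℕ} (hp : p.Prime) :
    (∏ i ∈ s, ofPowerSeries (q i) (f i)) 1 = 1 ∧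
    (∏ i ∈ s, ofPowerSeries (q i) (f i)) p = ∑ i ∈ s, if q i = p then (f i).coeff 1 else 0 := by
  classical
  induction s using Finset.induction_on with
  | empty =>
    rw [Finset.prod_empty, Finset.sum_empty, one_apply, one_apply, if_pos rfl,
      if_neg hp.one_lt.ne']
    exact ⟨rfl, rfl⟩
  | insert a s ha ih =>
    rw [Finset.prod_insert ha, Finset.sum_insert ha, mul_apply_prime hp, mul_apply_one, ih.1, ih.2,
      ofPowerSeries_apply_one, hf, ofPowerSeries_prime (hq a) _ hp, one_mul, one_mul, mul_one]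
    exact ⟨rfl, add_comm _ _⟩

section coeff

variable {K : Type u} [Field K] [NumberField K] (W : WeierstrassCurve K)

theorem constCoeff_localPolynomial (v : HeightOneSpectrum (𝓞 K)) :
    ((W.baseChange (v.adicCompletion K)).localPolynomial (v.adicCompletionIntegers K)).coeff 0 =
      1 := by
  obtain ⟨a, b, α, β, h, -⟩ := local_data (v.adicCompletionIntegers K)
    (W.baseChange (v.adicCompletion K)) hasse_module
  rw [h, lpoly_coe]
  simp

theorem LFunction_prime {p : ℕ} (hp : p.Prime) (s₀ : Finset (HeightOneSpectrum (𝓞 K)))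
    (hs₀ : ∀ v, v ∈ s₀ ↔ N v = p) :
    W.LFunction p = ∑ v ∈ s₀, -((W.baseChange (v.adicCompletion K)).localPolynomial
      (v.adicCompletionIntegers K)).coeff 1 := by
  classical
  have hnc : Northcott (fun v : HeightOneSpectrum (𝓞 K) =>
      Nat.card (ResidueField (v.adicCompletionIntegers K))) := northcott_qv
  set P : HeightOneSpectrum (𝓞 K) → PowerSeries ℤ := fun v =>
    ((W.baseChange (v.adicCompletion K)).localPolynomial (v.adicCompletionIntegers K) :
      PowerSeries ℤ) with hP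
  have hP0 : ∀ v, (P v).constantCoeff = 1 := by
    intro v
    rw [← PowerSeries.coeff_zero_eq_constantCoeff_apply, hP, Polynomial.coeff_coe]
    exact constCoeff_localPolynomial W v
  set f : HeightOneSpectrum (𝓞 K) → PowerSeries ℤ := fun v => PowerSeries.invOfUnit (P v) 1 with hf
  have hf0 : ∀ v, (f v).constantCoeff = 1 := by
    intro v
    rw [hf, PowerSeries.constantCoeff_invOfUnit, inv_one, Units.val_one]
  have hf1 : ∀ v, (f v).coeff 1 = -((W.baseChange (v.adicCompletion K)).localPolynomial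
      (v.adicCompletionIntegers K)).coeff 1 := by
    intro v
    have h1 : P v * f v = 1 := PowerSeries.mul_invOfUnit (P v) 1 (by rw [hP0, Units.val_one])
    have h2 := congrArg (fun g => PowerSeries.coeff 1 g) h1
    simp only [PowerSeries.coeff_mul, PowerSeries.coeff_one] at h2
    have h5 : Finset.HasAntidiagonal.antidiagonal 1 = {((0 : ℕ), 1), (1, 0)} := rfl
    rw [h5, Finset.sum_pair (by decide), PowerSeries.coeff_zero_eq_constantCoeff_apply,
      PowerSeries.coeff_zero_eq_constantCoeff_apply, hP0, hf0, one_mul, mul_one,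
      if_neg (by norm_num)] at h2
    have h3 : (P v).coeff 1 = ((W.baseChange (v.adicCompletion K)).localPolynomial
      (v.adicCompletionIntegers K)).coeff 1 := by
      rw [hP, Polynomial.coeff_coe]
    rw [← h3]
    have h4 : (f v).coeff 1 + (P v).coeff 1 = 0 := h2
    linarith
  have h1 := tendsTo_eulerProduct_ofPowerSeries
    (fun v : HeightOneSpectrum (𝓞 K) => Nat.card (ResidueField (v.adicCompletionIntegers K)))
    f hf0 p
  obtain ⟨s, hs1, hs2⟩ := (h1.and (eventually_ge_atTop s₀)).exists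
  have h2 : W.LFunction p = (∏ v ∈ s, ofPowerSeries
      (Nat.card (ResidueField (v.adicCompletionIntegers K))) (f v)) p := hs1.symm
  rw [h2, (prod_ofPowerSeries_prime s
    (fun v : HeightOneSpectrum (𝓞 K) => Nat.card (ResidueField (v.adicCompletionIntegers K)))
    (fun v => one_lt_qv v) f hf0 hp).2, ← Finset.sum_filter]
  have h3 : s.filter (fun v => Nat.card (ResidueField (v.adicCompletionIntegers K)) = p) = s₀ := by
    ext v
    rw [Finset.mem_filter, hs₀]
    constructor
    · rintro ⟨-, h⟩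
      rw [← h]
      exact (qv_eq v).symm
    · intro h
      refine ⟨hs2 ((hs₀ v).2 h), ?_⟩
      rw [← h]
      exact qv_eq v
  rw [h3]
  exact Finset.sum_congr rfl fun v _ => hf1 v

end coeff

/-- `a_p / √p`, where `a_p` is the coefficient of the L-series. -/
noncomputable def lam (E : WeierstrassCurve ℚ) (p : ℕ) : ℝ := (E.LFunction p : ℝ) / √p

theorem lam_eq_yy (E : WeierstrassCurve ℚ) (W₀ : WeierstrassCurve ℤ) (C : VariableChange ℚ)
    (hC : C • E = W₀.map (Int.castRingHom ℚ)) {p : ℕ} (hp : p.Prime) (h3 : 3 < p)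
    (hΔ : ((W₀.Δ : ℤ) : ZMod p) ≠ 0) : lam E p = yy W₀ p := by
  have h1 := card_fiber (K := ℚ) hp
  rw [homCount_rat, Nat.card_eq_one_iff_unique] at h1
  obtain ⟨hsub, ⟨v, hv⟩⟩ := h1
  have h2 := LFunction_prime E hp {v} fun w => by
    rw [Finset.mem_singleton]
    constructor
    · rintro rfl
      exact hv
    · intro hw
      exact congrArg Subtype.val (Subsingleton.elim (⟨w, hw⟩ :
        {v : HeightOneSpectrum (𝓞 ℚ) // N v = p}) ⟨v, hv⟩)
  rw [Finset.sum_singleton] at h2
  have h4 := (coeff_eq_yy E W₀ C hC v hv hp h3 hΔ).2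
  have e0 : @WeierstrassCurve.baseChange ℚ _ E ℚ _ DivisionRing.toRatAlgebra = E := by
    have : @algebraMap ℚ ℚ _ _ DivisionRing.toRatAlgebra = RingHom.id ℚ :=
      Subsingleton.elim _ _
    rw [WeierstrassCurve.baseChange, this, WeierstrassCurve.map_id]
  rw [e0] at h4
  rw [← h4, lam, h2, qv_eq]
  have hv' : Ideal.absNorm v.asIdeal = p := hv
  rw [hv']
  push_cast
  rfl

/-- The comparison theorem, together with the value of `y`. -/
theorem exists_y2 (E : WeierstrassCurve ℚ) [E.IsElliptic] : ∃ y : ℕ → ℝ, (∀ p, |y p| ≤ 2) ∧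
    (∃ B : ℕ, ∀ p : ℕ, p.Prime → B < p → lam E p = y p) ∧
    ∀ (K : Type u) [Field K] [NumberField K] (F : ℂ → ℂ), Differentiable ℂ F →
      (∀ s : ℂ, 3 / 2 < s.re → F s = (E.baseChange K).LSeries s) →
      ∀ t : ℝ, Tendsto (fun ε : ℝ => S (fun p => y p * homCount K p) t ε / Real.log (1 / ε))
        (𝓝[>] 0) (𝓝 (-(ord F t : ℝ))) := by
  obtain ⟨W₀, C, hC⟩ := exists_int_model E
  have hΔ := disc_ne_zero E hC
  refine ⟨yy W₀, abs_yy_le W₀, ⟨max 3 W₀.Δ.natAbs, fun p hp hB => ?_⟩,
    fun K _ _ F hF hFL t => tendsto_yy E hC K F hF hFL t⟩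
  have h3 : 3 < p := lt_of_le_of_lt (le_max_left _ _) hB
  have h4 : W₀.Δ.natAbs < p := lt_of_le_of_lt (le_max_right _ _) hB
  refine lam_eq_yy E W₀ C hC hp h3 ?_
  intro h
  rw [ZMod.intCast_zmod_eq_zero_iff_dvd] at h
  have h6 := Int.natAbs_dvd_natAbs.2 h
  rw [Int.natAbs_natCast] at h6
  have := Nat.le_of_dvd (Nat.pos_of_ne_zero (Int.natAbs_ne_zero.2 hΔ)) h6
  omega

end Pool.Agent.MPfb225e.Fam
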