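import Mathlib

/-!
MP_fb225e_nt, EdgeFamilies: the completed L-function.
-/

namespace Pool.Agent.MPfb225e.Fam

/-- The completed L-function `A ^ (s/2) ((2π)^(-s) Γ(s)) ^ [K:ℚ] F(s)`, where `F` is the entire
continuation of the L-series over `K` and `A` is the conductor (any positive real). -/
noncomputable def completed (K : Type*) [Field K] [NumberField K] (A : ℝ) (F : ℂ → ℂ) (s : ℂ) :
    ℂ :=
  (A : ℂ) ^ (s / 2) *
    ((2 * (Real.pi : ℂ)) ^ (-s) * Complex.Gamma s) ^ (Module.finrank ℚ K) * F s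

/-- The factor in front of `F`. -/
noncomputable def pre (n : ℕ) (A : ℝ) (s : ℂ) : ℂ :=
  (A : ℂ) ^ (s / 2) * ((2 * (Real.pi : ℂ)) ^ (-s) * Complex.Gamma s) ^ n

theorem pre_analyticAt (n : ℕ) {A : ℝ} (hA : 0 < A) {s : ℂ} (hs : 0 < s.re) :
    AnalyticAt ℂ (pre n A) s := by
  have hopen : IsOpen {z : ℂ | 0 < z.re} := isOpen_lt continuous_const Complex.continuous_re
  refine DifferentiableOn.analyticAt (s := {z : ℂ | 0 < z.re}) ?_ (hopen.mem_nhds hs)
  intro z hz
  have hA0 : (A : ℂ) ≠ 0 := by exact_mod_cast hA.ne'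
  have hpi : (2 * (Real.pi : ℂ)) ≠ 0 := by
    have := Real.pi_ne_zero
    exact mul_ne_zero two_ne_zero (by exact_mod_cast this)
  have h1 : DifferentiableAt ℂ (fun z : ℂ => (A : ℂ) ^ (z / 2)) z :=
    (differentiableAt_id.div_const 2).const_cpow (Or.inl hA0)
  have h2 : DifferentiableAt ℂ (fun z : ℂ => (2 * (Real.pi : ℂ)) ^ (-z)) z :=
    differentiableAt_id.neg.const_cpow (Or.inl hpi)
  have h3 : DifferentiableAt ℂ Complex.Gamma z := by
    refine Complex.differentiableAt_Gamma z fun m hm => ?_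
    have : 0 < z.re := hz
    rw [hm] at this
    simp at this
    have h4 : (0 : ℝ) ≤ m := by positivity
    linarith
  exact (h1.mul ((h2.mul h3).pow n)).differentiableWithinAt

theorem pre_ne_zero (n : ℕ) {A : ℝ} (hA : 0 < A) {s : ℂ} (hs : 0 < s.re) : pre n A s ≠ 0 := by
  have hA0 : (A : ℂ) ≠ 0 := by exact_mod_cast hA.ne'
  have hpi : (2 * (Real.pi : ℂ)) ≠ 0 := by
    have := Real.pi_ne_zero
    exact mul_ne_zero two_ne_zero (by exact_mod_cast this)
  unfold pre
  refine mul_ne_zero ?_ (pow_ne_zero _ (mul_ne_zero ?_ (Complex.Gamma_ne_zero_of_re_pos hs)))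
  · rw [Complex.cpow_def_of_ne_zero hA0]; exact Complex.exp_ne_zero _
  · rw [Complex.cpow_def_of_ne_zero hpi]; exact Complex.exp_ne_zero _

theorem order_completed (K : Type*) [Field K] [NumberField K] {A : ℝ} (hA : 0 < A) {F : ℂ → ℂ}
    (hF : Differentiable ℂ F) {s : ℂ} (hs : 0 < s.re) :
    analyticOrderAt (completed K A F) s = analyticOrderAt F s := by
  have h5 : analyticOrderAt (completed K A F) s =
      analyticOrderAt (pre (Module.finrank ℚ K) A) s + analyticOrderAt F s :=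
    analyticOrderAt_mul (pre_analyticAt _ hA hs) (hF.analyticAt s)
  have h6 : analyticOrderAt (pre (Module.finrank ℚ K) A) s = 0 :=
    (pre_analyticAt _ hA hs).analyticOrderAt_eq_zero.mpr (pre_ne_zero _ hA hs)
  rw [h5, h6, zero_add]

end Pool.Agent.MPfb225e.Fam
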