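import Mathlib

/-!
MP_fb225e_nt, EdgeDescent: sign functions on finite groups whose averages over all subgroups are
`0` or `1` are homomorphisms.
-/

namespace Pool.Agent.MPfb225e.Grp

universe u

open Classical in
/-- the sum over a subgroup -/
noncomputable def sm {G : Type*} [Group G] [Fintype G] {R : Type*} [AddCommMonoid R] (f : G → R)
    (H : Subgroup G) : R := ∑ g : G, if g ∈ H then f g else 0

section basic

variable {G : Type*} [Group G] [Fintype G]

theorem sm_one (H : Subgroup G) : sm (fun _ => (1 : ℤ)) H = Nat.card H := by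
  classical
  unfold sm
  rw [Finset.sum_boole, Nat.card_eq_fintype_card, Fintype.card_subtype]

theorem sm_one_real (H : Subgroup G) : sm (fun _ => (1 : ℝ)) H = Nat.card H := by
  classical
  unfold sm
  rw [Finset.sum_boole, Nat.card_eq_fintype_card, Fintype.card_subtype]

theorem sm_congr {R : Type*} [AddCommMonoid R] {f g : G → R} {H : Subgroup G}
    (h : ∀ x ∈ H, f x = g x) : sm f H = sm g H := by
  classical
  unfold sm
  refine Finset.sum_congr rfl fun x _ => ?_
  split_ifs with hx
  · exact h x hx
  · rfl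

theorem sm_map {R : Type*} [AddCommMonoid R] (f : G → R) (P : Subgroup G) [Fintype P]
    (K : Subgroup P) : sm f (K.map P.subtype) = sm (fun x : P => f x) K := by
  classical
  unfold sm
  symm
  refine Fintype.sum_of_injective (fun x : P => (x : G)) Subtype.val_injective _ _ ?_ ?_
  · intro g hg
    rw [if_neg]
    rintro ⟨x, _, rfl⟩
    exact hg ⟨x, rfl⟩
  · intro x
    have : (x : G) ∈ K.map P.subtype ↔ x ∈ K := by
      constructor
      · rintro ⟨y, hy, hyx⟩
        have : y = x := Subtype.ext hyx
        rwa [← this]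
      · intro h
        exact ⟨x, h, rfl⟩
    simp only [this]

end basic

/-- Sign functions. -/
structure Sign {G : Type*} [Group G] [Fintype G] (e : G → ℤ) : Prop where
  val : ∀ g, e g = 1 ∨ e g = -1
  pow : ∀ (g : G) (k : ℕ), e (g ^ k) = e g ^ k
  conj : ∀ x y : G, e (x⁻¹ * y * x) = e y
  sum : ∀ H : Subgroup G, sm e H = 0 ∨ sm e H = Nat.card H

namespace Sign

variable {G : Type u} [Group G] [Fintype G] {e : G → ℤ}

theorem one (h : Sign e) : e 1 = 1 := by
  have := h.pow 1 0
  simpa using this

theorem sq (h : Sign e) (g : G) : e (g * g) = 1 := by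
  rw [← pow_two, h.pow]
  rcases h.val g with h1 | h1 <;> rw [h1] <;> norm_num

theorem restrict (h : Sign e) (P : Subgroup G) [Fintype P] : Sign fun x : P => e x where
  val g := h.val g
  pow g k := by rw [Subgroup.coe_pow]; exact h.pow g k
  conj x y := by
    rw [Subgroup.coe_mul, Subgroup.coe_mul, Subgroup.coe_inv]
    exact h.conj x y
  sum K := by
    have h1 := h.sum (K.map P.subtype)
    rw [sm_map] at h1
    have h2 : Nat.card (K.map P.subtype) = Nat.card K :=
      Nat.card_congr (K.equivMapOfInjective P.subtype P.subtype_injective).symm.toEquiv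
    rwa [h2] at h1

/-- if the sum over a subgroup is full then the function is one on it -/
theorem eq_one_of_sum {H : Subgroup G} (h : Sign e) (hs : sm e H = Nat.card H) :
    ∀ g ∈ H, e g = 1 := by
  classical
  by_contra hne
  push Not at hne
  obtain ⟨g, hg, hg1⟩ := hne
  have h1 : sm e H < sm (fun _ => (1 : ℤ)) H := by
    unfold sm
    refine Finset.sum_lt_sum (fun x _ => ?_) ⟨g, Finset.mem_univ _, ?_⟩
    · split_ifs
      · rcases h.val x with h2 | h2 <;> rw [h2] <;> norm_num
      · exact le_rfl
    · rw [if_pos hg, if_pos hg]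
      rcases h.val g with h2 | h2
      · exact absurd h2 hg1
      · rw [h2]; norm_num
  rw [sm_one] at h1
  omega

omit [Fintype G] in
/-- A subgroup containing all squares is normal. -/
theorem normal_of_sq {N : Subgroup G} (hN : ∀ g : G, g * g ∈ N) : N.Normal := by
  refine ⟨fun n hn g => ?_⟩
  have h1 : g * n * g⁻¹ = (g * n) * (g * n) * n⁻¹ * (g * g)⁻¹ := by group
  rw [h1]
  exact N.mul_mem (N.mul_mem (hN _) (N.inv_mem hn)) (N.inv_mem (hN _))

/-- The union of `N` and a coset. -/
def ext2 (N : Subgroup G) (hN : ∀ g : G, g * g ∈ N) (x : G) : Subgroup G where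
  carrier := {g | g ∈ N ∨ x * g ∈ N}
  one_mem' := Or.inl N.one_mem
  mul_mem' := by
    intro g h hg hh
    have hn := normal_of_sq hN
    rcases hg with hg | hg <;> rcases hh with hh | hh
    · exact Or.inl (N.mul_mem hg hh)
    · right
      have h1 : x * (g * h) = (x * g * x⁻¹) * (x * h) := by group
      rw [h1]
      exact N.mul_mem (hn.conj_mem g hg x) hh
    · right
      rw [← mul_assoc]
      exact N.mul_mem hg hh
    · left
      have h1 : g * h = x⁻¹ * (x * g) * x⁻¹ * (x * h) := by group
      have h2 : x⁻¹ * (x * g) * x⁻¹ * (x * h) =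
          (x⁻¹ * (x * g) * x⁻¹⁻¹) * (x⁻¹ * x⁻¹) * (x * h) := by group
      rw [h1, h2]
      exact N.mul_mem (N.mul_mem (hn.conj_mem _ hg _) (hN _)) hh
  inv_mem' := by
    intro g hg
    have hn := normal_of_sq hN
    rcases hg with hg | hg
    · exact Or.inl (N.inv_mem hg)
    · right
      have h1 : x * g⁻¹ = x * (x * g)⁻¹ * x⁻¹ * (x * x) := by group
      rw [h1]
      exact N.mul_mem (hn.conj_mem _ (N.inv_mem hg) x) (hN x)

theorem hom_of_squares (h : Sign e) {Φ : Subgroup G} (hsq : ∀ g : G, g * g ∈ Φ)
    (h1 : ∀ g ∈ Φ, e g = 1) (x y : G) : e (x * y) = e x * e y := by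
  classical
  -- a maximal subgroup containing `Φ` on which `e = 1`
  obtain ⟨N, ⟨hΦN, hN1⟩, hmax⟩ := Set.Finite.exists_maximalFor (fun N : Subgroup G => N)
    {N : Subgroup G | Φ ≤ N ∧ ∀ g ∈ N, e g = 1} (Set.toFinite _) ⟨Φ, le_rfl, h1⟩
  have hsqN : ∀ g : G, g * g ∈ N := fun g => hΦN (hsq g)
  have hn := normal_of_sq hsqN
  have hoff : ∀ z, z ∉ N → e z = -1 := by
    intro z hz
    rcases h.val z with hz1 | hz1
    swap
    · exact hz1
    exfalso
    set Q := ext2 N hsqN z with hQ
    have hmemQ : ∀ g, g ∈ Q ↔ g ∈ N ∨ z * g ∈ N := fun g => Iff.rfl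
    have hNQ : N ≤ Q := fun g hg => Or.inl hg
    have hzQ : z ∈ Q := Or.inr (hsqN z)
    -- split the sum
    have hdis : ∀ g, g ∈ N → z * g ∉ N := fun g hg hzg => hz (by
      have : z = z * g * g⁻¹ := by group
      rw [this]; exact N.mul_mem hzg (N.inv_mem hg))
    have hsplit : ∀ f : G → ℤ, sm f Q = sm f N + ∑ g : G, if z * g ∈ N then f g else 0 := by
      intro f
      unfold sm
      rw [← Finset.sum_add_distrib]
      refine Finset.sum_congr rfl fun g _ => ?_
      by_cases hg : g ∈ N
      · rw [if_pos ((hmemQ g).2 (Or.inl hg)), if_pos hg, if_neg (hdis g hg), add_zero]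
      · by_cases hzg : z * g ∈ N
        · rw [if_pos ((hmemQ g).2 (Or.inr hzg)), if_neg hg, if_pos hzg, zero_add]
        · rw [if_neg, if_neg hg, if_neg hzg, add_zero]
          rw [hmemQ]
          tauto
    have hcoset : (∑ g : G, if z * g ∈ N then (1 : ℤ) else 0) = Nat.card N := by
      rw [← sm_one]
      unfold sm
      exact Equiv.sum_comp (Equiv.mulLeft z) (fun g => if g ∈ N then (1 : ℤ) else 0)
    have hcardQ : (Nat.card Q : ℤ) = 2 * Nat.card N := by
      rw [← sm_one, hsplit, sm_one, hcoset]
      ring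
    have hsN : sm e N = Nat.card N := by
      rw [← sm_one]
      exact sm_congr hN1
    have hcpos : (0 : ℤ) < Nat.card N := by exact_mod_cast Nat.card_pos
    -- the sum over the coset is not `-|N|`
    have hgt : -(Nat.card N : ℤ) < ∑ g : G, if z * g ∈ N then e g else 0 := by
      have h2 : (∑ g : G, if z * g ∈ N then (-1 : ℤ) else 0) = -(Nat.card N : ℤ) := by
        rw [← hcoset, ← Finset.sum_neg_distrib]
        refine Finset.sum_congr rfl fun g _ => ?_
        split_ifs <;> simp
      rw [← h2]
      refine Finset.sum_lt_sum (fun g _ => ?_) ⟨z, Finset.mem_univ _, ?_⟩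
      · split_ifs
        · rcases h.val g with h3 | h3 <;> rw [h3] <;> norm_num
        · exact le_rfl
      · rw [if_pos (hsqN z), if_pos (hsqN z), hz1]
        norm_num
    have hQ1 : sm e Q = Nat.card Q := by
      rcases h.sum Q with h3 | h3
      · rw [hsplit, hsN] at h3
        omega
      · exact h3
    have hQall := h.eq_one_of_sum hQ1
    have hle := hmax (j := Q) ⟨hΦN.trans hNQ, hQall⟩ hNQ
    exact hz (hle hzQ)
  -- the index is at most two
  have hsG : sm e (⊤ : Subgroup G) = 2 * Nat.card N - Nat.card G := by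
    have h2 : ∀ g : G, e g = 2 * (if g ∈ N then 1 else 0) - 1 := by
      intro g
      split_ifs with hg
      · rw [hN1 g hg]; norm_num
      · rw [hoff g hg]; norm_num
    have h3 : sm e (⊤ : Subgroup G) = ∑ g : G, (2 * (if g ∈ N then (1 : ℤ) else 0) - 1) := by
      unfold sm
      refine Finset.sum_congr rfl fun g _ => ?_
      rw [if_pos (Subgroup.mem_top g), h2]
    rw [h3, Finset.sum_sub_distrib, ← Finset.mul_sum, ← sm_one]
    simp [sm, Nat.card_eq_fintype_card]
  by_cases htop : N = ⊤
  · have hall : ∀ g, e g = 1 := fun g => hN1 g (htop ▸ Subgroup.mem_top g)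
    rw [hall, hall, hall, mul_one]
  · have hindex : N.index = 2 := by
      have hm := N.card_mul_index
      have hcpos : 0 < Nat.card N := Nat.card_pos
      rcases h.sum ⊤ with h3 | h3
      · rw [hsG] at h3
        have h4 : Nat.card G = 2 * Nat.card N := by omega
        rw [h4, mul_comm] at hm
        exact Nat.eq_of_mul_eq_mul_right hcpos hm
      · exfalso
        apply htop
        rw [hsG, Subgroup.card_top] at h3
        apply Subgroup.eq_top_of_card_eq
        omega
    have hmul := Subgroup.mul_mem_iff_of_index_two hindex (a := x) (b := y)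
    by_cases hx : x ∈ N <;> by_cases hy : y ∈ N
    · rw [hN1 _ (hmul.2 (by tauto)), hN1 x hx, hN1 y hy, mul_one]
    · rw [hoff _ (by rw [hmul]; tauto), hN1 x hx, hoff y hy, one_mul]
    · rw [hoff _ (by rw [hmul]; tauto), hoff x hx, hN1 y hy, mul_one]
    · rw [hN1 _ (hmul.2 (by tauto)), hoff x hx, hoff y hy]
      norm_num

/-- A nontrivial 2-group is not generated by its squares. -/
theorem exists_index_two (hG : IsPGroup 2 G) (hnt : Nontrivial G) :
    ∃ M : Subgroup G, M ≠ ⊤ ∧ ∀ g : G, g * g ∈ M := by
  obtain ⟨n, hn⟩ := IsPGroup.iff_card.1 hG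
  have hn0 : n ≠ 0 := by
    intro h
    rw [h, pow_zero] at hn
    have := Finite.one_lt_card (α := G)
    omega
  have h2 : Fact (Nat.Prime 2) := ⟨Nat.prime_two⟩
  obtain ⟨M, hM⟩ := Sylow.exists_subgroup_card_pow_prime (G := G) 2 (n := n - 1)
    (by rw [hn]; exact pow_dvd_pow 2 (by omega))
  have hidx : M.index = 2 := by
    have h3 := M.card_mul_index
    rw [hM, hn] at h3
    have h4 : 2 ^ n = 2 ^ (n - 1) * 2 := by
      rw [← pow_succ]
      congr 1
      omega
    rw [h4] at h3
    exact Nat.eq_of_mul_eq_mul_left (by positivity) h3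
  refine ⟨M, ?_, fun g => ?_⟩
  · intro h
    rw [h, Subgroup.index_top] at hidx
    omega
  · rw [← pow_two]
    exact Subgroup.sq_mem_of_index_two hidx g

/-- 2-groups. -/
theorem two_group : ∀ (n : ℕ) (G : Type u) [Group G] [Fintype G], Nat.card G = n → IsPGroup 2 G →
    ∀ e : G → ℤ, Sign e → ∀ x y : G, e (x * y) = e x * e y := by
  intro n
  induction n using Nat.strong_induction_on with
  | _ n ih =>
    intro G _ _ hcard hG e h
    classical
    rcases subsingleton_or_nontrivial G with hs | hnt
    · intro x y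
      rw [Subsingleton.elim x 1, Subsingleton.elim y 1, mul_one, h.one, mul_one]
    · obtain ⟨M, hM, hsq⟩ := exists_index_two hG hnt
      set Φ : Subgroup G := Subgroup.closure {z | ∃ g : G, z = g * g} with hΦ
      have hΦM : Φ ≤ M := by
        rw [hΦ, Subgroup.closure_le]
        rintro _ ⟨g, rfl⟩
        exact hsq g
      have hlt : Nat.card Φ < n := by
        rw [← hcard]
        refine lt_of_le_of_ne (Subgroup.card_le_card_group Φ) fun h1 => ?_
        have := Subgroup.eq_top_of_card_eq Φ h1
        exact hM (top_le_iff.1 (this ▸ hΦM))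
      have hhom := ih _ hlt Φ rfl (hG.to_subgroup Φ) (fun x : Φ => e x) (h.restrict Φ)
      refine h.hom_of_squares (Φ := Φ) (fun g => Subgroup.subset_closure ⟨g, rfl⟩) fun g hg => ?_
      have key : ∀ z (hz : z ∈ Φ), e z = 1 := by
        intro z hz
        induction hz using Subgroup.closure_induction with
        | mem z hz =>
          obtain ⟨g, rfl⟩ := hz
          exact h.sq g
        | one => exact h.one
        | mul x y hx hy hx1 hy1 =>
          have := hhom ⟨x, hx⟩ ⟨y, hy⟩
          simp only [Subgroup.coe_mul] at this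
          rw [this, hx1, hy1, mul_one]
        | inv x hx hx1 =>
          have := hhom ⟨x, hx⟩ ⟨x⁻¹, Φ.inv_mem hx⟩
          simp only [Subgroup.coe_mul] at this
          rw [mul_inv_cancel, h.one, hx1, one_mul] at this
          exact this.symm
      exact key g hg

/-- **Sign functions are homomorphisms.** -/
theorem mul (h : Sign e) (x y : G) : e (x * y) = e x * e y := by
  classical
  have h2 : Fact (Nat.Prime 2) := ⟨Nat.prime_two⟩
  obtain ⟨P⟩ : Nonempty (Sylow 2 G) := inferInstance
  have hPhom := two_group _ (P : Subgroup G) rfl P.isPGroup' (fun x : (P : Subgroup G) => e x)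
    (h.restrict P)
  -- units
  have hu : ∀ g : G, ∃ v : ℤˣ, (v : ℤ) = e g := fun g => by
    rcases h.val g with h1 | h1
    · exact ⟨1, h1.symm⟩
    · exact ⟨-1, h1.symm⟩
  choose v hv using hu
  let φ : (P : Subgroup G) →* ℤˣ :=
    { toFun := fun x => v x
      map_one' := by
        apply Units.ext
        rw [hv]
        exact h.one
      map_mul' := fun x y => by
        apply Units.ext
        rw [hv, Units.val_mul, hv, hv]
        exact hPhom x y }
  have hidx : ¬ 2 ∣ (P : Subgroup G).index := P.not_dvd_index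
  have key : ∀ g : G, ((MonoidHom.transfer φ g : ℤˣ) : ℤ) = e g := by
    intro g
    have hft : Fintype (Quotient (MulAction.orbitRel (Subgroup.zpowers g) (G ⧸ (P : Subgroup G)))) :=
      Fintype.ofFinite _
    rw [MonoidHom.transfer_eq_prod_quotient_orbitRel_zpowers_quot]
    have h3 : ∀ q : Quotient (MulAction.orbitRel (Subgroup.zpowers g) (G ⧸ (P : Subgroup G))),
        ((φ ⟨q.out.out⁻¹ * g ^ Function.minimalPeriod (g • ·) q.out * q.out.out,
            QuotientGroup.out_conj_pow_minimalPeriod_mem (P : Subgroup G) g q.out⟩ : ℤˣ) : ℤ) =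
        e g ^ Function.minimalPeriod (g • ·) q.out := by
      intro q
      change ((v _ : ℤˣ) : ℤ) = _
      rw [hv, h.conj, h.pow]
    rw [Units.coe_prod, Finset.prod_congr rfl fun q _ => h3 q, Finset.prod_pow_eq_pow_sum]
    have hsum : ∑ q : Quotient (MulAction.orbitRel (Subgroup.zpowers g) (G ⧸ (P : Subgroup G))),
        Function.minimalPeriod (g • ·) q.out = (P : Subgroup G).index := by
      rw [Subgroup.index,
        Nat.card_congr ((P : Subgroup G).quotientEquivSigmaZMod g), Nat.card_sigma]
      refine Finset.sum_congr (by ext; simp) fun q _ => ?_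
      exact (Nat.card_zmod _).symm
    rw [hsum]
    rcases h.val g with h4 | h4
    · rw [h4, one_pow]
    · rw [h4]
      exact Odd.neg_one_pow (Nat.not_even_iff_odd.1 fun h5 => hidx h5.two_dvd)
  rw [← key, map_mul, Units.val_mul, key, key]

end Sign

end Pool.Agent.MPfb225e.Grp
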