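import Mathlib
import Pool.Agent.Lib.MP_fb225e_nt.Fam.SignGroup

/-!
MP_fb225e_nt, EdgeDescent: class functions whose averages over all subgroups are `0` or `1`, on a
finite group in which every element is a product of two involutions.
-/

namespace Pool.Agent.MPfb225e.Grp

universe u

open Subgroup

section artin

variable {G : Type u} [Group G] [Fintype G] {R : Type*} [AddCommGroup R]

open Classical in
/-- the sum over the generators of a subgroup -/
noncomputable def gen (h : G → R) (C : Subgroup G) : R := ∑ g, if zpowers g = C then h g else 0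

theorem sm_eq_gen (h : G → R) (H : Subgroup G) [Fintype (Subgroup G)] [DecidableLE (Subgroup G)] :
    sm h H = ∑ C : Subgroup G, if C ≤ H then gen h C else 0 := by
  classical
  unfold sm gen
  have h1 : ∀ C : Subgroup G, (if C ≤ H then ∑ g, (if zpowers g = C then h g else 0) else 0) =
      ∑ g, if zpowers g = C then (if g ∈ H then h g else 0) else 0 := by
    intro C
    split_ifs with hC
    · refine Finset.sum_congr rfl fun g _ => ?_
      split_ifs with h2 h3
      · rfl
      · exact absurd (hC (h2 ▸ mem_zpowers g)) h3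
      · rfl
    · symm
      refine Finset.sum_eq_zero fun g _ => ?_
      split_ifs with h2 h3
      · exfalso
        apply hC
        rw [← h2, zpowers_le]
        exact h3
      · rfl
      · rfl
  rw [Finset.sum_congr rfl fun C _ => h1 C, Finset.sum_comm]
  refine Finset.sum_congr rfl fun g _ => ?_
  rw [Finset.sum_ite_eq]
  simp

theorem gen_eq_zero (h : G → R) (h0 : ∀ g, sm h (zpowers g) = 0) :
    ∀ (n : ℕ) (C : Subgroup G), Nat.card C = n → gen h C = 0 := by
  classical
  have hf : Fintype (Subgroup G) := Fintype.ofFinite _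
  intro n
  induction n using Nat.strong_induction_on with
  | _ n ih =>
    intro C hC
    by_cases hg : ∃ g, zpowers g = C
    · obtain ⟨g, hg⟩ := hg
      have h1 := h0 g
      rw [hg, sm_eq_gen, Finset.sum_eq_single C] at h1
      · rwa [if_pos le_rfl] at h1
      · intro D _ hD
        split_ifs with hle
        · refine ih (Nat.card D) ?_ D rfl
          rw [← hC]
          have hlt : D < C := lt_of_le_of_ne hle hD
          refine lt_of_le_of_ne (Subgroup.card_le_of_le hle) fun h2 => hD ?_
          exact Subgroup.eq_of_le_of_card_ge hle h2.ge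
        · rfl
      · intro h2; exact absurd (Finset.mem_univ _) h2
    · unfold gen
      refine Finset.sum_eq_zero fun g _ => ?_
      rw [if_neg fun h1 => hg ⟨g, h1⟩]

/-- Functions with sum zero over the cyclic subgroups have sum zero over all subgroups. -/
theorem artin (h : G → R) (h0 : ∀ g, sm h (zpowers g) = 0) (H : Subgroup G) : sm h H = 0 := by
  classical
  have hf : Fintype (Subgroup G) := Fintype.ofFinite _
  rw [sm_eq_gen]
  refine Finset.sum_eq_zero fun C _ => ?_
  rw [gen_eq_zero h h0 _ C rfl, ite_self]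

end artin

section dihedral

variable {G : Type u} [Group G] [Fintype G]

theorem sm_shift {R : Type*} [AddCommMonoid R] (f : G → R) (C : Subgroup G) {k : G} (hk : k ∈ C) :
    sm (fun c => f (c * k)) C = sm f C := by
  classical
  unfold sm
  rw [← Equiv.sum_comp (Equiv.mulRight k) (fun c => if c ∈ C then f c else 0)]
  refine Finset.sum_congr rfl fun c _ => ?_
  change _ = if c * k ∈ C then f (c * k) else 0
  rw [C.mul_mem_cancel_right hk]

theorem sm_const {R : Type*} [Ring R] (r : R) (C : Subgroup G) :
    sm (fun _ => r) C = Nat.card C * r := by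
  classical
  unfold sm
  rw [← Finset.sum_filter, Finset.sum_const, nsmul_eq_mul, Nat.card_eq_fintype_card,
    Fintype.card_subtype]

theorem sm_add {R : Type*} [AddCommMonoid R] (f g : G → R) (C : Subgroup G) :
    sm (fun c => f c + g c) C = sm f C + sm g C := by
  classical
  unfold sm
  rw [← Finset.sum_add_distrib]
  refine Finset.sum_congr rfl fun c _ => ?_
  split_ifs
  · rfl
  · rw [add_zero]

theorem sm_sub {R : Type*} [AddCommGroup R] (f g : G → R) (C : Subgroup G) :
    sm (fun c => f c - g c) C = sm f C - sm g C := by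
  classical
  unfold sm
  rw [← Finset.sum_sub_distrib]
  refine Finset.sum_congr rfl fun c _ => ?_
  split_ifs
  · rfl
  · rw [sub_zero]

/-- a function on a cyclic group invariant under the generator is constant -/
theorem const_of_shift {α : Type*} {q : G → α} {g : G}
    (hq : ∀ c ∈ zpowers g, q (c * g) = q c) : ∀ c ∈ zpowers g, q c = q 1 := by
  intro c hc
  obtain ⟨k, hk⟩ := (mem_powers_iff_mem_zpowers.2 hc)
  have h1 : ∀ k : ℕ, q (g ^ k) = q 1 := by
    intro k
    induction k with
    | zero => rw [pow_zero]
    | succ k ih => rw [pow_succ, hq _ (npow_mem_zpowers g k), ih]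
  rw [← hk]
  exact h1 k

/-- The sum over the reflections. -/
theorem reflections {a : G → ℝ} (hc : ∀ x y, a (x⁻¹ * y * x) = a y) {u v : G} (hu : u * u = 1)
    (hv : v * v = 1) : 2 * sm (fun c => a (u * c)) (zpowers (u * v)) =
      Nat.card (zpowers (u * v)) * (a u + a v) := by
  set g := u * v with hg
  have hui : u⁻¹ = u := inv_eq_of_mul_eq_one_right hu
  have hvi : v⁻¹ = v := inv_eq_of_mul_eq_one_right hv
  have hinv : ∀ c ∈ zpowers g, a (u * (c * g * g)) = a (u * c) := by
    intro c hcm
    obtain ⟨k, hk⟩ := mem_zpowers_iff.1 hcm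
    have hcomm : c * g = g * c := by
      rw [← hk]
      exact ((Commute.refl g).zpow_right k).eq.symm
    rw [← hc g (u * c)]
    congr 1
    have h1 : g⁻¹ * u = u * g := by
      rw [hg, mul_inv_rev, hui, hvi, mul_assoc, hu, mul_one, ← mul_assoc, hu, one_mul]
    calc u * (c * g * g) = u * (g * c * g) := by rw [hcomm]
      _ = (u * g) * c * g := by group
      _ = (g⁻¹ * u) * c * g := by rw [h1]
      _ = g⁻¹ * (u * c) * g := by group
  have h1 : sm (fun c => a (u * c) + a (u * (c * g))) (zpowers g) =
      2 * sm (fun c => a (u * c)) (zpowers g) := by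
    rw [sm_add, sm_shift (fun c => a (u * c)) _ (mem_zpowers g)]
    ring
  have h2 := const_of_shift (q := fun c => a (u * c) + a (u * (c * g))) (g := g) (by
    intro c hcm
    rw [hinv c hcm, add_comm])
  rw [← h1, sm_congr h2, sm_const]
  rw [mul_one, one_mul]
  have h3 : u * g = v := by rw [hg, ← mul_assoc, hu, one_mul]
  rw [h3]

/-- the dihedral group -/
def dih (u v : G) (hu : u * u = 1) (hv : v * v = 1) : Subgroup G where
  carrier := {x | x ∈ zpowers (u * v) ∨ u * x ∈ zpowers (u * v)}
  one_mem' := Or.inl (one_mem _)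
  mul_mem' := by
    have hui : u⁻¹ = u := inv_eq_of_mul_eq_one_right hu
    have hvi : v⁻¹ = v := inv_eq_of_mul_eq_one_right hv
    have hconj : ∀ c ∈ zpowers (u * v), u * c * u ∈ zpowers (u * v) := by
      intro c hc
      obtain ⟨k, hk⟩ := mem_zpowers_iff.1 hc
      have h1 : u * c * u = (u * (u * v) * u⁻¹) ^ k := by
        rw [conj_zpow, hk, hui]
      have h2 : u * (u * v) * u⁻¹ = (u * v)⁻¹ := by
        rw [mul_inv_rev, hui, hvi, ← mul_assoc, hu, one_mul]
      rw [h1, h2]
      exact zpow_mem (inv_mem (mem_zpowers _)) k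
    intro x y hx hy
    rcases hx with hx | hx <;> rcases hy with hy | hy
    · exact Or.inl (mul_mem hx hy)
    · right
      have h1 : u * (x * y) = (u * x * u) * (u * y) := by
        calc u * (x * y) = u * x * 1 * y := by group
          _ = u * x * (u * u) * y := by rw [hu]
          _ = (u * x * u) * (u * y) := by group
      rw [h1]
      exact mul_mem (hconj x hx) hy
    · right
      rw [← mul_assoc]
      exact mul_mem hx hy
    · left
      have h1 : x * y = u * (u * x) * u * (u * y) := by
        calc x * y = 1 * x * 1 * y := by group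
          _ = (u * u) * x * (u * u) * y := by rw [hu]
          _ = u * (u * x) * u * (u * y) := by group
      rw [h1]
      exact mul_mem (hconj _ hx) hy
  inv_mem' := by
    have hui : u⁻¹ = u := inv_eq_of_mul_eq_one_right hu
    have hvi : v⁻¹ = v := inv_eq_of_mul_eq_one_right hv
    have hconj : ∀ c ∈ zpowers (u * v), u * c * u ∈ zpowers (u * v) := by
      intro c hc
      obtain ⟨k, hk⟩ := mem_zpowers_iff.1 hc
      have h1 : u * c * u = (u * (u * v) * u⁻¹) ^ k := by
        rw [conj_zpow, hk, hui]
      have h2 : u * (u * v) * u⁻¹ = (u * v)⁻¹ := by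
        rw [mul_inv_rev, hui, hvi, ← mul_assoc, hu, one_mul]
      rw [h1, h2]
      exact zpow_mem (inv_mem (mem_zpowers _)) k
    intro x hx
    rcases hx with hx | hx
    · exact Or.inl (inv_mem hx)
    · right
      have h1 : u * x⁻¹ = u * (u * x)⁻¹ * u := by
        rw [mul_inv_rev, hui, ← mul_assoc, mul_assoc _ u u, hu, mul_one]
      rw [h1]
      exact hconj _ (inv_mem hx)

theorem sm_dih {a : G → ℝ} (hc : ∀ x y, a (x⁻¹ * y * x) = a y) {u v : G} (hu : u * u = 1)
    (hv : v * v = 1) (huC : u ∉ zpowers (u * v)) :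
    2 * sm a (dih u v hu hv) = 2 * sm a (zpowers (u * v)) +
      Nat.card (zpowers (u * v)) * (a u + a v) := by
  classical
  have hui : u⁻¹ = u := inv_eq_of_mul_eq_one_right hu
  set C := zpowers (u * v) with hC
  have hdis : ∀ x, x ∈ C → u * x ∉ C := fun x hx hux => huC (by
    have h1 : u = u * x * x⁻¹ := by group
    rw [h1]
    exact mul_mem hux (inv_mem hx))
  have hmem : ∀ x, x ∈ dih u v hu hv ↔ x ∈ C ∨ u * x ∈ C := fun _ => Iff.rfl
  have h1 : sm a (dih u v hu hv) = sm a C + ∑ x : G, if u * x ∈ C then a x else 0 := by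
    unfold sm
    rw [← Finset.sum_add_distrib]
    refine Finset.sum_congr rfl fun x _ => ?_
    by_cases hx : x ∈ C
    · rw [if_pos ((hmem x).2 (Or.inl hx)), if_pos hx, if_neg (hdis x hx), add_zero]
    · by_cases hux : u * x ∈ C
      · rw [if_pos ((hmem x).2 (Or.inr hux)), if_neg hx, if_pos hux, zero_add]
      · rw [if_neg, if_neg hx, if_neg hux, add_zero]
        rw [hmem]
        tauto
  have h2 : (∑ x : G, if u * x ∈ C then a x else 0) = sm (fun c => a (u * c)) C := by
    unfold sm
    rw [← Equiv.sum_comp (Equiv.mulLeft u) (fun x => if u * x ∈ C then a x else 0)]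
    refine Finset.sum_congr rfl fun x _ => ?_
    change (if u * (u * x) ∈ C then a (u * x) else 0) = _
    rw [← mul_assoc u u x, hu, one_mul]
  rw [h1, h2, mul_add, reflections hc hu hv]

theorem card_dih {u v : G} (hu : u * u = 1) (hv : v * v = 1) (huC : u ∉ zpowers (u * v)) :
    Nat.card (dih u v hu hv) = 2 * Nat.card (zpowers (u * v)) := by
  have h1 := sm_dih (a := fun _ => (1 : ℝ)) (fun _ _ => rfl) hu hv huC
  rw [sm_one_real, sm_one_real] at h1
  have h2 : (Nat.card (dih u v hu hv) : ℝ) = 2 * Nat.card (zpowers (u * v)) := by linarith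
  exact_mod_cast h2

end dihedral

section dihedral2

variable {G : Type u} [Group G] [Fintype G]

/-- Class functions whose averages are `0` or `1`. -/
structure Data (a : G → ℝ) (m : Subgroup G → ℕ) : Prop where
  conj : ∀ x y, a (x⁻¹ * y * x) = a y
  sum : ∀ H, sm a H = Nat.card H * m H
  le : ∀ H, m H ≤ 1
  inv : ∀ g : G, ∃ u v : G, u * u = 1 ∧ v * v = 1 ∧ g = u * v

namespace Data

variable {a : G → ℝ} {m : Subgroup G → ℕ}

theorem conj_card (h : Data a m) (x y : G) : m (zpowers (x⁻¹ * y * x)) = m (zpowers y) := by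
  classical
  let φ : G ≃* G := MulAut.conj x⁻¹
  have hφ : ∀ z, φ z = x⁻¹ * z * x := fun z => by
    simp [φ]
  have h1 : zpowers (x⁻¹ * y * x) = (zpowers y).map φ.toMonoidHom := by
    rw [MonoidHom.map_zpowers]
    congr 1
    exact (hφ y).symm
  have h2 : sm a ((zpowers y).map φ.toMonoidHom) = sm a (zpowers y) := by
    unfold sm
    rw [← Equiv.sum_comp φ.toEquiv (fun z => if z ∈ (zpowers y).map φ.toMonoidHom then a z else 0)]
    refine Finset.sum_congr rfl fun z _ => ?_
    change (if φ z ∈ (zpowers y).map φ.toMonoidHom then a (φ z) else 0) = _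
    have h3 : φ z ∈ (zpowers y).map φ.toMonoidHom ↔ z ∈ zpowers y := by
      constructor
      · rintro ⟨w, hw, hwz⟩
        have : w = z := φ.injective hwz
        rwa [← this]
      · intro hz
        exact ⟨z, hz, rfl⟩
    simp only [h3]
    rw [hφ, h.conj]
  have h3 : Nat.card ((zpowers y).map φ.toMonoidHom) = Nat.card (zpowers y) :=
    Nat.card_congr ((zpowers y).equivMapOfInjective φ.toMonoidHom φ.injective).symm.toEquiv
  rw [h1]
  rw [h.sum, h.sum, h3] at h2
  have h4 : (0 : ℝ) < Nat.card (zpowers y) := by
    have : 0 < Nat.card (zpowers y) := Nat.card_pos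
    exact_mod_cast this
  have h5 := mul_left_cancel₀ h4.ne' h2
  exact_mod_cast h5

theorem one_eq (h : Data a m) : a 1 = m ⊥ := by
  classical
  have h1 := h.sum ⊥
  unfold sm at h1
  rw [Finset.sum_eq_single 1] at h1
  · rw [if_pos (one_mem _), Subgroup.card_bot, Nat.cast_one, one_mul] at h1
    exact h1
  · intro x _ hx
    rw [if_neg]
    rwa [Subgroup.mem_bot]
  · intro h2; exact absurd (Finset.mem_univ _) h2

theorem inv_eq (h : Data a m) {u : G} (hu : u * u = 1) : a u = 2 * m (zpowers u) - m ⊥ := by
  classical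
  by_cases h1 : u = 1
  · subst h1
    rw [h.one_eq, zpowers_one_eq_bot]
    ring
  · have hmem : ∀ x, x ∈ zpowers u ↔ x = 1 ∨ x = u := by
      intro x
      constructor
      · intro hx
        obtain ⟨k, hk⟩ := mem_powers_iff_mem_zpowers.2 hx
        have h2 : ∀ k : ℕ, u ^ k = 1 ∨ u ^ k = u := by
          intro k
          induction k with
          | zero => left; rw [pow_zero]
          | succ k ih =>
            rw [pow_succ]
            rcases ih with ih | ih
            · right; rw [ih, one_mul]
            · left; rw [ih, hu]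
        rw [← hk]
        exact h2 k
      · rintro (rfl | rfl)
        · exact one_mem _
        · exact mem_zpowers _
    have h2 : ∀ f : G → ℝ, sm f (zpowers u) = f 1 + f u := by
      intro f
      unfold sm
      have h3 : ∀ x : G, (if x ∈ zpowers u then f x else 0) =
          (if x = 1 then f x else 0) + (if x = u then f x else 0) := by
        intro x
        by_cases hx1 : x = 1
        · rw [if_pos ((hmem x).2 (Or.inl hx1)), if_pos hx1, if_neg (by rw [hx1]; exact Ne.symm h1),
            add_zero]
        · by_cases hxu : x = u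
          · rw [if_pos ((hmem x).2 (Or.inr hxu)), if_neg hx1, if_pos hxu, zero_add]
          · rw [if_neg (by rw [hmem]; tauto), if_neg hx1, if_neg hxu, add_zero]
      rw [Finset.sum_congr rfl fun x _ => h3 x, Finset.sum_add_distrib]
      simp
    have h3 := h2 fun _ => 1
    rw [sm_one_real] at h3
    have h4 := h.sum (zpowers u)
    rw [h2, h3, h.one_eq] at h4
    linarith

/-- the sign -/
noncomputable def eps (m : Subgroup G → ℕ) (g : G) : ℤ := (-1) ^ (m (zpowers g) + m ⊥)

omit [Fintype G] in
theorem eps_val (m : Subgroup G → ℕ) (g : G) : eps m g = 1 ∨ eps m g = -1 :=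
  neg_one_pow_eq_or ℤ _

omit [Fintype G] in
theorem eps_sq (m : Subgroup G → ℕ) (g : G) : eps m g * eps m g = 1 := by
  rcases eps_val m g with h | h <;> rw [h] <;> norm_num

omit [Fintype G] in
theorem eps_one (m : Subgroup G → ℕ) : eps m 1 = 1 := by
  unfold eps
  rw [zpowers_one_eq_bot]
  exact Even.neg_one_pow ⟨_, rfl⟩

theorem eps_conj (h : Data a m) (x y : G) : eps m (x⁻¹ * y * x) = eps m y := by
  unfold eps
  rw [h.conj_card]

theorem eps_mul (h : Data a m) {u v : G} (hu : u * u = 1) (hv : v * v = 1) :
    eps m (u * v) = eps m u * eps m v := by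
  by_cases huC : u ∈ zpowers (u * v)
  · -- the cyclic case
    set g := u * v with hg
    have hui : u⁻¹ = u := inv_eq_of_mul_eq_one_right hu
    have hcomm : u * g = g * u := by
      obtain ⟨k, hk⟩ := mem_zpowers_iff.1 huC
      have h1 := ((Commute.refl g).zpow_left k).eq
      rwa [hk] at h1
    have hv' : v = u * g := by rw [hg, ← mul_assoc, hu, one_mul]
    have hg2 : g * g = 1 := by
      have h1 : v * v = (u * u) * (g * g) := by
        calc v * v = (u * g) * (u * g) := by rw [← hv']
          _ = u * (g * u) * g := by group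
          _ = u * (u * g) * g := by rw [hcomm]
          _ = (u * u) * (g * g) := by group
      rw [hv, hu, one_mul] at h1
      exact h1.symm
    obtain ⟨k, hk⟩ := mem_powers_iff_mem_zpowers.2 huC
    have h2 : ∀ k : ℕ, g ^ k = 1 ∨ g ^ k = g := by
      intro k
      induction k with
      | zero => left; rw [pow_zero]
      | succ k ih =>
        rw [pow_succ]
        rcases ih with ih | ih
        · right; rw [ih, one_mul]
        · left; rw [ih, hg2]
    have h3 : u = 1 ∨ u = g := by
      have h4 : g ^ k = u := hk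
      rw [← h4]
      exact h2 k
    rcases h3 with h3 | h3
    · have h4 : g = v := by rw [hg, h3, one_mul]
      rw [h4, h3, eps_one, one_mul]
    · have h4 : v = 1 := by rw [hv', h3, hg2]
      rw [← h3, h4, eps_one, mul_one]
  · have h1 := sm_dih h.conj hu hv huC
    rw [h.sum, h.sum, card_dih hu hv huC, h.inv_eq hu, h.inv_eq hv] at h1
    have hpos : (0 : ℝ) < Nat.card (zpowers (u * v)) := by
      have : 0 < Nat.card (zpowers (u * v)) := Nat.card_pos
      exact_mod_cast this
    have h2 : (2 : ℝ) * m (dih u v hu hv) =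
        m (zpowers (u * v)) + m (zpowers u) + m (zpowers v) - m ⊥ := by
      push_cast at h1
      have h3 : (Nat.card (zpowers (u * v)) : ℝ) * (2 * (2 * m (dih u v hu hv))) =
          Nat.card (zpowers (u * v)) * (2 * (m (zpowers (u * v)) + m (zpowers u) +
            m (zpowers v) - m ⊥)) := by linarith
      have h4 := mul_left_cancel₀ hpos.ne' h3
      linarith
    have h3 : 2 * m (dih u v hu hv) + m ⊥ =
        m (zpowers (u * v)) + m (zpowers u) + m (zpowers v) := by
      have h4 : (2 : ℝ) * m (dih u v hu hv) + m ⊥ =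
        m (zpowers (u * v)) + m (zpowers u) + m (zpowers v) := by linarith
      exact_mod_cast h4
    unfold eps
    rw [← pow_add]
    have h4 : (m (zpowers (u * v)) + m ⊥) + ((m (zpowers u) + m ⊥) + (m (zpowers v) + m ⊥)) =
        2 * (m (dih u v hu hv) + 2 * m ⊥) := by omega
    have h5 : (-1 : ℤ) ^ ((m (zpowers (u * v)) + m ⊥) +
        ((m (zpowers u) + m ⊥) + (m (zpowers v) + m ⊥))) = 1 := by
      rw [h4, pow_mul]
      norm_num
    rw [pow_add] at h5
    rcases neg_one_pow_eq_or ℤ (m (zpowers (u * v)) + m ⊥) with h6 | h6 <;> rw [h6] at h5 ⊢ <;>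
      linarith

theorem eps_pow (h : Data a m) (g : G) (k : ℕ) : eps m (g ^ k) = eps m g ^ k := by
  obtain ⟨u, v, hu, hv, rfl⟩ := h.inv g
  set g := u * v with hg
  have hui : u⁻¹ = u := inv_eq_of_mul_eq_one_right hu
  have hvi : v⁻¹ = v := inv_eq_of_mul_eq_one_right hv
  have hv' : u * g = v := by rw [hg, ← mul_assoc, hu, one_mul]
  have hginv : u * g * u = g⁻¹ := by
    rw [hv', hg, mul_inv_rev, hui, hvi]
  have hconj : ∀ k : ℕ, u * g ^ k * u = (g ^ k)⁻¹ := by
    intro k
    induction k with
    | zero => rw [pow_zero, mul_one, hu, inv_one]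
    | succ k ih =>
      calc u * g ^ (k + 1) * u = u * g ^ k * 1 * g * u := by rw [pow_succ]; group
        _ = (u * g ^ k * u) * (u * g * u) := by rw [← hu]; group
        _ = (g ^ k)⁻¹ * g⁻¹ := by rw [ih, hginv]
        _ = (g ^ (k + 1))⁻¹ := by rw [pow_succ' g k]; exact (mul_inv_rev g (g ^ k)).symm
  have hinv : ∀ k : ℕ, (u * g ^ k) * (u * g ^ k) = 1 := by
    intro k
    rw [← mul_assoc, hconj, inv_mul_cancel]
  have hstep : ∀ k : ℕ, eps m (u * g ^ (k + 2)) = eps m (u * g ^ k) := by
    intro k
    rw [← h.eps_conj g (u * g ^ k)]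
    congr 1
    have h1 : g⁻¹ * u = u * g := by
      rw [hg, mul_inv_rev, hui, hvi, mul_assoc, hu, mul_one, ← mul_assoc, hu, one_mul]
    calc u * g ^ (k + 2) = (u * g) * g ^ k * g := by
          rw [pow_add, pow_two]
          calc u * (g ^ k * (g * g)) = u * (g ^ k * g) * g := by group
            _ = u * (g * g ^ k) * g := by rw [← pow_succ, pow_succ']
            _ = (u * g) * g ^ k * g := by group
      _ = (g⁻¹ * u) * g ^ k * g := by rw [h1]
      _ = g⁻¹ * (u * g ^ k) * g := by group
  have href : ∀ k : ℕ, eps m (u * g ^ k) = eps m u * eps m g ^ k := by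
    intro k
    induction k using Nat.strong_induction_on with
    | _ k ih =>
      match k, ih with
      | 0, _ => rw [pow_zero, pow_zero, mul_one, mul_one]
      | 1, _ =>
        rw [pow_one, pow_one, hv', hg, h.eps_mul hu hv, ← mul_assoc, eps_sq, one_mul]
      | k + 2, ih =>
        rw [hstep, ih k (by omega), pow_add, pow_two, eps_sq, mul_one]
  have h1 : g ^ k = u * (u * g ^ k) := by rw [← mul_assoc, hu, one_mul]
  nth_rewrite 1 [h1]
  rw [h.eps_mul hu (hinv k), href, ← mul_assoc, eps_sq, one_mul]

theorem sm_eps (m : Subgroup G → ℕ) (hp : ∀ (g : G) (k : ℕ), eps m (g ^ k) = eps m g ^ k) (g : G) :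
    sm (fun x => (eps m x : ℝ)) (zpowers g) =
      if eps m g = 1 then (Nat.card (zpowers g) : ℝ) else 0 := by
  split_ifs with h1
  · rw [← sm_one_real]
    refine sm_congr fun x hx => ?_
    obtain ⟨k, hk⟩ := mem_powers_iff_mem_zpowers.2 hx
    have h2 : g ^ k = x := hk
    rw [← h2, hp, h1, one_pow, Int.cast_one]
  · have h2 : eps m g = -1 := (eps_val m g).resolve_left h1
    have h3 := sm_shift (fun x => (eps m x : ℝ)) (zpowers g) (mem_zpowers g)
    have h4 : sm (fun c => (eps m (c * g) : ℝ)) (zpowers g) =
        sm (fun c => -1 * (eps m c : ℝ)) (zpowers g) := by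
      refine sm_congr fun x hx => ?_
      obtain ⟨k, hk⟩ := mem_powers_iff_mem_zpowers.2 hx
      have h5 : g ^ k = x := hk
      rw [← h5, ← pow_succ, hp, hp, h2, pow_succ]
      push_cast
      ring
    have h5 : sm (fun c => -1 * (eps m c : ℝ)) (zpowers g) =
        -1 * sm (fun c => (eps m c : ℝ)) (zpowers g) := by
      classical
      unfold sm
      rw [Finset.mul_sum]
      refine Finset.sum_congr rfl fun x _ => ?_
      split_ifs
      · rfl
      · rw [mul_zero]
    rw [h4, h5] at h3
    linarith

/-- **Averages over all subgroups.** -/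
theorem sm_all (h : Data a m) (H : Subgroup G) :
    sm (eps m) H = Nat.card H * (if m ⊥ = 1 then (m H : ℤ) else 1 - m H) := by
  have h0 : m ⊥ = 0 ∨ m ⊥ = 1 := by have := h.le ⊥; omega
  have hcyc : ∀ g, sm (fun x => (eps m x : ℝ)) (zpowers g) =
      Nat.card (zpowers g) * (if m ⊥ = 1 then (m (zpowers g) : ℝ) else 1 - m (zpowers g)) := by
    intro g
    rw [sm_eps m h.eps_pow]
    have h1 : m (zpowers g) = 0 ∨ m (zpowers g) = 1 := by have := h.le (zpowers g); omega
    unfold eps
    rcases h0 with h0 | h0 <;> rcases h1 with h1 | h1 <;> rw [h0, h1] <;> norm_num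
  have hreal : sm (fun x => (eps m x : ℝ)) H =
      Nat.card H * (if m ⊥ = 1 then (m H : ℝ) else 1 - m H) := by
    rcases h0 with h0 | h0
    · have h1 := artin (fun x => (eps m x : ℝ) - (1 - a x)) (fun g => by
        rw [sm_sub, sm_sub, hcyc, h.sum, sm_one_real, if_neg (by omega)]
        ring) H
      rw [sm_sub, sm_sub, h.sum, sm_one_real] at h1
      rw [if_neg (by omega)]
      linarith
    · have h1 := artin (fun x => (eps m x : ℝ) - a x) (fun g => by
        rw [sm_sub, hcyc, h.sum, if_pos h0, sub_self]) H
      rw [sm_sub, h.sum] at h1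
      rw [if_pos h0]
      linarith
  have hcast : sm (fun x => (eps m x : ℝ)) H = ((sm (eps m) H : ℤ) : ℝ) := by
    classical
    unfold sm
    push_cast
    rfl
  rw [hcast] at hreal
  split_ifs with h1
  · rw [if_pos h1] at hreal
    exact_mod_cast hreal
  · rw [if_neg h1] at hreal
    exact_mod_cast hreal

theorem sign (h : Data a m) : Sign (eps m) where
  val := eps_val m
  pow := h.eps_pow
  conj := h.eps_conj
  sum H := by
    rw [h.sm_all H]
    have h1 : m H = 0 ∨ m H = 1 := by have := h.le H; omega
    split_ifs <;> rcases h1 with h1 | h1 <;> rw [h1] <;> simp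

/-- **Classification.** -/
theorem classify (h : Data a m) : ∃ N : Subgroup G, N.index ≤ 2 ∧
    ((∀ H, (m H = 1 ↔ H ≤ N)) ∨ ∀ H, (m H = 0 ↔ H ≤ N)) := by
  have hs := h.sign
  have hu : ∀ g : G, ∃ v : ℤˣ, (v : ℤ) = eps m g := fun g => by
    rcases eps_val m g with h1 | h1
    · exact ⟨1, h1.symm⟩
    · exact ⟨-1, h1.symm⟩
  choose v hv using hu
  let φ : G →* ℤˣ :=
    { toFun := v
      map_one' := by
        apply Units.ext
        rw [hv]
        exact hs.one
      map_mul' := fun x y => by
        apply Units.ext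
        rw [hv, Units.val_mul, hv, hv]
        exact hs.mul x y }
  have hker : ∀ g, g ∈ φ.ker ↔ eps m g = 1 := by
    intro g
    rw [MonoidHom.mem_ker, ← hv g]
    constructor
    · intro h1
      have h2 : v g = 1 := h1
      rw [h2, Units.val_one]
    · intro h1
      apply Units.ext
      exact h1
  refine ⟨φ.ker, ?_, ?_⟩
  · rw [Subgroup.index_ker]
    have h1 : Nat.card φ.range ≤ Nat.card ℤˣ := Subgroup.card_le_card_group _
    have h2 : Nat.card ℤˣ = 2 := by
      rw [Nat.card_eq_fintype_card]
      rfl
    omega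
  · have hH : ∀ H : Subgroup G, (sm (eps m) H = Nat.card H ↔ H ≤ φ.ker) := by
      intro H
      constructor
      · intro h1 g hg
        rw [hker]
        exact hs.eq_one_of_sum h1 g hg
      · intro h1
        rw [← sm_one]
        exact sm_congr fun g hg => (hker g).1 (h1 hg)
    have hcpos : ∀ H : Subgroup G, (0 : ℤ) < Nat.card H := fun H => by exact_mod_cast Nat.card_pos
    rcases (show m ⊥ = 0 ∨ m ⊥ = 1 by have := h.le ⊥; omega) with h0 | h0
    · right
      intro H
      rw [← hH, h.sm_all, if_neg (by omega)]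
      have h1 : m H = 0 ∨ m H = 1 := by have := h.le H; omega
      have h2 := hcpos H
      rcases h1 with h1 | h1
      · rw [h1]; simp
      · rw [h1]; simp only [Nat.cast_one, sub_self, mul_zero]
        constructor <;> intro h3 <;> omega
    · left
      intro H
      rw [← hH, h.sm_all, if_pos h0]
      have h1 : m H = 0 ∨ m H = 1 := by have := h.le H; omega
      have h2 := hcpos H
      rcases h1 with h1 | h1
      · rw [h1]; simp only [Nat.cast_zero, mul_zero]
        constructor <;> intro h3 <;> omega
      · rw [h1]; simp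

end Data

end dihedral2

end Pool.Agent.MPfb225e.Grp
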