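import Mathlib
import Pool.Agent.Lib.MP_fb225e_nt.Fam.EdgeL2

/-!
MP_fb225e_nt, EdgeFamilies, part 11: comparison of two fields, and fields with symmetric Galois
group.
-/

namespace Pool.Agent.MPfb225e.Fam

open NumberField IsDedekindDomain Module Filter Topology Curve WeierstrassCurve

universe u

/-- the core of the edge inequality -/
theorem core {y f : ℕ → ℝ} (hy : ∀ p, |y p| ≤ 2) {t A M : ℝ} (hfb : ∃ C, ∀ p : Nat.Primes, |f p| ≤ C)
    (hlim : Tendsto (fun ε : ℝ => S (fun p => y p * f p) t ε / Real.log (1 / ε)) (𝓝[>] 0) (𝓝 A))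
    (hg : HasMean (fun p => |f p|) M) (hM0 : 0 ≤ M) : |A| ≤ 2 * (kap t * M) := by
  obtain ⟨C, hC⟩ := hfb
  have hC' : ∀ p : Nat.Primes, |(|f p|)| ≤ C := fun p => by rw [abs_abs]; exact hC p
  have hC2 : ∀ p : Nat.Primes, |y p * f p| ≤ 2 * C := fun p => by
    rw [abs_mul]
    exact mul_le_mul (hy p) (hC p) (abs_nonneg _) (by norm_num)
  have h3 := hlim.abs
  have hcosb : ∀ p : Nat.Primes, |(|Real.cos (t * Real.log p)|)| ≤ 1 := fun p => by
    rw [abs_abs]; exact Real.abs_cos_le_one _
  have hbound : ∀ᶠ ε : ℝ in 𝓝[>] 0,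
      |S (fun p => y p * f p) t ε / Real.log (1 / ε)| ≤
      2 * (TT (fun p => |f p|) (fun p => |Real.cos (t * Real.log p)|) ε / Real.log (1 / ε)) := by
    filter_upwards [eventually_pos, eventually_log_pos] with ε hε hl
    rw [abs_div, abs_of_pos hl, ← mul_div_assoc]
    refine div_le_div_of_nonneg_right ?_ hl.le
    have hsumm : Summable fun p : Nat.Primes => (y p * f p) *
        ((p : ℝ) ^ (-(1 + ε)) * Real.cos (t * Real.log p)) :=
      summable_TT (f := fun p => y p * f p) hC2 (abs_cos' t) hε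
    have hsTT := summable_TT (f := fun p => |f p|) hC' hcosb hε
    rw [TT, ← tsum_mul_left, ← Real.norm_eq_abs]
    unfold S
    refine (norm_tsum_le_tsum_norm hsumm.norm).trans
      (hsumm.norm.tsum_le_tsum (fun p => ?_) (hsTT.mul_left 2))
    rw [Real.norm_eq_abs, abs_mul, abs_mul, abs_mul,
      abs_of_nonneg (Real.rpow_nonneg (by positivity) _), mul_assoc]
    exact mul_le_mul_of_nonneg_right (hy p) (by positivity)
  refine le_of_forall_pos_le_add fun δ hδ => ?_
  have h4 := hg.abs_cos (fun p => abs_nonneg _) hM0 t (δ := δ / 2) (by positivity)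
  refine le_of_tendsto h3 ?_
  filter_upwards [hbound, h4] with ε h5 h6
  refine h5.trans ?_
  have := mul_le_mul_of_nonneg_left h6 (by norm_num : (0 : ℝ) ≤ 2)
  linarith

theorem HasMean.unique {f : ℕ → ℝ} {M M' : ℝ} (h : HasMean f M) (h' : HasMean f M') : M = M' := by
  have h1 := h.lim 0
  have h2 := h'.lim 0
  rw [if_pos rfl] at h1 h2
  exact tendsto_nhds_unique h1 h2

/-- The mean number of fixed embeddings is one. -/
theorem sum_fix (K : Type u) [Field K] [NumberField K] (L : Type u) [Field L] [NumberField L]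
    [IsGalois ℚ L] (hK : Nonempty (K →ₐ[ℚ] L)) :
    (∑ σ : L ≃ₐ[ℚ] L, (fix K σ : ℝ)) = Nat.card (L ≃ₐ[ℚ] L) := by
  have h1 := hasMean_fun (ι := Unit) (K := fun _ => K) (L := L) (fun _ => hK)
    (fun a => (a () : ℝ))
  have h2 := h1.unique (hasMean_homCount K)
  have h3 : (Nat.card (L ≃ₐ[ℚ] L) : ℝ) ≠ 0 := by
    have : 0 < Nat.card (L ≃ₐ[ℚ] L) := Nat.card_pos
    positivity
  rwa [div_eq_one_iff_eq h3] at h2

/-- The number of automorphisms without fixed embedding of `K`. -/
noncomputable def der (K : Type u) [Field K] [NumberField K] (L : Type u) [Field L]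
    [NumberField L] : ℕ := Nat.card {σ : L ≃ₐ[ℚ] L // fix K σ = 0}

theorem sum_abs_fix (K : Type u) [Field K] [NumberField K] (L : Type u) [Field L] [NumberField L]
    [IsGalois ℚ L] (hK : Nonempty (K →ₐ[ℚ] L)) :
    (∑ σ : L ≃ₐ[ℚ] L, |(fix K σ : ℝ) - 1|) = 2 * der K L := by
  classical
  have h1 : ∀ σ : L ≃ₐ[ℚ] L, |(fix K σ : ℝ) - 1| =
      ((fix K σ : ℝ) - 1) + 2 * (if fix K σ = 0 then 1 else 0) := by
    intro σ
    split_ifs with h
    · rw [h]; norm_num
    · have : (1 : ℝ) ≤ fix K σ := by exact_mod_cast Nat.one_le_iff_ne_zero.2 h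
      rw [abs_of_nonneg (by linarith)]
      ring
  rw [Finset.sum_congr rfl fun σ _ => h1 σ, Finset.sum_add_distrib, Finset.sum_sub_distrib,
    sum_fix K L hK, Finset.sum_const, Finset.card_univ, ← Nat.card_eq_fintype_card,
    nsmul_eq_mul, mul_one, sub_self, zero_add, ← Finset.mul_sum, Finset.sum_boole]
  congr 2
  unfold der
  rw [Nat.card_eq_fintype_card, Fintype.card_subtype]

theorem hasMean_abs_sub_one (K : Type u) [Field K] [NumberField K] (L : Type u) [Field L]
    [NumberField L] [IsGalois ℚ L] (hK : Nonempty (K →ₐ[ℚ] L)) :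
    HasMean (fun p => |(homCount K p : ℝ) - 1|)
      (2 * ((der K L : ℝ) / Nat.card (L ≃ₐ[ℚ] L))) := by
  have h1 := hasMean_fun (ι := Unit) (K := fun _ => K) (L := L) (fun _ => hK)
    (fun a => |(a () : ℝ) - 1|)
  rw [sum_abs_fix K L hK, mul_div_assoc] at h1
  exact h1

/-- Comparison of a number field with `ℚ`. -/
theorem edge_rat (E : WeierstrassCurve ℚ) [E.IsElliptic] (K : Type) [Field K] [NumberField K]
    (L : Type) [Field L] [NumberField L] [IsGalois ℚ L]
    (hK : Nonempty (K →ₐ[ℚ] L)) (F F' : ℂ → ℂ)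
    (hF : Differentiable ℂ F) (hF' : Differentiable ℂ F')
    (hFL : ∀ s : ℂ, 3 / 2 < s.re → F s = (E.baseChange K).LSeries s)
    (hFL' : ∀ s : ℂ, 3 / 2 < s.re → F' s = E.LSeries s) (t : ℝ) :
    |(ord F t : ℝ) - ord F' t| ≤ 4 * kap t * ((der K L : ℝ) / Nat.card (L ≃ₐ[ℚ] L)) := by
  have e0 : @WeierstrassCurve.baseChange ℚ _ E ℚ _ DivisionRing.toRatAlgebra = E := by
    have : @algebraMap ℚ ℚ _ _ DivisionRing.toRatAlgebra = RingHom.id ℚ := Subsingleton.elim _ _
    rw [WeierstrassCurve.baseChange, this, WeierstrassCurve.map_id]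
  obtain ⟨y, hy, hlim⟩ := exists_y.{0} E
  have h1 := hlim K F hF hFL t
  have h2 := hlim ℚ F' hF' (fun s hs => by rw [hFL' s hs, e0]) t
  have h3 := h1.sub h2
  have hb : ∃ C, ∀ p : Nat.Primes, |(homCount K p : ℝ) - 1| ≤ C := by
    obtain ⟨C, hC⟩ := (hasMean_homCount K).bdd
    refine ⟨C + 1, fun p => (abs_sub _ _).trans ?_⟩
    rw [abs_one]
    linarith [hC p]
  have h4 : Tendsto (fun ε : ℝ => S (fun p => y p * ((homCount K p : ℝ) - 1)) t ε /
      Real.log (1 / ε)) (𝓝[>] 0) (𝓝 (-(ord F t : ℝ) - -(ord F' t : ℝ))) := by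
    refine h3.congr' ?_
    filter_upwards [eventually_pos] with ε hε
    rw [← sub_div]
    congr 1
    obtain ⟨C, hC⟩ := (hasMean_homCount K).bdd
    obtain ⟨D, hD⟩ := (hasMean_homCount ℚ).bdd
    have s1 : Summable fun p : Nat.Primes => (y p * homCount K p) *
        ((p : ℝ) ^ (-(1 + ε)) * Real.cos (t * Real.log p)) :=
      summable_TT (f := fun p => y p * homCount K p) (C := 2 * C) (fun p => by
        rw [abs_mul]
        exact mul_le_mul (hy p) (hC p) (abs_nonneg _) (by norm_num)) (abs_cos' t) hε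
    have s2 : Summable fun p : Nat.Primes => (y p * homCount ℚ p) *
        ((p : ℝ) ^ (-(1 + ε)) * Real.cos (t * Real.log p)) :=
      summable_TT (f := fun p => y p * homCount ℚ p) (C := 2 * D) (fun p => by
        rw [abs_mul]
        exact mul_le_mul (hy p) (hD p) (abs_nonneg _) (by norm_num)) (abs_cos' t) hε
    unfold S
    rw [← s1.tsum_sub s2]
    refine tsum_congr fun p => ?_
    rw [homCount_rat, Nat.cast_one]
    ring
  have h5 := core hy hb h4 (hasMean_abs_sub_one K L hK) (by positivity)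
  have e1 : |(ord F t : ℝ) - ord F' t| = |-(ord F t : ℝ) - -(ord F' t : ℝ)| := by
    rw [← abs_neg]
    congr 1
    ring
  rw [e1]
  refine h5.trans (le_of_eq ?_)
  ring

/-! ### Derangements -/

theorem numDerangements_le : ∀ n : ℕ, 3 ≤ n → 8 * numDerangements n ≤ 3 * n.factorial ∧
    8 * numDerangements (n + 1) ≤ 3 * (n + 1).factorial := by
  intro n hn
  induction n, hn using Nat.le_induction with
  | base => decide
  | succ n hn ih =>
    refine ⟨ih.2, ?_⟩
    rw [numDerangements_add_two]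
    have h1 := ih.1
    have h2 := ih.2
    have e1 : (n + 1).factorial = (n + 1) * n.factorial := Nat.factorial_succ n
    have e2 : (n + 1 + 1).factorial = (n + 1 + 1) * ((n + 1) * n.factorial) := by
      rw [Nat.factorial_succ, e1]
    rw [e2]
    rw [e1] at h2
    nlinarith

section symm

variable (K : Type u) [Field K] [NumberField K] (L : Type u) [Field L] [NumberField L]

/-- The permutation of the embeddings induced by an automorphism. -/
def permHom : (L ≃ₐ[ℚ] L) →* Equiv.Perm (K →ₐ[ℚ] L) where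
  toFun σ :=
    { toFun := fun φ => (σ : L →ₐ[ℚ] L).comp φ
      invFun := fun φ => ((σ⁻¹ : L ≃ₐ[ℚ] L) : L →ₐ[ℚ] L).comp φ
      left_inv := fun φ => by
        ext x
        exact σ.symm_apply_apply (φ x)
      right_inv := fun φ => by
        ext x
        exact σ.apply_symm_apply (φ x) }
  map_one' := by
    ext φ x
    rfl
  map_mul' σ τ := by
    ext φ x
    rfl

theorem permHom_apply (σ : L ≃ₐ[ℚ] L) (φ : K →ₐ[ℚ] L) :
    permHom K L σ φ = (σ : L →ₐ[ℚ] L).comp φ := rfl

theorem fix_eq_zero_iff (σ : L ≃ₐ[ℚ] L) :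
    fix K σ = 0 ↔ permHom K L σ ∈ derangements (K →ₐ[ℚ] L) := by
  unfold fix
  rw [Nat.card_eq_zero, or_iff_left (not_infinite_iff_finite.2 inferInstance)]
  constructor
  · intro h φ hφ
    exact h.elim ⟨φ, hφ⟩
  · intro h
    exact ⟨fun φ => h φ.1 φ.2⟩

theorem der_symm (hs : Function.Surjective (permHom K L)) :
    der K L * (Nat.card (K →ₐ[ℚ] L)).factorial =
      numDerangements (Nat.card (K →ₐ[ℚ] L)) * Nat.card (L ≃ₐ[ℚ] L) := by
  classical
  set X := K →ₐ[ℚ] L with hX
  set f := permHom K L with hf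
  -- fibres all have the same size
  set m := Nat.card f.ker with hm
  have hfib : ∀ π : Equiv.Perm X, (Finset.univ.filter fun σ : L ≃ₐ[ℚ] L => f σ = π).card = m := by
    intro π
    have h1 := MonoidHom.card_fiber_eq_of_mem_range f (x := π) (y := 1)
      (hs π) (hs 1)
    rw [h1, hm, Nat.card_eq_fintype_card, Fintype.card_subtype]
    congr 1
    ext σ
    simp only [Finset.mem_filter, Finset.mem_univ, true_and, MonoidHom.mem_ker]
  have h1 : Nat.card (L ≃ₐ[ℚ] L) = (Nat.card X).factorial * m := by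
    rw [Nat.card_eq_fintype_card, ← Finset.card_univ,
      Finset.card_eq_sum_card_fiberwise (f := fun σ => f σ) (t := Finset.univ)
        (fun _ _ => Finset.mem_univ _), Finset.sum_congr rfl fun π _ => hfib π, Finset.sum_const,
      Finset.card_univ, smul_eq_mul, Fintype.card_perm, Nat.card_eq_fintype_card]
  have h2 : der K L = numDerangements (Nat.card X) * m := by
    unfold der
    rw [Nat.card_eq_fintype_card, Fintype.card_subtype]
    rw [Finset.card_eq_sum_card_fiberwise (f := fun σ => f σ)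
      (t := Finset.univ.filter fun π => π ∈ derangements X)
      (fun σ hσ => by
        simp only [Finset.coe_filter, Finset.mem_univ, true_and, Set.mem_ofPred_eq] at hσ ⊢
        exact (fix_eq_zero_iff K L σ).1 hσ)]
    have h3 : ∀ π ∈ Finset.univ.filter (fun π => π ∈ derangements X),
        (Finset.filter (fun σ => f σ = π) (Finset.univ.filter fun σ : L ≃ₐ[ℚ] L => fix K σ = 0)).card
          = m := by
      intro π hπ
      rw [← hfib π]
      congr 1
      ext σ
      simp only [Finset.mem_filter, Finset.mem_univ, true_and] at hπ ⊢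
      constructor
      · exact fun h => h.2
      · intro h
        refine ⟨?_, h⟩
        rw [fix_eq_zero_iff]
        rw [h]
        exact hπ
    rw [Finset.sum_congr rfl h3, Finset.sum_const, smul_eq_mul]
    congr 1
    rw [Nat.card_eq_fintype_card, ← card_derangements_eq_numDerangements, ← Fintype.card_subtype]
  rw [h1, h2]
  ring

/-- The proportion of derangements for the symmetric group. -/
theorem der_le [IsGalois ℚ L] (hK : Nonempty (K →ₐ[ℚ] L)) (hn : 3 ≤ finrank ℚ K)
    (hs : Function.Surjective (permHom K L)) :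
    (der K L : ℝ) / Nat.card (L ≃ₐ[ℚ] L) ≤ 3 / 8 := by
  have hcard : Nat.card (K →ₐ[ℚ] L) = finrank ℚ K := by
    obtain ⟨φ₀⟩ := hK
    refine AlgHom.natCard_of_splits ℚ K L fun x => ?_
    rw [← minpoly.algHom_eq φ₀ φ₀.injective x]
    exact Normal.splits inferInstance _
  have h1 := der_symm K L hs
  rw [hcard] at h1
  have h2 := (numDerangements_le _ hn).1
  set n := finrank ℚ K
  have h3 : (0 : ℝ) < Nat.card (L ≃ₐ[ℚ] L) := by
    have : 0 < Nat.card (L ≃ₐ[ℚ] L) := Nat.card_pos
    exact_mod_cast this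
  have h4 : (0 : ℝ) < n.factorial := by exact_mod_cast n.factorial_pos
  have h5 : (der K L : ℝ) * n.factorial = numDerangements n * Nat.card (L ≃ₐ[ℚ] L) := by
    exact_mod_cast h1
  have h6 : (8 : ℝ) * numDerangements n ≤ 3 * n.factorial := by exact_mod_cast h2
  rw [div_le_div_iff₀ h3 (by norm_num)]
  have h7 : (der K L : ℝ) * 8 * n.factorial ≤ 3 * Nat.card (L ≃ₐ[ℚ] L) * n.factorial := by
    calc (der K L : ℝ) * 8 * n.factorial = 8 * ((der K L : ℝ) * n.factorial) := by ring
      _ = (8 * numDerangements n) * Nat.card (L ≃ₐ[ℚ] L) := by rw [h5]; ring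
      _ ≤ (3 * n.factorial) * Nat.card (L ≃ₐ[ℚ] L) := mul_le_mul_of_nonneg_right h6 h3.le
      _ = 3 * Nat.card (L ≃ₐ[ℚ] L) * n.factorial := by ring
  exact le_of_mul_le_mul_right h7 h4

end symm

/-! ### Orders of vanishing -/

theorem ne_zero_of_lt (E : WeierstrassCurve ℚ) (K : Type u) [Field K] [NumberField K] {F : ℂ → ℂ}
    (hFL : ∀ s : ℂ, 3 / 2 < s.re → F s = (E.baseChange K).LSeries s) {s : ℂ}
    (hs : 3 / 2 < s.re) : F s ≠ 0 := by
  obtain ⟨x, hx, hne, -⟩ := logExpansion' hasse_module (orthogonality K) (E.baseChange K)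
  rw [hFL s hs]
  exact hne s hs

theorem order_eq {F : ℂ → ℂ} (hne : ∀ s : ℂ, 3 / 2 < s.re → F s ≠ 0)
    (t : ℝ) : analyticOrderAt F (3 / 2 + t * Complex.I) = (ord F t : ℕ∞) := by
  have htop : analyticOrderAt F (3 / 2 + t * Complex.I) ≠ ⊤ := by
    intro ht
    rw [analyticOrderAt_eq_top] at ht
    have hline : Tendsto (fun ε : ℝ => (3 / 2 + t * Complex.I) + (ε : ℂ)) (𝓝[>] 0)
        (𝓝 (3 / 2 + t * Complex.I)) := by
      have h1 : Tendsto (fun ε : ℝ => (3 / 2 + t * Complex.I) + (ε : ℂ)) (𝓝 0)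
        (𝓝 ((3 / 2 + t * Complex.I) + ((0 : ℝ) : ℂ))) :=
        (continuous_const.add Complex.continuous_ofReal).tendsto 0
      simp only [Complex.ofReal_zero, add_zero] at h1
      exact h1.mono_left nhdsWithin_le_nhds
    obtain ⟨ε, h1, h2⟩ := ((hline.eventually ht).and self_mem_nhdsWithin).exists
    have h2 : 0 < ε := h2
    refine hne _ ?_ h1
    simp
    exact h2
  exact (Nat.cast_analyticOrderNatAt htop).symm

/-! ### Embeddings into `ℂ` -/

/-- If the automorphisms of `ℂ` induce all permutations of the embeddings of `K`, then so does the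
Galois group of the normal closure. -/
theorem exists_galois (K : Type) [Field K] [NumberField K]
    (hS : ∀ π : Equiv.Perm (K →+* ℂ), ∃ τ : ℂ ≃+* ℂ, ∀ φ : K →+* ℂ,
      (τ : ℂ →+* ℂ).comp φ = π φ) :
    ∃ (L : Type) (_ : Field L) (_ : NumberField L) (_ : IsGalois ℚ L),
      Nonempty (K →ₐ[ℚ] L) ∧ Function.Surjective (permHom K L) := by
  have hsplits : ∀ x : K, ((minpoly ℚ x).map (algebraMap ℚ ℂ)).Splits := fun x =>
    IsAlgClosed.splits _
  have hN : IsNormalClosure ℚ K (IntermediateField.normalClosure ℚ K ℂ) :=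
    Algebra.IsAlgebraic.isNormalClosure_normalClosure hsplits
  have hnorm : Normal ℚ (IntermediateField.normalClosure ℚ K ℂ) := hN.normal
  have hfin : FiniteDimensional ℚ (IntermediateField.normalClosure ℚ K ℂ) := inferInstance
  have hnf : NumberField (IntermediateField.normalClosure ℚ K ℂ) :=
    NumberField.of_module_finite ℚ _
  have hgal : IsGalois ℚ (IntermediateField.normalClosure ℚ K ℂ) :=
    { to_isSeparable := inferInstance, to_normal := hnorm }
  refine ⟨IntermediateField.normalClosure ℚ K ℂ, inferInstance, hnf, hgal, ?_, ?_⟩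
  · exact ⟨(normalClosure.algHomEquiv ℚ K ℂ).symm (Classical.arbitrary (K →+* ℂ)).toRatAlgHom⟩
  · intro π
    let e : (K →ₐ[ℚ] IntermediateField.normalClosure ℚ K ℂ) ≃ (K →+* ℂ) :=
      (normalClosure.algHomEquiv ℚ K ℂ).trans
        { toFun := fun φ => φ.toRingHom
          invFun := fun φ => φ.toRatAlgHom
          left_inv := fun φ => by ext x; rfl
          right_inv := fun φ => by ext x; rfl }
    have he : ∀ (φ : K →ₐ[ℚ] IntermediateField.normalClosure ℚ K ℂ) (x : K),
        e φ x = ((φ x : IntermediateField.normalClosure ℚ K ℂ) : ℂ) := fun _ _ => rfl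
    obtain ⟨τ, hτ⟩ := hS ((e.symm.trans π).trans e)
    let τ' : ℂ ≃ₐ[ℚ] ℂ := AlgEquiv.ofRingEquiv (f := τ) fun x => by
      have : (τ : ℂ →+* ℂ).comp (algebraMap ℚ ℂ) = algebraMap ℚ ℂ := Subsingleton.elim _ _
      exact congrArg (fun g => g x) this
    refine ⟨τ'.restrictNormal (IntermediateField.normalClosure ℚ K ℂ), ?_⟩
    ext φ x
    have h1 : ((τ'.restrictNormal (IntermediateField.normalClosure ℚ K ℂ) (φ x) :
        IntermediateField.normalClosure ℚ K ℂ) : ℂ) = τ' ((φ x :
        IntermediateField.normalClosure ℚ K ℂ) : ℂ) :=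
      τ'.restrictNormal_commutes (IntermediateField.normalClosure ℚ K ℂ) (φ x)
    have h2 := hτ (e φ)
    have h3 : (τ : ℂ →+* ℂ) (e φ x) = e (π φ) x := by
      have := congrArg (fun g => g x) h2
      simpa using this
    rw [permHom_apply]
    change ((τ'.restrictNormal (IntermediateField.normalClosure ℚ K ℂ) (φ x) :
        IntermediateField.normalClosure ℚ K ℂ) : ℂ) = _
    rw [h1, ← he, ← he]
    exact h3

end Pool.Agent.MPfb225e.Fam
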