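import Mathlib
import Pool.Agent.Lib.MP_fb225e_nt.Fam.Symmetric

/-!
MP_fb225e_nt, EdgeFamilies, part 12: families of pairwise linearly disjoint number fields.
-/

namespace Pool.Agent.MPfb225e.Fam

open scoped TensorProduct
open NumberField IsDedekindDomain Module Filter Topology Curve WeierstrassCurve

universe u

/-- a family of fields together with the rational numbers -/
def Ext {ι : Type*} (K : ι → Type) : Option ι → Type
  | none => ℚ
  | some i => K i

noncomputable instance {ι : Type*} (K : ι → Type) [∀ i, Field (K i)] : ∀ o, Field (Ext K o)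
  | none => inferInstanceAs (Field ℚ)
  | some i => inferInstanceAs (Field (K i))

instance {ι : Type*} (K : ι → Type) [∀ i, Field (K i)] [∀ i, NumberField (K i)] :
    ∀ o, NumberField (Ext K o)
  | none => inferInstanceAs (NumberField ℚ)
  | some i => inferInstanceAs (NumberField (K i))

theorem gam_rat (K : Type) [Field K] [NumberField K] : gam K ℚ = 1 := by
  have h1 := hasMean_mul K ℚ
  have h2 := (h1.congr (g := fun p => (homCount K p : ℝ)) fun p _ => by
    rw [homCount_rat, Nat.cast_one, mul_one]).unique (hasMean_homCount K)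
  exact_mod_cast h2

theorem gam_comm (K K' : Type) [Field K] [NumberField K] [Field K'] [NumberField K'] :
    gam K K' = gam K' K := by
  have h1 := hasMean_mul K K'
  have h2 := (h1.congr (g := fun p => (homCount K' p : ℝ) * homCount K p) fun p _ => by
    rw [mul_comm]).unique (hasMean_mul K' K)
  exact_mod_cast h2

theorem gam_of_isField (K K' : Type) [Field K] [NumberField K] [Field K'] [NumberField K']
    (h : IsField (K ⊗[ℚ] K')) : gam K K' = 1 := by
  unfold gam
  let _ := h.toField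
  rw [Nat.card_eq_one_iff_unique]
  refine ⟨⟨fun I J => ?_⟩, ⟨⊥, Ideal.bot_isMaximal⟩⟩
  have hI : ∀ I : MaximalSpectrum (K ⊗[ℚ] K'), I.asIdeal = ⊥ := fun I => by
    by_contra hne
    obtain ⟨x, hx, hx0⟩ := Submodule.exists_mem_ne_zero_of_ne_bot hne
    obtain ⟨y, hy⟩ := h.mul_inv_cancel hx0
    exact I.isMaximal.ne_top ((Ideal.eq_top_iff_one _).2 (hy ▸ I.asIdeal.mul_mem_right y hx))
  exact MaximalSpectrum.ext ((hI I).trans (hI J).symm)

theorem gam_le (K : Type) [Field K] [NumberField K] : gam K K ≤ finrank ℚ K := by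
  have h1 := hasMean_mul K K
  have h2 := (hasMean_homCount K).smul (finrank ℚ K : ℝ)
  have h3 := h1.lim 0
  have h4 := h2.lim 0
  rw [if_pos rfl] at h3 h4
  have h5 : (gam K K : ℝ) ≤ finrank ℚ K * 1 := by
    refine le_of_tendsto_of_tendsto h3 h4 ?_
    filter_upwards [eventually_pos, eventually_log_pos] with ε hε hl
    refine div_le_div_of_nonneg_right ?_ hl.le
    obtain ⟨C, hC⟩ := h1.bdd
    obtain ⟨D, hD⟩ := h2.bdd
    have s1 : Summable fun p : Nat.Primes => ((homCount K p : ℝ) * homCount K p) *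
        ((p : ℝ) ^ (-(1 + ε)) * Real.cos (0 * Real.log p)) :=
      summable_TT (f := fun p => (homCount K p : ℝ) * homCount K p) hC (abs_cos' 0) hε
    have s2 : Summable fun p : Nat.Primes => ((finrank ℚ K : ℝ) * homCount K p) *
        ((p : ℝ) ^ (-(1 + ε)) * Real.cos (0 * Real.log p)) :=
      summable_TT (f := fun p => (finrank ℚ K : ℝ) * homCount K p) hD (abs_cos' 0) hε
    unfold S
    refine s1.tsum_le_tsum (fun p => ?_) s2
    have h6 : (homCount K p : ℝ) ≤ finrank ℚ K := by
      have := homCount_le K p.2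
      rw [RingOfIntegers.rank] at this
      exact_mod_cast this
    have hw : 0 ≤ ((p : ℕ) : ℝ) ^ (-(1 + ε)) := Real.rpow_nonneg (by positivity) _
    rw [zero_mul, Real.cos_zero, mul_one]
    exact mul_le_mul_of_nonneg_right (mul_le_mul_of_nonneg_right h6 (by positivity)) hw
  rw [mul_one] at h5
  exact_mod_cast h5

/-- every number field embeds into a Galois one -/
theorem exists_closure (K : Type) [Field K] [NumberField K] :
    ∃ (L : Type) (_ : Field L) (_ : NumberField L) (_ : IsGalois ℚ L),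
      Nonempty (K →ₐ[ℚ] L) := by
  have hsplits : ∀ x : K, ((minpoly ℚ x).map (algebraMap ℚ ℂ)).Splits := fun x =>
    IsAlgClosed.splits _
  have hN : IsNormalClosure ℚ K (IntermediateField.normalClosure ℚ K ℂ) :=
    Algebra.IsAlgebraic.isNormalClosure_normalClosure hsplits
  have hnorm : Normal ℚ (IntermediateField.normalClosure ℚ K ℂ) := hN.normal
  have hfin : FiniteDimensional ℚ (IntermediateField.normalClosure ℚ K ℂ) := inferInstance
  have hnf : NumberField (IntermediateField.normalClosure ℚ K ℂ) :=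
    NumberField.of_module_finite ℚ _
  have hgal : IsGalois ℚ (IntermediateField.normalClosure ℚ K ℂ) :=
    { to_isSeparable := inferInstance, to_normal := hnorm }
  exact ⟨IntermediateField.normalClosure ℚ K ℂ, inferInstance, hnf, hgal,
    ⟨(normalClosure.algHomEquiv ℚ K ℂ).symm (Classical.arbitrary (K →+* ℂ)).toRatAlgHom⟩⟩

theorem two_le_gam (K : Type) [Field K] [NumberField K] (h : 1 < finrank ℚ K) :
    2 ≤ gam K K := by
  obtain ⟨L, _, _, _, hK⟩ := exists_closure K
  have hcard : Nat.card (K →ₐ[ℚ] L) = finrank ℚ K := by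
    obtain ⟨φ₀⟩ := hK
    refine AlgHom.natCard_of_splits ℚ K L fun x => ?_
    rw [← minpoly.algHom_eq φ₀ φ₀.injective x]
    exact Normal.splits inferInstance _
  have h1 := hasMean_fun (ι := Unit) (K := fun _ => K) (L := L) (fun _ => hK)
    (fun a => ((a () : ℝ) - 1) ^ 2)
  have h2 := ((hasMean_mul K K).add ((hasMean_homCount K).smul (-2))).add HasMean.one
  have h3 := h1.unique (h2.congr (g := fun p => ((homCount K p : ℝ) - 1) ^ 2) fun p _ => by ring)
  have hG : (0 : ℝ) < Nat.card (L ≃ₐ[ℚ] L) := by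
    have : 0 < Nat.card (L ≃ₐ[ℚ] L) := Nat.card_pos
    exact_mod_cast this
  have h4 : 0 < ∑ σ : L ≃ₐ[ℚ] L, ((fix K σ : ℝ) - 1) ^ 2 := by
    refine Finset.sum_pos' (fun σ _ => sq_nonneg _) ⟨1, Finset.mem_univ _, ?_⟩
    have h5 : fix K (1 : L ≃ₐ[ℚ] L) = finrank ℚ K := by
      rw [← hcard]
      unfold fix
      refine Nat.card_congr (Equiv.subtypeUnivEquiv fun φ => ?_)
      ext x
      rfl
    rw [h5]
    have : (1 : ℝ) < finrank ℚ K := by exact_mod_cast h
    nlinarith
  have h5 : 0 < (gam K K : ℝ) + -2 * 1 + 1 := by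
    rw [← h3]
    exact div_pos h4 hG
  have h6 : (1 : ℝ) < gam K K := by linarith
  exact_mod_cast h6

theorem ord_neg (E : WeierstrassCurve ℚ) [E.IsElliptic] (K : Type) [Field K] [NumberField K]
    {F : ℂ → ℂ} (hF : Differentiable ℂ F)
    (hFL : ∀ s : ℂ, 3 / 2 < s.re → F s = (E.baseChange K).LSeries s) (t : ℝ) :
    ord F (-t) = ord F t := by
  obtain ⟨y, hy, hlim⟩ := exists_y.{0} E
  have h1 := hlim K F hF hFL t
  have h2 := hlim K F hF hFL (-t)
  have h3 : ∀ ε : ℝ, S (fun p => y p * homCount K p) (-t) ε =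
      S (fun p => y p * homCount K p) t ε := fun ε => by
    unfold S
    refine tsum_congr fun p => ?_
    rw [neg_mul, Real.cos_neg]
  simp only [h3] at h2
  have h4 := tendsto_nhds_unique h1 h2
  have h5 : (ord F t : ℝ) = ord F (-t) := by linarith
  exact_mod_cast h5.symm

section main

variable (E : WeierstrassCurve ℚ) [E.IsElliptic] {ι : Type*} [Fintype ι]
  (K : ι → Type) [∀ i, Field (K i)] [∀ i, NumberField (K i)]
  (F : ι → ℂ → ℂ) (hF : ∀ i, Differentiable ℂ (F i))
  (hFL : ∀ i, ∀ s : ℂ, 3 / 2 < s.re → F i s = (E.baseChange (K i)).LSeries s)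
  (F₀ : ℂ → ℂ) (hF₀ : Differentiable ℂ F₀)
  (hFL₀ : ∀ s : ℂ, 3 / 2 < s.re → F₀ s = E.LSeries s)

include hF hFL hF₀ hFL₀

/-- The differences of the orders. -/
theorem edge_L2_rat (T : Finset ℝ) (hT : ∀ t ∈ T, 0 ≤ t) (c : ℝ → ι → ℝ) :
    (∑ t ∈ T, ∑ i, c t i * ((ord (F i) t : ℝ) - ord F₀ t)) ^ 2 ≤
      4 * ∑ t ∈ T, kap2 t * ∑ i, ∑ j, c t i * c t j * (gam (K i) (K j) - 1) := by
  classical
  have e0 : @WeierstrassCurve.baseChange ℚ _ E ℚ _ DivisionRing.toRatAlgebra = E := by
    have : @algebraMap ℚ ℚ _ _ DivisionRing.toRatAlgebra = RingHom.id ℚ := Subsingleton.elim _ _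
    rw [WeierstrassCurve.baseChange, this, WeierstrassCurve.map_id]
  let G : Option ι → ℂ → ℂ := fun o => o.elim F₀ F
  let d : ℝ → Option ι → ℝ := fun t o => o.elim (-∑ i, c t i) (c t)
  have key := edge_L2 E (Ext K) G (by
    rintro (_ | i)
    · exact hF₀
    · exact hF i) (by
    rintro (_ | i)
    · intro s hs
      change F₀ s = (@WeierstrassCurve.baseChange ℚ _ E ℚ _ DivisionRing.toRatAlgebra).LSeries s
      rw [e0]
      exact hFL₀ s hs
    · exact hFL i) T hT d
  have e1 : (∑ t ∈ T, ∑ o, d t o * (ord (G o) t : ℝ)) =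
      ∑ t ∈ T, ∑ i, c t i * ((ord (F i) t : ℝ) - ord F₀ t) := by
    refine Finset.sum_congr rfl fun t _ => ?_
    rw [Fintype.sum_option]
    change (-∑ i, c t i) * (ord F₀ t : ℝ) + ∑ i, c t i * (ord (F i) t : ℝ) = _
    rw [neg_mul, Finset.sum_mul, neg_add_eq_sub, ← Finset.sum_sub_distrib]
    exact Finset.sum_congr rfl fun i _ => by ring
  have e2 : quad (Ext K) T d =
      ∑ t ∈ T, kap2 t * ∑ i, ∑ j, c t i * c t j * (gam (K i) (K j) - 1) := by
    unfold quad
    refine Finset.sum_congr rfl fun t _ => ?_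
    congr 1
    have g1 : gam (Ext K none) (Ext K none) = 1 := gam_rat ℚ
    have g2 : ∀ i, gam (Ext K (some i)) (Ext K none) = 1 := fun i => gam_rat (K i)
    have g3 : ∀ i, gam (Ext K none) (Ext K (some i)) = 1 := fun i =>
      (gam_comm (Ext K none) (Ext K (some i))).trans (g2 i)
    have g4 : ∀ i j, gam (Ext K (some i)) (Ext K (some j)) = gam (K i) (K j) := fun i j => rfl
    have d1 : d t none = -∑ i, c t i := rfl
    have d2 : ∀ i, d t (some i) = c t i := fun i => rfl
    simp only [Fintype.sum_option, g1, g2, g3, g4, d1, d2, Nat.cast_one, mul_one]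
    simp only [mul_sub, mul_one, Finset.sum_sub_distrib, Finset.sum_add_distrib, ← Finset.mul_sum,
      ← Finset.sum_mul]
    ring
  rw [e1, e2] at key
  exact key

/-- **Pairwise linearly disjoint families.** -/
theorem disjoint_sum (hdis : ∀ i j, i ≠ j → gam (K i) (K j) = 1) (h2 : ∀ i, 2 ≤ gam (K i) (K i))
    (T : Finset ℝ) (hT : ∀ t ∈ T, 0 < t) :
    ∑ i, (((ord (F i) 0 : ℝ) - ord F₀ 0) ^ 2 + 2 * ∑ t ∈ T, ((ord (F i) t : ℝ) - ord F₀ t) ^ 2) /
      (gam (K i) (K i) - 1) ≤ 4 := by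
  classical
  set μ : ι → ℝ → ℝ := fun i t => (ord (F i) t : ℝ) - ord F₀ t with hμ
  set r : ι → ℝ := fun i => (gam (K i) (K i) : ℝ) - 1 with hr
  have hr1 : ∀ i, 0 < r i := fun i => by
    have : (2 : ℝ) ≤ gam (K i) (K i) := by exact_mod_cast h2 i
    rw [hr]; dsimp only; linarith
  have h0 : (0 : ℝ) ∉ T := fun h => lt_irrefl _ (hT 0 h)
  have key := edge_L2_rat E K F hF hFL F₀ hF₀ hFL₀ (insert 0 T) (by
    intro t ht
    rcases Finset.mem_insert.1 ht with h | h
    · exact h.ge
    · exact (hT t h).le) (fun t i => (kap2 t)⁻¹ * μ i t / r i)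
  set X : ℝ := ∑ i, (μ i 0 ^ 2 + 2 * ∑ t ∈ T, μ i t ^ 2) / r i with hX
  have hk : ∀ t, kap2 t ≠ 0 := fun t => by
    unfold kap2; split_ifs <;> norm_num
  have e0 : ∑ t ∈ insert 0 T, ∑ i, (kap2 t)⁻¹ * μ i t ^ 2 / r i = X := by
    rw [Finset.sum_comm, hX]
    refine Finset.sum_congr rfl fun i _ => ?_
    rw [Finset.sum_insert h0, add_div, Finset.mul_sum, Finset.sum_div]
    congr 1
    · unfold kap2; rw [if_pos rfl, inv_one, one_mul]
    · refine Finset.sum_congr rfl fun t ht => ?_
      unfold kap2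
      rw [if_neg (hT t ht).ne']
      norm_num
  have e1 : (∑ t ∈ insert 0 T, ∑ i, (kap2 t)⁻¹ * μ i t / r i *
      ((ord (F i) t : ℝ) - ord F₀ t)) = X := by
    rw [← e0]
    refine Finset.sum_congr rfl fun t _ => Finset.sum_congr rfl fun i _ => ?_
    change (kap2 t)⁻¹ * μ i t / r i * μ i t = _
    ring
  have e2 : (∑ t ∈ insert 0 T, kap2 t * ∑ i, ∑ j, (kap2 t)⁻¹ * μ i t / r i *
      ((kap2 t)⁻¹ * μ j t / r j) * (gam (K i) (K j) - 1)) = X := by
    rw [← e0]
    refine Finset.sum_congr rfl fun t _ => ?_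
    rw [Finset.mul_sum]
    refine Finset.sum_congr rfl fun i _ => ?_
    rw [Finset.sum_eq_single i]
    · change kap2 t * ((kap2 t)⁻¹ * μ i t / r i * ((kap2 t)⁻¹ * μ i t / r i) * r i) = _
      have := (hr1 i).ne'
      have := hk t
      field_simp
    · intro j _ hj
      rw [hdis i j (Ne.symm hj), Nat.cast_one, sub_self, mul_zero]
    · intro h; exact absurd (Finset.mem_univ i) h
  rw [e1, e2] at key
  have hX0 : 0 ≤ X := Finset.sum_nonneg fun i _ => div_nonneg
    (add_nonneg (sq_nonneg _) (mul_nonneg (by norm_num) (Finset.sum_nonneg fun t _ => sq_nonneg _)))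
    (hr1 i).le
  change X ≤ 4
  by_contra h
  push Not at h
  nlinarith

end main

end Pool.Agent.MPfb225e.Fam
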