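import Mathlib
import Pool.Agent.Lib.MP_fb225e_nt.Fam.Disjoint
import Pool.Agent.Lib.MP_fb225e_nt.Fam.Dihedral

/-!
MP_fb225e_nt, EdgeDescent: the orders of vanishing on the edge for all the subfields of a Galois
extension.
-/

namespace Pool.Agent.MPfb225e.Fam

open NumberField IsDedekindDomain Module Filter Topology Curve WeierstrassCurve Grp

section descent

variable {L : Type} [Field L] [NumberField L] [IsGalois ℚ L]

/-- restriction to a subfield -/
def resHom (K : IntermediateField ℚ L) (τ : L ≃ₐ[ℚ] L) : K →ₐ[ℚ] L := (τ : L →ₐ[ℚ] L).comp K.val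

theorem exists_lift (K : IntermediateField ℚ L) (φ : K →ₐ[ℚ] L) :
    ∃ τ : L ≃ₐ[ℚ] L, resHom K τ = φ := by
  let ψ : L →ₐ[ℚ] L := φ.liftNormal L
  refine ⟨AlgEquiv.ofBijective ψ (AlgHom.normal_bijective ℚ L L ψ), ?_⟩
  ext x
  exact φ.liftNormal_commutes L x

omit [IsGalois ℚ L] in
theorem res_eq_iff (H : Subgroup (L ≃ₐ[ℚ] L)) (τ τ' : L ≃ₐ[ℚ] L) :
    resHom (IntermediateField.fixedField H) τ = resHom (IntermediateField.fixedField H) τ' ↔
      τ⁻¹ * τ' ∈ H := by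
  have h0 : τ⁻¹ * τ' ∈ H ↔ τ⁻¹ * τ' ∈ (IntermediateField.fixedField H).fixingSubgroup := by
    rw [IntermediateField.fixingSubgroup_fixedField]
  rw [h0, IntermediateField.mem_fixingSubgroup_iff]
  constructor
  · intro h x hx
    have h1 : τ x = τ' x := congrArg (fun f => f ⟨x, hx⟩) h
    change τ.symm (τ' x) = x
    rw [← h1, τ.symm_apply_apply]
  · intro h
    ext x
    have h1 : τ.symm (τ' (x : L)) = x := h x x.2
    change τ (x : L) = τ' (x : L)
    rw [← h1, τ.apply_symm_apply, h1]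

open Classical in
theorem card_mul_fix (H : Subgroup (L ≃ₐ[ℚ] L)) (σ : L ≃ₐ[ℚ] L) :
    (Nat.card H : ℝ) * fix (IntermediateField.fixedField H) σ =
      ∑ τ : L ≃ₐ[ℚ] L, if τ⁻¹ * σ * τ ∈ H then 1 else 0 := by
  set K := IntermediateField.fixedField H with hK
  choose lift hlift using exists_lift K
  have hres : ∀ τ : L ≃ₐ[ℚ] L, (σ : L →ₐ[ℚ] L).comp (resHom K τ) = resHom K (σ * τ) :=
    fun τ => rfl
  have h1 : ∀ τ : L ≃ₐ[ℚ] L, (σ : L →ₐ[ℚ] L).comp (resHom K τ) = resHom K τ ↔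
      τ⁻¹ * σ * τ ∈ H := by
    intro τ
    rw [hres, eq_comm, hK, res_eq_iff, mul_assoc]
  have hmem : ∀ φ : K →ₐ[ℚ] L, ∀ h ∈ H, resHom K (lift φ * h) = φ := by
    intro φ h hh
    nth_rewrite 2 [← hlift φ]
    symm
    rw [hK, res_eq_iff, inv_mul_cancel_left]
    exact hh
  let e : {τ : L ≃ₐ[ℚ] L // τ⁻¹ * σ * τ ∈ H} ≃
      {φ : K →ₐ[ℚ] L // (σ : L →ₐ[ℚ] L).comp φ = φ} × H :=
    { toFun := fun τ => (⟨resHom K τ, (h1 τ).2 τ.2⟩, ⟨(lift (resHom K τ))⁻¹ * τ,
        (res_eq_iff H _ _).1 (hlift (resHom K τ))⟩)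
      invFun := fun x => ⟨lift x.1 * x.2, by
        rw [← h1, hmem _ _ x.2.2]
        exact x.1.2⟩
      left_inv := fun τ => Subtype.ext (by
        change lift (resHom K τ) * ((lift (resHom K τ))⁻¹ * τ) = τ
        rw [mul_inv_cancel_left])
      right_inv := fun x => by
        have h2 := hmem x.1 x.2 x.2.2
        refine Prod.ext (Subtype.ext h2) (Subtype.ext ?_)
        change (lift (resHom K (lift x.1 * x.2)))⁻¹ * (lift x.1 * x.2) = x.2
        rw [h2, inv_mul_cancel_left] }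
  have h2 := Nat.card_congr e
  rw [Nat.card_prod] at h2
  have h3 : (∑ τ : L ≃ₐ[ℚ] L, if τ⁻¹ * σ * τ ∈ H then (1 : ℝ) else 0) =
      Nat.card {τ : L ≃ₐ[ℚ] L // τ⁻¹ * σ * τ ∈ H} := by
    rw [Finset.sum_boole, Nat.card_eq_fintype_card, Fintype.card_subtype]
  rw [h3, h2]
  unfold fix
  push_cast
  ring

/-- Linear functionals. -/
theorem exists_weight {ι : Type*} [Fintype ι] {κ : Type*} [Fintype κ] (f : ι → κ → ℝ) (m : ι → ℝ)
    (h : ∀ c : ι → ℝ, (∀ k, ∑ i, c i * f i k = 0) → ∑ i, c i * m i = 0) :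
    ∃ w : κ → ℝ, ∀ i, m i = ∑ k, w k * f i k := by
  classical
  let T : (ι → ℝ) → ((ι → ℝ) →ₗ[ℝ] ℝ) := fun r => ∑ i, r i • LinearMap.proj i
  have hT : ∀ r c, T r c = ∑ i, r i * c i := by
    intro r c
    simp only [T, LinearMap.sum_apply, LinearMap.smul_apply, LinearMap.proj_apply, smul_eq_mul]
  have h1 : T m ∈ Submodule.span ℝ (Set.range fun k => T fun i => f i k) := by
    refine mem_span_of_iInf_ker_le_ker fun c hc => ?_
    rw [LinearMap.mem_ker, hT]
    have h2 : ∀ k, ∑ i, c i * f i k = 0 := by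
      intro k
      have h3 := (Submodule.mem_iInf _).1 hc k
      rw [LinearMap.mem_ker, hT] at h3
      rw [← h3]
      exact Finset.sum_congr rfl fun i _ => by ring
    rw [← h c h2]
    exact Finset.sum_congr rfl fun i _ => by ring
  rw [Submodule.mem_span_range_iff_exists_fun] at h1
  obtain ⟨w, hw⟩ := h1
  refine ⟨w, fun i => ?_⟩
  have h2 := congrArg (fun g => g (Pi.single i 1)) hw
  simp only [LinearMap.sum_apply, LinearMap.smul_apply, hT, smul_eq_mul] at h2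
  simp only [Pi.single_apply, mul_ite, mul_one, mul_zero, Finset.sum_ite_eq', Finset.mem_univ,
    if_true] at h2
  exact h2.symm

variable (E : WeierstrassCurve ℚ) [E.IsElliptic]
  (F : IntermediateField ℚ L → ℂ → ℂ) (hF : ∀ K, Differentiable ℂ (F K))
  (hFL : ∀ K : IntermediateField ℚ L, ∀ s : ℂ, 3 / 2 < s.re → F K s =
    (@WeierstrassCurve.baseChange ℚ _ E K _ DivisionRing.toRatAlgebra).LSeries s)

include hF hFL in
theorem exists_class (t : ℝ) : ∃ a : (L ≃ₐ[ℚ] L) → ℝ, (∀ x y, a (x⁻¹ * y * x) = a y) ∧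
    ∀ H : Subgroup (L ≃ₐ[ℚ] L), sm a H = Nat.card H *
      (ord (F (IntermediateField.fixedField H)) t : ℝ) := by
  classical
  have hfin : Fintype (Subgroup (L ≃ₐ[ℚ] L)) := Fintype.ofFinite _
  obtain ⟨w, hw⟩ := exists_weight
    (fun (H : Subgroup (L ≃ₐ[ℚ] L)) (σ : L ≃ₐ[ℚ] L) =>
      (fix (IntermediateField.fixedField H) σ : ℝ))
    (fun H => (ord (F (IntermediateField.fixedField H)) t : ℝ)) (by
      intro c hc
      have h1 := edge_L1 E (fun H : Subgroup (L ≃ₐ[ℚ] L) => IntermediateField.fixedField H) L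
        (fun H => ⟨(IntermediateField.fixedField H).val⟩)
        (fun H => F (IntermediateField.fixedField H)) (fun H => hF _) (fun H => hFL _) c t
      have h2 : (∑ σ : L ≃ₐ[ℚ] L, |∑ H : Subgroup (L ≃ₐ[ℚ] L),
          c H * (fix (IntermediateField.fixedField H) σ : ℝ)|) = 0 :=
        Finset.sum_eq_zero fun σ _ => by rw [hc σ, abs_zero]
      rw [h2, zero_div, mul_zero, mul_zero] at h1
      exact abs_eq_zero.1 (le_antisymm h1 (abs_nonneg _)))
  refine ⟨fun g => ∑ τ : L ≃ₐ[ℚ] L, w (τ * g * τ⁻¹), fun x y => ?_, fun H => ?_⟩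
  · change (∑ τ : L ≃ₐ[ℚ] L, w (τ * (x⁻¹ * y * x) * τ⁻¹)) = ∑ τ : L ≃ₐ[ℚ] L, w (τ * y * τ⁻¹)
    rw [← Equiv.sum_comp (Equiv.mulRight x) (fun τ => w (τ * (x⁻¹ * y * x) * τ⁻¹))]
    refine Finset.sum_congr rfl fun τ _ => ?_
    congr 1
    change τ * x * (x⁻¹ * y * x) * (τ * x)⁻¹ = _
    group
  · rw [hw H, Finset.mul_sum]
    unfold sm
    have h1 : ∀ g : L ≃ₐ[ℚ] L, (if g ∈ H then ∑ τ : L ≃ₐ[ℚ] L, w (τ * g * τ⁻¹) else 0) =
        ∑ τ : L ≃ₐ[ℚ] L, if g ∈ H then w (τ * g * τ⁻¹) else 0 := by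
      intro g
      split_ifs
      · rfl
      · rw [Finset.sum_const_zero]
    rw [Finset.sum_congr rfl fun g _ => h1 g, Finset.sum_comm]
    have h2 : ∀ τ : L ≃ₐ[ℚ] L, (∑ g : L ≃ₐ[ℚ] L, if g ∈ H then w (τ * g * τ⁻¹) else 0) =
        ∑ σ : L ≃ₐ[ℚ] L, if τ⁻¹ * σ * τ ∈ H then w σ else 0 := by
      intro τ
      rw [← Equiv.sum_comp (MulAut.conj τ).toEquiv (fun σ => if τ⁻¹ * σ * τ ∈ H then w σ else 0)]
      refine Finset.sum_congr rfl fun g _ => ?_
      change _ = if τ⁻¹ * (τ * g * τ⁻¹) * τ ∈ H then w (τ * g * τ⁻¹) else 0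
      have h3 : τ⁻¹ * (τ * g * τ⁻¹) * τ = g := by group
      rw [h3]
    rw [Finset.sum_congr rfl fun τ _ => h2 τ, Finset.sum_comm]
    refine Finset.sum_congr rfl fun σ _ => ?_
    have h3 : (Nat.card H : ℝ) * (w σ * fix (IntermediateField.fixedField H) σ) =
        w σ * ((Nat.card H : ℝ) * fix (IntermediateField.fixedField H) σ) := by ring
    rw [h3, card_mul_fix, Finset.mul_sum]
    refine Finset.sum_congr rfl fun τ _ => ?_
    split_ifs
    · rw [mul_one]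
    · rw [mul_zero]

/-- **Descent of the edge zeros.** -/
theorem descent (hinv : ∀ σ : L ≃ₐ[ℚ] L, ∃ u v : L ≃ₐ[ℚ] L, u * u = 1 ∧ v * v = 1 ∧ σ = u * v)
    (t : ℝ) (hF : ∀ K, Differentiable ℂ (F K))
    (hFL : ∀ K : IntermediateField ℚ L, ∀ s : ℂ, 3 / 2 < s.re → F K s =
      (@WeierstrassCurve.baseChange ℚ _ E K _ DivisionRing.toRatAlgebra).LSeries s)
    (hle : ∀ K, ord (F K) t ≤ 1) :
    ∃ K₀ : IntermediateField ℚ L, finrank ℚ K₀ ≤ 2 ∧
      ((∀ K, ord (F K) t = 1 ↔ K₀ ≤ K) ∨ (∀ K, ord (F K) t = 0 ↔ K₀ ≤ K)) := by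
  obtain ⟨a, ha1, ha2⟩ := exists_class E F hF hFL t
  have hD : Data a fun H => ord (F (IntermediateField.fixedField H)) t :=
    ⟨ha1, ha2, fun H => hle _, hinv⟩
  obtain ⟨N, hN, hcl⟩ := hD.classify
  have hle' : ∀ K : IntermediateField ℚ L, K.fixingSubgroup ≤ N ↔
      IntermediateField.fixedField N ≤ K := by
    intro K
    nth_rewrite 1 [← IntermediateField.fixingSubgroup_fixedField N]
    constructor
    · intro h
      have h1 := IntermediateField.fixedField_le h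
      rwa [IsGalois.fixedField_fixingSubgroup, IsGalois.fixedField_fixingSubgroup] at h1
    · intro h
      exact IntermediateField.fixingSubgroup_le h
  refine ⟨IntermediateField.fixedField N, ?_, ?_⟩
  · have h1 := finrank_mul_finrank ℚ (IntermediateField.fixedField N) L
    rw [IntermediateField.finrank_fixedField_eq_card, ← IsGalois.card_aut_eq_finrank ℚ L,
      ← N.index_mul_card] at h1
    have h2 := Nat.eq_of_mul_eq_mul_right Nat.card_pos h1
    rw [h2]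
    exact hN
  · rcases hcl with h | h
    · left
      intro K
      rw [← hle' K, ← h, IsGalois.fixedField_fixingSubgroup]
    · right
      intro K
      rw [← hle' K, ← h, IsGalois.fixedField_fixingSubgroup]

end descent

end Pool.Agent.MPfb225e.Fam
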