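import Mathlib
import Pool.Agent.Lib.MP_fb225e_nt.Fam.Coeff

/-!
MP_fb225e_nt: the mean square of `a_p / √p`.
-/

namespace Pool.Agent.MPfb225e.Fam

open NumberField IsDedekindDomain Module Filter Topology Curve WeierstrassCurve

/-- The weighted mean of `a_p² / p` over the primes. -/
noncomputable def msq (E : WeierstrassCurve ℚ) (ε : ℝ) : ℝ :=
  (∑' p : Nat.Primes, (E.LFunction p : ℝ) ^ 2 / p * (p : ℝ) ^ (-(1 + ε))) / Real.log (1 / ε)

/-- The upper logarithmic mean of `a_p² / p` over the primes. -/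
noncomputable def meanSquare (E : WeierstrassCurve ℚ) : ℝ := limsup (msq E) (𝓝[>] 0)

/-- finitely many primes do not matter -/
theorem TT_congr_fin {f g : ℕ → ℝ} {C : ℝ} (hC : ∀ p : Nat.Primes, |f p| ≤ C) (B : ℕ)
    (h : ∀ p : ℕ, p.Prime → B < p → f p = g p) :
    (∃ D : ℝ, ∀ p : Nat.Primes, |g p| ≤ D) ∧
    ∃ D : ℝ, ∀ ε : ℝ, 0 < ε → |TT g (fun _ => 1) ε - TT f (fun _ => 1) ε| ≤ D := by
  classical
  have hC0 : 0 ≤ C := (abs_nonneg _).trans (hC ⟨2, Nat.prime_two⟩)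
  have hfin : {p : Nat.Primes | (p : ℕ) ≤ B}.Finite :=
    Set.Finite.preimage (f := fun p : Nat.Primes => (p : ℕ))
      (Nat.Primes.coe_nat_injective.injOn) (Set.finite_Iic B)
  set T : Finset Nat.Primes := hfin.toFinset with hT
  have hbg : ∀ p : Nat.Primes, |g p| ≤ C + ∑ q ∈ T, |g q| := by
    intro p
    have hs : 0 ≤ ∑ q ∈ T, |g q| := Finset.sum_nonneg fun _ _ => abs_nonneg _
    by_cases hp : (p : ℕ) ≤ B
    · have hpT : p ∈ T := by rw [hT, Set.Finite.mem_toFinset]; exact hp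
      have : |g p| ≤ ∑ q ∈ T, |g q| := Finset.single_le_sum (f := fun q : Nat.Primes => |g q|)
        (fun q _ => abs_nonneg _) hpT
      linarith
    · rw [← h p p.2 (not_le.1 hp)]
      linarith [hC p]
  refine ⟨⟨_, hbg⟩, ∑ q ∈ T, (|g q| + |f q|), fun ε hε => ?_⟩
  have h1' : ∀ p : Nat.Primes, |((fun _ => 1 : Nat.Primes → ℝ)) p| ≤ 1 := fun _ => by simp
  unfold TT
  rw [← (summable_TT hbg h1' hε).tsum_sub (summable_TT hC h1' hε)]
  rw [tsum_eq_sum (s := T)]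
  · refine (Finset.abs_sum_le_sum_abs _ _).trans (Finset.sum_le_sum fun p _ => ?_)
    rw [← sub_mul, abs_mul]
    have h1 : |(p : ℝ) ^ (-(1 + ε)) * 1| ≤ 1 := by
      have h0 : 0 ≤ ((p : ℕ) : ℝ) ^ (-(1 + ε)) := Real.rpow_nonneg (by positivity) _
      rw [mul_one, abs_of_nonneg h0]
      refine Real.rpow_le_one_of_one_le_of_nonpos ?_ (by linarith)
      exact_mod_cast p.2.one_lt.le
    exact (mul_le_of_le_one_right (abs_nonneg _) h1).trans (abs_sub _ _)
  · intro p hp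
    rw [hT, Set.Finite.mem_toFinset] at hp
    rw [h p p.2 (not_le.1 hp), sub_self]

theorem msq_eq (E : WeierstrassCurve ℚ) (ε : ℝ) :
    msq E ε = TT (fun p => lam E p ^ 2) (fun _ => 1) ε / Real.log (1 / ε) := by
  unfold msq TT lam
  congr 1
  refine tsum_congr fun p => ?_
  change _ = ((E.LFunction (p : ℕ) : ℝ) / √((p : ℕ) : ℝ)) ^ 2 *
    (((p : ℕ) : ℝ) ^ (-(1 + ε)) * 1)
  rw [div_pow, Real.sq_sqrt (by positivity), mul_one]

section ms

variable (E : WeierstrassCurve ℚ) {y : ℕ → ℝ} (hy : ∀ p, |y p| ≤ 2)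
  {B : ℕ} (hB : ∀ p : ℕ, p.Prime → B < p → lam E p = y p)

include hy hB

theorem y_sq_le (p : ℕ) : |y p ^ 2| ≤ 4 := by
  rw [abs_pow]
  calc |y p| ^ 2 ≤ 2 ^ 2 := pow_le_pow_left₀ (abs_nonneg _) (hy p) 2
    _ = 4 := by norm_num

theorem exists_msq_sub : ∃ D : ℝ, ∀ ε : ℝ, 0 < ε →
    |TT (fun p => lam E p ^ 2) (fun _ => 1) ε - TT (fun p => y p ^ 2) (fun _ => 1) ε| ≤ D :=
  (TT_congr_fin (f := fun p => y p ^ 2) (g := fun p => lam E p ^ 2) (C := 4)
    (fun p => y_sq_le E hy hB p) B (fun p hp hp2 => by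
      rw [hB p hp hp2])).2

theorem msq_nonneg : ∀ᶠ ε : ℝ in 𝓝[>] 0, 0 ≤ msq E ε := by
  filter_upwards [eventually_log_pos] with ε hε
  refine div_nonneg (tsum_nonneg fun p => ?_) hε.le
  have : 0 ≤ ((p : ℕ) : ℝ) ^ (-(1 + ε)) := Real.rpow_nonneg (by positivity) _
  positivity

/-- upper bounds for `msq` -/
theorem msq_le_of {h : ℕ → ℝ} {C : ℝ} (hC : ∀ p : Nat.Primes, |h p| ≤ C)
    (hh : ∀ p : Nat.Primes, y p ^ 2 ≤ h p) {c : ℝ}
    (hlim : Tendsto (fun ε : ℝ => TT h (fun _ => 1) ε / Real.log (1 / ε)) (𝓝[>] 0) (𝓝 c))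
    {c' : ℝ} (hc : c < c') : ∀ᶠ ε : ℝ in 𝓝[>] 0, msq E ε < c' := by
  obtain ⟨D, hD⟩ := exists_msq_sub E hy hB
  have h1 : Tendsto (fun ε : ℝ => TT h (fun _ => 1) ε / Real.log (1 / ε) +
      D / Real.log (1 / ε)) (𝓝[>] 0) (𝓝 (c + 0)) :=
    hlim.add (tendsto_const_nhds.div_atTop Edge.tendsto_log_inv)
  rw [add_zero] at h1
  filter_upwards [h1.eventually (gt_mem_nhds hc), eventually_log_pos, eventually_pos]
    with ε h2 h3 h4
  refine lt_of_le_of_lt ?_ h2
  rw [msq_eq, ← add_div]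
  refine div_le_div_of_nonneg_right ?_ h3.le
  have h5 := hD ε h4
  have h1' : ∀ p : Nat.Primes, |((fun _ => 1 : Nat.Primes → ℝ)) p| ≤ 1 := fun _ => by simp
  have h6 : TT (fun p => y p ^ 2) (fun _ => 1) ε ≤ TT h (fun _ => 1) ε := by
    unfold TT
    refine (summable_TT (f := fun p => y p ^ 2) (fun p => y_sq_le E hy hB p) h1' h4).tsum_le_tsum
      (fun p => ?_) (summable_TT hC h1' h4)
    have h0 : 0 ≤ ((p : ℕ) : ℝ) ^ (-(1 + ε)) := Real.rpow_nonneg (by positivity) _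
    exact mul_le_mul_of_nonneg_right (hh p) (by positivity)
  rw [abs_le] at h5
  linarith [h5.2]

theorem bounded_msq : IsBoundedUnder (· ≤ ·) (𝓝[>] 0) (msq E) := by
  have h1 : Tendsto (fun ε : ℝ => TT (fun _ => 4) (fun _ => 1) ε / Real.log (1 / ε)) (𝓝[>] 0)
      (𝓝 4) := by
    have h2 := (HasMean.one.smul 4).lim 0
    rw [if_pos rfl, mul_one] at h2
    refine h2.congr fun ε => ?_
    unfold S TT
    congr 1
    refine tsum_congr fun p => ?_
    rw [zero_mul, Real.cos_zero]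
  have h3 := msq_le_of E hy hB (h := fun _ => 4) (C := 4) (fun _ => by norm_num) (fun p => by
    have := y_sq_le E hy hB p
    exact (le_abs_self _).trans this) h1 (c' := 5) (by norm_num)
  exact ⟨5, eventually_map.2 (h3.mono fun ε h => h.le)⟩

theorem meanSquare_le_of {h : ℕ → ℝ} {C : ℝ} (hC : ∀ p : Nat.Primes, |h p| ≤ C)
    (hh : ∀ p : Nat.Primes, y p ^ 2 ≤ h p) {c : ℝ}
    (hlim : Tendsto (fun ε : ℝ => TT h (fun _ => 1) ε / Real.log (1 / ε)) (𝓝[>] 0) (𝓝 c)) :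
    meanSquare E ≤ c := by
  refine le_of_forall_pos_le_add fun δ hδ => ?_
  have h1 := msq_le_of E hy hB hC hh hlim (c' := c + δ) (by linarith)
  refine limsup_le_of_le ?_ (h1.mono fun ε h => h.le)
  exact ⟨0, fun a ha => by
    have h2 := (eventually_map.1 ha).and (msq_nonneg E hy hB)
    obtain ⟨ε, h3, h4⟩ := h2.exists
    exact h4.trans h3⟩

theorem le_meanSquare {h : ℕ → ℝ} {C : ℝ} (hC : ∀ p : Nat.Primes, |h p| ≤ C)
    (hh : ∀ p : Nat.Primes, h p ≤ y p ^ 2) {c : ℝ}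
    (hlim : Tendsto (fun ε : ℝ => TT h (fun _ => 1) ε / Real.log (1 / ε)) (𝓝[>] 0) (𝓝 c)) :
    c ≤ meanSquare E := by
  obtain ⟨D, hD⟩ := exists_msq_sub E hy hB
  refine le_of_forall_pos_le_add fun δ hδ => ?_
  have h1 : Tendsto (fun ε : ℝ => TT h (fun _ => 1) ε / Real.log (1 / ε) -
      D / Real.log (1 / ε)) (𝓝[>] 0) (𝓝 (c - 0)) :=
    hlim.sub (tendsto_const_nhds.div_atTop Edge.tendsto_log_inv)
  rw [sub_zero] at h1
  have h2 : ∀ᶠ ε : ℝ in 𝓝[>] 0, c - δ ≤ msq E ε := by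
    filter_upwards [h1.eventually (lt_mem_nhds (show c - δ < c by linarith)), eventually_log_pos,
      eventually_pos] with ε h2 h3 h4
    refine h2.le.trans ?_
    rw [msq_eq, ← sub_div]
    refine div_le_div_of_nonneg_right ?_ h3.le
    have h5 := hD ε h4
    have h1' : ∀ p : Nat.Primes, |((fun _ => 1 : Nat.Primes → ℝ)) p| ≤ 1 := fun _ => by simp
    have h6 : TT h (fun _ => 1) ε ≤ TT (fun p => y p ^ 2) (fun _ => 1) ε := by
      unfold TT
      refine (summable_TT hC h1' h4).tsum_le_tsum (fun p => ?_)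
        (summable_TT (f := fun p => y p ^ 2) (fun p => y_sq_le E hy hB p) h1' h4)
      have h0 : 0 ≤ ((p : ℕ) : ℝ) ^ (-(1 + ε)) := Real.rpow_nonneg (by positivity) _
      exact mul_le_mul_of_nonneg_right (hh p) (by positivity)
    rw [abs_le] at h5
    linarith [h5.1]
  have h3 : c - δ ≤ meanSquare E :=
    le_limsup_of_frequently_le h2.frequently (bounded_msq E hy hB)
  linarith

end ms

theorem meanSquare_le_four (E : WeierstrassCurve ℚ) [E.IsElliptic] : meanSquare E ≤ 4 := by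
  obtain ⟨y, hy, ⟨B, hB⟩, -⟩ := exists_y2.{0} E
  refine meanSquare_le_of E hy hB (h := fun _ => 4) (C := 4) (fun _ => by norm_num) (fun p => by
    have := y_sq_le E hy hB p
    exact (le_abs_self _).trans this) ?_
  have h2 := (HasMean.one.smul 4).lim 0
  rw [if_pos rfl, mul_one] at h2
  refine h2.congr fun ε => ?_
  unfold S TT
  congr 1
  refine tsum_congr fun p => ?_
  rw [zero_mul, Real.cos_zero]

theorem meanSquare_nonneg (E : WeierstrassCurve ℚ) [E.IsElliptic] : 0 ≤ meanSquare E := by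
  obtain ⟨y, hy, ⟨B, hB⟩, -⟩ := exists_y2.{0} E
  refine le_meanSquare E hy hB (h := fun _ => 0) (C := 0) (fun _ => by norm_num)
    (fun p => by positivity) ?_
  refine tendsto_const_nhds.congr fun ε => ?_
  unfold TT
  simp

end Pool.Agent.MPfb225e.Fam
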