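import Mathlib
import Pool.Agent.Lib.MP_fb225e_nt.Fam.Second

/-!
MP_fb225e_nt: the quadratic edge inequality with the mean square of `a_p / √p`.
-/

namespace Pool.Agent.MPfb225e.Fam

open scoped TensorProduct
open NumberField IsDedekindDomain Module Filter Topology Curve WeierstrassCurve

universe u

theorem TT_add_left {f g : ℕ → ℝ} {C D : ℝ} (hf : ∀ p : Nat.Primes, |f p| ≤ C)
    (hg : ∀ p : Nat.Primes, |g p| ≤ D) {ε : ℝ} (hε : 0 < ε) :
    TT (fun p => f p + g p) (fun _ => 1) ε = TT f (fun _ => 1) ε + TT g (fun _ => 1) ε := by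
  have h1' : ∀ p : Nat.Primes, |((fun _ => 1 : Nat.Primes → ℝ)) p| ≤ 1 := fun _ => by simp
  unfold TT
  rw [← (summable_TT hf h1' hε).tsum_add (summable_TT hg h1' hε)]
  exact tsum_congr fun p => by ring

theorem TT_smul_left (f : ℕ → ℝ) (c ε : ℝ) :
    TT (fun p => c * f p) (fun _ => 1) ε = c * TT f (fun _ => 1) ε := by
  unfold TT
  rw [← tsum_mul_left]
  exact tsum_congr fun p => by ring

section main

variable {ι : Type*} [Fintype ι]
  (K : ι → Type u) [∀ i, Field (K i)] [∀ i, NumberField (K i)]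

theorem GG_bdd (T : Finset ℝ) (c : ℝ → ι → ℝ) :
    ∃ D : ℝ, 0 ≤ D ∧ ∀ p : Nat.Primes, |GG K T c p| ≤ D := by
  refine ⟨∑ t ∈ T, ∑ i, |c t i| * finrank ℤ (𝓞 (K i)), ?_, fun p => ?_⟩
  · exact Finset.sum_nonneg fun t _ => Finset.sum_nonneg fun i _ =>
      mul_nonneg (abs_nonneg _) (by positivity)
  · unfold GG amp
    refine (Finset.abs_sum_le_sum_abs _ _).trans (Finset.sum_le_sum fun t _ => ?_)
    rw [abs_mul]
    refine (mul_le_of_le_one_right (abs_nonneg _) (Real.abs_cos_le_one _)).trans ?_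
    refine (Finset.abs_sum_le_sum_abs _ _).trans (Finset.sum_le_sum fun i _ => ?_)
    rw [abs_mul]
    refine mul_le_mul_of_nonneg_left ?_ (abs_nonneg _)
    rw [abs_of_nonneg (by positivity)]
    exact_mod_cast homCount_le (K i) p.2

variable (F : ι → ℂ → ℂ) {y : ℕ → ℝ} (hy : ∀ p, |y p| ≤ 2)
  (hlim : ∀ i, ∀ t : ℝ, Tendsto (fun ε : ℝ => S (fun p => y p * homCount (K i) p) t ε /
    Real.log (1 / ε)) (𝓝[>] 0) (𝓝 (-(ord (F i) t : ℝ))))

include hy hlim

theorem tendsto_yG (T : Finset ℝ) (c : ℝ → ι → ℝ) :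
    Tendsto (fun ε : ℝ => TT (fun p => y p * GG K T c p) (fun _ => 1) ε / Real.log (1 / ε))
      (𝓝[>] 0) (𝓝 (-∑ t ∈ T, ∑ i, c t i * (ord (F i) t : ℝ))) := by
  classical
  set X : ℝ := ∑ t ∈ T, ∑ i, c t i * (ord (F i) t : ℝ) with hX
  have h1 : Tendsto (fun ε : ℝ => (∑ t ∈ T, ∑ i, c t i * S (fun p => y p * homCount (K i) p) t ε) /
      Real.log (1 / ε)) (𝓝[>] 0) (𝓝 (-X)) := by
    have h2 := tendsto_finsetSum T fun t _ => tendsto_finsetSum Finset.univ fun i _ =>
      (hlim i t).const_mul (c t i)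
    have e : (∑ t ∈ T, ∑ i, c t i * -(ord (F i) t : ℝ)) = -X := by
      rw [hX, ← Finset.sum_neg_distrib]
      refine Finset.sum_congr rfl fun t _ => ?_
      rw [← Finset.sum_neg_distrib]
      exact Finset.sum_congr rfl fun i _ => by ring
    rw [e] at h2
    refine h2.congr fun ε => ?_
    rw [Finset.sum_div]
    refine Finset.sum_congr rfl fun t _ => ?_
    rw [Finset.sum_div]
    exact Finset.sum_congr rfl fun i _ => by ring
  refine h1.congr' ?_
  filter_upwards [eventually_pos] with ε hε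
  congr 1
  have hb : ∀ i, ∀ p : Nat.Primes, |y p * homCount (K i) p| ≤ 2 * finrank ℤ (𝓞 (K i)) := by
    intro i p
    rw [abs_mul]
    have h5 : |(homCount (K i) p : ℝ)| ≤ finrank ℤ (𝓞 (K i)) := by
      rw [abs_of_nonneg (by positivity)]
      exact_mod_cast homCount_le (K i) p.2
    exact mul_le_mul (hy p) h5 (abs_nonneg _) (by norm_num)
  have hs : ∀ t i, Summable fun p : Nat.Primes => c t i * ((y p * homCount (K i) p) *
      ((p : ℝ) ^ (-(1 + ε)) * Real.cos (t * Real.log p))) := fun t i =>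
    (summable_TT (f := fun p => y p * homCount (K i) p) (hb i) (abs_cos' t) hε).mul_left _
  have e1 : (∑ t ∈ T, ∑ i, c t i * S (fun p => y p * homCount (K i) p) t ε) =
      ∑' p : Nat.Primes, ∑ t ∈ T, ∑ i, c t i * ((y p * homCount (K i) p) *
        ((p : ℝ) ^ (-(1 + ε)) * Real.cos (t * Real.log p))) := by
    rw [Summable.tsum_finsetSum fun t _ => summable_sum fun i _ => hs t i]
    refine Finset.sum_congr rfl fun t _ => ?_
    rw [Summable.tsum_finsetSum fun i _ => hs t i]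
    refine Finset.sum_congr rfl fun i _ => ?_
    unfold S
    rw [tsum_mul_left]
  rw [e1]
  unfold TT
  refine tsum_congr fun p => ?_
  change (∑ t ∈ T, ∑ i, c t i * ((y (p : ℕ) * homCount (K i) (p : ℕ)) *
      (((p : ℕ) : ℝ) ^ (-(1 + ε)) * Real.cos (t * Real.log ((p : ℕ) : ℝ))))) =
    (y (p : ℕ) * ∑ t ∈ T, (∑ i, c t i * (homCount (K i) (p : ℕ) : ℝ)) *
      Real.cos (t * Real.log ((p : ℕ) : ℝ))) * ((((p : ℕ) : ℝ)) ^ (-(1 + ε)) * 1)
  rw [Finset.mul_sum, Finset.sum_mul]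
  refine Finset.sum_congr rfl fun t _ => ?_
  rw [Finset.sum_mul, Finset.mul_sum, Finset.sum_mul]
  exact Finset.sum_congr rfl fun i _ => by ring

variable (E : WeierstrassCurve ℚ) {B : ℕ} (hB : ∀ p : ℕ, p.Prime → B < p → lam E p = y p)

include hB

/-- The basic estimate: `g` is a lower bound for `(y + s G)²` with mean value `δ`. -/
theorem le_meanSquare_of (T : Finset ℝ) (hT : ∀ t ∈ T, 0 ≤ t) (c : ℝ → ι → ℝ) (s : ℝ)
    {g : ℕ → ℝ} {C : ℝ} (hg : ∀ p : Nat.Primes, |g p| ≤ C)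
    (hle : ∀ p : Nat.Primes, g p ≤ (y p + s * GG K T c p) ^ 2) {δ : ℝ}
    (hδ : Tendsto (fun ε : ℝ => TT g (fun _ => 1) ε / Real.log (1 / ε)) (𝓝[>] 0) (𝓝 δ)) :
    2 * s * (∑ t ∈ T, ∑ i, c t i * (ord (F i) t : ℝ)) - s ^ 2 * quad K T c + δ ≤
      meanSquare E := by
  obtain ⟨D, hD0, hD⟩ := GG_bdd K T c
  have h1 := tendsto_yG K F hy hlim T c
  have h2 := tendsto_sq K T hT c
  have h3 := ((h1.const_mul (-2 * s)).add (h2.const_mul (-s ^ 2))).add hδ
  have hb1 : ∀ p : Nat.Primes, |-2 * s * (y p * GG K T c p)| ≤ 2 * |s| * (2 * D) := by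
    intro p
    rw [abs_mul, abs_mul, abs_mul, abs_neg, abs_two]
    refine mul_le_mul_of_nonneg_left ?_ (by positivity)
    exact mul_le_mul (hy p) (hD p) (abs_nonneg _) (by norm_num)
  have hb2 : ∀ p : Nat.Primes, |-s ^ 2 * GG K T c p ^ 2| ≤ s ^ 2 * D ^ 2 := by
    intro p
    rw [abs_mul, abs_neg, abs_of_nonneg (sq_nonneg s), abs_pow]
    exact mul_le_mul_of_nonneg_left (pow_le_pow_left₀ (abs_nonneg _) (hD p) 2) (sq_nonneg s)
  have hb12 : ∀ p : Nat.Primes, |-2 * s * (y p * GG K T c p) + -s ^ 2 * GG K T c p ^ 2| ≤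
      2 * |s| * (2 * D) + s ^ 2 * D ^ 2 := fun p =>
    (abs_add_le _ _).trans (add_le_add (hb1 p) (hb2 p))
  have e : 2 * s * (∑ t ∈ T, ∑ i, c t i * (ord (F i) t : ℝ)) - s ^ 2 * quad K T c + δ =
      -2 * s * -(∑ t ∈ T, ∑ i, c t i * (ord (F i) t : ℝ)) + -s ^ 2 * quad K T c + δ := by ring
  rw [e]
  refine le_meanSquare E hy hB
    (h := fun p => (-2 * s * (y p * GG K T c p) + -s ^ 2 * GG K T c p ^ 2) + g p)
    (C := 2 * |s| * (2 * D) + s ^ 2 * D ^ 2 + C)
    (fun p => (abs_add_le _ _).trans (add_le_add (hb12 p) (hg p))) (fun p => ?_) ?_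
  · have h4 := hle p
    have e2 : (y p + s * GG K T c p) ^ 2 = y p ^ 2 + 2 * s * (y p * GG K T c p) +
      s ^ 2 * GG K T c p ^ 2 := by ring
    rw [e2] at h4
    linarith
  · refine h3.congr' ?_
    filter_upwards [eventually_pos] with ε hε
    rw [TT_add_left (f := fun p => -2 * s * (y p * GG K T c p) + -s ^ 2 * GG K T c p ^ 2) hb12 hg hε,
      TT_add_left (f := fun p => -2 * s * (y p * GG K T c p))
        (g := fun p => -s ^ 2 * GG K T c p ^ 2) hb1 hb2 hε,
      TT_smul_left (fun p => y p * GG K T c p) (-2 * s) ε,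
      TT_smul_left (fun p => GG K T c p ^ 2) (-s ^ 2) ε]
    ring

/-- **The quadratic edge inequality**, with the mean square. -/
theorem edge_L2_ms (T : Finset ℝ) (hT : ∀ t ∈ T, 0 ≤ t) (c : ℝ → ι → ℝ) :
    (∑ t ∈ T, ∑ i, c t i * (ord (F i) t : ℝ)) ^ 2 ≤ meanSquare E * quad K T c := by
  have hq := quad_nonneg K T hT c
  set A := quad K T c with hA
  set X : ℝ := ∑ t ∈ T, ∑ i, c t i * (ord (F i) t : ℝ) with hX
  have key : ∀ s : ℝ, 2 * s * X - s ^ 2 * A ≤ meanSquare E := by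
    intro s
    have h1 := le_meanSquare_of K F hy hlim E hB T hT c s (g := fun _ => 0) (C := 0)
      (fun _ => by norm_num) (fun p => sq_nonneg _) (δ := 0) (by
        refine tendsto_const_nhds.congr fun ε => ?_
        unfold TT
        simp)
    rw [add_zero] at h1
    exact h1
  rcases hq.eq_or_lt with h0 | hpos
  · have hX0 : X = 0 := by
      by_contra hne
      have h1 := key ((meanSquare E + 1) / (2 * X))
      rw [← h0, mul_zero, sub_zero] at h1
      have h2 : 2 * ((meanSquare E + 1) / (2 * X)) * X = meanSquare E + 1 := by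
        field_simp
      linarith
    rw [hX0, ← h0]
    norm_num
  · have h1 := key (X / A)
    have h2 : 2 * (X / A) * X - (X / A) ^ 2 * A = X ^ 2 / A := by
      field_simp
      ring
    rw [h2, div_le_iff₀ hpos] at h1
    exact h1

end main

end Pool.Agent.MPfb225e.Fam
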