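import Mathlib
import Pool.Agent.Lib.MP_fb225e_nt.Fam.Disjoint
import Pool.Agent.Lib.MP_fb225e_nt.Fam.EdgeMS

/-!
MP_fb225e_nt: families of pairwise linearly disjoint number fields, with the mean square.
-/

namespace Pool.Agent.MPfb225e.Fam

open scoped TensorProduct
open NumberField IsDedekindDomain Module Filter Topology Curve WeierstrassCurve

section main

variable (E : WeierstrassCurve ℚ) [E.IsElliptic] {ι : Type*} [Fintype ι]
  (K : ι → Type) [∀ i, Field (K i)] [∀ i, NumberField (K i)]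
  (F : ι → ℂ → ℂ) (hF : ∀ i, Differentiable ℂ (F i))
  (hFL : ∀ i, ∀ s : ℂ, 3 / 2 < s.re → F i s = (E.baseChange (K i)).LSeries s)

include hF hFL in
theorem edge_L2_ms' (T : Finset ℝ) (hT : ∀ t ∈ T, 0 ≤ t) (c : ℝ → ι → ℝ) :
    (∑ t ∈ T, ∑ i, c t i * (ord (F i) t : ℝ)) ^ 2 ≤ meanSquare E * quad K T c := by
  obtain ⟨y, hy, ⟨B, hB⟩, hlim⟩ := exists_y2.{0} E
  exact edge_L2_ms K F hy (fun i t => hlim (K i) (F i) (hF i) (hFL i) t) E hB T hT c

variable (F₀ : ℂ → ℂ) (hF₀ : Differentiable ℂ F₀)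
  (hFL₀ : ∀ s : ℂ, 3 / 2 < s.re → F₀ s = E.LSeries s)

include hF hFL hF₀ hFL₀

/-- The differences of the orders. -/
theorem edge_L2_rat_ms (T : Finset ℝ) (hT : ∀ t ∈ T, 0 ≤ t) (c : ℝ → ι → ℝ) :
    (∑ t ∈ T, ∑ i, c t i * ((ord (F i) t : ℝ) - ord F₀ t)) ^ 2 ≤
      meanSquare E * ∑ t ∈ T, kap2 t * ∑ i, ∑ j, c t i * c t j * (gam (K i) (K j) - 1) := by
  classical
  have e0 : @WeierstrassCurve.baseChange ℚ _ E ℚ _ DivisionRing.toRatAlgebra = E := by
    have : @algebraMap ℚ ℚ _ _ DivisionRing.toRatAlgebra = RingHom.id ℚ := Subsingleton.elim _ _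
    rw [WeierstrassCurve.baseChange, this, WeierstrassCurve.map_id]
  let G : Option ι → ℂ → ℂ := fun o => o.elim F₀ F
  let d : ℝ → Option ι → ℝ := fun t o => o.elim (-∑ i, c t i) (c t)
  have key := edge_L2_ms' E (Ext K) G (by
    rintro (_ | i)
    · exact hF₀
    · exact hF i) (by
    rintro (_ | i)
    · intro s hs
      change F₀ s = (@WeierstrassCurve.baseChange ℚ _ E ℚ _ DivisionRing.toRatAlgebra).LSeries s
      rw [e0]
      exact hFL₀ s hs
    · exact hFL i) T hT d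
  have e1 : (∑ t ∈ T, ∑ o, d t o * (ord (G o) t : ℝ)) =
      ∑ t ∈ T, ∑ i, c t i * ((ord (F i) t : ℝ) - ord F₀ t) := by
    refine Finset.sum_congr rfl fun t _ => ?_
    rw [Fintype.sum_option]
    change (-∑ i, c t i) * (ord F₀ t : ℝ) + ∑ i, c t i * (ord (F i) t : ℝ) = _
    rw [neg_mul, Finset.sum_mul, neg_add_eq_sub, ← Finset.sum_sub_distrib]
    exact Finset.sum_congr rfl fun i _ => by ring
  have e2 : quad (Ext K) T d =
      ∑ t ∈ T, kap2 t * ∑ i, ∑ j, c t i * c t j * (gam (K i) (K j) - 1) := by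
    unfold quad
    refine Finset.sum_congr rfl fun t _ => ?_
    congr 1
    have g1 : gam (Ext K none) (Ext K none) = 1 := gam_rat ℚ
    have g2 : ∀ i, gam (Ext K (some i)) (Ext K none) = 1 := fun i => gam_rat (K i)
    have g3 : ∀ i, gam (Ext K none) (Ext K (some i)) = 1 := fun i =>
      (gam_comm (Ext K none) (Ext K (some i))).trans (g2 i)
    have g4 : ∀ i j, gam (Ext K (some i)) (Ext K (some j)) = gam (K i) (K j) := fun i j => rfl
    have d1 : d t none = -∑ i, c t i := rfl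
    have d2 : ∀ i, d t (some i) = c t i := fun i => rfl
    simp only [Fintype.sum_option, g1, g2, g3, g4, d1, d2, Nat.cast_one, mul_one]
    simp only [mul_sub, mul_one, Finset.sum_sub_distrib, Finset.sum_add_distrib, ← Finset.mul_sum,
      ← Finset.sum_mul]
    ring
  rw [e1, e2] at key
  exact key

/-- **Pairwise linearly disjoint families.** -/
theorem disjoint_sum_ms (hdis : ∀ i j, i ≠ j → gam (K i) (K j) = 1)
    (h2 : ∀ i, 2 ≤ gam (K i) (K i)) (T : Finset ℝ) (hT : ∀ t ∈ T, 0 < t) :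
    ∑ i, (((ord (F i) 0 : ℝ) - ord F₀ 0) ^ 2 + 2 * ∑ t ∈ T, ((ord (F i) t : ℝ) - ord F₀ t) ^ 2) /
      (gam (K i) (K i) - 1) ≤ meanSquare E := by
  classical
  have hM : 0 ≤ meanSquare E := meanSquare_nonneg E
  set μ : ι → ℝ → ℝ := fun i t => (ord (F i) t : ℝ) - ord F₀ t with hμ
  set r : ι → ℝ := fun i => (gam (K i) (K i) : ℝ) - 1 with hr
  have hr1 : ∀ i, 0 < r i := fun i => by
    have : (2 : ℝ) ≤ gam (K i) (K i) := by exact_mod_cast h2 i
    rw [hr]; dsimp only; linarith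
  have h0 : (0 : ℝ) ∉ T := fun h => lt_irrefl _ (hT 0 h)
  have key := edge_L2_rat_ms E K F hF hFL F₀ hF₀ hFL₀ (insert 0 T) (by
    intro t ht
    rcases Finset.mem_insert.1 ht with h | h
    · exact h.ge
    · exact (hT t h).le) (fun t i => (kap2 t)⁻¹ * μ i t / r i)
  set X : ℝ := ∑ i, (μ i 0 ^ 2 + 2 * ∑ t ∈ T, μ i t ^ 2) / r i with hX
  have hk : ∀ t, kap2 t ≠ 0 := fun t => by
    unfold kap2; split_ifs <;> norm_num
  have e0 : ∑ t ∈ insert 0 T, ∑ i, (kap2 t)⁻¹ * μ i t ^ 2 / r i = X := by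
    rw [Finset.sum_comm, hX]
    refine Finset.sum_congr rfl fun i _ => ?_
    rw [Finset.sum_insert h0, add_div, Finset.mul_sum, Finset.sum_div]
    congr 1
    · unfold kap2; rw [if_pos rfl, inv_one, one_mul]
    · refine Finset.sum_congr rfl fun t ht => ?_
      unfold kap2
      rw [if_neg (hT t ht).ne']
      norm_num
  have e1 : (∑ t ∈ insert 0 T, ∑ i, (kap2 t)⁻¹ * μ i t / r i *
      ((ord (F i) t : ℝ) - ord F₀ t)) = X := by
    rw [← e0]
    refine Finset.sum_congr rfl fun t _ => Finset.sum_congr rfl fun i _ => ?_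
    change (kap2 t)⁻¹ * μ i t / r i * μ i t = _
    ring
  have e2 : (∑ t ∈ insert 0 T, kap2 t * ∑ i, ∑ j, (kap2 t)⁻¹ * μ i t / r i *
      ((kap2 t)⁻¹ * μ j t / r j) * (gam (K i) (K j) - 1)) = X := by
    rw [← e0]
    refine Finset.sum_congr rfl fun t _ => ?_
    rw [Finset.mul_sum]
    refine Finset.sum_congr rfl fun i _ => ?_
    rw [Finset.sum_eq_single i]
    · change kap2 t * ((kap2 t)⁻¹ * μ i t / r i * ((kap2 t)⁻¹ * μ i t / r i) * r i) = _
      have := (hr1 i).ne'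
      have := hk t
      field_simp
    · intro j _ hj
      rw [hdis i j (Ne.symm hj), Nat.cast_one, sub_self, mul_zero]
    · intro h; exact absurd (Finset.mem_univ i) h
  rw [e1, e2] at key
  have hX0 : 0 ≤ X := Finset.sum_nonneg fun i _ => div_nonneg
    (add_nonneg (sq_nonneg _) (mul_nonneg (by norm_num) (Finset.sum_nonneg fun t _ => sq_nonneg _)))
    (hr1 i).le
  change X ≤ meanSquare E
  by_contra h
  push Not at h
  nlinarith

end main

end Pool.Agent.MPfb225e.Fam
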