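import Mathlib
import Pool.Agent.Lib.MP_fb225e_nt.Fam.Symmetric
import Pool.Agent.Lib.MP_fb225e_nt.Fam.Disjoint

/-!
MP_fb225e_nt, EdgeDescent: extensions of degree at most two.
-/

namespace Pool.Agent.MPfb225e.Fam

open NumberField Module Filter Topology Curve WeierstrassCurve

section fixle

variable {K K' : Type} [Field K] [NumberField K] [Field K'] [NumberField K'] [Algebra K K']
  {M : Type} [Field M] [NumberField M]

/-- restriction of embeddings -/
def down (ψ : K' →ₐ[ℚ] M) : K →ₐ[ℚ] M := RingHom.toRatAlgHom (ψ.toRingHom.comp (algebraMap K K'))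

theorem down_apply (ψ : K' →ₐ[ℚ] M) (x : K) : down ψ x = ψ (algebraMap K K' x) := rfl

theorem card_down (φ : K →ₐ[ℚ] M) : Nat.card {ψ : K' →ₐ[ℚ] M // down ψ = φ} ≤ finrank K K' := by
  let _ : Algebra K M := φ.toRingHom.toAlgebra
  refine le_trans ?_ (card_algHom_le_finrank K K' M)
  have _ : IsScalarTower ℚ K K' := inferInstance
  have _ : FiniteDimensional K K' := Module.Finite.right ℚ K K'
  refine Nat.card_le_card_of_injective (fun ψ => ({ toRingHom := ψ.1.toRingHom
                                                    commutes' := fun x => ?_ } : K' →ₐ[K] M)) ?_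
  · have h1 : down ψ.1 x = φ x := congrArg (fun f => f x) ψ.2
    exact h1
  · intro ψ ψ' h
    refine Subtype.ext (AlgHom.ext fun x => ?_)
    exact congrArg (fun f : K' →ₐ[K] M => f x) h

theorem fix_le (σ : M ≃ₐ[ℚ] M) : fix K' σ ≤ finrank K K' * fix K σ := by
  classical
  unfold fix
  let g : {ψ : K' →ₐ[ℚ] M // (σ : M →ₐ[ℚ] M).comp ψ = ψ} →
      {φ : K →ₐ[ℚ] M // (σ : M →ₐ[ℚ] M).comp φ = φ} := fun ψ => ⟨down ψ.1, by
        ext x
        have h1 : σ (ψ.1 (algebraMap K K' x)) = ψ.1 (algebraMap K K' x) :=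
          congrArg (fun f => f (algebraMap K K' x)) ψ.2
        exact h1⟩
  have h1 : ∀ φ, Nat.card {ψ // g ψ = φ} ≤ finrank K K' := by
    intro φ
    refine le_trans ?_ (card_down (K' := K') φ.1)
    refine Nat.card_le_card_of_injective (fun ψ => ⟨ψ.1.1, congrArg Subtype.val ψ.2⟩) ?_
    intro ψ ψ' h
    have h2 : ψ.1.1 = ψ'.1.1 :=
      congrArg (fun z : {ψ : K' →ₐ[ℚ] M // down ψ = φ.1} => z.1) h
    exact Subtype.ext (Subtype.ext h2)
  rw [Nat.card_congr (Equiv.sigmaFiberEquiv g).symm, Nat.card_sigma]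
  refine le_trans (Finset.sum_le_sum fun φ _ => h1 φ) ?_
  rw [Finset.sum_const, Finset.card_univ, ← Nat.card_eq_fintype_card, smul_eq_mul, mul_comm]

end fixle

/-- two fields -/
def Two (K K' : Type) : Bool → Type
  | true => K
  | false => K'

noncomputable instance (K K' : Type) [Field K] [Field K'] : ∀ o, Field (Two K K' o)
  | true => inferInstanceAs (Field K)
  | false => inferInstanceAs (Field K')

instance (K K' : Type) [Field K] [NumberField K] [Field K'] [NumberField K'] :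
    ∀ o, NumberField (Two K K' o)
  | true => inferInstanceAs (NumberField K)
  | false => inferInstanceAs (NumberField K')

theorem ord_half (E : WeierstrassCurve ℚ) [E.IsElliptic] (K K' : Type) [Field K] [NumberField K]
    [Field K'] [NumberField K'] [Algebra K K'] (hd : finrank K K' ≤ 2) (F F' : ℂ → ℂ)
    (hF : Differentiable ℂ F) (hF' : Differentiable ℂ F')
    (hFL : ∀ s : ℂ, 3 / 2 < s.re → F s = (E.baseChange K).LSeries s)
    (hFL' : ∀ s : ℂ, 3 / 2 < s.re → F' s = (E.baseChange K').LSeries s) (t : ℝ) :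
    |(ord F t : ℝ) - 1 / 2 * ord F' t| ≤ kap t := by
  obtain ⟨M, _, _, _, ⟨j⟩⟩ := exists_closure K'
  have hG : (Nat.card (M ≃ₐ[ℚ] M) : ℝ) ≠ 0 := by
    have : 0 < Nat.card (M ≃ₐ[ℚ] M) := Nat.card_pos
    positivity
  have key := edge_L1 E (Two K K') M (by
      rintro (_ | _)
      · exact ⟨j⟩
      · exact ⟨(down j : K →ₐ[ℚ] M)⟩) (fun o => match o with | true => F | false => F') (by
      rintro (_ | _)
      · exact hF'
      · exact hF) (by
      rintro (_ | _)
      · exact hFL'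
      · exact hFL) (fun o => match o with | true => 1 | false => -(1 / 2)) t
  rw [Fintype.sum_bool] at key
  have h1 : ∀ σ : M ≃ₐ[ℚ] M, |∑ i, (match i with | true => (1 : ℝ) | false => -(1 / 2)) *
      (fix (Two K K' i) σ : ℝ)| = (fix K σ : ℝ) - 1 / 2 * fix K' σ := by
    intro σ
    rw [Fintype.sum_bool]
    have e1 : fix (Two K K' true) σ = fix K σ := rfl
    have e2 : fix (Two K K' false) σ = fix K' σ := rfl
    rw [e1, e2]
    have h2 : fix K' σ ≤ 2 * fix K σ :=
      le_trans (fix_le (K := K) (K' := K') σ) (Nat.mul_le_mul_right _ hd)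
    have h3 : (fix K' σ : ℝ) ≤ 2 * fix K σ := by exact_mod_cast h2
    rw [abs_of_nonneg (by linarith)]
    ring
  rw [Finset.sum_congr rfl fun σ _ => h1 σ, Finset.sum_sub_distrib, ← Finset.mul_sum,
    sum_fix K M ⟨down j⟩, sum_fix K' M ⟨j⟩] at key
  have e1 : 2 * (kap t * ((Nat.card (M ≃ₐ[ℚ] M) - 1 / 2 * Nat.card (M ≃ₐ[ℚ] M)) /
      Nat.card (M ≃ₐ[ℚ] M))) = kap t := by
    field_simp
    ring
  rw [e1] at key
  have e2 : (ord F t : ℝ) - 1 / 2 * ord F' t = 1 * (ord F t : ℝ) + -(1 / 2) * ord F' t := by ring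
  rw [e2]
  exact key

theorem ord_ne_zero_of_ne (E : WeierstrassCurve ℚ) [E.IsElliptic] (K K' : Type) [Field K]
    [NumberField K] [Field K'] [NumberField K'] [Algebra K K'] (hd : finrank K K' ≤ 2)
    (F F' : ℂ → ℂ) (hF : Differentiable ℂ F) (hF' : Differentiable ℂ F')
    (hFL : ∀ s : ℂ, 3 / 2 < s.re → F s = (E.baseChange K).LSeries s)
    (hFL' : ∀ s : ℂ, 3 / 2 < s.re → F' s = (E.baseChange K').LSeries s) {t : ℝ} (ht : t ≠ 0)
    (h : ord F t ≠ 0) : ord F' t ≠ 0 := by
  intro h0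
  have h1 := ord_half E K K' hd F F' hF hF' hFL hFL' t
  rw [h0, Nat.cast_zero, mul_zero, sub_zero, kap, if_neg ht, abs_of_nonneg (by positivity)] at h1
  have h2 : (1 : ℝ) ≤ ord F t := by exact_mod_cast Nat.one_le_iff_ne_zero.2 h
  have h3 : 2 / Real.pi < 1 := by
    rw [div_lt_one Real.pi_pos]
    linarith [Real.pi_gt_three]
  linarith

end Pool.Agent.MPfb225e.Fam
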