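import Mathlib
import Pool.Agent.Lib.MP_fb225e_nt.Fam.Disjoint

/-!
MP_fb225e_nt, EdgeFamilies, part 13: comparison of two number fields with trigonometric kernels.
-/

namespace Pool.Agent.MPfb225e.Fam

open NumberField IsDedekindDomain Module Filter Topology Curve WeierstrassCurve

universe u

/-- a trigonometric polynomial in `log p` -/
noncomputable def trig {κ : Type*} (J : Finset κ) (a s : κ → ℝ) (p : Nat.Primes) : ℝ :=
  ∑ j ∈ J, a j * Real.cos (s j * Real.log p)

theorem abs_trig_le {κ : Type*} (J : Finset κ) (a s : κ → ℝ) (p : Nat.Primes) :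
    |trig J a s p| ≤ ∑ j ∈ J, |a j| := by
  unfold trig
  refine (Finset.abs_sum_le_sum_abs _ _).trans (Finset.sum_le_sum fun j _ => ?_)
  rw [abs_mul]
  exact mul_le_of_le_one_right (abs_nonneg _) (Real.abs_cos_le_one _)

theorem TT_trig {κ : Type*} {f : ℕ → ℝ} {C : ℝ} (hf : ∀ p : Nat.Primes, |f p| ≤ C) (J : Finset κ)
    (a s : κ → ℝ) {ε : ℝ} (hε : 0 < ε) :
    TT f (trig J a s) ε = ∑ j ∈ J, a j * S f (s j) ε := by
  unfold TT trig S
  have h1 : ∀ j, Summable fun p : Nat.Primes => a j * (f p * ((p : ℝ) ^ (-(1 + ε)) *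
      Real.cos (s j * Real.log p))) := fun j =>
    (summable_TT (f := f) hf (abs_cos' (s j)) hε).mul_left _
  have h2 : ∀ j, a j * (∑' p : Nat.Primes, f p * ((p : ℝ) ^ (-(1 + ε)) *
      Real.cos (s j * Real.log p))) = ∑' p : Nat.Primes, a j * (f p * ((p : ℝ) ^ (-(1 + ε)) *
      Real.cos (s j * Real.log p))) := fun j => by rw [tsum_mul_left]
  rw [Finset.sum_congr rfl fun j _ => h2 j, ← Summable.tsum_finsetSum fun j _ => h1 j]
  refine tsum_congr fun p => ?_
  rw [Finset.mul_sum, Finset.mul_sum]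
  exact Finset.sum_congr rfl fun j _ => by ring

theorem HasMean.trig {κ : Type*} {f : ℕ → ℝ} {M : ℝ} (hf : HasMean f M) (J : Finset κ)
    (a s : κ → ℝ) : Tendsto (fun ε : ℝ => TT f (trig J a s) ε / Real.log (1 / ε)) (𝓝[>] 0)
      (𝓝 (∑ j ∈ J, a j * (if s j = 0 then M else 0))) := by
  obtain ⟨C, hC⟩ := hf.bdd
  have h1 : Tendsto (fun ε : ℝ => ∑ j ∈ J, a j * (S f (s j) ε / Real.log (1 / ε))) (𝓝[>] 0)
      (𝓝 (∑ j ∈ J, a j * (if s j = 0 then M else 0))) :=
    tendsto_finsetSum _ fun j _ => (hf.lim (s j)).const_mul _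
  refine h1.congr' ?_
  filter_upwards [eventually_pos] with ε hε
  rw [TT_trig hC J a s hε, Finset.sum_div]
  exact Finset.sum_congr rfl fun j _ => by ring

/-- the core of the comparison -/
theorem core2 {y f : ℕ → ℝ} (hy : ∀ p, |y p| ≤ 2) (hfb : ∃ C, ∀ p : Nat.Primes, |f p| ≤ C)
    {P Q : Nat.Primes → ℝ} {DP DQ : ℝ} (hP : ∀ p, |P p| ≤ DP) (hQ : ∀ p, |Q p| ≤ DQ)
    (hPQ : ∀ p, |P p| ≤ Q p) {A B : ℝ}
    (hA : Tendsto (fun ε : ℝ => TT (fun p => y p * f p) P ε / Real.log (1 / ε)) (𝓝[>] 0) (𝓝 A))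
    (hB : Tendsto (fun ε : ℝ => TT (fun p => |f p|) Q ε / Real.log (1 / ε)) (𝓝[>] 0) (𝓝 B)) :
    |A| ≤ 2 * B := by
  obtain ⟨C, hC⟩ := hfb
  have hC' : ∀ p : Nat.Primes, |(|f p|)| ≤ C := fun p => by rw [abs_abs]; exact hC p
  have hC2 : ∀ p : Nat.Primes, |y p * f p| ≤ 2 * C := fun p => by
    rw [abs_mul]
    exact mul_le_mul (hy p) (hC p) (abs_nonneg _) (by norm_num)
  refine le_of_tendsto_of_tendsto hA.abs (hB.const_mul 2) ?_
  filter_upwards [eventually_pos, eventually_log_pos] with ε hε hl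
  rw [abs_div, abs_of_pos hl, ← mul_div_assoc]
  refine div_le_div_of_nonneg_right ?_ hl.le
  have s1 := summable_TT (f := fun p => y p * f p) hC2 hP hε
  have s2 := summable_TT (f := fun p => |f p|) hC' hQ hε
  unfold TT
  rw [← tsum_mul_left, ← Real.norm_eq_abs]
  refine (norm_tsum_le_tsum_norm s1.norm).trans (s1.norm.tsum_le_tsum (fun p => ?_)
    (s2.mul_left 2))
  have hw : 0 ≤ ((p : ℕ) : ℝ) ^ (-(1 + ε)) := Real.rpow_nonneg (by positivity) _
  rw [Real.norm_eq_abs, abs_mul, abs_mul, abs_mul, abs_of_nonneg hw]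
  calc |y p| * |f p| * ((p : ℝ) ^ (-(1 + ε)) * |P p|)
      ≤ 2 * |f p| * ((p : ℝ) ^ (-(1 + ε)) * Q p) :=
        mul_le_mul (mul_le_mul_of_nonneg_right (hy p) (abs_nonneg _))
          (mul_le_mul_of_nonneg_left (hPQ p) hw) (by positivity) (by positivity)
    _ = 2 * (|f p| * ((p : ℝ) ^ (-(1 + ε)) * Q p)) := by ring

section kernels

variable {y f : ℕ → ℝ} (hy : ∀ p, |y p| ≤ 2) (hfb : ∃ C, ∀ p : Nat.Primes, |f p| ≤ C)
  {μ : ℝ → ℝ}
  (hlim : ∀ t, Tendsto (fun ε : ℝ => S (fun p => y p * f p) t ε / Real.log (1 / ε)) (𝓝[>] 0)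
    (𝓝 (-μ t))) {M : ℝ} (hg : HasMean (fun p => |f p|) M)

include hy hfb hlim in
theorem tendsto_trig {κ : Type*} (J : Finset κ) (a s : κ → ℝ) :
    Tendsto (fun ε : ℝ => TT (fun p => y p * f p) (trig J a s) ε / Real.log (1 / ε)) (𝓝[>] 0)
      (𝓝 (-∑ j ∈ J, a j * μ (s j))) := by
  obtain ⟨C, hC⟩ := hfb
  have hC2 : ∀ p : Nat.Primes, |y p * f p| ≤ 2 * C := fun p => by
    rw [abs_mul]
    exact mul_le_mul (hy p) (hC p) (abs_nonneg _) (by norm_num)
  have h1 : Tendsto (fun ε : ℝ => ∑ j ∈ J, a j * (S (fun p => y p * f p) (s j) ε /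
      Real.log (1 / ε))) (𝓝[>] 0) (𝓝 (∑ j ∈ J, a j * (-μ (s j)))) :=
    tendsto_finsetSum _ fun j _ => (hlim (s j)).const_mul _
  have e : (∑ j ∈ J, a j * (-μ (s j))) = -∑ j ∈ J, a j * μ (s j) := by
    rw [← Finset.sum_neg_distrib]
    exact Finset.sum_congr rfl fun j _ => by ring
  rw [e] at h1
  refine h1.congr' ?_
  filter_upwards [eventually_pos] with ε hε
  rw [TT_trig (f := fun p => y p * f p) hC2 J a s hε, Finset.sum_div]
  exact Finset.sum_congr rfl fun j _ => by ring

include hy hfb hlim hg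

/-- the quadratic bound -/
theorem l2_bound (_hM : 0 ≤ M) (T : Finset ℝ) (hT : ∀ t ∈ T, 0 < t) :
    μ 0 ^ 2 + 2 * ∑ t ∈ T, μ t ^ 2 ≤ (2 * M) ^ 2 := by
  classical
  have h0 : (0 : ℝ) ∉ T := fun h => lt_irrefl _ (hT 0 h)
  have hT' : ∀ t ∈ insert 0 T, 0 ≤ t := by
    intro t ht
    rcases Finset.mem_insert.1 ht with h | h
    · exact h.ge
    · exact (hT t h).le
  set a : ℝ → ℝ := fun t => (kap2 t)⁻¹ * μ t with ha
  set X : ℝ := μ 0 ^ 2 + 2 * ∑ t ∈ T, μ t ^ 2 with hX
  have hX0 : 0 ≤ X := add_nonneg (sq_nonneg _) (mul_nonneg (by norm_num)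
    (Finset.sum_nonneg fun t _ => sq_nonneg _))
  set P : Nat.Primes → ℝ := trig (insert 0 T) a id with hP
  have hsum : ∀ g : ℝ → ℝ, (∑ t ∈ insert 0 T, (kap2 t)⁻¹ * g t) = g 0 + 2 * ∑ t ∈ T, g t := by
    intro g
    rw [Finset.sum_insert h0, Finset.mul_sum]
    congr 1
    · unfold kap2; rw [if_pos rfl, inv_one, one_mul]
    · refine Finset.sum_congr rfl fun t ht => ?_
      unfold kap2
      rw [if_neg (hT t ht).ne']
      norm_num
  -- the linear functional
  have hA := tendsto_trig hy hfb hlim (insert 0 T) a id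
  have eA : (∑ t ∈ insert 0 T, a t * μ (id t)) = X := by
    rw [hX, ← hsum fun t => μ t ^ 2]
    refine Finset.sum_congr rfl fun t _ => ?_
    simp only [ha, id]
    ring
  rw [eA] at hA
  -- the square of `P`
  set Q1 : Nat.Primes → ℝ := trig (insert 0 T ×ˢ insert 0 T) (fun st => a st.1 * a st.2 / 2)
    (fun st => st.1 - st.2) with hQ1
  set Q2 : Nat.Primes → ℝ := trig (insert 0 T ×ˢ insert 0 T) (fun st => a st.1 * a st.2 / 2)
    (fun st => st.1 + st.2) with hQ2
  have hsq : ∀ p, P p ^ 2 = Q1 p + Q2 p := by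
    intro p
    rw [hP, hQ1, hQ2]
    unfold trig
    rw [← Finset.sum_add_distrib, pow_two, Finset.sum_mul_sum, Finset.sum_product]
    refine Finset.sum_congr rfl fun s _ => Finset.sum_congr rfl fun t _ => ?_
    simp only [id]
    rw [sub_mul, add_mul, Real.cos_sub, Real.cos_add]
    ring
  have hm1 := hg.trig (insert 0 T ×ˢ insert 0 T) (fun st => a st.1 * a st.2 / 2)
    (fun st => st.1 - st.2)
  have hm2 := hg.trig (insert 0 T ×ˢ insert 0 T) (fun st => a st.1 * a st.2 / 2)
    (fun st => st.1 + st.2)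
  have hm0 := hg.lim 0
  rw [if_pos rfl] at hm0
  have hconst : (∑ st ∈ insert 0 T ×ˢ insert 0 T, a st.1 * a st.2 / 2 *
      (if st.1 - st.2 = 0 then M else 0)) + (∑ st ∈ insert 0 T ×ˢ insert 0 T,
      a st.1 * a st.2 / 2 * (if st.1 + st.2 = 0 then M else 0)) = X * M := by
    rw [← Finset.sum_add_distrib, Finset.sum_product]
    have h1 : ∀ s ∈ insert 0 T, (∑ t ∈ insert 0 T, (a s * a t / 2 *
        (if s - t = 0 then M else 0) + a s * a t / 2 * (if s + t = 0 then M else 0))) =
        (kap2 s)⁻¹ * (μ s ^ 2 * M) := by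
      intro s hs
      rw [Finset.sum_eq_single s]
      · rw [sub_self, if_pos rfl]
        by_cases hs0 : s = 0
        · rw [if_pos (by rw [hs0]; norm_num)]
          simp only [ha, hs0]
          unfold kap2
          rw [if_pos rfl]
          ring
        · rw [if_neg (by intro h; apply hs0; linarith)]
          simp only [ha]
          unfold kap2
          rw [if_neg hs0]
          ring
      · intro t ht hts
        rw [if_neg (sub_ne_zero.2 (Ne.symm hts)), if_neg]
        · ring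
        · intro h
          have h1 := hT' s hs
          have h2 := hT' t ht
          apply hts
          linarith
      · intro h; exact absurd hs h
    rw [Finset.sum_congr rfl h1, hsum fun t => μ t ^ 2 * M, hX, ← Finset.sum_mul]
    ring
  -- bounds
  obtain ⟨C, hC⟩ := hg.bdd
  have key : ∀ lam : ℝ, 0 < lam → X ≤ 2 * (M * ((lam + X / lam) / 2)) := by
    intro lam hlam
    set Q : Nat.Primes → ℝ := fun p => lam / 2 + (2 * lam)⁻¹ * (Q1 p + Q2 p) with hQ
    have hPQ : ∀ p, |P p| ≤ Q p := by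
      intro p
      simp only [hQ]
      rw [← hsq]
      have h1 : 0 ≤ (2 * lam)⁻¹ * (|P p| - lam) ^ 2 := by positivity
      have h2 : (2 * lam)⁻¹ * (|P p| - lam) ^ 2 =
          lam / 2 + (2 * lam)⁻¹ * P p ^ 2 - |P p| := by
        rw [sub_sq, sq_abs]
        field_simp
        ring
      linarith
    have hQb : ∃ DQ, ∀ p, |Q p| ≤ DQ := by
      refine ⟨|lam / 2| + (2 * lam)⁻¹ * ((∑ st ∈ insert 0 T ×ˢ insert 0 T,
        |a st.1 * a st.2 / 2|) + (∑ st ∈ insert 0 T ×ˢ insert 0 T, |a st.1 * a st.2 / 2|)),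
        fun p => ?_⟩
      simp only [hQ]
      refine (abs_add_le _ _).trans (add_le_add le_rfl ?_)
      rw [abs_mul, abs_of_pos (by positivity : 0 < (2 * lam)⁻¹)]
      refine mul_le_mul_of_nonneg_left ?_ (by positivity)
      exact (abs_add_le _ _).trans (add_le_add (abs_trig_le _ _ _ _) (abs_trig_le _ _ _ _))
    obtain ⟨DQ, hDQ⟩ := hQb
    have hB : Tendsto (fun ε : ℝ => TT (fun p => |f p|) Q ε / Real.log (1 / ε)) (𝓝[>] 0)
        (𝓝 (lam / 2 * M + (2 * lam)⁻¹ * (X * M))) := by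
      rw [← hconst]
      refine ((hm0.const_mul (lam / 2)).add ((hm1.add hm2).const_mul (2 * lam)⁻¹)).congr' ?_
      filter_upwards [eventually_pos] with ε hε
      have e1 : TT (fun p => |f p|) Q ε = lam / 2 * S (fun p => |f p|) 0 ε +
          (2 * lam)⁻¹ * (TT (fun p => |f p|) Q1 ε + TT (fun p => |f p|) Q2 ε) := by
        have s0 := summable_TT (f := fun p => |f p|) (C := C) hC (abs_cos' 0) hε
        have s1 := summable_TT (f := fun p => |f p|) (C := C) hC
          (abs_trig_le (insert 0 T ×ˢ insert 0 T) (fun st => a st.1 * a st.2 / 2)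
            (fun st => st.1 - st.2)) hε
        have s2 := summable_TT (f := fun p => |f p|) (C := C) hC
          (abs_trig_le (insert 0 T ×ˢ insert 0 T) (fun st => a st.1 * a st.2 / 2)
            (fun st => st.1 + st.2)) hε
        unfold TT S
        rw [← s1.tsum_add s2, ← tsum_mul_left, ← tsum_mul_left,
          ← (s0.mul_left _).tsum_add ((s1.add s2).mul_left _)]
        refine tsum_congr fun p => ?_
        simp only [hQ]
        rw [zero_mul, Real.cos_zero]
        ring
      rw [e1]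
      ring
    have h1 := core2 hy hfb (abs_trig_le (insert 0 T) a id) hDQ hPQ hA hB
    rw [abs_neg, abs_of_nonneg hX0] at h1
    refine h1.trans (le_of_eq ?_)
    field_simp
  -- optimise
  rcases hX0.eq_or_lt with h | h
  · rw [← h]; positivity
  · have h1 := key (Real.sqrt X) (Real.sqrt_pos.2 h)
    have h2 : X / Real.sqrt X = Real.sqrt X := by
      rw [div_eq_iff (Real.sqrt_pos.2 h).ne', Real.mul_self_sqrt h.le]
    rw [h2] at h1
    have h3 : X ≤ 2 * M * Real.sqrt X := by linarith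
    have h4 : Real.sqrt X * Real.sqrt X = X := Real.mul_self_sqrt h.le
    have h5 : Real.sqrt X ≤ 2 * M := by
      by_contra hcon
      push Not at hcon
      have := mul_lt_mul_of_pos_right hcon (Real.sqrt_pos.2 h)
      linarith
    calc X = Real.sqrt X ^ 2 := (Real.sq_sqrt h.le).symm
      _ ≤ (2 * M) ^ 2 := pow_le_pow_left₀ (Real.sqrt_nonneg _) h5 2

/-- the Fejér bound -/
theorem fejer_bound {t : ℝ} (ht : t ≠ 0) {e : ℝ} (he : e * e = 1) (N : ℕ) (hN : 0 < N) :
    |∑ jl ∈ Finset.range N ×ˢ Finset.range N, e ^ (jl.1 + jl.2) / N *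
      μ (((jl.1 : ℝ) - jl.2) * t)| ≤ 2 * M := by
  classical
  set J := Finset.range N ×ˢ Finset.range N with hJ
  set a : ℕ × ℕ → ℝ := fun jl => e ^ (jl.1 + jl.2) / N with ha
  set s : ℕ × ℕ → ℝ := fun jl => ((jl.1 : ℝ) - jl.2) * t with hs
  have hA := tendsto_trig hy hfb hlim J a s
  have hB := hg.trig J a s
  have hNpos : (0 : ℝ) < N := by exact_mod_cast hN
  have hpos : ∀ p, 0 ≤ trig J a s p := by
    intro p
    have h1 : trig J a s p = (1 / N) *
        ((∑ j ∈ Finset.range N, e ^ j * Real.cos (j * (t * Real.log p))) ^ 2 +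
        (∑ j ∈ Finset.range N, e ^ j * Real.sin (j * (t * Real.log p))) ^ 2) := by
      unfold trig
      rw [hJ, Finset.sum_product, pow_two, pow_two, Finset.sum_mul_sum, Finset.sum_mul_sum,
        ← Finset.sum_add_distrib, Finset.mul_sum]
      refine Finset.sum_congr rfl fun j _ => ?_
      rw [← Finset.sum_add_distrib, Finset.mul_sum]
      refine Finset.sum_congr rfl fun l _ => ?_
      simp only [ha, hs]
      have h2 : ((j : ℝ) - l) * t * Real.log p = j * (t * Real.log p) - l * (t * Real.log p) := by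
        ring
      rw [h2, Real.cos_sub, pow_add]
      ring
    rw [h1]
    positivity
  have hconst : (∑ jl ∈ J, a jl * (if s jl = 0 then M else 0)) = M := by
    rw [hJ, Finset.sum_product]
    have h1 : ∀ j ∈ Finset.range N, (∑ l ∈ Finset.range N, a (j, l) *
        (if s (j, l) = 0 then M else 0)) = 1 / N * M := by
      intro j hj
      rw [Finset.sum_eq_single j]
      · simp only [ha, hs]
        rw [sub_self, zero_mul, if_pos rfl, ← two_mul, pow_mul, pow_two, he, one_pow]
      · intro l _ hl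
        simp only [hs]
        rw [if_neg, mul_zero]
        intro h
        rcases mul_eq_zero.1 h with h | h
        · apply hl
          have : (j : ℝ) = l := by linarith
          exact_mod_cast this.symm
        · exact ht h
      · intro h; exact absurd hj h
    rw [Finset.sum_congr rfl h1, Finset.sum_const, Finset.card_range, nsmul_eq_mul]
    field_simp
  rw [hconst] at hB
  have h1 := core2 hy hfb (abs_trig_le J a s) (abs_trig_le J a s)
    (fun p => le_of_eq (abs_of_nonneg (hpos p))) hA hB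
  rwa [abs_neg] at h1

end kernels

/-- The arithmetic conclusion. -/
theorem eq_zero_of_lt {μ : ℝ → ℤ} (hev : ∀ t, μ (-t) = μ t) {M : ℝ} (hM0 : 0 ≤ M) (hM : M < 1)
    (h2 : ∀ T : Finset ℝ, (∀ t ∈ T, 0 < t) →
      (μ 0 : ℝ) ^ 2 + 2 * ∑ t ∈ T, (μ t : ℝ) ^ 2 ≤ (2 * M) ^ 2)
    (hF : ∀ t : ℝ, t ≠ 0 → ∀ e : ℝ, e * e = 1 → ∀ N : ℕ, 0 < N →
      |∑ jl ∈ Finset.range N ×ˢ Finset.range N, e ^ (jl.1 + jl.2) / N *
        (μ (((jl.1 : ℝ) - jl.2) * t) : ℝ)| ≤ 2 * M) (t : ℝ) (ht : t ≠ 0) : μ t = 0 := by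
  classical
  -- it suffices to treat positive `t`
  suffices h : ∀ t : ℝ, 0 < t → μ t = 0 by
    rcases lt_or_gt_of_ne ht with h0 | h0
    · rw [← hev]; exact h (-t) (by linarith)
    · exact h t h0
  clear ht t
  intro t ht
  by_contra hne
  have hM4 : (2 * M) ^ 2 < 4 := by nlinarith
  have hs1 : |μ t| = 1 := by
    have h3 := h2 {t} (by simpa using ht)
    rw [Finset.sum_singleton] at h3
    have h4 : (μ t : ℝ) ^ 2 < 2 := by nlinarith [sq_nonneg (μ 0 : ℝ)]
    have h5 : μ t ^ 2 < 2 := by exact_mod_cast h4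
    have h6 : 1 ≤ |μ t| := Int.one_le_abs hne
    have h7 : |μ t| ^ 2 < 2 := by rwa [sq_abs]
    nlinarith
  have hs2 : (μ t : ℝ) ^ 2 = 1 := by
    have : μ t ^ 2 = 1 := by rw [← sq_abs, hs1]; norm_num
    exact_mod_cast this
  have hk : ∀ k : ℕ, 2 ≤ k → μ (k * t) = 0 := by
    intro k hk
    by_contra hkne
    have hk2 : (2 : ℝ) ≤ k := by exact_mod_cast hk
    have hkt : (k : ℝ) * t ≠ t := by
      intro h
      have : ((k : ℝ) - 1) * t = 0 := by linarith
      rcases mul_eq_zero.1 this with h | h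
      · linarith
      · linarith
    have h3 := h2 {t, (k : ℝ) * t} (by
      intro x hx
      rcases Finset.mem_insert.1 hx with rfl | hx
      · exact ht
      · rw [Finset.mem_singleton.1 hx]; positivity)
    rw [Finset.sum_pair (Ne.symm hkt), hs2] at h3
    have h6 : 1 ≤ |μ (k * t)| := Int.one_le_abs hkne
    have h7 : (1 : ℝ) ≤ (μ (k * t) : ℝ) ^ 2 := by
      have : 1 ≤ μ (k * t) ^ 2 := by rw [← sq_abs]; nlinarith
      exact_mod_cast this
    nlinarith [sq_nonneg (μ 0 : ℝ)]
  -- the sign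
  obtain ⟨e, he, hsign⟩ : ∃ e : ℝ, e * e = 1 ∧ 0 ≤ (μ 0 : ℝ) * (e * μ t) := by
    rcases le_total 0 ((μ 0 : ℝ) * μ t) with h | h
    · exact ⟨1, by norm_num, by rwa [one_mul]⟩
    · exact ⟨-1, by norm_num, by linarith⟩
  -- the value of the Fejer sum
  have hval : ∀ n : ℕ, (∑ jl ∈ Finset.range (n + 1) ×ˢ Finset.range (n + 1),
      e ^ (jl.1 + jl.2) / ((n + 1 : ℕ) : ℝ) * (μ (((jl.1 : ℝ) - jl.2) * t) : ℝ)) =
      μ 0 + 2 * (e * μ t) * (n / (n + 1)) := by
    intro n
    have hn : ((n + 1 : ℕ) : ℝ) ≠ 0 := by positivity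
    have hterm : ∀ j l : ℕ, e ^ (j + l) / ((n + 1 : ℕ) : ℝ) * (μ (((j : ℝ) - l) * t) : ℝ) =
        (if l = j then (μ 0 : ℝ) / ((n + 1 : ℕ) : ℝ) else 0) +
        ((if l = j + 1 then e * μ t / ((n + 1 : ℕ) : ℝ) else 0) +
        (if j = l + 1 then e * μ t / ((n + 1 : ℕ) : ℝ) else 0)) := by
      intro j l
      by_cases h1 : l = j
      · subst h1
        rw [if_pos rfl, if_neg (by omega), sub_self, zero_mul, ← two_mul, pow_mul, pow_two, he,
          one_pow]
        ring
      · by_cases h3 : l = j + 1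
        · subst h3
          rw [if_neg (by omega), if_pos rfl, if_neg (by omega)]
          have e1 : ((j : ℝ) - ((j + 1 : ℕ) : ℝ)) * t = -t := by push_cast; ring
          rw [e1, hev]
          have e2 : e ^ (j + (j + 1)) = e := by
            rw [← add_assoc, pow_succ, ← two_mul, pow_mul, pow_two, he, one_pow, one_mul]
          rw [e2]
          ring
        · by_cases h4 : j = l + 1
          · subst h4
            rw [if_neg (by omega), if_neg (by omega), if_pos rfl]
            have e1 : (((l + 1 : ℕ) : ℝ) - (l : ℝ)) * t = t := by push_cast; ring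
            rw [e1]
            have e2 : e ^ (l + 1 + l) = e := by
              have : l + 1 + l = 2 * l + 1 := by ring
              rw [this, pow_succ, pow_mul, pow_two, he, one_pow, one_mul]
            rw [e2]
            ring
          · rw [if_neg h1, if_neg h3, if_neg h4]
            have h5 : μ (((j : ℝ) - l) * t) = 0 := by
              rcases lt_or_gt_of_ne h1 with h6 | h6
              · -- l < j
                have h7 := hk (j - l) (by omega)
                rwa [Nat.cast_sub h6.le] at h7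
              · have h7 := hk (l - j) (by omega)
                rw [Nat.cast_sub h6.le] at h7
                rw [← hev]
                have e1 : -(((j : ℝ) - l) * t) = ((l : ℝ) - j) * t := by ring
                rw [e1]
                exact h7
            rw [h5]
            simp
    rw [Finset.sum_product]
    have h3 : ∀ j ∈ Finset.range (n + 1), (∑ l ∈ Finset.range (n + 1),
        e ^ (j + l) / ((n + 1 : ℕ) : ℝ) * (μ (((j : ℝ) - l) * t) : ℝ)) =
        (μ 0 : ℝ) / ((n + 1 : ℕ) : ℝ) +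
        ((if j + 1 ∈ Finset.range (n + 1) then e * μ t / ((n + 1 : ℕ) : ℝ) else 0) +
        (∑ l ∈ Finset.range (n + 1), if j = l + 1 then e * μ t / ((n + 1 : ℕ) : ℝ) else 0)) := by
      intro j hj
      rw [Finset.sum_congr rfl fun l _ => hterm j l, Finset.sum_add_distrib,
        Finset.sum_add_distrib, Finset.sum_ite_eq', Finset.sum_ite_eq', if_pos hj]
    rw [Finset.sum_congr rfl h3, Finset.sum_add_distrib, Finset.sum_add_distrib, Finset.sum_const,
      Finset.card_range, nsmul_eq_mul]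
    have h4 : (∑ j ∈ Finset.range (n + 1), if j + 1 ∈ Finset.range (n + 1) then
        e * μ t / ((n + 1 : ℕ) : ℝ) else 0) = n * (e * μ t / ((n + 1 : ℕ) : ℝ)) := by
      rw [Finset.sum_range_succ, if_neg (by simp), add_zero]
      rw [Finset.sum_congr rfl fun j hj => if_pos (by
        rw [Finset.mem_range] at hj ⊢; omega), Finset.sum_const, Finset.card_range, nsmul_eq_mul]
    have h5 : (∑ j ∈ Finset.range (n + 1), ∑ l ∈ Finset.range (n + 1), if j = l + 1 then
        e * μ t / ((n + 1 : ℕ) : ℝ) else 0) = n * (e * μ t / ((n + 1 : ℕ) : ℝ)) := by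
      rw [Finset.sum_comm, ← h4]
      refine Finset.sum_congr rfl fun l _ => ?_
      rw [Finset.sum_ite_eq']
    rw [h4, h5]
    push_cast
    field_simp
    ring
  obtain ⟨n, hn⟩ := exists_nat_gt (M / (1 - M))
  have hn' : M < n / (n + 1) := by
    have h1M : 0 < 1 - M := by linarith
    rw [div_lt_iff₀ h1M] at hn
    rw [lt_div_iff₀ (by positivity)]
    linarith
  have h3 := hF t ht.ne' e he (n + 1) (Nat.succ_pos n)
  rw [hval] at h3
  have hes : (e * μ t) * (e * μ t) = 1 := by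
    calc (e * μ t) * (e * μ t) = (e * e) * (μ t : ℝ) ^ 2 := by ring
      _ = 1 := by rw [he, hs2, one_mul]
  set x : ℝ := e * μ t with hx
  set z : ℝ := n / (n + 1) with hz
  have hz0 : 0 ≤ z := by positivity
  have hx1 : x = 1 ∨ x = -1 := by
    have : (x - 1) * (x + 1) = 0 := by linarith
    rcases mul_eq_zero.1 this with h | h
    · left; linarith
    · right; linarith
  rw [abs_le] at h3
  rcases hx1 with h | h
  · rw [h] at h3 hsign
    linarith [h3.2]
  · rw [h] at h3 hsign
    linarith [h3.1]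

section relation

variable (E : WeierstrassCurve ℚ) [E.IsElliptic] {ι : Type*} [Fintype ι]
  (K : ι → Type) [∀ i, Field (K i)] [∀ i, NumberField (K i)]
  (L : Type) [Field L] [NumberField L] [IsGalois ℚ L] (hK : ∀ i, Nonempty (K i →ₐ[ℚ] L))
  (F : ι → ℂ → ℂ) (hF : ∀ i, Differentiable ℂ (F i))
  (hFL : ∀ i, ∀ s : ℂ, 3 / 2 < s.re → F i s = (E.baseChange (K i)).LSeries s)

/-- the mean of `|∑ c_i N_{K_i}(p)|` -/
noncomputable def size (c : ι → ℤ) : ℝ :=
  (∑ σ : L ≃ₐ[ℚ] L, |∑ i, (c i : ℝ) * fix (K i) σ|) / Nat.card (L ≃ₐ[ℚ] L)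

omit [IsGalois ℚ L] in
theorem size_nonneg (c : ι → ℤ) : 0 ≤ size K L c := by unfold size; positivity

include hK hF hFL in
/-- **Approximate relations.** -/
theorem relation_orders (c : ι → ℤ) (hd : size K L c < 1) :
    (∀ t, t ≠ 0 → ∑ i, c i * (ord (F i) t : ℤ) = 0) ∧
      |((∑ i, c i * (ord (F i) 0 : ℤ) : ℤ) : ℝ)| ≤ 2 * size K L c := by
  classical
  obtain ⟨y, hy, hl⟩ := exists_y.{0} E
  set f : ℕ → ℝ := fun p => ∑ i, (c i : ℝ) * homCount (K i) p with hf
  have hg : HasMean (fun p => |f p|) (size K L c) :=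
    hasMean_fun (ι := ι) (K := K) hK (fun a => |∑ i, (c i : ℝ) * (a i : ℝ)|)
  have hfb : ∃ C, ∀ p : Nat.Primes, |f p| ≤ C := by
    obtain ⟨C, hC⟩ := hg.bdd
    exact ⟨C, fun p => by have := hC p; rwa [abs_abs] at this⟩
  have hlim : ∀ t, Tendsto (fun ε : ℝ => S (fun p => y p * f p) t ε / Real.log (1 / ε)) (𝓝[>] 0)
      (𝓝 (-((∑ i, c i * (ord (F i) t : ℤ) : ℤ) : ℝ))) := by
    intro t
    have h3 : Tendsto (fun ε : ℝ => ∑ i, (c i : ℝ) * (S (fun p => y p * homCount (K i) p) t ε /
        Real.log (1 / ε))) (𝓝[>] 0) (𝓝 (∑ i, (c i : ℝ) * -(ord (F i) t : ℝ))) :=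
      tendsto_finsetSum _ fun i _ => (hl (K i) (F i) (hF i) (hFL i) t).const_mul _
    have e : (∑ i, (c i : ℝ) * -(ord (F i) t : ℝ)) =
        -((∑ i, c i * (ord (F i) t : ℤ) : ℤ) : ℝ) := by
      push_cast
      rw [← Finset.sum_neg_distrib]
      exact Finset.sum_congr rfl fun i _ => by ring
    rw [e] at h3
    refine h3.congr' ?_
    filter_upwards [eventually_pos] with ε hε
    have hs : ∀ i, Summable fun p : Nat.Primes => (c i : ℝ) * ((y p * homCount (K i) p) *
        ((p : ℝ) ^ (-(1 + ε)) * Real.cos (t * Real.log p))) := fun i => by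
      obtain ⟨C, hC⟩ := (hasMean_homCount (K i)).bdd
      exact (summable_TT (f := fun p => y p * homCount (K i) p) (C := 2 * C) (fun p => by
        rw [abs_mul]
        exact mul_le_mul (hy p) (hC p) (abs_nonneg _) (by norm_num)) (abs_cos' t) hε).mul_left _
    have e1 : S (fun p => y p * f p) t ε =
        ∑ i, (c i : ℝ) * S (fun p => y p * homCount (K i) p) t ε := by
      unfold S
      rw [Finset.sum_congr rfl fun i _ => (tsum_mul_left (a := (c i : ℝ))).symm,
        ← Summable.tsum_finsetSum fun i _ => hs i]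
      refine tsum_congr fun p => ?_
      simp only [hf]
      rw [Finset.mul_sum, Finset.sum_mul]
      exact Finset.sum_congr rfl fun i _ => by ring
    rw [e1, Finset.sum_div]
    exact Finset.sum_congr rfl fun i _ => by ring
  have hM0 := size_nonneg K L c
  have hev : ∀ t, (∑ i, c i * (ord (F i) (-t) : ℤ)) = ∑ i, c i * (ord (F i) t : ℤ) := fun t =>
    Finset.sum_congr rfl fun i _ => by rw [ord_neg E (K i) (hF i) (hFL i)]
  constructor
  · intro t ht
    exact eq_zero_of_lt (μ := fun t => ∑ i, c i * (ord (F i) t : ℤ)) hev hM0 hd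
      (fun T hT => l2_bound hy hfb hlim hg hM0 T hT)
      (fun t ht e he N hN => fejer_bound hy hfb hlim hg ht he N hN) t ht
  · have h3 := l2_bound hy hfb hlim hg hM0 ∅ (by simp)
    rw [Finset.sum_empty, mul_zero, add_zero] at h3
    exact abs_le_of_sq_le_sq h3 (by positivity)

end relation

/-! ### Two-transitive fields -/

/-- a field together with the rational numbers -/
def WithRat (K : Type) : Bool → Type
  | true => K
  | false => ℚ

noncomputable instance (K : Type) [Field K] : ∀ o, Field (WithRat K o)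
  | true => inferInstanceAs (Field K)
  | false => inferInstanceAs (Field ℚ)

instance (K : Type) [Field K] [NumberField K] : ∀ o, NumberField (WithRat K o)
  | true => inferInstanceAs (NumberField K)
  | false => inferInstanceAs (NumberField ℚ)

/-- the relation `K - ℚ` -/
def sgn : Bool → ℤ
  | true => 1
  | false => -1

theorem fix_rat (L : Type) [Field L] [NumberField L] (σ : L ≃ₐ[ℚ] L) : fix ℚ σ = 1 := by
  unfold fix
  rw [Nat.card_eq_one_iff_unique]
  have hsub : ∀ f g : ℚ →ₐ[ℚ] L, f = g := fun f g => AlgHom.ext fun x =>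
    congrArg (fun h : ℚ →+* L => h x) (Subsingleton.elim (f : ℚ →+* L) (g : ℚ →+* L))
  exact ⟨⟨fun a b => Subtype.ext (hsub _ _)⟩, ⟨⟨(algebraMap ℚ L).toRatAlgHom, hsub _ _⟩⟩⟩

theorem size_sgn (K : Type) [Field K] [NumberField K] (L : Type) [Field L] [NumberField L]
    [IsGalois ℚ L] (hK : Nonempty (K →ₐ[ℚ] L)) :
    size (WithRat K) L sgn = 2 * ((der K L : ℝ) / Nat.card (L ≃ₐ[ℚ] L)) := by
  unfold size
  have h1 : ∀ σ : L ≃ₐ[ℚ] L, |∑ i, (sgn i : ℝ) * fix (WithRat K i) σ| = |(fix K σ : ℝ) - 1| := by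
    intro σ
    rw [Fintype.sum_bool]
    have e1 : fix (WithRat K true) σ = fix K σ := rfl
    have e2 : fix (WithRat K false) σ = 1 := fix_rat L σ
    have e3 : sgn true = 1 := rfl
    have e4 : sgn false = -1 := rfl
    rw [e1, e2, e3, e4]
    push_cast
    congr 1
    ring
  rw [Finset.sum_congr rfl fun σ _ => h1 σ, sum_abs_fix K L hK, mul_div_assoc]

/-- In a two-transitive group of degree at least three, less than half of the elements are
derangements. -/
theorem der_lt (K : Type) [Field K] [NumberField K] (L : Type) [Field L] [NumberField L]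
    [IsGalois ℚ L] (hK : Nonempty (K →ₐ[ℚ] L)) (hn : 3 ≤ finrank ℚ K) (hg : gam K K = 2) :
    2 * ((der K L : ℝ) / Nat.card (L ≃ₐ[ℚ] L)) < 1 := by
  classical
  have hcard : Nat.card (K →ₐ[ℚ] L) = finrank ℚ K := by
    obtain ⟨φ₀⟩ := hK
    refine AlgHom.natCard_of_splits ℚ K L fun x => ?_
    rw [← minpoly.algHom_eq φ₀ φ₀.injective x]
    exact Normal.splits inferInstance _
  have hG : (0 : ℝ) < Nat.card (L ≃ₐ[ℚ] L) := by
    have : 0 < Nat.card (L ≃ₐ[ℚ] L) := Nat.card_pos
    exact_mod_cast this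
  have h1 := hasMean_fun (ι := Unit) (K := fun _ => K) (L := L) (fun _ => hK)
    (fun a => ((a () : ℝ) - 1) * ((a () : ℝ) - 2))
  have h2 := ((hasMean_mul K K).add ((hasMean_homCount K).smul (-3))).add (HasMean.one.smul 2)
  have h3 := h1.unique (h2.congr
    (g := fun p => ((homCount K p : ℝ) - 1) * ((homCount K p : ℝ) - 2)) fun p _ => by ring)
  rw [hg] at h3
  have h4 : (∑ σ : L ≃ₐ[ℚ] L, ((fix K σ : ℝ) - 1) * ((fix K σ : ℝ) - 2)) =
      Nat.card (L ≃ₐ[ℚ] L) := by
    rw [div_eq_iff hG.ne'] at h3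
    rw [h3]
    push_cast
    ring
  have h5 : (∑ σ : L ≃ₐ[ℚ] L, (if fix K σ = 0 then (2 : ℝ) else 0)) <
      ∑ σ : L ≃ₐ[ℚ] L, ((fix K σ : ℝ) - 1) * ((fix K σ : ℝ) - 2) := by
    have hterm : ∀ σ : L ≃ₐ[ℚ] L, (if fix K σ = 0 then (2 : ℝ) else 0) ≤
        ((fix K σ : ℝ) - 1) * ((fix K σ : ℝ) - 2) := by
      intro σ
      rcases Nat.lt_or_ge (fix K σ) 2 with h | h
      · rcases (show fix K σ = 0 ∨ fix K σ = 1 by omega) with h | h
        · rw [if_pos h, h]; norm_num
        · rw [if_neg (by omega), h]; norm_num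
      · have : (2 : ℝ) ≤ fix K σ := by exact_mod_cast h
        rw [if_neg (by omega)]
        exact mul_nonneg (by linarith) (by linarith)
    refine Finset.sum_lt_sum (fun σ _ => hterm σ) ⟨1, Finset.mem_univ _, ?_⟩
    have h6 : fix K (1 : L ≃ₐ[ℚ] L) = finrank ℚ K := by
      rw [← hcard]
      unfold fix
      refine Nat.card_congr (Equiv.subtypeUnivEquiv fun φ => ?_)
      ext x
      rfl
    rw [h6, if_neg (by omega)]
    have : (3 : ℝ) ≤ finrank ℚ K := by exact_mod_cast hn
    nlinarith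
  have h6 : (∑ σ : L ≃ₐ[ℚ] L, (if fix K σ = 0 then (2 : ℝ) else 0)) = 2 * der K L := by
    have : ∀ σ : L ≃ₐ[ℚ] L, (if fix K σ = 0 then (2 : ℝ) else 0) =
        2 * (if fix K σ = 0 then 1 else 0) := fun σ => by split_ifs <;> norm_num
    rw [Finset.sum_congr rfl fun σ _ => this σ, ← Finset.mul_sum, Finset.sum_boole]
    congr 2
    unfold der
    rw [Nat.card_eq_fintype_card, Fintype.card_subtype]
  rw [h6, h4] at h5
  rw [← mul_div_assoc, div_lt_one hG]
  exact h5

end Pool.Agent.MPfb225e.Fam
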