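import Mathlib
import Pool.Agent.Lib.MP_fb225e_nt.Interface
import Pool.Agent.Lib.MP_fb225e_nt.Classify
import Pool.Agent.Lib.MP_fb225e_nt.Curve
import Pool.Agent.Lib.MP_fb225e_nt.Edge
import Pool.Agent.Lib.MP_fb225e_nt.Hasse
import Pool.Agent.Lib.MP_fb225e_nt.Zeta
import Pool.Agent.Lib.MP_fb225e_nt.OrthogProof
import Pool.Agent.Lib.MP_fb225e_nt.ConeVolume
import Pool.Agent.Lib.MP_fb225e_nt.ConeDescr
import Pool.Agent.Lib.MP_fb225e_nt.IdealCount
import Pool.Agent.Lib.MP_fb225e_nt.Simple.Landau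
import Pool.Agent.Lib.MP_fb225e_nt.Simple.Mellin
import Pool.Agent.Lib.MP_fb225e_nt.Simple.Smooth

/-!
MP_fb225e_nt, EdgeDescent: all zeros with real part at least `3/2` are simple.
-/

namespace Pool.Agent.MPfb225e.Fam

open Pool.Agent.MPfb225e

universe u

/-- All zeros in the closed half plane are simple. -/
theorem order_le_one (K : Type u) [Field K] [NumberField K] (W : WeierstrassCurve K)
    [W.IsElliptic] (F : ℂ → ℂ) (hF : Differentiable ℂ F)
    (hFL : ∀ s : ℂ, 3 / 2 < s.re → F s = W.LSeries s) {ρ : ℂ} (hρ : 3 / 2 ≤ ρ.re) :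
    analyticOrderAt F ρ ≤ 1 := by
  have hO : Orthogonality K :=
    OrthogProof.orthogonality (Cone.idealCount K (Cone.volumeFormula K) (Cone.coneDescription K))
      (Zeta.logZeta K)
  obtain ⟨h1, t₀, ht₀, h2⟩ := Edge.edge hO W (Curve.logExpansion hasse_module hO W)
    (classification K) F hF hFL
  by_cases hz : F ρ = 0
  · have hre : ρ.re = 3 / 2 := by
      rcases hρ.lt_or_eq with h | h
      · exact absurd hz (h1 ρ h)
      · exact h.symm
    obtain ⟨h3, h4⟩ := h2 ρ hre hz
    by_cases h0 : t₀ = 0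
    · have him : ρ.im = 0 := by
        rcases h3 with h | h
        · rw [h, h0]
        · rw [h, h0, neg_zero]
      have hρ2 : ρ = 3 / 2 := by
        apply Complex.ext
        · rw [hre]; norm_num
        · rw [him]; norm_num
      rw [hρ2]
      exact Landau.simpleAtEdge K (Mellin.zetaPhi K (Smooth.smoothCount K)) W F hF hFL
    · rw [if_neg h0] at h4
      exact h4
  · rw [(hF.analyticAt ρ).analyticOrderAt_eq_zero.2 hz]
    exact zero_le

end Pool.Agent.MPfb225e.Fam
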