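import Mathlib

/-!
MP_fb225e_nt, EdgeDescent: every permutation is a product of two involutions, and all zeros on
the edge are simple.
-/

namespace Pool.Agent.MPfb225e.Fam

theorem perm_involutions {α : Type*} (σ : Equiv.Perm α) :
    ∃ u v : Equiv.Perm α, u * u = 1 ∧ v * v = 1 ∧ σ = u * v := by
  classical
  let S : Setoid α := Equiv.Perm.SameCycle.setoid σ
  let r : α → α := fun x => (Quotient.mk S x).out
  have hr : ∀ x, ∃ k : ℤ, (σ ^ k) (r x) = x := fun x => Quotient.mk_out (s := S) x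
  choose k hk using hr
  have hrj : ∀ x (j : ℤ), r ((σ ^ j) x) = r x := by
    intro x j
    have h : Quotient.mk S ((σ ^ j) x) = Quotient.mk S x := by
      refine Quotient.sound ?_
      refine ⟨-j, ?_⟩
      rw [zpow_neg]
      exact Equiv.symm_apply_apply (σ ^ j) x
    change (Quotient.mk S ((σ ^ j) x)).out = (Quotient.mk S x).out
    rw [h]
  have hneg : ∀ (a b : ℤ) (y : α), (σ ^ a) y = (σ ^ b) y → (σ ^ (-a)) y = (σ ^ (-b)) y := by
    intro a b y h
    have h1 : (σ ^ (-a - b)) ((σ ^ a) y) = (σ ^ (-a - b)) ((σ ^ b) y) := by rw [h]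
    rw [← Equiv.Perm.mul_apply, ← Equiv.Perm.mul_apply, ← zpow_add, ← zpow_add] at h1
    have e1 : -a - b + a = -b := by ring
    have e2 : -a - b + b = -a := by ring
    rw [e1, e2] at h1
    exact h1.symm
  let f : α → α := fun x => (σ ^ (-k x)) (r x)
  have key : ∀ x (j : ℤ), f ((σ ^ j) x) = (σ ^ (-j)) (f x) := by
    intro x j
    change (σ ^ (-k ((σ ^ j) x))) (r ((σ ^ j) x)) = (σ ^ (-j)) ((σ ^ (-k x)) (r x))
    have h1 := hk ((σ ^ j) x)
    rw [hrj] at h1 ⊢
    have h2 : (σ ^ (j + k x)) (r x) = (σ ^ j) x := by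
      rw [zpow_add, Equiv.Perm.mul_apply, hk]
    have h3 := hneg _ _ _ (h1.trans h2.symm)
    rw [h3, ← Equiv.Perm.mul_apply, ← zpow_add]
    congr 2
    ring
  have hfx : ∀ x, f x = (σ ^ (-(2 * k x))) x := by
    intro x
    change (σ ^ (-k x)) (r x) = _
    have h1 : r x = (σ ^ (-k x)) x := by
      have h2 : (σ ^ (-k x)) ((σ ^ (k x)) (r x)) = (σ ^ (-k x)) x := by rw [hk]
      rw [← Equiv.Perm.mul_apply, ← zpow_add, neg_add_cancel, zpow_zero, Equiv.Perm.one_apply] at h2
      exact h2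
    nth_rewrite 1 [h1]
    rw [← Equiv.Perm.mul_apply, ← zpow_add]
    congr 2
    ring
  have hff : ∀ x, f (f x) = x := by
    intro x
    rw [hfx x, key, hfx x, ← Equiv.Perm.mul_apply, ← zpow_add, neg_neg, add_neg_cancel, zpow_zero,
      Equiv.Perm.one_apply]
  let u : Equiv.Perm α := Function.Involutive.toPerm f hff
  have hu : u * u = 1 := by
    ext x
    exact hff x
  refine ⟨u, u * σ, hu, ?_, ?_⟩
  · ext x
    change f (σ (f (σ x))) = x
    have h1 : f (σ x) = (σ ^ (-1 : ℤ)) (f x) := by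
      have := key x 1
      rwa [zpow_one] at this
    rw [h1]
    have h2 : σ ((σ ^ (-1 : ℤ)) (f x)) = f x := by
      rw [zpow_neg_one]
      exact Equiv.apply_symm_apply σ (f x)
    rw [h2, hff]
  · rw [← mul_assoc, hu, one_mul]

end Pool.Agent.MPfb225e.Fam
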