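import Mathlib
import Pool.Agent.Lib.MP_fb225e_nt.Fam.Descent

/-!
MP_fb225e_nt, EdgeDescent: the orders of vanishing on the edge for the fields between `k` and `L`,
where `L` is a Galois extension of the number field `k`.
-/

namespace Pool.Agent.MPfb225e.Fam

open NumberField IsDedekindDomain Module Filter Topology Curve WeierstrassCurve Grp

section stab

variable {M : Type} [Field M] [NumberField M] [IsGalois ℚ M]

/-- The automorphisms that fix an embedding. -/
def stab {K : Type} [Field K] [NumberField K] (φ : K →ₐ[ℚ] M) : Subgroup (M ≃ₐ[ℚ] M) where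
  carrier := {g | (g : M →ₐ[ℚ] M).comp φ = φ}
  mul_mem' := by
    intro g h hg hh
    change (g : M →ₐ[ℚ] M).comp ((h : M →ₐ[ℚ] M).comp φ) = φ
    have h1 : (h : M →ₐ[ℚ] M).comp φ = φ := hh
    rw [h1]
    exact hg
  one_mem' := by
    ext x
    rfl
  inv_mem' := by
    intro g hg
    have h1 : (g : M →ₐ[ℚ] M).comp φ = φ := hg
    change ((g⁻¹ : M ≃ₐ[ℚ] M) : M →ₐ[ℚ] M).comp φ = φ
    ext x
    have h2 : g (φ x) = φ x := congrArg (fun f => f x) h1
    change g.symm (φ x) = φ x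
    nth_rewrite 1 [← h2]
    exact g.symm_apply_apply _

omit [IsGalois ℚ M] in
theorem mem_stab {K : Type} [Field K] [NumberField K] (φ : K →ₐ[ℚ] M) (g : M ≃ₐ[ℚ] M) :
    g ∈ stab φ ↔ ∀ x, g (φ x) = φ x := by
  constructor
  · intro h x
    exact congrArg (fun f => f x) (h : (g : M →ₐ[ℚ] M).comp φ = φ)
  · intro h
    change (g : M →ₐ[ℚ] M).comp φ = φ
    ext x
    exact h x

theorem exists_ext {K : Type} [Field K] [NumberField K] (φ₀ φ : K →ₐ[ℚ] M) :
    ∃ τ : M ≃ₐ[ℚ] M, ∀ x, τ (φ₀ x) = φ x := by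
  let K₁ : IntermediateField ℚ M := φ₀.fieldRange
  let e : K ≃ₐ[ℚ] K₁ := AlgEquiv.ofInjectiveField φ₀
  obtain ⟨τ, hτ⟩ := exists_lift K₁ (φ.comp (e.symm : K₁ →ₐ[ℚ] K))
  refine ⟨τ, fun x => ?_⟩
  have h1 := congrArg (fun f => f (e x)) hτ
  have h2 : φ (e.symm (e x)) = φ x := by rw [e.symm_apply_apply]
  exact (h1 : τ ((e x : K₁) : M) = φ (e.symm (e x))).trans h2

open Classical in
theorem card_stab_mul_fix {K : Type} [Field K] [NumberField K] (φ₀ : K →ₐ[ℚ] M)
    (σ : M ≃ₐ[ℚ] M) : (Nat.card (stab φ₀) : ℝ) * fix K σ =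
      ∑ τ : M ≃ₐ[ℚ] M, if τ⁻¹ * σ * τ ∈ stab φ₀ then 1 else 0 := by
  choose lift hlift using fun φ => exists_ext φ₀ φ
  let res : (M ≃ₐ[ℚ] M) → (K →ₐ[ℚ] M) := fun τ => (τ : M →ₐ[ℚ] M).comp φ₀
  have hres : ∀ τ x, res τ x = τ (φ₀ x) := fun _ _ => rfl
  have heq : ∀ τ τ' : M ≃ₐ[ℚ] M, res τ = res τ' ↔ τ⁻¹ * τ' ∈ stab φ₀ := by
    intro τ τ'
    rw [mem_stab]
    constructor
    · intro h x
      have h1 : τ (φ₀ x) = τ' (φ₀ x) := congrArg (fun f => f x) h
      change τ.symm (τ' (φ₀ x)) = φ₀ x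
      rw [← h1, τ.symm_apply_apply]
    · intro h
      ext x
      have h1 : τ.symm (τ' (φ₀ x)) = φ₀ x := h x
      change τ (φ₀ x) = τ' (φ₀ x)
      rw [← h1, τ.apply_symm_apply, h1]
  have hl : ∀ φ, res (lift φ) = φ := fun φ => by
    ext x
    exact hlift φ x
  have h1 : ∀ τ : M ≃ₐ[ℚ] M, (σ : M →ₐ[ℚ] M).comp (res τ) = res τ ↔
      τ⁻¹ * σ * τ ∈ stab φ₀ := by
    intro τ
    have h2 : (σ : M →ₐ[ℚ] M).comp (res τ) = res (σ * τ) := rfl
    rw [h2, eq_comm, heq, mul_assoc]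
  have hmem : ∀ φ : K →ₐ[ℚ] M, ∀ h ∈ stab φ₀, res (lift φ * h) = φ := by
    intro φ h hh
    nth_rewrite 2 [← hl φ]
    symm
    rw [heq, inv_mul_cancel_left]
    exact hh
  let e : {τ : M ≃ₐ[ℚ] M // τ⁻¹ * σ * τ ∈ stab φ₀} ≃
      {φ : K →ₐ[ℚ] M // (σ : M →ₐ[ℚ] M).comp φ = φ} × stab φ₀ :=
    { toFun := fun τ => (⟨res τ, (h1 τ).2 τ.2⟩, ⟨(lift (res τ))⁻¹ * τ,
        (heq _ _).1 (hl (res τ))⟩)
      invFun := fun x => ⟨lift x.1 * x.2, by
        rw [← h1, hmem _ _ x.2.2]
        exact x.1.2⟩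
      left_inv := fun τ => Subtype.ext (by
        change lift (res τ) * ((lift (res τ))⁻¹ * τ) = τ
        rw [mul_inv_cancel_left])
      right_inv := fun x => by
        have h2 := hmem x.1 x.2 x.2.2
        refine Prod.ext (Subtype.ext h2) (Subtype.ext ?_)
        change (lift (res (lift x.1 * x.2)))⁻¹ * (lift x.1 * x.2) = x.2
        rw [h2, inv_mul_cancel_left] }
  have h2 := Nat.card_congr e
  rw [Nat.card_prod] at h2
  have h3 : (∑ τ : M ≃ₐ[ℚ] M, if τ⁻¹ * σ * τ ∈ stab φ₀ then (1 : ℝ) else 0) =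
      Nat.card {τ : M ≃ₐ[ℚ] M // τ⁻¹ * σ * τ ∈ stab φ₀} := by
    rw [Finset.sum_boole, Nat.card_eq_fintype_card, Fintype.card_subtype]
  rw [h3, h2]
  unfold fix
  push_cast
  ring

end stab

section relative

variable {k L : Type} [Field k] [NumberField k] [Field L] [NumberField L] [Algebra k L]
  [IsGalois k L] {M : Type} [Field M] [NumberField M] [IsGalois ℚ M] (j : L →ₐ[ℚ] M)

/-- the embedding of an intermediate field -/
def emb (K : IntermediateField k L) : K →ₐ[ℚ] M :=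
  RingHom.toRatAlgHom (j.toRingHom.comp (algebraMap K L))

theorem emb_apply (K : IntermediateField k L) (x : K) : emb j K x = j x := rfl

theorem exists_restrict (g : M ≃ₐ[ℚ] M) (hg : ∀ x : k, g (j (algebraMap k L x)) =
    j (algebraMap k L x)) : ∃ q : L ≃ₐ[k] L, ∀ x, g (j x) = j (q x) := by
  let _ : Algebra L M := j.toRingHom.toAlgebra
  let _ : Algebra k M := (j.toRingHom.comp (algebraMap k L)).toAlgebra
  have _ : IsScalarTower k L M := IsScalarTower.of_algebraMap_eq' rfl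
  let f : L →ₐ[k] M :=
    { toRingHom := (g : M →ₐ[ℚ] M).toRingHom.comp j.toRingHom
      commutes' := fun x => hg x }
  refine ⟨AlgEquiv.ofBijective (f.restrictNormal L) (AlgHom.normal_bijective k L L _), ?_⟩
  intro x
  exact (f.restrictNormal_commutes L x).symm

/-- The automorphisms of `M` that extend `q`. -/
def Lifts (q : L ≃ₐ[k] L) (g : M ≃ₐ[ℚ] M) : Prop := ∀ x, g (j x) = j (q x)

theorem mem_stab_emb (H : Subgroup (L ≃ₐ[k] L)) (g : M ≃ₐ[ℚ] M) :
    g ∈ stab (emb j (IntermediateField.fixedField H)) ↔ ∃ q ∈ H, Lifts j q g := by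
  rw [mem_stab]
  constructor
  · intro h
    obtain ⟨q, hq⟩ := exists_restrict j g fun x =>
      h (algebraMap k (IntermediateField.fixedField H) x)
    refine ⟨q, ?_, hq⟩
    rw [← IntermediateField.fixingSubgroup_fixedField H, IntermediateField.mem_fixingSubgroup_iff]
    intro x hx
    have h1 : g (j x) = j x := h ⟨x, hx⟩
    rw [hq x] at h1
    exact j.toRingHom.injective h1
  · rintro ⟨q, hq, hqg⟩ x
    rw [emb_apply, hqg]
    rw [← IntermediateField.fixingSubgroup_fixedField H,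
      IntermediateField.mem_fixingSubgroup_iff] at hq
    rw [hq _ x.2]

theorem ext_unique {q q' : L ≃ₐ[k] L} {g : M ≃ₐ[ℚ] M} (h : Lifts j q g) (h' : Lifts j q' g) :
    q = q' := by
  ext x
  exact j.toRingHom.injective ((h x).symm.trans (h' x))

theorem exists_ext' (q : L ≃ₐ[k] L) : ∃ g : M ≃ₐ[ℚ] M, Lifts j q g :=
  exists_ext j (j.comp (q.restrictScalars ℚ : L →ₐ[ℚ] L))

open Classical in
theorem sum_stab (H : Subgroup (L ≃ₐ[k] L)) (f : (M ≃ₐ[ℚ] M) → ℝ) :
    (∑ g : M ≃ₐ[ℚ] M, if g ∈ stab (emb j (IntermediateField.fixedField H)) then f g else 0) =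
      ∑ q : L ≃ₐ[k] L, if q ∈ H then ∑ g : M ≃ₐ[ℚ] M, (if Lifts j q g then f g else 0) else 0 := by
  have h1 : ∀ q : L ≃ₐ[k] L, (if q ∈ H then ∑ g : M ≃ₐ[ℚ] M,
      (if Lifts j q g then f g else 0) else 0) =
      ∑ g : M ≃ₐ[ℚ] M, if q ∈ H ∧ Lifts j q g then f g else 0 := by
    intro q
    by_cases hq : q ∈ H
    · rw [if_pos hq]
      exact Finset.sum_congr rfl fun g _ => by
        by_cases h : Lifts j q g
        · rw [if_pos h, if_pos ⟨hq, h⟩]
        · rw [if_neg h, if_neg fun h' => h h'.2]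
    · rw [if_neg hq]
      symm
      exact Finset.sum_eq_zero fun g _ => if_neg fun h' => hq h'.1
  rw [Finset.sum_congr rfl fun q _ => h1 q, Finset.sum_comm]
  refine Finset.sum_congr rfl fun g _ => ?_
  by_cases hg : g ∈ stab (emb j (IntermediateField.fixedField H))
  · rw [if_pos hg]
    obtain ⟨q, hq, hqg⟩ := (mem_stab_emb j H g).1 hg
    rw [Finset.sum_eq_single q]
    · rw [if_pos ⟨hq, hqg⟩]
    · intro q' _ hne
      exact if_neg fun h' => hne (ext_unique j h'.2 hqg)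
    · intro h
      exact absurd (Finset.mem_univ _) h
  · rw [if_neg hg]
    symm
    exact Finset.sum_eq_zero fun q _ => if_neg fun h' => hg ((mem_stab_emb j H g).2 ⟨q, h'.1, h'.2⟩)

open Classical in
theorem card_ext (q : L ≃ₐ[k] L) : (∑ g : M ≃ₐ[ℚ] M, if Lifts j q g then (1 : ℝ) else 0) =
    Nat.card (stab j) := by
  obtain ⟨g₀, hg₀⟩ := exists_ext' j q
  rw [← Equiv.sum_comp (Equiv.mulLeft g₀), Finset.sum_boole, Nat.card_eq_fintype_card,
    Fintype.card_subtype]
  congr 2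
  ext g
  rw [Finset.mem_filter, Finset.mem_filter]
  refine and_congr_right fun _ => ?_
  rw [mem_stab]
  constructor
  · intro h x
    have h1 : g₀ (g (j x)) = j (q x) := h x
    rw [← hg₀ x] at h1
    exact g₀.injective h1
  · intro h x
    change g₀ (g (j x)) = j (q x)
    rw [h x, hg₀ x]

variable (E : WeierstrassCurve ℚ) [E.IsElliptic]
  (F : IntermediateField k L → ℂ → ℂ) (hF : ∀ K, Differentiable ℂ (F K))
  (hFL : ∀ K : IntermediateField k L, ∀ s : ℂ, 3 / 2 < s.re → F K s =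
    (@WeierstrassCurve.baseChange ℚ _ E K _ DivisionRing.toRatAlgebra).LSeries s)

include j hF hFL in
theorem exists_class_rel (t : ℝ) : ∃ a : (L ≃ₐ[k] L) → ℝ, (∀ x y, a (x⁻¹ * y * x) = a y) ∧
    ∀ H : Subgroup (L ≃ₐ[k] L), sm a H = Nat.card H *
      (ord (F (IntermediateField.fixedField H)) t : ℝ) := by
  classical
  have hfin : Fintype (Subgroup (L ≃ₐ[k] L)) := Fintype.ofFinite _
  obtain ⟨w, hw⟩ := exists_weight
    (fun (H : Subgroup (L ≃ₐ[k] L)) (σ : M ≃ₐ[ℚ] M) =>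
      (fix (IntermediateField.fixedField H) σ : ℝ))
    (fun H => (ord (F (IntermediateField.fixedField H)) t : ℝ)) (by
      intro c hc
      have h1 := edge_L1 E (fun H : Subgroup (L ≃ₐ[k] L) => IntermediateField.fixedField H) M
        (fun H => ⟨emb j (IntermediateField.fixedField H)⟩)
        (fun H => F (IntermediateField.fixedField H)) (fun H => hF _) (fun H => hFL _) c t
      have h2 : (∑ σ : M ≃ₐ[ℚ] M, |∑ H : Subgroup (L ≃ₐ[k] L),
          c H * (fix (IntermediateField.fixedField H) σ : ℝ)|) = 0 :=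
        Finset.sum_eq_zero fun σ _ => by rw [hc σ, abs_zero]
      rw [h2, zero_div, mul_zero, mul_zero] at h1
      exact abs_eq_zero.1 (le_antisymm h1 (abs_nonneg _)))
  let b : (M ≃ₐ[ℚ] M) → ℝ := fun g => ∑ τ : M ≃ₐ[ℚ] M, w (τ * g * τ⁻¹)
  have hb : ∀ x y, b (x⁻¹ * y * x) = b y := by
    intro x y
    change (∑ τ : M ≃ₐ[ℚ] M, w (τ * (x⁻¹ * y * x) * τ⁻¹)) = ∑ τ : M ≃ₐ[ℚ] M, w (τ * y * τ⁻¹)
    rw [← Equiv.sum_comp (Equiv.mulRight x) (fun τ => w (τ * (x⁻¹ * y * x) * τ⁻¹))]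
    refine Finset.sum_congr rfl fun τ _ => ?_
    congr 1
    change τ * x * (x⁻¹ * y * x) * (τ * x)⁻¹ = _
    group
  have hbsum : ∀ H : Subgroup (L ≃ₐ[k] L),
      (∑ g : M ≃ₐ[ℚ] M, if g ∈ stab (emb j (IntermediateField.fixedField H)) then b g else 0) =
      Nat.card (stab (emb j (IntermediateField.fixedField H))) *
        (ord (F (IntermediateField.fixedField H)) t : ℝ) := by
    intro H
    rw [hw H, Finset.mul_sum]
    set S := stab (emb j (IntermediateField.fixedField H)) with hS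
    have h1 : ∀ g : M ≃ₐ[ℚ] M, (if g ∈ S then b g else 0) =
        ∑ τ : M ≃ₐ[ℚ] M, if g ∈ S then w (τ * g * τ⁻¹) else 0 := by
      intro g
      split_ifs
      · rfl
      · rw [Finset.sum_const_zero]
    rw [Finset.sum_congr rfl fun g _ => h1 g, Finset.sum_comm]
    have h2 : ∀ τ : M ≃ₐ[ℚ] M, (∑ g : M ≃ₐ[ℚ] M, if g ∈ S then w (τ * g * τ⁻¹) else 0) =
        ∑ σ : M ≃ₐ[ℚ] M, if τ⁻¹ * σ * τ ∈ S then w σ else 0 := by
      intro τ
      rw [← Equiv.sum_comp (MulAut.conj τ).toEquiv (fun σ => if τ⁻¹ * σ * τ ∈ S then w σ else 0)]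
      refine Finset.sum_congr rfl fun g _ => ?_
      change _ = if τ⁻¹ * (τ * g * τ⁻¹) * τ ∈ S then w (τ * g * τ⁻¹) else 0
      have h3 : τ⁻¹ * (τ * g * τ⁻¹) * τ = g := by group
      rw [h3]
    rw [Finset.sum_congr rfl fun τ _ => h2 τ, Finset.sum_comm]
    refine Finset.sum_congr rfl fun σ _ => ?_
    have h3 : (Nat.card S : ℝ) * (w σ * fix (IntermediateField.fixedField H) σ) =
        w σ * ((Nat.card S : ℝ) * fix (IntermediateField.fixedField H) σ) := by ring
    rw [h3, hS, card_stab_mul_fix, Finset.mul_sum]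
    refine Finset.sum_congr rfl fun τ _ => ?_
    split_ifs
    · rw [mul_one]
    · rw [mul_zero]
  have hcard : ∀ H : Subgroup (L ≃ₐ[k] L),
      (Nat.card (stab (emb j (IntermediateField.fixedField H))) : ℝ) =
        Nat.card H * Nat.card (stab j) := by
    intro H
    have h1 := sum_stab j H fun _ => 1
    rw [Finset.sum_boole] at h1
    simp only [card_ext] at h1
    rw [Finset.sum_ite, Finset.sum_const_zero, add_zero, Finset.sum_const, nsmul_eq_mul] at h1
    rw [Nat.card_eq_fintype_card, Nat.card_eq_fintype_card (α := H), Fintype.card_subtype,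
      Fintype.card_subtype]
    exact h1
  have hS0 : (Nat.card (stab j) : ℝ) ≠ 0 := by
    have : 0 < Nat.card (stab j) := Nat.card_pos
    positivity
  refine ⟨fun q => (∑ g : M ≃ₐ[ℚ] M, if Lifts j q g then b g else 0) / Nat.card (stab j),
    fun x y => ?_, fun H => ?_⟩
  · change (∑ g : M ≃ₐ[ℚ] M, if Lifts j (x⁻¹ * y * x) g then b g else 0) / _ =
      (∑ g : M ≃ₐ[ℚ] M, if Lifts j y g then b g else 0) / _
    congr 1
    obtain ⟨h, hh⟩ := exists_ext' j x
    rw [← Equiv.sum_comp (MulAut.conj h⁻¹).toEquiv]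
    refine Finset.sum_congr rfl fun g _ => ?_
    change (if Lifts j (x⁻¹ * y * x) (h⁻¹ * g * h⁻¹⁻¹) then b (h⁻¹ * g * h⁻¹⁻¹) else 0) = _
    rw [inv_inv, hb]
    have h1 : Lifts j (x⁻¹ * y * x) (h⁻¹ * g * h) ↔ Lifts j y g := by
      have hx : ∀ z, h.symm (j (x z)) = j z := by
        intro z
        rw [← hh z]
        exact h.symm_apply_apply _
      have hx' : ∀ z, h.symm (j z) = j (x.symm z) := by
        intro z
        rw [← hx (x.symm z), x.apply_symm_apply]
      constructor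
      · intro h2 z
        have h3 : h.symm (g (h (j (x.symm z)))) = j (x.symm (y (x (x.symm z)))) := h2 (x.symm z)
        rw [hh, x.apply_symm_apply, ← hx'] at h3
        exact h.symm.injective h3
      · intro h2 z
        change h.symm (g (h (j z))) = j (x.symm (y (x z)))
        rw [hh, h2, hx']
    by_cases h2 : Lifts j y g
    · rw [if_pos h2, if_pos (h1.2 h2)]
    · rw [if_neg h2, if_neg fun h3 => h2 (h1.1 h3)]
  · unfold sm
    have h1 := sum_stab j H b
    rw [hbsum, hcard] at h1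
    have h2 : ∀ q : L ≃ₐ[k] L, (if q ∈ H then
        (∑ g : M ≃ₐ[ℚ] M, if Lifts j q g then b g else 0) / (Nat.card (stab j) : ℝ) else 0) =
        (if q ∈ H then ∑ g : M ≃ₐ[ℚ] M, (if Lifts j q g then b g else 0) else 0) /
          Nat.card (stab j) := by
      intro q
      split_ifs
      · rfl
      · rw [zero_div]
    rw [Finset.sum_congr rfl fun q _ => h2 q, ← Finset.sum_div, ← h1]
    field_simp

include hF in
/-- **Descent of the edge zeros, relative form.** -/
theorem descent_rel (hinv : ∀ σ : L ≃ₐ[k] L, ∃ u v : L ≃ₐ[k] L, u * u = 1 ∧ v * v = 1 ∧ σ = u * v)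
    (t : ℝ)
    (hFL : ∀ K : IntermediateField k L, ∀ s : ℂ, 3 / 2 < s.re → F K s =
      (@WeierstrassCurve.baseChange ℚ _ E K _ DivisionRing.toRatAlgebra).LSeries s)
    (hle : ∀ K, ord (F K) t ≤ 1) :
    ∃ K₀ : IntermediateField k L, finrank k K₀ ≤ 2 ∧
      ((∀ K, ord (F K) t = 1 ↔ K₀ ≤ K) ∨ (∀ K, ord (F K) t = 0 ↔ K₀ ≤ K)) := by
  obtain ⟨M, _, _, _, ⟨j⟩⟩ := exists_closure L
  obtain ⟨a, ha1, ha2⟩ := exists_class_rel j E F hF hFL t
  have hD : Data a fun H => ord (F (IntermediateField.fixedField H)) t :=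
    ⟨ha1, ha2, fun H => hle _, hinv⟩
  obtain ⟨N, hN, hcl⟩ := hD.classify
  have hle' : ∀ K : IntermediateField k L, K.fixingSubgroup ≤ N ↔
      IntermediateField.fixedField N ≤ K := by
    intro K
    nth_rewrite 1 [← IntermediateField.fixingSubgroup_fixedField N]
    constructor
    · intro h
      have h1 := IntermediateField.fixedField_le h
      rwa [IsGalois.fixedField_fixingSubgroup, IsGalois.fixedField_fixingSubgroup] at h1
    · intro h
      exact IntermediateField.fixingSubgroup_le h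
  refine ⟨IntermediateField.fixedField N, ?_, ?_⟩
  · have h1 := finrank_mul_finrank k (IntermediateField.fixedField N) L
    rw [IntermediateField.finrank_fixedField_eq_card, ← IsGalois.card_aut_eq_finrank k L,
      ← N.index_mul_card] at h1
    have h2 := Nat.eq_of_mul_eq_mul_right Nat.card_pos h1
    rw [h2]
    exact hN
  · rcases hcl with h | h
    · left
      intro K
      rw [← hle' K, ← h, IsGalois.fixedField_fixingSubgroup]
    · right
      intro K
      rw [← hle' K, ← h, IsGalois.fixedField_fixingSubgroup]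

end relative

end Pool.Agent.MPfb225e.Fam
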