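import Mathlib
import Pool.Agent.Lib.MP_fb225e_nt.Fam.Kernel
import Pool.Agent.Lib.MP_fb225e_nt.Fam.DisjointMS

/-!
MP_fb225e_nt: integral combinations of number fields, with the mean square of `a_p / √p` and the
Hasse bound combined.
-/

namespace Pool.Agent.MPfb225e.Fam

open scoped TensorProduct
open NumberField IsDedekindDomain Module Filter Topology Curve WeierstrassCurve

/-- `v²` for `|v| ≤ 2` and `4 |v| - 4` beyond. -/
noncomputable def hub (v : ℝ) : ℝ := v ^ 2 - (max (|v| - 2) 0) ^ 2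

theorem hub_le (v : ℝ) : hub v ≤ v ^ 2 := by
  unfold hub; nlinarith [sq_nonneg (max (|v| - 2) 0)]

theorem hub_le_sub {v : ℝ} (h : 3 ≤ |v|) : hub v ≤ v ^ 2 - 1 := by
  unfold hub
  rw [max_eq_left (by linarith)]
  nlinarith

theorem sq_ge_sub_hub {y v : ℝ} (hy : |y| ≤ 2) : -(2 * (y * v)) - hub v ≤ y ^ 2 := by
  unfold hub
  have h1 : (max (|v| - 2) 0) ^ 2 ≤ (y + v) ^ 2 := by
    rcases le_total (|v| - 2) 0 with h | h
    · rw [max_eq_right h, zero_pow two_ne_zero]; positivity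
    · rw [max_eq_left h, ← sq_abs (y + v)]
      have h2 : |v| - 2 ≤ |y + v| := by
        have h3 : |v| ≤ |y + v| + |y| := by
          have h4 := abs_sub (y + v) y
          rwa [add_sub_cancel_left] at h4
        linarith
      exact pow_le_pow_left₀ h h2 2
  nlinarith

section twists

variable (E : WeierstrassCurve ℚ) [E.IsElliptic] {ι : Type*} [Fintype ι]
  (K : ι → Type) [∀ i, Field (K i)] [∀ i, NumberField (K i)]
  (L : Type) [Field L] [NumberField L] [IsGalois ℚ L] (hK : ∀ i, Nonempty (K i →ₐ[ℚ] L))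
  (F : ι → ℂ → ℂ) (hF : ∀ i, Differentiable ℂ (F i))
  (hFL : ∀ i, ∀ s : ℂ, 3 / 2 < s.re → F i s = (E.baseChange (K i)).LSeries s)

theorem tendsto_yf {y : ℕ → ℝ} (hy : ∀ p, |y p| ≤ 2)
    (hlim : ∀ i, ∀ t : ℝ, Tendsto (fun ε : ℝ => S (fun p => y p * homCount (K i) p) t ε /
      Real.log (1 / ε)) (𝓝[>] 0) (𝓝 (-(ord (F i) t : ℝ)))) (c : ι → ℝ) (t : ℝ) :
    Tendsto (fun ε : ℝ => S (fun p => y p * ∑ i, c i * homCount (K i) p) t ε /
      Real.log (1 / ε)) (𝓝[>] 0) (𝓝 (-∑ i, c i * (ord (F i) t : ℝ))) := by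
  have h3 : Tendsto (fun ε : ℝ => ∑ i, c i * (S (fun p => y p * homCount (K i) p) t ε /
      Real.log (1 / ε))) (𝓝[>] 0) (𝓝 (∑ i, c i * -(ord (F i) t : ℝ))) :=
    tendsto_finsetSum _ fun i _ => (hlim i t).const_mul _
  have e : (∑ i, c i * -(ord (F i) t : ℝ)) = -∑ i, c i * (ord (F i) t : ℝ) := by
    rw [← Finset.sum_neg_distrib]
    exact Finset.sum_congr rfl fun i _ => by ring
  rw [e] at h3
  refine h3.congr' ?_
  filter_upwards [eventually_pos] with ε hε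
  have hs : ∀ i, Summable fun p : Nat.Primes => c i * ((y p * homCount (K i) p) *
      ((p : ℝ) ^ (-(1 + ε)) * Real.cos (t * Real.log p))) := fun i => by
    obtain ⟨C, hC⟩ := (hasMean_homCount (K i)).bdd
    exact (summable_TT (f := fun p => y p * homCount (K i) p) (C := 2 * C) (fun p => by
      rw [abs_mul]
      exact mul_le_mul (hy p) (hC p) (abs_nonneg _) (by norm_num)) (abs_cos' t) hε).mul_left _
  have e1 : S (fun p => y p * ∑ i, c i * homCount (K i) p) t ε =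
      ∑ i, c i * S (fun p => y p * homCount (K i) p) t ε := by
    unfold S
    rw [Finset.sum_congr rfl fun i _ => (tsum_mul_left (a := c i)).symm,
      ← Summable.tsum_finsetSum fun i _ => hs i]
    refine tsum_congr fun p => ?_
    change (y (p : ℕ) * ∑ i, c i * (homCount (K i) (p : ℕ) : ℝ)) *
      ((((p : ℕ) : ℝ)) ^ (-(1 + ε)) * Real.cos (t * Real.log ((p : ℕ) : ℝ))) =
      ∑ i, c i * ((y (p : ℕ) * homCount (K i) (p : ℕ)) *
      (((p : ℕ) : ℝ) ^ (-(1 + ε)) * Real.cos (t * Real.log ((p : ℕ) : ℝ))))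
    rw [Finset.mul_sum, Finset.sum_mul]
    exact Finset.sum_congr rfl fun i _ => by ring
  rw [e1, Finset.sum_div]
  exact Finset.sum_congr rfl fun i _ => by ring

theorem TT_one (f : ℕ → ℝ) (ε : ℝ) : TT f (fun _ => 1) ε = S f 0 ε := by
  unfold TT S
  refine tsum_congr fun p => ?_
  rw [zero_mul, Real.cos_zero]

include hK hF hFL in
/-- **The inequality at `3/2`**, which combines the mean square and the bound `|a_p| ≤ 2√p`. -/
theorem twist_zero (c : ι → ℝ) (s : ℝ) :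
    2 * s * (∑ i, c i * (ord (F i) 0 : ℝ)) ≤ meanSquare E +
      (∑ σ : L ≃ₐ[ℚ] L, hub (s * ∑ i, c i * fix (K i) σ)) / Nat.card (L ≃ₐ[ℚ] L) := by
  obtain ⟨y, hy, ⟨B, hB⟩, hlim⟩ := exists_y2.{0} E
  have h1 := tendsto_yf K F hy (fun i t => hlim (K i) (F i) (hF i) (hFL i) t) c 0
  have h2 : HasMean (fun p => hub (s * ∑ i, c i * homCount (K i) p))
      ((∑ σ : L ≃ₐ[ℚ] L, hub (s * ∑ i, c i * fix (K i) σ)) / Nat.card (L ≃ₐ[ℚ] L)) :=
    hasMean_fun (ι := ι) (K := K) hK (fun a => hub (s * ∑ i, c i * (a i : ℝ)))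
  have hf : HasMean (fun p => ∑ i, c i * (homCount (K i) p : ℝ))
      ((∑ σ : L ≃ₐ[ℚ] L, ∑ i, c i * (fix (K i) σ : ℝ)) / Nat.card (L ≃ₐ[ℚ] L)) :=
    hasMean_fun (ι := ι) (K := K) hK (fun a => ∑ i, c i * (a i : ℝ))
  obtain ⟨C, hC⟩ := h2.bdd
  obtain ⟨D, hD⟩ := hf.bdd
  have h3 := h2.lim 0
  rw [if_pos rfl] at h3
  have h4 := (h1.const_mul (-2 * s)).add (h3.const_mul (-1))
  have hb1 : ∀ p : Nat.Primes, |-2 * s * (y p * ∑ i, c i * (homCount (K i) p : ℝ))| ≤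
      2 * |s| * (2 * D) := by
    intro p
    rw [abs_mul, abs_mul, abs_mul, abs_neg, abs_two]
    refine mul_le_mul_of_nonneg_left ?_ (by positivity)
    exact mul_le_mul (hy p) (hD p) (abs_nonneg _) (by norm_num)
  have hb2 : ∀ p : Nat.Primes, |-1 * hub (s * ∑ i, c i * (homCount (K i) p : ℝ))| ≤ C := by
    intro p
    rw [abs_mul, abs_neg, abs_one, one_mul]
    exact hC p
  have h5 := le_meanSquare E hy hB
    (h := fun p => -2 * s * (y p * ∑ i, c i * (homCount (K i) p : ℝ)) +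
      -1 * hub (s * ∑ i, c i * (homCount (K i) p : ℝ)))
    (fun p => (abs_add_le _ _).trans (add_le_add (hb1 p) (hb2 p))) (fun p => by
      have h6 := sq_ge_sub_hub (v := s * ∑ i, c i * (homCount (K i) p : ℝ)) (hy p)
      refine le_trans (le_of_eq ?_) h6
      ring) (h4.congr' (by
      filter_upwards [eventually_pos] with ε hε
      rw [TT_add_left (f := fun p => -2 * s * (y p * ∑ i, c i * (homCount (K i) p : ℝ)))
        (g := fun p => -1 * hub (s * ∑ i, c i * (homCount (K i) p : ℝ))) hb1 hb2 hε,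
        TT_smul_left (fun p => y p * ∑ i, c i * (homCount (K i) p : ℝ)) (-2 * s) ε,
        TT_smul_left (fun p => hub (s * ∑ i, c i * (homCount (K i) p : ℝ))) (-1) ε, TT_one, TT_one]
      ring))
  linarith

include hK hF hFL in
/-- Off the real axis. -/
theorem twist_ne (c : ι → ℤ) (hc : ∑ σ : L ≃ₐ[ℚ] L, (∑ i, c i * (fix (K i) σ : ℤ)) ^ 2 ≤
      2 * Nat.card (L ≃ₐ[ℚ] L)) (hσ : ∃ σ : L ≃ₐ[ℚ] L, 3 ≤ |∑ i, c i * (fix (K i) σ : ℤ)|)
    {t : ℝ} (ht : t ≠ 0) (hne : ∑ i, c i * (ord (F i) t : ℤ) ≠ 0) :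
    1 + 1 / (70 * (Nat.card (L ≃ₐ[ℚ] L) : ℝ)) ≤ meanSquare E := by
  classical
  obtain ⟨y, hy, ⟨B, hB⟩, hlim⟩ := exists_y2.{0} E
  set X : ℤ := ∑ i, c i * (ord (F i) t : ℤ) with hX
  have hXr : (X : ℝ) = ∑ i, (c i : ℝ) * (ord (F i) t : ℝ) := by rw [hX]; push_cast; rfl
  have hX1 : (1 : ℝ) ≤ |(X : ℝ)| := by
    have := Int.one_le_abs hne
    exact_mod_cast this
  obtain ⟨s, hs2, hsX⟩ : ∃ s : ℝ, s ^ 2 = 1 ∧ s * X = |(X : ℝ)| := by
    rcases le_total 0 (X : ℝ) with h | h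
    · exact ⟨1, by norm_num, by rw [abs_of_nonneg h, one_mul]⟩
    · exact ⟨-1, by norm_num, by rw [abs_of_nonpos h]; ring⟩
  have hG : (0 : ℝ) < Nat.card (L ≃ₐ[ℚ] L) := by
    have : 0 < Nat.card (L ≃ₐ[ℚ] L) := Nat.card_pos
    exact_mod_cast this
  set N : ℝ := ((Nat.card (L ≃ₐ[ℚ] L) : ℕ) : ℝ) with hN
  -- the functions
  let f : ℕ → ℝ := fun p => ∑ i, (c i : ℝ) * homCount (K i) p
  let ind : ℝ → ℝ := fun v => if 3 ≤ |v| then 1 else 0
  let u : ℕ → ℝ := fun p => ind (f p)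
  have hm2 : HasMean (fun p => f p ^ 2)
      ((∑ σ : L ≃ₐ[ℚ] L, (∑ i, (c i : ℝ) * fix (K i) σ) ^ 2) / N) :=
    hasMean_fun (ι := ι) (K := K) hK (fun a => (∑ i, (c i : ℝ) * (a i : ℝ)) ^ 2)
  have hmu : HasMean u ((∑ σ : L ≃ₐ[ℚ] L, ind (∑ i, (c i : ℝ) * fix (K i) σ)) / N) :=
    hasMean_fun (ι := ι) (K := K) hK (fun a => ind (∑ i, (c i : ℝ) * (a i : ℝ)))
  have hmf : HasMean f ((∑ σ : L ≃ₐ[ℚ] L, ∑ i, (c i : ℝ) * (fix (K i) σ : ℝ)) / N) :=
    hasMean_fun (ι := ι) (K := K) hK (fun a => ∑ i, (c i : ℝ) * (a i : ℝ))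
  set q : ℝ := (∑ σ : L ≃ₐ[ℚ] L, (∑ i, (c i : ℝ) * fix (K i) σ) ^ 2) / N with hq
  set δ : ℝ := (∑ σ : L ≃ₐ[ℚ] L, ind (∑ i, (c i : ℝ) * fix (K i) σ)) / N with hδ
  have hq2 : q ≤ 2 := by
    rw [hq, div_le_iff₀ hG]
    have h1 : ((∑ σ : L ≃ₐ[ℚ] L, (∑ i, c i * (fix (K i) σ : ℤ)) ^ 2 : ℤ) : ℝ) ≤
        ((2 * Nat.card (L ≃ₐ[ℚ] L) : ℤ) : ℝ) := by exact_mod_cast hc
    push_cast at h1
    exact h1
  have hδ1 : 1 / N ≤ δ := by
    rw [hδ]
    refine div_le_div_of_nonneg_right ?_ hG.le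
    obtain ⟨σ, hσ⟩ := hσ
    have h1 : ind (∑ i, (c i : ℝ) * fix (K i) σ) = 1 := by
      refine if_pos ?_
      have h2 : ((3 : ℤ) : ℝ) ≤ ((|∑ i, c i * (fix (K i) σ : ℤ)| : ℤ) : ℝ) := by exact_mod_cast hσ
      push_cast at h2
      exact h2
    calc (1 : ℝ) = ind (∑ i, (c i : ℝ) * fix (K i) σ) := h1.symm
      _ ≤ _ := Finset.single_le_sum (f := fun σ : L ≃ₐ[ℚ] L => ind (∑ i, (c i : ℝ) * fix (K i) σ))
        (fun τ _ => by change (0 : ℝ) ≤ if _ then 1 else 0; split_ifs <;> norm_num)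
        (Finset.mem_univ σ)
  -- the five pieces
  let h1f : ℕ → ℝ := fun p => -2 * s * (y p * f p * Real.cos (t * Real.log p))
  let h2f : ℕ → ℝ := fun p => -1 / 2 * f p ^ 2
  let h3f : ℕ → ℝ := fun p => -1 / 2 * (f p ^ 2 * Real.cos ((2 * t) * Real.log p))
  let h4f : ℕ → ℝ := fun p => 1 / 70 * u p
  let h5f : ℕ → ℝ := fun p => 3 / 14 * (u p * Real.cos ((2 * t) * Real.log p))
  obtain ⟨D, hD⟩ := hmf.bdd
  obtain ⟨D2, hD2⟩ := hm2.bdd
  obtain ⟨D3, hD3⟩ := hmu.bdd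
  have cosle : ∀ x : ℝ, |Real.cos x| ≤ 1 := Real.abs_cos_le_one
  have hb1 : ∀ p : Nat.Primes, |h1f p| ≤ 2 * |s| * (2 * D * 1) := by
    intro p
    change |-2 * s * (y p * f p * Real.cos (t * Real.log p))| ≤ _
    rw [abs_mul, abs_mul, abs_mul, abs_mul, abs_neg, abs_two]
    refine mul_le_mul_of_nonneg_left ?_ (by positivity)
    have hD0 : 0 ≤ D := (abs_nonneg _).trans (hD p)
    exact mul_le_mul (mul_le_mul (hy p) (hD p) (abs_nonneg _) (by norm_num)) (cosle _)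
      (abs_nonneg _) (by positivity)
  have hb2 : ∀ p : Nat.Primes, |h2f p| ≤ 1 * D2 := by
    intro p
    change |-1 / 2 * f p ^ 2| ≤ _
    rw [abs_mul]
    exact mul_le_mul (by norm_num [abs_div]) (hD2 p) (abs_nonneg _) (by norm_num)
  have hb3 : ∀ p : Nat.Primes, |h3f p| ≤ 1 * (D2 * 1) := by
    intro p
    change |-1 / 2 * (f p ^ 2 * Real.cos ((2 * t) * Real.log p))| ≤ _
    rw [abs_mul, abs_mul]
    have hD0 : 0 ≤ D2 := (abs_nonneg _).trans (hD2 p)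
    exact mul_le_mul (by norm_num [abs_div]) (mul_le_mul (hD2 p) (cosle _) (abs_nonneg _) hD0)
      (by positivity) (by norm_num)
  have hb4 : ∀ p : Nat.Primes, |h4f p| ≤ 1 * D3 := by
    intro p
    change |1 / 70 * u p| ≤ _
    rw [abs_mul]
    exact mul_le_mul (by norm_num [abs_div]) (hD3 p) (abs_nonneg _) (by norm_num)
  have hb5 : ∀ p : Nat.Primes, |h5f p| ≤ 1 * (D3 * 1) := by
    intro p
    change |3 / 14 * (u p * Real.cos ((2 * t) * Real.log p))| ≤ _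
    rw [abs_mul, abs_mul]
    have hD0 : 0 ≤ D3 := (abs_nonneg _).trans (hD3 p)
    exact mul_le_mul (by norm_num [abs_div]) (mul_le_mul (hD3 p) (cosle _) (abs_nonneg _) hD0)
      (by positivity) (by norm_num)
  have hb12 := fun p : Nat.Primes => (abs_add_le (h1f p) (h2f p)).trans (add_le_add (hb1 p) (hb2 p))
  have hb123 := fun p : Nat.Primes =>
    (abs_add_le (h1f p + h2f p) (h3f p)).trans (add_le_add (hb12 p) (hb3 p))
  have hb1234 := fun p : Nat.Primes =>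
    (abs_add_le (h1f p + h2f p + h3f p) (h4f p)).trans (add_le_add (hb123 p) (hb4 p))
  have hb12345 := fun p : Nat.Primes =>
    (abs_add_le (h1f p + h2f p + h3f p + h4f p) (h5f p)).trans (add_le_add (hb1234 p) (hb5 p))
  have t2 : 2 * t ≠ 0 := by simpa using ht
  -- the limits
  have l1 : Tendsto (fun ε : ℝ => TT h1f (fun _ => 1) ε / Real.log (1 / ε)) (𝓝[>] 0)
      (𝓝 (-2 * s * -(X : ℝ))) := by
    have h := (tendsto_yf K F hy (fun i t => hlim (K i) (F i) (hF i) (hFL i) t)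
      (fun i => (c i : ℝ)) t).const_mul (-2 * s)
    rw [← hXr] at h
    refine h.congr fun ε => ?_
    rw [TT_smul_left (fun p => y p * f p * Real.cos (t * Real.log p)) (-2 * s) ε, mul_div_assoc]
    congr 2
    unfold TT S
    refine tsum_congr fun p => ?_
    change y p * f p * ((p : ℝ) ^ (-(1 + ε)) * Real.cos (t * Real.log p)) =
      y p * f p * Real.cos (t * Real.log p) * ((p : ℝ) ^ (-(1 + ε)) * 1)
    ring
  have l2 : Tendsto (fun ε : ℝ => TT h2f (fun _ => 1) ε / Real.log (1 / ε)) (𝓝[>] 0)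
      (𝓝 (-1 / 2 * q)) := by
    have h := (hm2.lim 0).const_mul (-1 / 2)
    rw [if_pos rfl] at h
    refine h.congr fun ε => ?_
    rw [TT_smul_left (fun p => f p ^ 2) (-1 / 2) ε, mul_div_assoc, TT_one]
  have l3 : Tendsto (fun ε : ℝ => TT h3f (fun _ => 1) ε / Real.log (1 / ε)) (𝓝[>] 0)
      (𝓝 (-1 / 2 * 0)) := by
    have h := (hm2.lim (2 * t)).const_mul (-1 / 2)
    rw [if_neg t2] at h
    refine h.congr fun ε => ?_
    rw [TT_smul_left (fun p => f p ^ 2 * Real.cos ((2 * t) * Real.log p)) (-1 / 2) ε, mul_div_assoc]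
    congr 2
    unfold TT S
    refine tsum_congr fun p => ?_
    change f p ^ 2 * ((p : ℝ) ^ (-(1 + ε)) * Real.cos (2 * t * Real.log p)) =
      f p ^ 2 * Real.cos (2 * t * Real.log p) * ((p : ℝ) ^ (-(1 + ε)) * 1)
    ring
  have l4 : Tendsto (fun ε : ℝ => TT h4f (fun _ => 1) ε / Real.log (1 / ε)) (𝓝[>] 0)
      (𝓝 (1 / 70 * δ)) := by
    have h := (hmu.lim 0).const_mul (1 / 70)
    rw [if_pos rfl] at h
    refine h.congr fun ε => ?_
    rw [TT_smul_left u (1 / 70) ε, mul_div_assoc, TT_one]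
  have l5 : Tendsto (fun ε : ℝ => TT h5f (fun _ => 1) ε / Real.log (1 / ε)) (𝓝[>] 0)
      (𝓝 (3 / 14 * 0)) := by
    have h := (hmu.lim (2 * t)).const_mul (3 / 14)
    rw [if_neg t2] at h
    refine h.congr fun ε => ?_
    rw [TT_smul_left (fun p => u p * Real.cos ((2 * t) * Real.log p)) (3 / 14) ε, mul_div_assoc]
    congr 2
    unfold TT S
    refine tsum_congr fun p => ?_
    change u p * ((p : ℝ) ^ (-(1 + ε)) * Real.cos (2 * t * Real.log p)) =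
      u p * Real.cos (2 * t * Real.log p) * ((p : ℝ) ^ (-(1 + ε)) * 1)
    ring
  have lsum := ((((l1.add l2).add l3).add l4).add l5)
  have key := le_meanSquare E hy hB (h := fun p => h1f p + h2f p + h3f p + h4f p + h5f p)
    hb12345 (fun p => by
      change -2 * s * (y p * f p * Real.cos (t * Real.log p)) + -1 / 2 * f p ^ 2 +
        -1 / 2 * (f p ^ 2 * Real.cos ((2 * t) * Real.log p)) + 1 / 70 * u p +
        3 / 14 * (u p * Real.cos ((2 * t) * Real.log p)) ≤ y p ^ 2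
      have e1 : Real.cos ((2 * t) * Real.log (p : ℝ)) =
          2 * Real.cos (t * Real.log (p : ℝ)) ^ 2 - 1 := by
        rw [mul_assoc, Real.cos_two_mul]
      rw [e1]
      set k := Real.cos (t * Real.log (p : ℝ)) with hk
      have hk1 : |k| ≤ 1 := cosle _
      have hyp := hy p
      set v := f p with hv
      have hu : u p = if 3 ≤ |v| then 1 else 0 := rfl
      rw [hu]
      by_cases h3 : 3 ≤ |v|
      · rw [if_pos h3]
        have h4 := sq_ge_sub_hub (y := y p) (v := s * v * k) hyp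
        have h5 : hub (s * v * k) ≤ v ^ 2 * k ^ 2 - (3 / 7 * k ^ 2 - 1 / 5) := by
          unfold hub
          have e2 : (s * v * k) ^ 2 = v ^ 2 * k ^ 2 := by
            calc (s * v * k) ^ 2 = s ^ 2 * (v ^ 2 * k ^ 2) := by ring
              _ = _ := by rw [hs2, one_mul]
          have e3 : |s * v * k| = |v| * |k| := by
            have : |s| = 1 := by
              rw [← Real.sqrt_sq_eq_abs, hs2, Real.sqrt_one]
            rw [abs_mul, abs_mul, this, one_mul]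
          rw [e2, e3]
          have h6 : 3 / 7 * k ^ 2 - 1 / 5 ≤ (max (|v| * |k| - 2) 0) ^ 2 := by
            have hkk : k ^ 2 = |k| ^ 2 := (sq_abs k).symm
            rw [hkk]
            have h7 : 3 * |k| - 2 ≤ max (|v| * |k| - 2) 0 := by
              refine le_trans ?_ (le_max_left _ _)
              have := mul_le_mul_of_nonneg_right h3 (abs_nonneg k)
              linarith
            rcases le_total (2 / 3) |k| with h8 | h8
            · have h9 : (3 * |k| - 2) ^ 2 ≤ (max (|v| * |k| - 2) 0) ^ 2 :=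
                pow_le_pow_left₀ (by linarith) h7 2
              refine le_trans ?_ h9
              nlinarith [sq_nonneg (|k| - 7 / 10)]
            · have h9 : 0 ≤ (max (|v| * |k| - 2) 0) ^ 2 := sq_nonneg _
              refine le_trans ?_ h9
              have h10 : |k| ^ 2 ≤ (2 / 3) ^ 2 := pow_le_pow_left₀ (abs_nonneg _) h8 2
              linarith
          linarith
        nlinarith
      · rw [if_neg h3]
        have h4 : 0 ≤ (y p + s * v * k) ^ 2 := sq_nonneg _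
        have e2 : (y p + s * v * k) ^ 2 = y p ^ 2 + 2 * s * (y p * v * k) + s ^ 2 * (v ^ 2 * k ^ 2) := by
          ring
        rw [e2, hs2] at h4
        nlinarith) (lsum.congr' (by
      filter_upwards [eventually_pos] with ε hε
      rw [TT_add_left (f := fun p => h1f p + h2f p + h3f p + h4f p) (g := h5f) hb1234 hb5 hε,
        TT_add_left (f := fun p => h1f p + h2f p + h3f p) (g := h4f) hb123 hb4 hε,
        TT_add_left (f := fun p => h1f p + h2f p) (g := h3f) hb12 hb3 hε,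
        TT_add_left (f := h1f) (g := h2f) hb1 hb2 hε]
      rw [← add_div, ← add_div, ← add_div, ← add_div]))
  have e5 : 1 / (70 * N) = 1 / 70 * (1 / N) := by field_simp
  rw [e5]
  have h6 : -2 * s * -(X : ℝ) = 2 * |(X : ℝ)| := by rw [← hsX]; ring
  rw [h6] at key
  linarith

include hK hF hFL in
theorem twist_at (c : ι → ℤ) (hc : ∑ σ : L ≃ₐ[ℚ] L, (∑ i, c i * (fix (K i) σ : ℤ)) ^ 2 ≤
      2 * Nat.card (L ≃ₐ[ℚ] L)) (hM : meanSquare E < 2) :
    |∑ i, c i * (ord (F i) 0 : ℤ)| ≤ 1 := by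
  have hG : (0 : ℝ) < Nat.card (L ≃ₐ[ℚ] L) := by
    have : 0 < Nat.card (L ≃ₐ[ℚ] L) := Nat.card_pos
    exact_mod_cast this
  set X : ℤ := ∑ i, c i * (ord (F i) 0 : ℤ) with hX
  have hXr : (X : ℝ) = ∑ i, (c i : ℝ) * (ord (F i) 0 : ℝ) := by rw [hX]; push_cast; rfl
  have h1 := twist_zero E K L hK F hF hFL (fun i => (c i : ℝ)) (X / 2)
  rw [← hXr] at h1
  have h2 : (∑ σ : L ≃ₐ[ℚ] L, hub ((X : ℝ) / 2 * ∑ i, (c i : ℝ) * fix (K i) σ)) /
      Nat.card (L ≃ₐ[ℚ] L) ≤ (X : ℝ) ^ 2 / 2 := by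
    rw [div_le_iff₀ hG]
    have h3 : (∑ σ : L ≃ₐ[ℚ] L, hub ((X : ℝ) / 2 * ∑ i, (c i : ℝ) * fix (K i) σ)) ≤
        ∑ σ : L ≃ₐ[ℚ] L, (X : ℝ) ^ 2 / 4 * (∑ i, (c i : ℝ) * fix (K i) σ) ^ 2 :=
      Finset.sum_le_sum fun σ _ => (hub_le _).trans (le_of_eq (by ring))
    refine h3.trans ?_
    rw [← Finset.mul_sum]
    have h4 : ((∑ σ : L ≃ₐ[ℚ] L, (∑ i, c i * (fix (K i) σ : ℤ)) ^ 2 : ℤ) : ℝ) ≤
        ((2 * Nat.card (L ≃ₐ[ℚ] L) : ℤ) : ℝ) := by exact_mod_cast hc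
    push_cast at h4
    have h5 := mul_le_mul_of_nonneg_left h4 (show 0 ≤ (X : ℝ) ^ 2 / 4 by positivity)
    linarith
  have h3 : (X : ℝ) ^ 2 < 4 := by nlinarith
  by_contra hcon
  push Not at hcon
  have h4 : (2 : ℝ) ≤ |(X : ℝ)| := by
    have : 2 ≤ |X| := by omega
    exact_mod_cast this
  have h5 : (2 : ℝ) ^ 2 ≤ |(X : ℝ)| ^ 2 := pow_le_pow_left₀ (by norm_num) h4 2
  rw [sq_abs] at h5
  linarith

include hK hF hFL in
theorem twist_at_one (c : ι → ℤ) (hc : ∑ σ : L ≃ₐ[ℚ] L, (∑ i, c i * (fix (K i) σ : ℤ)) ^ 2 ≤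
      Nat.card (L ≃ₐ[ℚ] L)) (hσ : ∃ σ : L ≃ₐ[ℚ] L, 3 ≤ |∑ i, c i * (fix (K i) σ : ℤ)|)
    (hne : ∑ i, c i * (ord (F i) 0 : ℤ) ≠ 0) :
    1 + 1 / (Nat.card (L ≃ₐ[ℚ] L) : ℝ) ≤ meanSquare E := by
  classical
  have hG : (0 : ℝ) < Nat.card (L ≃ₐ[ℚ] L) := by
    have : 0 < Nat.card (L ≃ₐ[ℚ] L) := Nat.card_pos
    exact_mod_cast this
  set X : ℤ := ∑ i, c i * (ord (F i) 0 : ℤ) with hX
  have hXr : (X : ℝ) = ∑ i, (c i : ℝ) * (ord (F i) 0 : ℝ) := by rw [hX]; push_cast; rfl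
  have hX1 : (1 : ℝ) ≤ |(X : ℝ)| := by
    have := Int.one_le_abs hne
    exact_mod_cast this
  obtain ⟨s, hs2, hsX⟩ : ∃ s : ℝ, s ^ 2 = 1 ∧ s * X = |(X : ℝ)| := by
    rcases le_total 0 (X : ℝ) with h | h
    · exact ⟨1, by norm_num, by rw [abs_of_nonneg h, one_mul]⟩
    · exact ⟨-1, by norm_num, by rw [abs_of_nonpos h]; ring⟩
  have h1 := twist_zero E K L hK F hF hFL (fun i => (c i : ℝ)) s
  rw [← hXr, mul_assoc, hsX] at h1
  obtain ⟨σ₀, hσ₀⟩ := hσ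
  have hσr : 3 ≤ |∑ i, (c i : ℝ) * (fix (K i) σ₀ : ℝ)| := by
    have h2 : ((3 : ℤ) : ℝ) ≤ ((|∑ i, c i * (fix (K i) σ₀ : ℤ)| : ℤ) : ℝ) := by exact_mod_cast hσ₀
    push_cast at h2
    exact h2
  have h2 : (∑ σ : L ≃ₐ[ℚ] L, hub (s * ∑ i, (c i : ℝ) * fix (K i) σ)) ≤
      ∑ σ : L ≃ₐ[ℚ] L, ((∑ i, (c i : ℝ) * fix (K i) σ) ^ 2 - if σ = σ₀ then 1 else 0) := by
    refine Finset.sum_le_sum fun σ _ => ?_
    have e2 : (s * ∑ i, (c i : ℝ) * (fix (K i) σ : ℝ)) ^ 2 =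
        (∑ i, (c i : ℝ) * (fix (K i) σ : ℝ)) ^ 2 := by rw [mul_pow, hs2, one_mul]
    split_ifs with h
    · subst h
      have h3 := hub_le_sub (v := s * ∑ i, (c i : ℝ) * (fix (K i) σ : ℝ)) (by
        have : |s| = 1 := by rw [← Real.sqrt_sq_eq_abs, hs2, Real.sqrt_one]
        rw [abs_mul, this, one_mul]
        exact hσr)
      rwa [e2] at h3
    · have h3 := hub_le (s * ∑ i, (c i : ℝ) * (fix (K i) σ : ℝ))
      rw [e2] at h3
      linarith
  rw [Finset.sum_sub_distrib, Finset.sum_ite_eq', if_pos (Finset.mem_univ _)] at h2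
  have h4 : ((∑ σ : L ≃ₐ[ℚ] L, (∑ i, c i * (fix (K i) σ : ℤ)) ^ 2 : ℤ) : ℝ) ≤
      ((Nat.card (L ≃ₐ[ℚ] L) : ℤ) : ℝ) := by exact_mod_cast hc
  push_cast at h4
  have h5 : (∑ σ : L ≃ₐ[ℚ] L, hub (s * ∑ i, (c i : ℝ) * fix (K i) σ)) /
      Nat.card (L ≃ₐ[ℚ] L) ≤ 1 - 1 / Nat.card (L ≃ₐ[ℚ] L) := by
    rw [div_le_iff₀ hG, sub_mul, one_mul, one_div, inv_mul_cancel₀ hG.ne']
    linarith
  linarith

end twists

end Pool.Agent.MPfb225e.Fam
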